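import Pool.Agent.W_764f34_h80.Defs

set_option autoImplicit false

/-! Elementary facts: the extremal function, C4-freeness, asymptotic comparisons with `scale`. -/

namespace Pool.Agent.W_764f34_h80

open N884ee30a Filter Topology

theorem card_le_extremal {n : ℕ} {A : Finset ℕ} (h : A ⊆ Finset.Icc 1 n)
    (hA : PairProductDistinct A) : A.card ≤ pairProductExtremal n := by
  classical
  unfold pairProductExtremal
  apply Nat.le_findGreatest
  · have := Finset.card_le_card h
    rw [Nat.card_Icc] at this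
    omega
  · exact ⟨A, h, hA, rfl⟩

theorem exists_extremal (n : ℕ) :
    ∃ A : Finset ℕ, A ⊆ Finset.Icc 1 n ∧ PairProductDistinct A ∧ A.card = pairProductExtremal n := by
  classical
  unfold pairProductExtremal
  refine Nat.findGreatest_spec (P := fun m => ∃ A : Finset ℕ, A ⊆ Finset.Icc 1 n ∧
    PairProductDistinct A ∧ A.card = m) (Nat.zero_le n) ?_
  refine ⟨∅, by simp, ?_, rfl⟩
  intro a b c d ha
  simp at ha

/-- Writing the elements of a part `A'` of `A` as products `u v` gives a bipartite graph without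
4-cycles, with as many edges as `A'` has elements. -/
theorem c4free_of_distinct {A A' : Finset ℕ} (hA : PairProductDistinct A) (hsub : A' ⊆ A)
    (f : ℕ → ℕ × ℕ) (hf : ∀ a ∈ A', (f a).1 * (f a).2 = a) :
    C4Free (A'.image f) ∧ (A'.image f).card = A'.card := by
  constructor
  · intro u u' v v' hu hv h1 h2 h3 h4
    obtain ⟨a, ha, fa⟩ := Finset.mem_image.1 h1
    obtain ⟨b, hb, fb⟩ := Finset.mem_image.1 h2
    obtain ⟨c, hc, fc⟩ := Finset.mem_image.1 h3
    obtain ⟨d, hd, fd⟩ := Finset.mem_image.1 h4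
    have ea := hf a ha
    have eb := hf b hb
    have ec := hf c hc
    have ed := hf d hd
    have nab : a ≠ b := by
      rintro rfl
      rw [fa] at fb
      exact hv (Prod.ext_iff.1 fb).2
    have nac : a ≠ c := by
      rintro rfl
      rw [fa] at fc
      exact hu (Prod.ext_iff.1 fc).1
    have nad : a ≠ d := by
      rintro rfl
      rw [fa] at fd
      exact hu (Prod.ext_iff.1 fd).1
    have nbc : b ≠ c := by
      rintro rfl
      rw [fb] at fc
      exact hu (Prod.ext_iff.1 fc).1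
    have nbd : b ≠ d := by
      rintro rfl
      rw [fb] at fd
      exact hu (Prod.ext_iff.1 fd).1
    have ncd : c ≠ d := by
      rintro rfl
      rw [fc] at fd
      exact hv (Prod.ext_iff.1 fd).2
    rw [fa] at ea
    rw [fb] at eb
    rw [fc] at ec
    rw [fd] at ed
    simp only at ea eb ec ed
    have hprod : a * d = b * c := by
      rw [← ea, ← eb, ← ec, ← ed]
      ring
    have hprod' : a * d = c * b := by rw [hprod, mul_comm]
    have hprod2 : d * a = b * c := by rw [← hprod, mul_comm]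
    have hprod2' : d * a = c * b := by rw [← hprod', mul_comm]
    rcases lt_or_gt_of_ne nad with h | h
    · rcases lt_or_gt_of_ne nbc with h' | h'
      · exact nab (hA (hsub ha) (hsub hd) (hsub hb) (hsub hc) h h' hprod).1
      · exact nac (hA (hsub ha) (hsub hd) (hsub hc) (hsub hb) h h' hprod').1
    · rcases lt_or_gt_of_ne nbc with h' | h'
      · exact nbd (hA (hsub hd) (hsub ha) (hsub hb) (hsub hc) h h' hprod2).1.symm
      · exact ncd (hA (hsub hd) (hsub ha) (hsub hc) (hsub hb) h h' hprod2').1.symm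
  · apply Finset.card_image_of_injOn
    intro a ha b hb hab
    have h1 := hf a ha
    rw [hab] at h1
    rw [← h1]
    exact hf b hb

theorem isLab_zero (K N : ℕ) : IsLab K N (fun _ _ => 0) where
  symm _ _ := rfl
  irrefl _ := rfl
  range _ _ h := absurd rfl h
  label _ _ := Nat.zero_le _
  size _ _ := by simp
  cycle _ _ _ _ _ _ h := absurd rfl h

theorem Basic_bdd (K N : ℕ) :
    BddAbove {e | ∃ m : ℕ → ℕ → ℕ, IsLab K N m ∧ edges K N m = e} := by
  refine ⟨((Finset.range (K * N + 1) ×ˢ Finset.range (K * N + 1))).card, ?_⟩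
  rintro e ⟨m, -, rfl⟩
  exact Finset.card_le_card (Finset.filter_subset _ _)

theorem edges_le_ex {K N : ℕ} {m : ℕ → ℕ → ℕ} (h : IsLab K N m) : edges K N m ≤ ex K N :=
  le_csSup (Basic_bdd K N) ⟨m, h, rfl⟩

theorem exists_ex (K N : ℕ) : ∃ m : ℕ → ℕ → ℕ, IsLab K N m ∧ edges K N m = ex K N :=
  Nat.sSup_mem (s := {e | ∃ m : ℕ → ℕ → ℕ, IsLab K N m ∧ edges K N m = e})
    ⟨_, fun _ _ => 0, isLab_zero K N, rfl⟩ (Basic_bdd K N)

theorem scale_pos {n : ℕ} (hn : 2 ≤ n) : 0 < scale n := by
  have h1 : (0 : ℝ) < n := by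
    have : 0 < n := by omega
    exact_mod_cast this
  have h2 : (1 : ℝ) < n := by
    have : 1 < n := by omega
    exact_mod_cast this
  unfold scale
  have h3 := Real.log_pos h2
  positivity

/-- `n^θ (log n)^k = o(scale n)` for `θ < 3/4`. -/
theorem small_pow {θ : ℝ} (hθ : θ < 3 / 4) (k : ℕ) {ε C : ℝ} (hε : 0 < ε) :
    ∀ᶠ n : ℕ in atTop, C * ((n : ℝ) ^ θ * Real.log n ^ k) ≤ ε * scale n := by
  have hs : 0 < 3 / 4 - θ := by linarith
  have hc : 0 < ε / (|C| + 1) := by positivity
  have h1 := (isLittleO_log_rpow_rpow_atTop ((k : ℝ) + 3 / 2) hs).bound hc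
  have h2 := tendsto_natCast_atTop_atTop (R := ℝ)
  filter_upwards [h2.eventually h1, eventually_ge_atTop 2] with n hn hn2
  have p1 : (0 : ℝ) < n := by
    have : 0 < n := by omega
    exact_mod_cast this
  have p2 : (1 : ℝ) < n := by
    have : 1 < n := by omega
    exact_mod_cast this
  have p3 := Real.log_pos p2
  rw [Real.norm_of_nonneg (by positivity), Real.norm_of_nonneg (by positivity)] at hn
  have e1 : Real.log n ^ k = Real.log n ^ ((k : ℝ) + 3 / 2) * Real.log n ^ (-(3 : ℝ) / 2) := by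
    rw [← Real.rpow_add p3, ← Real.rpow_natCast]
    congr 1
    ring
  have e2 : (n : ℝ) ^ ((3 : ℝ) / 4) = (n : ℝ) ^ θ * (n : ℝ) ^ (3 / 4 - θ) := by
    rw [← Real.rpow_add p1]
    congr 1
    ring
  have hl : 0 < Real.log n ^ (-(3 : ℝ) / 2) := by positivity
  have hnθ : 0 < (n : ℝ) ^ θ := by positivity
  calc C * ((n : ℝ) ^ θ * Real.log n ^ k)
      ≤ |C| * ((n : ℝ) ^ θ * Real.log n ^ k) :=
        mul_le_mul_of_nonneg_right (le_abs_self C) (by positivity)
    _ ≤ (|C| + 1) * ((n : ℝ) ^ θ * Real.log n ^ k) :=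
        mul_le_mul_of_nonneg_right (by linarith) (by positivity)
    _ = ((|C| + 1) * (n : ℝ) ^ θ * Real.log n ^ (-(3 : ℝ) / 2)) *
        Real.log n ^ ((k : ℝ) + 3 / 2) := by
        rw [e1]
        ring
    _ ≤ ((|C| + 1) * (n : ℝ) ^ θ * Real.log n ^ (-(3 : ℝ) / 2)) *
        (ε / (|C| + 1) * (n : ℝ) ^ (3 / 4 - θ)) := mul_le_mul_of_nonneg_left hn (by positivity)
    _ = ε * scale n := by
        unfold scale
        rw [e2]
        have : |C| + 1 ≠ 0 := by positivity
        field_simp

/-- `n^(3/4) (log n)^(-13/8) = o(scale n)`. -/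
theorem small_log {ε C : ℝ} (hε : 0 < ε) :
    ∀ᶠ n : ℕ in atTop,
      C * ((n : ℝ) ^ ((3 : ℝ) / 4) * Real.log n ^ (-(13 : ℝ) / 8)) ≤ ε * scale n := by
  have hc : 0 < ε / (|C| + 1) := by positivity
  have h0 : Tendsto (fun n : ℕ => Real.log n ^ (-(1 / 8 : ℝ))) atTop (𝓝 0) :=
    (tendsto_rpow_neg_atTop (by norm_num : (0 : ℝ) < 1 / 8)).comp
      (Real.tendsto_log_atTop.comp tendsto_natCast_atTop_atTop)
  filter_upwards [h0.eventually_lt_const hc, eventually_ge_atTop 2] with n hn hn2
  have p1 : (0 : ℝ) < n := by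
    have : 0 < n := by omega
    exact_mod_cast this
  have p2 : (1 : ℝ) < n := by
    have : 1 < n := by omega
    exact_mod_cast this
  have p3 := Real.log_pos p2
  have e1 : Real.log n ^ (-(13 : ℝ) / 8) =
      Real.log n ^ (-(1 / 8 : ℝ)) * Real.log n ^ (-(3 : ℝ) / 2) := by
    rw [← Real.rpow_add p3]
    congr 1
    ring
  have hsc : 0 < scale n := scale_pos hn2
  have e2 : (n : ℝ) ^ ((3 : ℝ) / 4) * Real.log n ^ (-(13 : ℝ) / 8) =
      Real.log n ^ (-(1 / 8 : ℝ)) * scale n := by
    unfold scale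
    rw [e1]
    ring
  rw [e2]
  have hl : 0 < Real.log n ^ (-(1 / 8 : ℝ)) := by positivity
  calc C * (Real.log n ^ (-(1 / 8 : ℝ)) * scale n)
      ≤ (|C| + 1) * (Real.log n ^ (-(1 / 8 : ℝ)) * scale n) :=
        mul_le_mul_of_nonneg_right (by linarith [le_abs_self C]) (by positivity)
    _ ≤ (|C| + 1) * (ε / (|C| + 1) * scale n) := by
        apply mul_le_mul_of_nonneg_left _ (by positivity)
        exact mul_le_mul_of_nonneg_right hn.le hsc.le
    _ = ε * scale n := by
        have : |C| + 1 ≠ 0 := by positivity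
        field_simp

/-- Chebyshev, from `Chebyshev.pi_le_log4_mul_div` or `Chebyshev.eventually_primeCounting_le`. -/
theorem cheb : ∃ C : ℝ, 1 ≤ C ∧ ∀ x : ℝ, 2 ≤ x →
    (Nat.primeCounting ⌊x⌋₊ : ℝ) ≤ C * x / Real.log x := by
  have h4 : 0 < Real.log 4 := Real.log_pos (by norm_num)
  refine ⟨2 * Real.log 4 + 2, by linarith, fun x hx => ?_⟩
  have hx0 : 0 < x := by linarith
  have h1 := Chebyshev.pi_le_log4_mul_div (x := x) (by linarith)
  refine h1.trans ?_
  have hlog : 0 < Real.log x := Real.log_pos (by linarith)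
  have hsq : Real.log √x = Real.log x / 2 := Real.log_sqrt hx0.le
  have hs0 : 0 < √x := Real.sqrt_pos.2 hx0
  have hs1 : Real.log x / 2 ≤ √x := by
    rw [← hsq]
    have := Real.log_le_sub_one_of_pos hs0
    linarith
  have hs2 : √x * √x = x := Real.mul_self_sqrt hx0.le
  rw [hsq]
  have e1 : Real.log 4 * x / (Real.log x / 2) = 2 * Real.log 4 * x / Real.log x := by
    field_simp
  have e2 : √x ≤ 2 * x / Real.log x := by
    rw [le_div_iff₀ hlog]
    nlinarith
  calc Real.log 4 * x / (Real.log x / 2) + √x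
      ≤ 2 * Real.log 4 * x / Real.log x + 2 * x / Real.log x := by
        rw [e1]
        linarith
    _ = (2 * Real.log 4 + 2) * x / Real.log x := by ring

end Pool.Agent.W_764f34_h80
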