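import Pool.Agent.W_764f34_h80.Defs

set_option autoImplicit false

/-! The classification of the numbers `a ≤ n` by their divisors. -/

namespace Pool.Agent.W_764f34_h80

open Filter Topology

/-- If all prime factors of `t` are at most `w`, `r < X` and `r t ≥ X`, then some divisor `t'` of `t`
has `X ≤ r t' ≤ X w` (take the least divisor `t'` with `r t' ≥ X`; it is not `1`, and dividing it by
a prime factor brings `r t'` below `X`). -/
theorem window {t r : ℕ} {X w : ℝ} (ht : 1 ≤ t) (hw : ∀ p : ℕ, p.Prime → p ∣ t → (p : ℝ) ≤ w)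
    (hr : (r : ℝ) < X) (hX : X ≤ (r : ℝ) * t) :
    ∃ t' : ℕ, t' ∣ t ∧ X ≤ (r : ℝ) * t' ∧ (r : ℝ) * t' ≤ X * w := by
  classical
  have hne : (t.divisors.filter fun d : ℕ => X ≤ (r : ℝ) * d).Nonempty :=
    ⟨t, by rw [Finset.mem_filter, Nat.mem_divisors]; exact ⟨⟨dvd_rfl, by omega⟩, hX⟩⟩
  obtain ⟨d, hd, hmin⟩ := Finset.exists_min_image _ (fun d : ℕ => d) hne
  rw [Finset.mem_filter, Nat.mem_divisors] at hd
  refine ⟨d, hd.1.1, hd.2, ?_⟩
  have hd1 : d ≠ 1 := by
    rintro rfl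
    have h := hd.2
    rw [Nat.cast_one, mul_one] at h
    linarith
  obtain ⟨p, hp, hpd⟩ := Nat.exists_prime_and_dvd hd1
  obtain ⟨e, rfl⟩ := hpd
  have he : (r : ℝ) * e < X := by
    by_contra hc
    push Not at hc
    have h1 := hmin e (by
      rw [Finset.mem_filter, Nat.mem_divisors]
      exact ⟨⟨(Dvd.intro_left p rfl).trans hd.1.1, hd.1.2⟩, hc⟩)
    have h2 : 0 < e := by
      rcases Nat.eq_zero_or_pos e with h | h
      · rw [h, mul_zero, zero_dvd_iff] at hd
        exact absurd hd.1.1 hd.1.2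
      · exact h
    have h3 := hp.two_le
    have h4 : 2 * e ≤ p * e := Nat.mul_le_mul_right e h3
    omega
  have hpw := hw p hp ((Dvd.intro e rfl).trans hd.1.1)
  have hX0 : 0 ≤ X := le_trans (Nat.cast_nonneg _) hr.le
  push_cast
  calc (r : ℝ) * (p * e) = p * (r * e) := by ring
    _ ≤ p * X := mul_le_mul_of_nonneg_left he.le (Nat.cast_nonneg _)
    _ ≤ w * X := mul_le_mul_of_nonneg_right hpw hX0
    _ = X * w := by ring

/-- Splitting a number into the part with small and the part with large prime factors. -/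
theorem Classify_split {a : ℕ} (ha : 1 ≤ a) (w : ℝ) : ∃ t b : ℕ, 1 ≤ t ∧ 1 ≤ b ∧ t * b = a ∧
    (∀ p : ℕ, p.Prime → p ∣ t → (p : ℝ) ≤ w) ∧ (∀ p : ℕ, p.Prime → p ∣ b → w < p) := by
  classical
  have ha0 : a ≠ 0 := by omega
  let m : Multiset ℕ := (a.primeFactorsList : Multiset ℕ)
  have hm : m.prod = a := by
    change (a.primeFactorsList : Multiset ℕ).prod = a
    rw [Multiset.prod_coe, Nat.prod_primeFactorsList ha0]
  have hmp : ∀ q ∈ m, q.Prime := fun q hq => Nat.prime_of_mem_primeFactorsList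
    (Multiset.mem_coe.1 hq)
  have hprod : (m.filter fun p : ℕ => (p : ℝ) ≤ w).prod *
      (m.filter fun p : ℕ => ¬ (p : ℝ) ≤ w).prod = a := by
    rw [← Multiset.prod_add, Multiset.filter_add_not, hm]
  have h1 : (m.filter fun p : ℕ => (p : ℝ) ≤ w).prod ≠ 0 := by
    intro h; rw [h, zero_mul] at hprod; exact ha0 hprod.symm
  have h2 : (m.filter fun p : ℕ => ¬ (p : ℝ) ≤ w).prod ≠ 0 := by
    intro h; rw [h, mul_zero] at hprod; exact ha0 hprod.symm
  refine ⟨_, _, Nat.one_le_iff_ne_zero.2 h1, Nat.one_le_iff_ne_zero.2 h2, hprod, ?_, ?_⟩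
  · intro p hp hpd
    obtain ⟨q, hq, hpq⟩ := hp.prime.exists_mem_multiset_dvd hpd
    rw [Multiset.mem_filter] at hq
    rw [(Nat.prime_dvd_prime_iff_eq hp (hmp q hq.1)).1 hpq]
    exact hq.2
  · intro p hp hpd
    obtain ⟨q, hq, hpq⟩ := hp.prime.exists_mem_multiset_dvd hpd
    rw [Multiset.mem_filter] at hq
    rw [(Nat.prime_dvd_prime_iff_eq hp (hmp q hq.1)).1 hpq]
    exact not_le.1 hq.2

theorem Classify_core {n a : ℕ} {w L : ℝ} (hL : 1 ≤ L) (hw0 : 0 < w) (hy : yy n = w * L ^ 2)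
    (hz : zz n = w ^ 2 * L ^ 4) (hLg : Lg n = L) (hn : (n : ℝ) = w ^ 4 * L ^ 8)
    (hwL : L ^ 8 < w) (ha : 1 ≤ a) (han : a ≤ n) :
    ClP n a ∨ ClI n a ∨ ClS n a ∨ ClM n a ∨ ClD n a ∨ ClE n a := by
  have hL0 : 0 < L := by linarith
  have hpow : ∀ k : ℕ, 1 ≤ L ^ k := fun k => one_le_pow₀ hL
  have hyL : yy n * Lg n = w * L ^ 3 := by rw [hy, hLg]; ring
  have hzL : zz n * Lg n = w ^ 2 * L ^ 5 := by rw [hz, hLg]; ring
  have hzL2 : zz n * Lg n ^ 2 = w ^ 2 * L ^ 6 := by rw [hz, hLg]; ring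
  have hzd : zz n / Lg n = w ^ 2 * L ^ 3 := by rw [hz, hLg]; field_simp
  have hyd : yy n / Lg n ^ 2 = w := by rw [hy, hLg]; field_simp
  by_cases hP : ClP n a
  · exact Or.inl hP
  by_cases hI : ClI n a
  · exact Or.inr (Or.inl hI)
  refine Or.inr (Or.inr ?_)
  have hP' : ∀ p : ℕ, p.Prime → p ∣ a → (p : ℝ) ≤ w ^ 2 * L ^ 5 := by
    intro p hp hpa
    by_contra hc
    push Not at hc
    exact hP ⟨p, hp, by rw [hzL]; exact hc, hpa⟩
  have hI' : ∀ d : ℕ, d ∣ a → w * L ^ 3 ≤ d → w ^ 2 * L ^ 3 < d := by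
    intro d hd h1
    by_contra hc
    push Not at hc
    exact hI ⟨d, hd, by rw [hyL]; exact h1, by rw [hzd]; exact hc⟩
  clear hP hI
  obtain ⟨t, b, ht1, hb1, htb, htp, hbp⟩ := Classify_split ha w
  have haR : (t : ℝ) * b ≤ w ^ 4 * L ^ 8 := by
    rw [← hn]
    exact_mod_cast htb ▸ han
  have htR : (1 : ℝ) ≤ t := by exact_mod_cast ht1
  have hXw : w * L ^ 3 * w = w ^ 2 * L ^ 3 := by ring
  have hlow : ∀ r : ℕ, r ∣ b → (r : ℝ) < w * L ^ 3 → (r : ℝ) * t < w * L ^ 3 := by
    intro r hr h1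
    by_contra hc
    push Not at hc
    obtain ⟨t', ht', h2, h3⟩ := window ht1 htp h1 hc
    rw [hXw] at h3
    have h4 := hI' (r * t') (by
      rw [← htb, mul_comm t b]
      exact mul_dvd_mul hr ht') (by push_cast; exact h2)
    push_cast at h4
    linarith
  have hw1 : 1 < w := (hpow 8).trans_lt hwL
  have hwL3 : 1 < w * L ^ 3 := by
    have := hpow 3
    nlinarith
  have ht : (t : ℝ) < w * L ^ 3 := by
    have := hlow 1 (one_dvd _) (by simpa using hwL3)
    simpa using this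
  have hba : b ∣ a := ⟨t, by rw [← htb, mul_comm]⟩
  have hbig : ∀ r : ℕ, r.Prime → r ∣ b → (r : ℝ) ≤ w ^ 2 * L ^ 5 := fun r h1 h2 =>
    hP' r h1 (h2.trans hba)
  have hmb : ∀ r : ℕ, r ∣ b → (r : ℝ) < w * L ^ 3 ∨ w ^ 2 * L ^ 3 < r := by
    intro r h2
    rcases lt_or_ge (r : ℝ) (w * L ^ 3) with h | h
    · exact Or.inl h
    · exact Or.inr (hI' r (h2.trans hba) h)
  have hmid : w * L ^ 3 ≤ w ^ 2 * L ^ 6 := by
    have h3 := hpow 3
    nlinarith [mul_pos hw0 (pow_pos hL0 3)]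
  have hLL : w ^ 2 * L ^ 5 ≤ w ^ 2 * L ^ 6 := by
    apply mul_le_mul_of_nonneg_left _ (by positivity)
    exact pow_le_pow_right₀ hL (by norm_num)
  have hlp := Nat.prod_primeFactorsList (by omega : b ≠ 0)
  have hmem : ∀ p ∈ b.primeFactorsList, p.Prime ∧ p ∣ b := fun p hp =>
    ⟨Nat.prime_of_mem_primeFactorsList hp, Nat.dvd_of_mem_primeFactorsList hp⟩
  have hsort := (Nat.primeFactorsList_sorted b).pairwise
  -- class S from a factorisation
  have hS : ∀ u v : ℕ, a = u * v → (u : ℝ) ≤ w ^ 2 * L ^ 6 → (v : ℝ) < w * L ^ 3 →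
      ClS n a ∨ ClM n a ∨ ClD n a ∨ ClE n a := by
    intro u v h1 h2 h3
    exact Or.inl ⟨u, v, h1, by rw [hzL2]; exact h2, by rw [hyL]; exact h3.le⟩
  rcases hl : b.primeFactorsList with _ | ⟨r, l1⟩
  · rw [hl, List.prod_nil] at hlp
    refine hS 1 a (by rw [one_mul]) ?_ ?_
    · rw [Nat.cast_one]; exact hwL3.le.trans hmid
    · rw [← htb, ← hlp, mul_one]; exact ht
  rw [hl] at hlp hmem hsort
  have hr := hmem r (by simp)
  have hrw := hbp r hr.1 hr.2
  rcases l1 with _ | ⟨s, l2⟩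
  · rw [List.prod_cons, List.prod_nil, mul_one] at hlp
    refine hS r t (by rw [← htb, ← hlp, mul_comm]) ((hbig r hr.1 hr.2).trans hLL) ht
  have hs := hmem s (by simp)
  have hsw := hbp s hs.1 hs.2
  have hrs : r ≤ s := (List.pairwise_cons.1 hsort).1 s (by simp)
  rcases l2 with _ | ⟨u, l3⟩
  · simp only [List.prod_cons, List.prod_nil, mul_one] at hlp
    rcases hmb r hr.2 with h | h
    · refine hS s (r * t) (by rw [← htb, ← hlp]; ring) ((hbig s hs.1 hs.2).trans hLL) ?_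
      push_cast
      exact hlow r hr.2 h
    · refine Or.inr (Or.inl ⟨t, s, r, by rw [← htb, ← hlp]; ring, hs.1, hr.1, hrs,
        by rw [hzd]; exact h, by rw [hzL]; exact hbig s hs.1 hs.2, ?_⟩)
      rw [hLg]
      by_contra hc
      push Not at hc
      have h2 : w ^ 2 * L ^ 3 < s := h.trans_le (by exact_mod_cast hrs)
      have h3 : (t : ℝ) * (r * s) ≤ w ^ 4 * L ^ 8 := by
        have : (b : ℝ) = r * s := by rw [← hlp]; push_cast; ring
        rw [← this]; exact haR
      have h4 : w ^ 2 * L ^ 3 * (w ^ 2 * L ^ 3) < (r : ℝ) * s :=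
        mul_lt_mul'' h h2 (by positivity) (by positivity)
      have h5 : L ^ 2 * (w ^ 2 * L ^ 3 * (w ^ 2 * L ^ 3)) < (t : ℝ) * (r * s) :=
        mul_lt_mul'' hc h4 (by positivity) (by positivity)
      have h6 : L ^ 2 * (w ^ 2 * L ^ 3 * (w ^ 2 * L ^ 3)) = w ^ 4 * L ^ 8 := by ring
      linarith
  have hu := hmem u (by simp)
  have huw := hbp u hu.1 hu.2
  have hsort2 := (List.pairwise_cons.1 hsort).2
  have hsu : s ≤ u := (List.pairwise_cons.1 hsort2).1 u (by simp)
  have hw4 : w ^ 4 * L ^ 8 < w ^ 5 := by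
    have : w ^ 5 = w ^ 4 * w := by ring
    rw [this]
    exact mul_lt_mul_of_pos_left hwL (by positivity)
  rcases l3 with _ | ⟨v, l4⟩
  · simp only [List.prod_cons, List.prod_nil, mul_one] at hlp
    have hbR : (b : ℝ) = r * (s * u) := by rw [← hlp]; push_cast; ring
    -- `s` is medium
    have hsm : (s : ℝ) < w * L ^ 3 := by
      rcases hmb s hs.2 with h | h
      · exact h
      exfalso
      have h2 : w ^ 2 * L ^ 3 < u := h.trans_le (by exact_mod_cast hsu)
      have h4 : w ^ 2 * L ^ 3 * (w ^ 2 * L ^ 3) < (s : ℝ) * u :=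
        mul_lt_mul'' h h2 (by positivity) (by positivity)
      have h5 : w * (w ^ 2 * L ^ 3 * (w ^ 2 * L ^ 3)) < (r : ℝ) * (s * u) :=
        mul_lt_mul'' hrw h4 hw0.le (by positivity)
      have h6 : w * (w ^ 2 * L ^ 3 * (w ^ 2 * L ^ 3)) = w ^ 5 * L ^ 6 := by ring
      have h7 : (b : ℝ) ≤ t * b := by
        have : (0 : ℝ) ≤ b := Nat.cast_nonneg _
        nlinarith
      have h8 : w ^ 5 ≤ w ^ 5 * L ^ 6 := le_mul_of_one_le_right (by positivity) (hpow 6)
      linarith
    have hrm : (r : ℝ) < w * L ^ 3 := lt_of_le_of_lt (by exact_mod_cast hrs) hsm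
    rcases hmb u hu.2 with h | h
    · refine hS (s * u) (r * t) (by rw [← htb, ← hlp]; ring) ?_ ?_
      · push_cast
        have h4 : (s : ℝ) * u ≤ w * L ^ 3 * (w * L ^ 3) :=
          mul_le_mul hsm.le h.le (Nat.cast_nonneg _) (by positivity)
        have h5 : w * L ^ 3 * (w * L ^ 3) = w ^ 2 * L ^ 6 := by ring
        linarith
      · push_cast
        exact hlow r hr.2 hrm
    · refine Or.inr (Or.inr (Or.inl ⟨u, t * r * s, by rw [← htb, ← hlp]; ring, hu.1,
        by rw [hzL]; exact hbig u hu.1 hu.2, t, r, s, rfl, ht1, ?_, hr.1, hs.1,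
        by rw [hyd]; exact hrw, by rw [hyL]; exact hrm.le, by rw [hyd]; exact hsw,
        by rw [hyL]; exact hsm.le⟩))
      rw [hLg]
      by_contra hc
      push Not at hc
      have h1 : w * w < (r : ℝ) * s := mul_lt_mul'' hrw hsw hw0.le hw0.le
      have h2 : w * w * (w ^ 2 * L ^ 3) < (r : ℝ) * s * u :=
        mul_lt_mul'' h1 h (by positivity) (by positivity)
      have h3 : L ^ 8 * (w * w * (w ^ 2 * L ^ 3)) < (t : ℝ) * (r * s * u) :=
        mul_lt_mul'' hc h2 (by positivity) (by positivity)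
      have h4 : (t : ℝ) * (r * s * u) ≤ w ^ 4 * L ^ 8 := by
        have : (r : ℝ) * s * u = b := by rw [hbR]; ring
        rw [this]; exact haR
      have h5 : L ^ 8 * (w * w * (w ^ 2 * L ^ 3)) = w ^ 4 * L ^ 8 * L ^ 3 := by ring
      have h6 : w ^ 4 * L ^ 8 ≤ w ^ 4 * L ^ 8 * L ^ 3 :=
        le_mul_of_one_le_right (by positivity) (hpow 3)
      linarith
  have hv := hmem v (by simp)
  have hvw := hbp v hv.1 hv.2
  have hsort3 := (List.pairwise_cons.1 hsort2).2
  have huv : u ≤ v := (List.pairwise_cons.1 hsort3).1 v (by simp)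
  have h2 : w * w < (r : ℝ) * s := mul_lt_mul'' hrw hsw hw0.le hw0.le
  rcases l4 with _ | ⟨x, l5⟩
  · simp only [List.prod_cons, List.prod_nil, mul_one] at hlp
    have hbR : (b : ℝ) = r * s * (u * v) := by rw [← hlp]; push_cast; ring
    have hvm : (v : ℝ) < w * L ^ 3 := by
      rcases hmb v hv.2 with h | h
      · exact h
      exfalso
      have h4 : w * (w ^ 2 * L ^ 3) < (u : ℝ) * v :=
        mul_lt_mul'' huw h hw0.le (by positivity)
      have h5 : w * w * (w * (w ^ 2 * L ^ 3)) < (r : ℝ) * s * (u * v) :=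
        mul_lt_mul'' h2 h4 (by positivity) (by positivity)
      have h6 : w * w * (w * (w ^ 2 * L ^ 3)) = w ^ 5 * L ^ 3 := by ring
      have h7 : (b : ℝ) ≤ t * b := by
        have : (0 : ℝ) ≤ b := Nat.cast_nonneg _
        nlinarith
      have h8 : w ^ 5 ≤ w ^ 5 * L ^ 3 := le_mul_of_one_le_right (by positivity) (hpow 3)
      linarith
    have hum : (u : ℝ) < w * L ^ 3 := lt_of_le_of_lt (by exact_mod_cast huv) hvm
    have hsm : (s : ℝ) < w * L ^ 3 := lt_of_le_of_lt (by exact_mod_cast hsu) hum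
    have hrm : (r : ℝ) < w * L ^ 3 := lt_of_le_of_lt (by exact_mod_cast hrs) hsm
    refine Or.inr (Or.inr (Or.inr ⟨1 * r * s, t * u * v, by rw [← htb, ← hlp]; ring,
      ⟨1, r, s, rfl, le_rfl, by rw [hLg, Nat.cast_one]; exact hpow 8, hr.1, hs.1,
        by rw [hyd]; exact hrw, by rw [hyL]; exact hrm.le, by rw [hyd]; exact hsw,
        by rw [hyL]; exact hsm.le⟩,
      ⟨t, u, v, rfl, ht1, ?_, hu.1, hv.1,
        by rw [hyd]; exact huw, by rw [hyL]; exact hum.le, by rw [hyd]; exact hvw,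
        by rw [hyL]; exact hvm.le⟩⟩))
    rw [hLg]
    by_contra hc
    push Not at hc
    have h3 : w * w < (u : ℝ) * v := mul_lt_mul'' huw hvw hw0.le hw0.le
    have h4 : w * w * (w * w) < (r : ℝ) * s * (u * v) :=
      mul_lt_mul'' h2 h3 (by positivity) (by positivity)
    have h5 : L ^ 8 * (w * w * (w * w)) < (t : ℝ) * b := by
      rw [hbR]
      exact mul_lt_mul'' hc h4 (by positivity) (by positivity)
    have h6 : L ^ 8 * (w * w * (w * w)) = w ^ 4 * L ^ 8 := by ring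
    linarith
  exfalso
  have hx := hmem x (by simp)
  have hxw := hbp x hx.1 hx.2
  simp only [List.prod_cons] at hlp
  have hpos : 1 ≤ l5.prod := by
    rcases Nat.eq_zero_or_pos l5.prod with h | h
    · rw [h] at hlp
      simp at hlp
      omega
    · exact h
  have hposR : (1 : ℝ) ≤ l5.prod := by exact_mod_cast hpos
  have hbR : (b : ℝ) = r * s * (u * v * x) * l5.prod := by rw [← hlp]; push_cast; ring
  have h3 : w * w * w < (u : ℝ) * v * x :=
    mul_lt_mul'' (mul_lt_mul'' huw hvw hw0.le hw0.le) hxw (by positivity) hw0.le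
  have h4 : w * w * (w * w * w) < (r : ℝ) * s * (u * v * x) :=
    mul_lt_mul'' h2 h3 (by positivity) (by positivity)
  have h5 : w * w * (w * w * w) = w ^ 5 := by ring
  have h6 : (r : ℝ) * s * (u * v * x) ≤ b := by
    rw [hbR]
    exact le_mul_of_one_le_right (by positivity) hposR
  have h7 : (b : ℝ) ≤ t * b := by
    have : (0 : ℝ) ≤ b := Nat.cast_nonneg _
    nlinarith
  linarith

theorem Classify_ev : ∀ᶠ n : ℕ in atTop, 1 ≤ Lg n ∧ Lg n ^ 10 < yy n := by
  have h1 : ∀ᶠ x : ℝ in atTop, ‖Real.log x ^ 40‖ ≤ (1 / (2 * 4 ^ 40)) * ‖id x‖ :=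
    (Real.isLittleO_pow_log_id_atTop (n := 40)).bound (by positivity)
  have h2 : Tendsto (fun n : ℕ => yy n) atTop atTop :=
    (tendsto_rpow_atTop (by norm_num : (0 : ℝ) < 1 / 4)).comp tendsto_natCast_atTop_atTop
  have h3 : ∀ᶠ n : ℕ in atTop, 3 ≤ n := eventually_ge_atTop 3
  filter_upwards [h2.eventually h1, h3] with n h hn
  have hn3 : (3 : ℝ) ≤ n := by exact_mod_cast hn
  have hlog : 1 ≤ Real.log n := by
    rw [Real.le_log_iff_exp_le (by linarith)]
    exact (Real.exp_one_lt_d9.le.trans (by norm_num)).trans hn3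
  have hy0 : 0 < yy n := Real.rpow_pos_of_pos (by linarith) _
  have hly : Real.log (yy n) = Real.log n / 4 := by
    unfold yy
    rw [Real.log_rpow (by linarith)]
    ring
  refine ⟨one_le_pow₀ hlog, ?_⟩
  rw [hly, id, Real.norm_of_nonneg hy0.le, Real.norm_of_nonneg (by positivity), div_pow] at h
  unfold Lg
  rw [← pow_mul, show 4 * 10 = 40 from rfl]
  have h5 : Real.log n ^ 40 ≤ yy n / 2 := by
    have h6 : Real.log n ^ 40 / 4 ^ 40 * 4 ^ 40 ≤ 1 / (2 * 4 ^ 40) * yy n * 4 ^ 40 :=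
      mul_le_mul_of_nonneg_right h (by positivity)
    have h7 : Real.log n ^ 40 / 4 ^ 40 * 4 ^ 40 = Real.log n ^ 40 := by
      field_simp
    have h8 : 1 / (2 * 4 ^ 40) * yy n * 4 ^ 40 = yy n / 2 := by
      field_simp
    rw [h7, h8] at h6
    exact h6
  linarith

/-- The classification. Proof. Let `w0 = y / L^2` and let `t` be the product of the prime factors
(with multiplicity) of `a` that are `≤ w0`, `b = a / t`. Assume `a` is not in class P or I. Then
every prime factor of `b` is medium (in `(w0, y L)`) or big (in `(z / L, z L]`). By `window` with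
`X = y L`, `X w0 = z / L`: `t < y L` (`r = 1`) and `r t < y L` for every medium `r`, otherwise class
I. As `w0^5 > n`, `b` has at most four prime factors; list them in increasing order
(`Nat.primeFactorsList b`):
`[]`: class S (`u = 1`); `[r]`: class S (`u = 1, v = t r` or `u = r, v = t`);
`[r, s]` with `r` medium: class S (`u = s`, `v = t r`); both big: class M, as
`t ≤ n L^2 / z^2 = L^2`;
`[r, s, u]` all medium: class S with `v = t r`, `u' = s u < y^2 L^2`; `u` big and `r, s` medium: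
class D with `t ≤ L^5`; two big is impossible since `y L^(-4) z^2 > n`;
`[r1, r2, r3, r4]` all medium: class E with `u = r1 r2`, `v = t r3 r4`, `t ≤ L^8`; one big is
impossible as `y^3 z L^(-7) > n`. -/
theorem classify : ∀ᶠ n : ℕ in atTop, ∀ a : ℕ, 1 ≤ a → a ≤ n →
    ClP n a ∨ ClI n a ∨ ClS n a ∨ ClM n a ∨ ClD n a ∨ ClE n a := by
  filter_upwards [Classify_ev, eventually_ge_atTop 1] with n h hn a ha han
  have hn1 : (1 : ℝ) ≤ n := by exact_mod_cast hn
  have hL0 : 0 < Lg n := by linarith [h.1]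
  have hy4 : yy n ^ 4 = n := by
    unfold yy
    rw [← Real.rpow_natCast, ← Real.rpow_mul (by linarith)]
    norm_num
  have hz : zz n = yy n ^ 2 := by
    unfold yy zz
    rw [← Real.rpow_natCast, ← Real.rpow_mul (by linarith)]
    norm_num
  have hy : yy n = yy n / Lg n ^ 2 * Lg n ^ 2 := by field_simp
  refine Classify_core (w := yy n / Lg n ^ 2) (L := Lg n) h.1 ?_ hy ?_ rfl ?_ ?_ ha han
  · have : 0 < yy n := lt_of_le_of_lt (by positivity) h.2
    positivity
  · rw [hz]; field_simp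
  · rw [← hy4]; field_simp
  · rw [lt_div_iff₀ (by positivity), ← pow_add]
    exact h.2

end Pool.Agent.W_764f34_h80
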