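import Pool.Agent.W_764f34_h80.Defs

set_option autoImplicit false

/-! The extremal function for sets of core numbers. -/

namespace Pool.Agent.W_764f34_h80

open N884ee30a

/-- The largest size of a set of core numbers up to `n` with distinct pairwise products. -/
noncomputable def coreMax (K n : ℕ) : ℕ :=
  sSup {s | ∃ A : Finset ℕ, A ⊆ Finset.Icc 1 n ∧ PairProductDistinct A ∧ (∀ a ∈ A, Core K n a) ∧
    A.card = s}

end Pool.Agent.W_764f34_h80
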