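import Pool.Agent.W_764f34_h80.Basic

set_option autoImplicit false

/-! Counting the numbers `t r s` of `M2`, and the numbers `m p` with `m` in a dyadic block. -/

namespace Pool.Agent.W_764f34_h80

open Filter Topology

theorem Count_aux_card_primes (N : ℕ) :
    ((Finset.range (N + 1)).filter Nat.Prime).card = Nat.primeCounting N := by
  rw [Nat.primeCounting, Nat.primeCounting', Nat.count_eq_card_filter_range]

/-- A finite set of primes at most `x`. -/
theorem Count_aux_card_le {S : Finset ℕ} {x : ℝ}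
    (hS : ∀ r ∈ S, r.Prime ∧ (r : ℝ) ≤ x) : S.card ≤ Nat.primeCounting ⌊x⌋₊ := by
  rw [← Count_aux_card_primes]
  apply Finset.card_le_card
  intro r hr
  obtain ⟨h1, h2⟩ := hS r hr
  rw [Finset.mem_filter, Finset.mem_range]
  exact ⟨Nat.lt_succ_of_le (Nat.le_floor h2), h1⟩

/-- `∑ 1/r` over primes in `(a, b]`. -/
theorem Count_aux_sum : ∃ C : ℝ, 1 ≤ C ∧ ∀ a b : ℝ, 2 ≤ a → a ≤ b → ∀ S : Finset ℕ,
    (∀ r ∈ S, r.Prime ∧ a < r ∧ (r : ℝ) ≤ b) →
    ∑ r ∈ S, (1 : ℝ) / r ≤ C * (Real.log (b / a) + 1) / Real.log a := by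
  obtain ⟨C, hC1, hC⟩ := cheb
  refine ⟨4 * C, by linarith, ?_⟩
  intro a b ha hab S hS
  have ha0 : 0 < a := by linarith
  have hb0 : 0 < b := by linarith
  have hla : 0 < Real.log a := Real.log_pos (by linarith)
  set j0 := Nat.log 2 ⌊a⌋₊ with hj0
  set j1 := Nat.log 2 ⌊b⌋₊ with hj1
  have hfa : ⌊a⌋₊ ≠ 0 := by
    have : 2 ≤ ⌊a⌋₊ := Nat.le_floor (by exact_mod_cast ha)
    omega
  have hfb : ⌊b⌋₊ ≠ 0 := by
    have : 2 ≤ ⌊b⌋₊ := Nat.le_floor (by push_cast; linarith)
    omega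
  have h0 : a < (2 : ℝ) ^ (j0 + 1) := by
    have h := Nat.lt_pow_succ_log_self (b := 2) (by norm_num) ⌊a⌋₊
    have h' := (Nat.floor_lt ha0.le).1 h
    push_cast at h'
    exact h'
  have h1 : (2 : ℝ) ^ j1 ≤ b := by
    have h := Nat.pow_log_le_self 2 hfb
    have h' := (Nat.le_floor_iff hb0.le).1 h
    push_cast at h'
    exact h'
  have hj01 : j0 ≤ j1 := Nat.log_mono_right (Nat.floor_le_floor hab)
  have hmaps : ∀ r ∈ S, Nat.log 2 r ∈ Finset.Icc j0 j1 := by
    intro r hr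
    obtain ⟨_, h2, h3⟩ := hS r hr
    rw [Finset.mem_Icc]
    constructor
    · apply Nat.log_mono_right
      have : (⌊a⌋₊ : ℝ) ≤ r := (Nat.floor_le ha0.le).trans h2.le
      exact_mod_cast this
    · apply Nat.log_mono_right
      exact Nat.le_floor h3
  rw [← Finset.sum_fiberwise_of_maps_to hmaps]
  have hblock : ∀ j ∈ Finset.Icc j0 j1,
      ∑ r ∈ S.filter (fun r => Nat.log 2 r = j), (1 : ℝ) / r ≤ 2 * C / Real.log a := by
    intro j hj
    rw [Finset.mem_Icc] at hj
    have hcard : ((S.filter (fun r => Nat.log 2 r = j)).card : ℝ)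
        ≤ C * 2 ^ (j + 1) / Real.log a := by
      have h2j : (2 : ℝ) ≤ 2 ^ (j + 1) := by
        have : (1 : ℝ) ≤ 2 ^ j := one_le_pow₀ (by norm_num)
        rw [pow_succ]; linarith
      have haj : a ≤ (2 : ℝ) ^ (j + 1) := by
        refine h0.le.trans ?_
        exact pow_le_pow_right₀ (by norm_num) (by omega)
      have hle : (S.filter (fun r => Nat.log 2 r = j)).card
          ≤ Nat.primeCounting ⌊(2 : ℝ) ^ (j + 1)⌋₊ := by
        apply Count_aux_card_le
        intro r hr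
        rw [Finset.mem_filter] at hr
        refine ⟨(hS r hr.1).1, ?_⟩
        have h := Nat.lt_pow_succ_log_self (b := 2) (by norm_num) r
        rw [hr.2] at h
        have : (r : ℝ) < 2 ^ (j + 1) := by exact_mod_cast h
        exact this.le
      have h3 := hC _ h2j
      have h4 : Real.log a ≤ Real.log ((2 : ℝ) ^ (j + 1)) := Real.log_le_log ha0 haj
      calc ((S.filter (fun r => Nat.log 2 r = j)).card : ℝ)
          ≤ (Nat.primeCounting ⌊(2 : ℝ) ^ (j + 1)⌋₊ : ℝ) := by exact_mod_cast hle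
        _ ≤ C * 2 ^ (j + 1) / Real.log (2 ^ (j + 1)) := h3
        _ ≤ C * 2 ^ (j + 1) / Real.log a := by
          apply div_le_div_of_nonneg_left _ hla h4
          positivity
    calc ∑ r ∈ S.filter (fun r => Nat.log 2 r = j), (1 : ℝ) / r
        ≤ ∑ r ∈ S.filter (fun r => Nat.log 2 r = j), (1 : ℝ) / 2 ^ j := by
          apply Finset.sum_le_sum
          intro r hr
          rw [Finset.mem_filter] at hr
          have hr0 : r ≠ 0 := (hS r hr.1).1.ne_zero
          have h := Nat.pow_log_le_self 2 hr0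
          rw [hr.2] at h
          have h' : (2 : ℝ) ^ j ≤ r := by exact_mod_cast h
          exact one_div_le_one_div_of_le (by positivity) h'
      _ = (S.filter (fun r => Nat.log 2 r = j)).card * (1 / 2 ^ j) := by
          rw [Finset.sum_const, nsmul_eq_mul]
      _ ≤ (C * 2 ^ (j + 1) / Real.log a) * (1 / 2 ^ j) := by
          apply mul_le_mul_of_nonneg_right hcard (by positivity)
      _ = 2 * C / Real.log a := by
          rw [pow_succ]; field_simp
  refine (Finset.sum_le_sum hblock).trans ?_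
  rw [Finset.sum_const, nsmul_eq_mul, Nat.card_Icc]
  have hlog2 : (1 : ℝ) / 2 ≤ Real.log 2 := by
    have := Real.log_two_gt_d9; linarith
  have hlb : Real.log (b / a) = Real.log b - Real.log a :=
    Real.log_div hb0.ne' ha0.ne'
  have hl0 : Real.log a < (j0 + 1) * Real.log 2 := by
    have := Real.log_lt_log ha0 h0
    rw [Real.log_pow] at this
    push_cast at this
    exact this
  have hl1 : j1 * Real.log 2 ≤ Real.log b := by
    have := Real.log_le_log (by positivity) h1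
    rw [Real.log_pow] at this
    exact this
  have hJ : ((j1 + 1 - j0 : ℕ) : ℝ) ≤ 2 * (Real.log (b / a) + 1) := by
    rw [Nat.cast_sub (by omega)]
    push_cast
    have hba : 0 ≤ Real.log (b / a) := Real.log_nonneg ((one_le_div ha0).2 hab)
    by_cases hneg : (j1 : ℝ) - j0 - 1 ≤ 0
    · linarith
    · push Not at hneg
      have h5 : ((j1 : ℝ) - j0 - 1) * Real.log 2 ≤ Real.log (b / a) := by
        rw [hlb]; linarith
      have h6 : ((j1 : ℝ) - j0 - 1) * (1 / 2) ≤ ((j1 : ℝ) - j0 - 1) * Real.log 2 :=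
        mul_le_mul_of_nonneg_left hlog2 hneg.le
      linarith
  calc ((j1 + 1 - j0 : ℕ) : ℝ) * (2 * C / Real.log a)
      ≤ (2 * (Real.log (b / a) + 1)) * (2 * C / Real.log a) := by
        apply mul_le_mul_of_nonneg_right hJ (by positivity)
    _ = 4 * C * (Real.log (b / a) + 1) / Real.log a := by ring

theorem Count_aux_log_tendsto :
    Tendsto (fun n : ℕ => Real.log (n : ℝ)) atTop atTop :=
  Real.tendsto_log_atTop.comp tendsto_natCast_atTop_atTop

theorem Count_aux_pow {θ : ℝ} (hθ : 0 < θ) (k : ℕ) :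
    ∀ᶠ n : ℕ in atTop, Real.log n ^ k ≤ (n : ℝ) ^ θ := by
  have h := isLittleO_log_rpow_rpow_atTop (k : ℝ) hθ
  have h2 := (h.comp_tendsto tendsto_natCast_atTop_atTop).bound (show (0 : ℝ) < 1 by norm_num)
  filter_upwards [h2, eventually_ge_atTop 1] with n hn hn1
  simp only [Function.comp, one_mul, Real.rpow_natCast] at hn
  rw [Real.norm_eq_abs, Real.norm_eq_abs, abs_of_nonneg (by positivity : (0 : ℝ) ≤ (n : ℝ) ^ θ)]
    at hn
  exact (le_abs_self _).trans hn

theorem Count_aux_loglog {ε : ℝ} (hε : 0 < ε) (A B : ℝ) :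
    ∀ᶠ n : ℕ in atTop, A + B * Real.log (Real.log n) ≤ Real.log n ^ ε := by
  have h1 : (fun x : ℝ => A + B * Real.log x) =o[atTop] fun x => x ^ ε := by
    apply Asymptotics.IsLittleO.add
    · apply Asymptotics.isLittleO_const_left.2
      right
      exact tendsto_norm_atTop_atTop.comp (tendsto_rpow_atTop hε)
    · exact (isLittleO_log_rpow_atTop hε).const_mul_left B
  have h2 := (h1.comp_tendsto Count_aux_log_tendsto).bound (show (0 : ℝ) < 1 by norm_num)
  filter_upwards [h2, Count_aux_log_tendsto.eventually_ge_atTop 0] with n hn hn1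
  simp only [Function.comp, one_mul] at hn
  rw [Real.norm_eq_abs, Real.norm_eq_abs,
    abs_of_nonneg (by positivity : (0 : ℝ) ≤ (Real.log n) ^ ε)] at hn
  exact (le_abs_self _).trans hn

/-- `∑ 1/r` over primes `r` in `(y / L^2, y L]` is small: at most `(log n)^(-15/16)`. Dyadic blocks:
`O(log log n)` of them, each contributes at most `2 C / log(y / L^2) ≤ 10 C / log n`. -/
theorem sum_inv_medium : ∀ᶠ n : ℕ in atTop, ∀ S : Finset ℕ,
    (∀ r ∈ S, r.Prime ∧ yy n / Lg n ^ 2 < r ∧ (r : ℝ) ≤ yy n * Lg n) →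
    ∑ r ∈ S, (1 : ℝ) / r ≤ Real.log n ^ (-(15 : ℝ) / 16) := by
  obtain ⟨C, hC1, hC⟩ := Count_aux_sum
  have hp := Count_aux_pow (show (0 : ℝ) < 1 / 8 by norm_num) 8
  have hll := Count_aux_loglog (show (0 : ℝ) < 1 / 16 by norm_num) (8 * C) (8 * C * 12)
  filter_upwards [hp, hll, Count_aux_log_tendsto.eventually_ge_atTop 1, eventually_ge_atTop 256]
    with n hp hll hlog hn S hS
  have hn0 : (0 : ℝ) < n := by
    have : (256 : ℝ) ≤ n := by exact_mod_cast hn
    linarith
  have hl0 : 0 < Real.log n := by linarith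
  have hL : 1 ≤ Lg n := by
    unfold Lg; exact one_le_pow₀ hlog
  have hL0 : 0 < Lg n := by linarith
  have hy : 0 < yy n := by unfold yy; positivity
  -- `n^(1/8) ≤ y / L^2`
  have ha : (n : ℝ) ^ ((1 : ℝ) / 8) ≤ yy n / Lg n ^ 2 := by
    rw [le_div_iff₀ (by positivity)]
    have e1 : Lg n ^ 2 = Real.log n ^ 8 := by unfold Lg; ring
    have e2 : yy n = (n : ℝ) ^ ((1 : ℝ) / 8) * (n : ℝ) ^ ((1 : ℝ) / 8) := by
      unfold yy
      rw [← Real.rpow_add hn0]; norm_num
    rw [e1, e2]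
    exact mul_le_mul_of_nonneg_left hp (by positivity)
  have h28 : (2 : ℝ) ≤ (n : ℝ) ^ ((1 : ℝ) / 8) := by
    have h256 : (256 : ℝ) ≤ n := by exact_mod_cast hn
    calc (2 : ℝ) = (256 : ℝ) ^ ((1 : ℝ) / 8) := by
          rw [show (256 : ℝ) = 2 ^ (8 : ℝ) by norm_num, ← Real.rpow_mul (by norm_num)]
          norm_num
      _ ≤ (n : ℝ) ^ ((1 : ℝ) / 8) := Real.rpow_le_rpow (by norm_num) h256 (by norm_num)
  have hab : yy n / Lg n ^ 2 ≤ yy n * Lg n := by
    rw [div_le_iff₀ (by positivity)]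
    have : 1 ≤ Lg n * Lg n ^ 2 := by
      have := one_le_pow₀ hL (n := 3)
      calc (1 : ℝ) ≤ Lg n ^ 3 := this
        _ = Lg n * Lg n ^ 2 := by ring
    nlinarith
  have h := hC _ _ (h28.trans ha) hab S hS
  have hlogba : Real.log (yy n * Lg n / (yy n / Lg n ^ 2)) = 12 * Real.log (Real.log n) := by
    have : yy n * Lg n / (yy n / Lg n ^ 2) = Real.log n ^ 12 := by
      have : Lg n ^ 3 = Real.log n ^ 12 := by unfold Lg; ring
      rw [← this]; field_simp
    rw [this, Real.log_pow]; norm_num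
  have hloga : Real.log n / 8 ≤ Real.log (yy n / Lg n ^ 2) := by
    have := Real.log_le_log (by positivity) ha
    rw [Real.log_rpow hn0] at this
    linarith
  rw [hlogba] at h
  have hll0 : 0 ≤ Real.log (Real.log n) := Real.log_nonneg hlog
  calc ∑ r ∈ S, (1 : ℝ) / r
      ≤ C * (12 * Real.log (Real.log n) + 1) / Real.log (yy n / Lg n ^ 2) := h
    _ ≤ C * (12 * Real.log (Real.log n) + 1) / (Real.log n / 8) := by
        apply div_le_div_of_nonneg_left _ (by positivity) hloga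
        positivity
    _ = (8 * C + 8 * C * 12 * Real.log (Real.log n)) / Real.log n := by
        field_simp; ring
    _ ≤ Real.log n ^ ((1 : ℝ) / 16) / Real.log n := by
        apply div_le_div_of_nonneg_right hll hl0.le
    _ = Real.log n ^ (-(15 : ℝ) / 16) := by
        nth_rewrite 2 [← Real.rpow_one (Real.log n)]
        rw [← Real.rpow_sub hl0]; norm_num

/-- The counting function of `M2`: `#{w ≤ x, w ∈ M2} ≤ x (log n)^(-7/4)` for `x ≥ n^(2/5)`.
Proof: at most `∑_{t ≤ L^8} ∑_r #{s prime, s ≤ x / (t r)} ≤ ∑ ∑ 10 C x / (t r log n)` since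
`x / (t r) ≥ n^(1/10)`; `∑_{t ≤ L^8} 1/t ≤ 1 + 32 log log n`, and `sum_inv_medium`. -/
theorem M2_count : ∀ᶠ n : ℕ in atTop, ∀ x : ℝ, (n : ℝ) ^ ((2 : ℝ) / 5) ≤ x → ∀ S : Finset ℕ,
    (∀ w ∈ S, M2 n w ∧ (w : ℝ) ≤ x) → (S.card : ℝ) ≤ x * Real.log n ^ (-(7 : ℝ) / 4) := by
  obtain ⟨C, hC1, hC⟩ := cheb
  have hp := Count_aux_pow (show (0 : ℝ) < 1 / 20 by norm_num) 36
  have hll := Count_aux_loglog (show (0 : ℝ) < 3 / 16 by norm_num) (10 * C) (10 * C * 32)
  filter_upwards [hp, hll, Count_aux_log_tendsto.eventually_ge_atTop 1,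
    eventually_ge_atTop 1024, sum_inv_medium] with n hp hll hlog hn hmed x hx S hS
  have h1024 : (1024 : ℝ) ≤ n := by exact_mod_cast hn
  have hn0 : (0 : ℝ) < n := by linarith
  have hl0 : 0 < Real.log n := by linarith
  have hL : 1 ≤ Lg n := by
    unfold Lg; exact one_le_pow₀ hlog
  have hL0 : 0 < Lg n := by linarith
  have hy : 0 < yy n := by unfold yy; positivity
  have hx0 : 0 < x := lt_of_lt_of_le (by positivity) hx
  set T : Finset ℕ := Finset.Icc 1 ⌊Lg n ^ 8⌋₊ with hT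
  set R : Finset ℕ := (Finset.range (⌊yy n * Lg n⌋₊ + 1)).filter
    (fun r => r.Prime ∧ yy n / Lg n ^ 2 < r) with hR
  have hRmem : ∀ r ∈ R, r.Prime ∧ yy n / Lg n ^ 2 < r ∧ (r : ℝ) ≤ yy n * Lg n := by
    intro r hr
    rw [hR, Finset.mem_filter, Finset.mem_range] at hr
    refine ⟨hr.2.1, hr.2.2, ?_⟩
    exact (Nat.le_floor_iff (by positivity)).1 (Nat.lt_succ_iff.1 hr.1)
  have hsub : S ⊆ (T ×ˢ R).biUnion (fun q =>
      ((Finset.range (⌊x / (q.1 * q.2)⌋₊ + 1)).filter Nat.Prime).image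
        (fun s => q.1 * q.2 * s)) := by
    intro w hw
    obtain ⟨⟨t, r, s, hw', ht1, ht2, hr, hs, hr1, hr2, hs1, hs2⟩, hwx⟩ := hS w hw
    rw [Finset.mem_biUnion]
    refine ⟨(t, r), ?_, ?_⟩
    · rw [Finset.mem_product]
      refine ⟨?_, ?_⟩
      · rw [hT, Finset.mem_Icc]
        exact ⟨ht1, Nat.le_floor ht2⟩
      · rw [hR, Finset.mem_filter, Finset.mem_range]
        exact ⟨Nat.lt_succ_of_le (Nat.le_floor hr2), hr, hr1⟩
    · rw [Finset.mem_image]
      refine ⟨s, ?_, hw'.symm⟩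
      rw [Finset.mem_filter, Finset.mem_range]
      refine ⟨Nat.lt_succ_of_le (Nat.le_floor ?_), hs⟩
      have ht0 : (0 : ℝ) < t := by exact_mod_cast ht1
      have hr0 : (0 : ℝ) < r := by exact_mod_cast hr.pos
      rw [le_div_iff₀ (by positivity)]
      rw [hw'] at hwx
      push_cast at hwx
      linarith
  have hcount : ∀ q ∈ T ×ˢ R,
      ((((Finset.range (⌊x / (q.1 * q.2)⌋₊ + 1)).filter Nat.Prime).image
        (fun s => q.1 * q.2 * s)).card : ℝ) ≤ 10 * C * x / Real.log n * (1 / q.1 * (1 / q.2)) := by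
    intro q hq
    rw [Finset.mem_product] at hq
    obtain ⟨hq1, hq2⟩ := hq
    rw [hT, Finset.mem_Icc] at hq1
    obtain ⟨h3, h4, h5⟩ := hRmem _ hq2
    have ht0 : (0 : ℝ) < q.1 := by exact_mod_cast hq1.1
    have ht : (q.1 : ℝ) ≤ Lg n ^ 8 := (Nat.le_floor_iff (by positivity)).1 hq1.2
    have hr0 : (0 : ℝ) < q.2 := by exact_mod_cast h3.pos
    have hge : (n : ℝ) ^ ((1 : ℝ) / 10) ≤ x / (q.1 * q.2) := by
      rw [le_div_iff₀ (by positivity)]
      have e1 : Lg n ^ 9 = Real.log n ^ 36 := by unfold Lg; ring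
      have e3 : (q.1 : ℝ) * q.2 ≤ yy n * Real.log n ^ 36 := by
        rw [← e1]
        calc (q.1 : ℝ) * q.2 ≤ Lg n ^ 8 * (yy n * Lg n) :=
              mul_le_mul ht h5 hr0.le (by positivity)
          _ = yy n * Lg n ^ 9 := by ring
      calc (n : ℝ) ^ ((1 : ℝ) / 10) * (q.1 * q.2)
          ≤ (n : ℝ) ^ ((1 : ℝ) / 10) * (yy n * Real.log n ^ 36) :=
            mul_le_mul_of_nonneg_left e3 (by positivity)
        _ ≤ (n : ℝ) ^ ((1 : ℝ) / 10) * (yy n * (n : ℝ) ^ ((1 : ℝ) / 20)) := by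
            apply mul_le_mul_of_nonneg_left _ (by positivity)
            exact mul_le_mul_of_nonneg_left hp hy.le
        _ = (n : ℝ) ^ ((2 : ℝ) / 5) := by
            unfold yy
            rw [← Real.rpow_add hn0, ← Real.rpow_add hn0]; norm_num
        _ ≤ x := hx
    have h2 : (2 : ℝ) ≤ (n : ℝ) ^ ((1 : ℝ) / 10) := by
      calc (2 : ℝ) = (1024 : ℝ) ^ ((1 : ℝ) / 10) := by
            rw [show (1024 : ℝ) = 2 ^ (10 : ℝ) by norm_num, ← Real.rpow_mul (by norm_num)]
            norm_num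
        _ ≤ (n : ℝ) ^ ((1 : ℝ) / 10) := Real.rpow_le_rpow (by norm_num) h1024 (by norm_num)
    have hlg : Real.log n / 10 ≤ Real.log (x / (q.1 * q.2)) := by
      have := Real.log_le_log (by positivity) hge
      rw [Real.log_rpow hn0] at this
      linarith
    have h6 := hC _ (h2.trans hge)
    calc ((((Finset.range (⌊x / (q.1 * q.2)⌋₊ + 1)).filter Nat.Prime).image
        (fun s => q.1 * q.2 * s)).card : ℝ)
        ≤ (((Finset.range (⌊x / (q.1 * q.2)⌋₊ + 1)).filter Nat.Prime).card : ℝ) := by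
          exact_mod_cast Finset.card_image_le
      _ = (Nat.primeCounting ⌊x / (q.1 * q.2)⌋₊ : ℝ) := by rw [Count_aux_card_primes]
      _ ≤ C * (x / (q.1 * q.2)) / Real.log (x / (q.1 * q.2)) := h6
      _ ≤ C * (x / (q.1 * q.2)) / (Real.log n / 10) := by
          apply div_le_div_of_nonneg_left _ (by positivity) hlg
          positivity
      _ = 10 * C * x / Real.log n * (1 / q.1 * (1 / q.2)) := by
          field_simp
  have hsumT : ∑ t ∈ T, (1 : ℝ) / t ≤ 1 + 32 * Real.log (Real.log n) := by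
    have h7 := harmonic_floor_le_one_add_log (Lg n ^ 8) (one_le_pow₀ hL)
    have h8 : Real.log (Lg n ^ 8) = 32 * Real.log (Real.log n) := by
      have : Lg n ^ 8 = Real.log n ^ 32 := by unfold Lg; ring
      rw [this, Real.log_pow]; norm_num
    rw [h8] at h7
    refine le_trans (le_of_eq ?_) h7
    rw [harmonic_eq_sum_Icc, hT]
    push_cast
    simp [one_div]
  have hsumR : ∑ r ∈ R, (1 : ℝ) / r ≤ Real.log n ^ (-(15 : ℝ) / 16) := hmed R hRmem
  have hsumR0 : 0 ≤ ∑ r ∈ R, (1 : ℝ) / r := Finset.sum_nonneg (fun r _ => by positivity)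
  have hll0 : 0 ≤ Real.log (Real.log n) := Real.log_nonneg hlog
  calc (S.card : ℝ)
      ≤ (((T ×ˢ R).biUnion (fun q =>
          ((Finset.range (⌊x / (q.1 * q.2)⌋₊ + 1)).filter Nat.Prime).image
          (fun s => q.1 * q.2 * s))).card : ℝ) := by
        exact_mod_cast Finset.card_le_card hsub
    _ ≤ ∑ q ∈ T ×ˢ R, ((((Finset.range (⌊x / (q.1 * q.2)⌋₊ + 1)).filter Nat.Prime).image
          (fun s => q.1 * q.2 * s)).card : ℝ) := by
        exact_mod_cast Finset.card_biUnion_le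
    _ ≤ ∑ q ∈ T ×ˢ R, 10 * C * x / Real.log n * (1 / q.1 * (1 / q.2)) :=
        Finset.sum_le_sum hcount
    _ = 10 * C * x / Real.log n * ((∑ t ∈ T, (1 : ℝ) / t) * ∑ r ∈ R, (1 : ℝ) / r) := by
        rw [← Finset.mul_sum, Finset.sum_product, Finset.sum_mul_sum]
    _ ≤ 10 * C * x / Real.log n *
          ((1 + 32 * Real.log (Real.log n)) * Real.log n ^ (-(15 : ℝ) / 16)) := by
        apply mul_le_mul_of_nonneg_left _ (by positivity)
        exact mul_le_mul hsumT hsumR hsumR0 (by positivity)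
    _ = x * ((10 * C + 10 * C * 32 * Real.log (Real.log n)) / Real.log n *
          Real.log n ^ (-(15 : ℝ) / 16)) := by ring
    _ ≤ x * (Real.log n ^ ((3 : ℝ) / 16) / Real.log n * Real.log n ^ (-(15 : ℝ) / 16)) := by
        apply mul_le_mul_of_nonneg_left _ hx0.le
        apply mul_le_mul_of_nonneg_right _ (by positivity)
        exact div_le_div_of_nonneg_right hll hl0.le
    _ = x * Real.log n ^ (-(7 : ℝ) / 4) := by
        congr 1
        nth_rewrite 2 [← Real.rpow_one (Real.log n)]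
        rw [← Real.rpow_sub hl0, ← Real.rpow_add hl0]; norm_num

/-- Numbers `m p ≤ x` with `m ∈ [2^j, 2^(j+1))`, `m ≤ L^2`, `p` prime: at most `C x / log n` for
`x ≥ √n`, uniformly in `j`. -/
theorem block_count : ∃ C : ℝ, 1 ≤ C ∧ ∀ᶠ n : ℕ in atTop, ∀ x : ℝ, zz n ≤ x → ∀ j : ℕ,
    ∀ S : Finset ℕ, (∀ u ∈ S, (u : ℝ) ≤ x ∧ ∃ m p : ℕ, u = m * p ∧ p.Prime ∧ 2 ^ j ≤ m ∧
      m < 2 ^ (j + 1) ∧ (m : ℝ) ≤ Lg n ^ 2) → (S.card : ℝ) ≤ C * x / Real.log n := by
  obtain ⟨C, hC1, hC⟩ := cheb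
  refine ⟨4 * C, by linarith, ?_⟩
  have hp := Count_aux_pow (show (0 : ℝ) < 1 / 4 by norm_num) 8
  filter_upwards [hp, Count_aux_log_tendsto.eventually_ge_atTop 1,
    eventually_ge_atTop 1024] with n hp hlog hn x hx j S hS
  have h1024 : (1024 : ℝ) ≤ n := by exact_mod_cast hn
  have hn0 : (0 : ℝ) < n := by linarith
  have hl0 : 0 < Real.log n := by linarith
  have hz : 0 < zz n := by unfold zz; positivity
  have hx0 : 0 < x := lt_of_lt_of_le hz hx
  have hL0 : 0 < Lg n := by unfold Lg; positivity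
  set T : Finset ℕ := (Finset.Ico (2 ^ j) (2 ^ (j + 1))).filter
    (fun m => (m : ℝ) ≤ Lg n ^ 2) with hT
  have hsub : S ⊆ T.biUnion (fun m =>
      ((Finset.range (⌊x / m⌋₊ + 1)).filter Nat.Prime).image (fun p => m * p)) := by
    intro u hu
    obtain ⟨hux, m, p, hump, hpp, hm1, hm2, hm3⟩ := hS u hu
    have hm0 : (0 : ℝ) < m := by
      have : 0 < m := lt_of_lt_of_le (by positivity) hm1
      exact_mod_cast this
    rw [Finset.mem_biUnion]
    refine ⟨m, ?_, ?_⟩
    · rw [hT, Finset.mem_filter, Finset.mem_Ico]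
      exact ⟨⟨hm1, hm2⟩, hm3⟩
    · rw [Finset.mem_image]
      refine ⟨p, ?_, hump.symm⟩
      rw [Finset.mem_filter, Finset.mem_range]
      refine ⟨Nat.lt_succ_of_le (Nat.le_floor ?_), hpp⟩
      rw [le_div_iff₀ hm0]
      rw [hump] at hux
      push_cast at hux
      linarith
  have hcount : ∀ m ∈ T,
      ((((Finset.range (⌊x / m⌋₊ + 1)).filter Nat.Prime).image (fun p => m * p)).card : ℝ)
        ≤ 4 * C * x / Real.log n * (1 / 2 ^ j) := by
    intro m hm
    rw [hT, Finset.mem_filter, Finset.mem_Ico] at hm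
    obtain ⟨⟨hm1, hm2⟩, hm3⟩ := hm
    have hm1' : (2 : ℝ) ^ j ≤ m := by exact_mod_cast hm1
    have hm0 : (0 : ℝ) < m := lt_of_lt_of_le (by positivity) hm1'
    have hge : (n : ℝ) ^ ((1 : ℝ) / 4) ≤ x / m := by
      rw [le_div_iff₀ hm0]
      have e1 : Lg n ^ 2 = Real.log n ^ 8 := by unfold Lg; ring
      calc (n : ℝ) ^ ((1 : ℝ) / 4) * m ≤ (n : ℝ) ^ ((1 : ℝ) / 4) * (n : ℝ) ^ ((1 : ℝ) / 4) := by
            apply mul_le_mul_of_nonneg_left _ (by positivity)
            exact hm3.trans (e1.le.trans hp)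
        _ = zz n := by
            unfold zz
            rw [← Real.rpow_add hn0]; norm_num
        _ ≤ x := hx
    have h2 : (2 : ℝ) ≤ (n : ℝ) ^ ((1 : ℝ) / 4) := by
      calc (2 : ℝ) = (16 : ℝ) ^ ((1 : ℝ) / 4) := by
            rw [show (16 : ℝ) = 2 ^ (4 : ℝ) by norm_num, ← Real.rpow_mul (by norm_num)]
            norm_num
        _ ≤ (n : ℝ) ^ ((1 : ℝ) / 4) :=
            Real.rpow_le_rpow (by norm_num) (by linarith) (by norm_num)
    have hlg : Real.log n / 4 ≤ Real.log (x / m) := by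
      have := Real.log_le_log (by positivity) hge
      rw [Real.log_rpow hn0] at this
      linarith
    have h6 := hC _ (h2.trans hge)
    calc ((((Finset.range (⌊x / m⌋₊ + 1)).filter Nat.Prime).image (fun p => m * p)).card : ℝ)
        ≤ (((Finset.range (⌊x / m⌋₊ + 1)).filter Nat.Prime).card : ℝ) := by
          exact_mod_cast Finset.card_image_le
      _ = (Nat.primeCounting ⌊x / m⌋₊ : ℝ) := by rw [Count_aux_card_primes]
      _ ≤ C * (x / m) / Real.log (x / m) := h6
      _ ≤ C * (x / m) / (Real.log n / 4) := by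
          apply div_le_div_of_nonneg_left _ (by positivity) hlg
          positivity
      _ = 4 * C * x / Real.log n * (1 / m) := by
          field_simp
      _ ≤ 4 * C * x / Real.log n * (1 / 2 ^ j) := by
          apply mul_le_mul_of_nonneg_left _ (by positivity)
          exact one_div_le_one_div_of_le (by positivity) hm1'
  have hTcard : (T.card : ℝ) ≤ 2 ^ j := by
    have h8 : T.card ≤ 2 ^ j := by
      refine (Finset.card_filter_le _ _).trans ?_
      rw [Nat.card_Ico, pow_succ]; omega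
    exact_mod_cast h8
  calc (S.card : ℝ)
      ≤ ((T.biUnion (fun m =>
          ((Finset.range (⌊x / m⌋₊ + 1)).filter Nat.Prime).image (fun p => m * p))).card : ℝ) := by
        exact_mod_cast Finset.card_le_card hsub
    _ ≤ ∑ m ∈ T, ((((Finset.range (⌊x / m⌋₊ + 1)).filter Nat.Prime).image
          (fun p => m * p)).card : ℝ) := by
        exact_mod_cast Finset.card_biUnion_le
    _ ≤ ∑ m ∈ T, 4 * C * x / Real.log n * (1 / 2 ^ j) := Finset.sum_le_sum hcount
    _ = T.card * (4 * C * x / Real.log n * (1 / 2 ^ j)) := by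
        rw [Finset.sum_const, nsmul_eq_mul]
    _ ≤ 2 ^ j * (4 * C * x / Real.log n * (1 / 2 ^ j)) := by
        apply mul_le_mul_of_nonneg_right hTcard (by positivity)
    _ = 4 * C * x / Real.log n := by field_simp

end Pool.Agent.W_764f34_h80
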