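import Mathlib
import Pool.Prelude.Def_F_dd584ed4

set_option autoImplicit false

/-!
# Sets with distinct pairwise products: definitions for the reduction of the second-order term

The second-order term of the extremal function is reduced to an extremal problem about
edge-labelled graphs without balanced 4-cycles, in which no primes occur.
-/

namespace Pool.Agent.W_764f34_h80

open N884ee30a Filter Topology

/-- The normalisation `n^(3/4) (log n)^(-3/2)`. -/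
noncomputable def scale (n : ℕ) : ℝ :=
  (n : ℝ) ^ ((3 : ℝ) / 4) * (Real.log n) ^ (-(3 : ℝ) / 2)

/-- The ratio `(F(n) - π(n)) / (n^(3/4) (log n)^(-3/2))` of the question. -/
noncomputable def ratio (n : ℕ) : ℝ :=
  ((pairProductExtremal n : ℝ) - (Nat.primeCounting n : ℝ)) / scale n

/-- `IsLab K N m`: `m` is a graph on the integers `i` with `N / K ≤ i ≤ K N`, whose edges `ij` carry
labels `m i j` in `{1, ..., K}` with `m i j * i * j ≤ N ^ 2` (`m i j = 0` means no edge), such that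
in no 4-cycle `i j k l` the two products of opposite labels are equal. -/
structure IsLab (K N : ℕ) (m : ℕ → ℕ → ℕ) : Prop where
  symm : ∀ i j, m i j = m j i
  irrefl : ∀ i, m i i = 0
  range : ∀ i j, m i j ≠ 0 → N ≤ K * i ∧ i ≤ K * N
  label : ∀ i j, m i j ≤ K
  size : ∀ i j, m i j * (i * j) ≤ N ^ 2
  cycle : ∀ i j k l, i ≠ k → j ≠ l → m i j ≠ 0 → m j k ≠ 0 → m k l ≠ 0 → m l i ≠ 0 →
    m i j * m k l ≠ m j k * m l i

/-- The number of edges. -/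
noncomputable def edges (K N : ℕ) (m : ℕ → ℕ → ℕ) : ℕ :=
  ((Finset.range (K * N + 1) ×ˢ Finset.range (K * N + 1)).filter
    (fun p => p.1 < p.2 ∧ m p.1 p.2 ≠ 0)).card

/-- The largest number of edges of a labelled graph `m` with `IsLab K N m`. -/
noncomputable def ex (K N : ℕ) : ℕ :=
  sSup {e | ∃ m : ℕ → ℕ → ℕ, IsLab K N m ∧ edges K N m = e}

/-- `y = n^(1/4)`. -/
noncomputable def yy (n : ℕ) : ℝ := (n : ℝ) ^ ((1 : ℝ) / 4)

/-- `z = n^(1/2)`. -/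
noncomputable def zz (n : ℕ) : ℝ := (n : ℝ) ^ ((1 : ℝ) / 2)

/-- `L = (log n)^4`. -/
noncomputable def Lg (n : ℕ) : ℝ := (Real.log n) ^ 4

/-- The core numbers `m p q`: `m ≤ K`, `p < q` primes in `[√n / K, K √n]`. -/
def Core (K n a : ℕ) : Prop :=
  ∃ m p q : ℕ, a = m * p * q ∧ m ≤ K ∧ p.Prime ∧ q.Prime ∧ p < q ∧ n ≤ (K * p) ^ 2 ∧
    q ^ 2 ≤ K ^ 2 * n

/-- Class P: a prime factor larger than `z L`. -/
def ClP (n a : ℕ) : Prop := ∃ p : ℕ, p.Prime ∧ zz n * Lg n < p ∧ p ∣ a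

/-- Class I: a divisor in `[y L, z / L]`. -/
def ClI (n a : ℕ) : Prop := ∃ d : ℕ, d ∣ a ∧ yy n * Lg n ≤ d ∧ (d : ℝ) ≤ zz n / Lg n

/-- Class S: `a = u v`, `u ≤ z L^2`, `v ≤ y L`. -/
def ClS (n a : ℕ) : Prop :=
  ∃ u v : ℕ, a = u * v ∧ (u : ℝ) ≤ zz n * Lg n ^ 2 ∧ (v : ℝ) ≤ yy n * Lg n

/-- Class M: `a = t p q`, `p ≥ q` primes in `(z / L, z L]`, `t ≤ L^2`. -/
def ClM (n a : ℕ) : Prop :=
  ∃ t p q : ℕ, a = t * p * q ∧ p.Prime ∧ q.Prime ∧ q ≤ p ∧ zz n / Lg n < q ∧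
    (p : ℝ) ≤ zz n * Lg n ∧ (t : ℝ) ≤ Lg n ^ 2

/-- Numbers `t r s` with `t ≤ L^8` and primes `r, s` in `(y / L^2, y L]`. -/
def M2 (n w : ℕ) : Prop :=
  ∃ t r s : ℕ, w = t * r * s ∧ 1 ≤ t ∧ (t : ℝ) ≤ Lg n ^ 8 ∧ r.Prime ∧ s.Prime ∧
    yy n / Lg n ^ 2 < r ∧ (r : ℝ) ≤ yy n * Lg n ∧ yy n / Lg n ^ 2 < s ∧ (s : ℝ) ≤ yy n * Lg n

/-- Class D: `a = p w`, `p ≤ z L` prime, `w` in `M2`. -/
def ClD (n a : ℕ) : Prop :=
  ∃ p w : ℕ, a = p * w ∧ p.Prime ∧ (p : ℝ) ≤ zz n * Lg n ∧ M2 n w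

/-- Class E: `a = u v`, `u, v` in `M2`. -/
def ClE (n a : ℕ) : Prop := ∃ u v : ℕ, a = u * v ∧ M2 n u ∧ M2 n v

/-- No 4-cycle in the bipartite graph with edge set `E`. -/
def C4Free (E : Finset (ℕ × ℕ)) : Prop :=
  ∀ u u' v v' : ℕ, u ≠ u' → v ≠ v' → (u, v) ∈ E → (u, v') ∈ E → (u', v) ∈ E → (u', v') ∈ E → False

end Pool.Agent.W_764f34_h80
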