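import Pool.Agent.W_764f34_h80.Basic

set_option autoImplicit false

/-! Counting the pairs `i < j` with `i j ≤ N^2`. -/

namespace Pool.Agent.W_764f34_h80

open Filter Topology

theorem LowB_sum (n : ℕ) : ∑ i ∈ Finset.range n, (1 + (1 + (i : ℝ))) =
    2 * n + n * (n - 1) / 2 := by
  induction n with
  | zero => simp
  | succ n ih =>
    rw [Finset.sum_range_succ, ih]
    push_cast
    ring

/-- the integral -/
theorem LowB_int {N : ℕ} {κ : ℝ} (hκ : 1 ≤ κ) (hN : κ ≤ N) (hN1 : 1 ≤ N) :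
    (N : ℝ) ^ 2 - κ * N + (N : ℝ) ^ 2 * Real.log κ ≤
      ∑ i ∈ Finset.range (N - 1), min (κ * N) ((N : ℝ) ^ 2 / (1 + (i : ℝ))) := by
  have hNpos : (0 : ℝ) < N := by exact_mod_cast hN1
  have hκ0 : 0 < κ := lt_of_lt_of_le one_pos hκ
  have hanti : AntitoneOn (fun x : ℝ => min (κ * N) ((N : ℝ) ^ 2 / x))
      (Set.Icc (1 : ℝ) (1 + ((N - 1 : ℕ) : ℝ))) := by
    intro x hx y hy hxy
    refine min_le_min_left _ ?_
    exact div_le_div_of_nonneg_left (by positivity) (lt_of_lt_of_le one_pos hx.1) hxy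
  have h1 := hanti.integral_le_sum
  have hcast : (1 : ℝ) + ((N - 1 : ℕ) : ℝ) = N := by
    rw [Nat.cast_sub hN1]
    push_cast
    ring
  rw [hcast] at h1
  refine le_trans ?_ h1
  have ha : (1 : ℝ) ≤ N / κ := by
    rw [le_div_iff₀ hκ0, one_mul]
    exact hN
  have hb : (N : ℝ) / κ ≤ N := div_le_self hNpos.le hκ
  have hcont : ContinuousOn (fun x : ℝ => min (κ * N) ((N : ℝ) ^ 2 / x)) (Set.Ici 1) := by
    refine ContinuousOn.inf continuousOn_const (ContinuousOn.div continuousOn_const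
      continuousOn_id fun x hx => ?_)
    exact (lt_of_lt_of_le one_pos hx).ne'
  have hi1 : IntervalIntegrable (fun x : ℝ => min (κ * N) ((N : ℝ) ^ 2 / x)) MeasureTheory.volume
      1 (N / κ) := by
    refine (hcont.mono ?_).intervalIntegrable
    rw [Set.uIcc_of_le ha]
    exact fun x hx => hx.1
  have hi2 : IntervalIntegrable (fun x : ℝ => min (κ * N) ((N : ℝ) ^ 2 / x)) MeasureTheory.volume
      (N / κ) N := by
    refine (hcont.mono ?_).intervalIntegrable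
    rw [Set.uIcc_of_le hb]
    exact fun x hx => ha.trans hx.1
  rw [← intervalIntegral.integral_add_adjacent_intervals hi1 hi2]
  have e1 : ∫ x in (1 : ℝ)..(N / κ), min (κ * N) ((N : ℝ) ^ 2 / x) = (N / κ - 1) * (κ * N) := by
    have : ∫ x in (1 : ℝ)..(N / κ), min (κ * N) ((N : ℝ) ^ 2 / x) =
        ∫ x in (1 : ℝ)..(N / κ), κ * N := by
      refine intervalIntegral.integral_congr fun x hx => ?_
      rw [Set.uIcc_of_le ha] at hx
      have hx0 : 0 < x := lt_of_lt_of_le one_pos hx.1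
      refine min_eq_left ?_
      rw [le_div_iff₀ hx0]
      have h2 : x * κ ≤ N := (le_div_iff₀ hκ0).1 hx.2
      nlinarith
    rw [this, intervalIntegral.integral_const, smul_eq_mul]
  have e2 : ∫ x in ((N : ℝ) / κ)..N, min (κ * N) ((N : ℝ) ^ 2 / x) =
      (N : ℝ) ^ 2 * Real.log κ := by
    have : ∫ x in ((N : ℝ) / κ)..N, min (κ * N) ((N : ℝ) ^ 2 / x) =
        ∫ x in ((N : ℝ) / κ)..N, (N : ℝ) ^ 2 * x⁻¹ := by
      refine intervalIntegral.integral_congr fun x hx => ?_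
      rw [Set.uIcc_of_le hb] at hx
      have hx0 : 0 < x := lt_of_lt_of_le one_pos (ha.trans hx.1)
      have h3 : min (κ * N) ((N : ℝ) ^ 2 / x) = (N : ℝ) ^ 2 / x := by
        refine min_eq_right ?_
        rw [div_le_iff₀ hx0]
        have h2 : (N : ℝ) ≤ x * κ := (div_le_iff₀ hκ0).1 hx.1
        nlinarith
      rw [h3, div_eq_mul_inv]
    rw [this, intervalIntegral.integral_const_mul, integral_inv_of_pos (by positivity) hNpos]
    congr 2
    field_simp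
  rw [e1, e2]
  have e3 : ((N : ℝ) / κ - 1) * (κ * N) = (N : ℝ) ^ 2 - κ * N := by
    field_simp
  rw [e3]

theorem LowB_fiber {N : ℕ} {κ : ℝ} {i : ℕ} (hi : 1 ≤ i) :
    min (κ * N) ((N : ℝ) ^ 2 / (i : ℝ)) - (1 + (i : ℝ)) ≤
      ((min ⌊κ * N⌋₊ (N ^ 2 / i) - i : ℕ) : ℝ) := by
  have hi0 : (0 : ℝ) < i := by exact_mod_cast hi
  have h1 : ((min ⌊κ * N⌋₊ (N ^ 2 / i) : ℕ) : ℝ) - i ≤
      ((min ⌊κ * N⌋₊ (N ^ 2 / i) - i : ℕ) : ℝ) := by
    rw [sub_le_iff_le_add]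
    exact_mod_cast (by omega : min ⌊κ * N⌋₊ (N ^ 2 / i) ≤
      min ⌊κ * N⌋₊ (N ^ 2 / i) - i + i)
  have h2 : min (κ * N) ((N : ℝ) ^ 2 / (i : ℝ)) - 1 ≤
      ((min ⌊κ * N⌋₊ (N ^ 2 / i) : ℕ) : ℝ) := by
    rw [Nat.cast_min]
    refine le_min ?_ ?_
    · have := Nat.lt_floor_add_one (κ * N)
      have h3 := min_le_left (κ * N) ((N : ℝ) ^ 2 / (i : ℝ))
      linarith
    · have h3 := min_le_right (κ * N) ((N : ℝ) ^ 2 / (i : ℝ))
      have h4 : N ^ 2 < i * (N ^ 2 / i + 1) := Nat.lt_mul_div_succ _ hi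
      have h5 : (N : ℝ) ^ 2 < i * ((N ^ 2 / i : ℕ) + 1) := by exact_mod_cast h4
      have h6 : (N : ℝ) ^ 2 / i < ((N ^ 2 / i : ℕ) : ℝ) + 1 := by
        rw [div_lt_iff₀ hi0]
        linarith
      linarith
  linarith

/-- The number of pairs `N / K ≤ i < j ≤ κ N` with `i j ≤ N^2`, where `κ ≥ 1`, is at least
`(1/2 + log κ - κ / K - ε) N^2` for large `N`. Proof: for `i ≤ N / κ` there are `⌊κ N⌋ - i` values of
`j`, for `N / κ < i < N` there are `⌊N^2 / i⌋ - i`; the pairs with `i < N / K` are at most `κ N^2 / K`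
(plus lower order). `∑_{N/κ < i < N} N^2 / i ≥ N^2 log κ - O(N)`. -/
theorem host_count (K : ℕ) (hK : 1 ≤ K) {κ : ℝ} (hκ : 1 ≤ κ) {ε : ℝ} (hε : 0 < ε) :
    ∀ᶠ N : ℕ in atTop, (1 / 2 + Real.log κ - κ / K - ε) * (N : ℝ) ^ 2 ≤
      (((Finset.range (⌊κ * N⌋₊ + 1) ×ˢ Finset.range (⌊κ * N⌋₊ + 1)).filter
        (fun p : ℕ × ℕ => p.1 < p.2 ∧ N ≤ K * p.1 ∧ p.1 * p.2 ≤ N ^ 2)).card : ℝ) := by
  obtain ⟨N₀, hN₀⟩ := exists_nat_ge (max κ ((κ + 1) / ε))
  filter_upwards [eventually_ge_atTop (max N₀ 1)] with N hN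
  have hN1 : 1 ≤ N := le_trans (le_max_right _ _) hN
  have hNN : (N₀ : ℝ) ≤ N := by exact_mod_cast le_trans (le_max_left _ _) hN
  have hκN : κ ≤ N := le_trans (le_max_left _ _) (hN₀.trans hNN)
  have hεN : (κ + 1) / ε ≤ N := le_trans (le_max_right _ _) (hN₀.trans hNN)
  have hNpos : (0 : ℝ) < N := by exact_mod_cast hN1
  have hκ0 : 0 < κ := lt_of_lt_of_le one_pos hκ
  have hK0 : (0 : ℝ) < K := by exact_mod_cast hK
  set F : ℕ → ℕ := fun i => min ⌊κ * N⌋₊ (N ^ 2 / i) - i with hF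
  -- the count
  have hcount : ∑ i ∈ (Finset.Ico 1 N).filter (fun i => N ≤ K * i), F i ≤
      ((Finset.range (⌊κ * N⌋₊ + 1) ×ˢ Finset.range (⌊κ * N⌋₊ + 1)).filter
        (fun p : ℕ × ℕ => p.1 < p.2 ∧ N ≤ K * p.1 ∧ p.1 * p.2 ≤ N ^ 2)).card := by
    have h1 : ∑ i ∈ (Finset.Ico 1 N).filter (fun i => N ≤ K * i), F i =
        (((Finset.Ico 1 N).filter (fun i => N ≤ K * i)).sigma
          (fun i => Finset.Ioc i (min ⌊κ * N⌋₊ (N ^ 2 / i)))).card := by
      rw [Finset.card_sigma]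
      refine Finset.sum_congr rfl fun i _ => ?_
      rw [Nat.card_Ioc]
    rw [h1]
    refine Finset.card_le_card_of_injOn (fun x => (x.1, x.2)) ?_ ?_
    · rintro ⟨i, j⟩ hx
      rw [Finset.mem_coe, Finset.mem_sigma, Finset.mem_filter, Finset.mem_Ico,
        Finset.mem_Ioc] at hx
      obtain ⟨⟨⟨hi1, hiN⟩, hKi⟩, hij, hj⟩ := hx
      dsimp only at hi1 hiN hKi hij hj
      have hj1 : j ≤ ⌊κ * N⌋₊ := le_trans hj (min_le_left _ _)
      have hj2 : j ≤ N ^ 2 / i := le_trans hj (min_le_right _ _)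
      rw [Finset.mem_coe, Finset.mem_filter, Finset.mem_product, Finset.mem_range,
        Finset.mem_range]
      refine ⟨⟨?_, ?_⟩, hij, hKi, ?_⟩
      · show i < _
        omega
      · show j < _
        omega
      · show i * j ≤ N ^ 2
        rw [mul_comm]
        exact (Nat.le_div_iff_mul_le (by omega)).1 hj2
    · rintro ⟨i, j⟩ _ ⟨i', j'⟩ _ h
      rw [Prod.mk.injEq] at h
      dsimp only at h
      obtain ⟨rfl, rfl⟩ := h
      rfl
  have hsmall : ∑ i ∈ (Finset.Ico 1 N).filter (fun i => ¬ N ≤ K * i), (F i : ℝ) ≤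
      κ / K * (N : ℝ) ^ 2 := by
    have h1 : ∀ i ∈ (Finset.Ico 1 N).filter (fun i => ¬ N ≤ K * i), (F i : ℝ) ≤ κ * N := by
      intro i _
      have h2 : F i ≤ ⌊κ * N⌋₊ := (Nat.sub_le _ _).trans (min_le_left _ _)
      calc (F i : ℝ) ≤ (⌊κ * N⌋₊ : ℝ) := by exact_mod_cast h2
        _ ≤ κ * N := Nat.floor_le (by positivity)
    have h3 : ((Finset.Ico 1 N).filter (fun i => ¬ N ≤ K * i)).card ≤ N / K := by
      have h4 : (Finset.Ico 1 N).filter (fun i => ¬ N ≤ K * i) ⊆ Finset.Ico 1 (N / K + 1) := by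
        intro i hi
        rw [Finset.mem_filter, Finset.mem_Ico] at hi
        rw [Finset.mem_Ico]
        refine ⟨hi.1.1, Nat.lt_succ_of_le ?_⟩
        rw [Nat.le_div_iff_mul_le (by omega), mul_comm]
        omega
      have h5 := Finset.card_le_card h4
      rwa [Nat.card_Ico, Nat.add_sub_cancel] at h5
    calc ∑ i ∈ (Finset.Ico 1 N).filter (fun i => ¬ N ≤ K * i), (F i : ℝ)
        ≤ ((Finset.Ico 1 N).filter (fun i => ¬ N ≤ K * i)).card • (κ * N) :=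
          Finset.sum_le_card_nsmul _ _ _ h1
      _ ≤ ((N / K : ℕ) : ℝ) * (κ * N) := by
          rw [nsmul_eq_mul]
          exact mul_le_mul_of_nonneg_right (by exact_mod_cast h3) (by positivity)
      _ ≤ ((N : ℝ) / K) * (κ * N) :=
          mul_le_mul_of_nonneg_right Nat.cast_div_le (by positivity)
      _ = κ / K * (N : ℝ) ^ 2 := by ring
  have hall : (N : ℝ) ^ 2 - κ * N + (N : ℝ) ^ 2 * Real.log κ -
      (2 * ((N : ℝ) - 1) + ((N : ℝ) - 1) * ((N : ℝ) - 2) / 2) ≤ ∑ i ∈ Finset.Ico 1 N, (F i : ℝ) := by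
    rw [Finset.sum_Ico_eq_sum_range]
    have h1 := LowB_int hκ hκN hN1
    have h2 := LowB_sum (N - 1)
    have hc : ((N - 1 : ℕ) : ℝ) = (N : ℝ) - 1 := by
      rw [Nat.cast_sub hN1]
      push_cast
      ring
    rw [hc] at h2
    have h3 : ∑ i ∈ Finset.range (N - 1), (min (κ * N) ((N : ℝ) ^ 2 / (1 + (i : ℝ))) -
        (1 + (1 + (i : ℝ)))) ≤ ∑ i ∈ Finset.range (N - 1), (F (1 + i) : ℝ) := by
      refine Finset.sum_le_sum fun i _ => ?_
      have h4 := LowB_fiber (N := N) (κ := κ) (i := 1 + i) (by omega)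
      push_cast at h4 ⊢
      exact h4
    rw [Finset.sum_sub_distrib, h2] at h3
    have h5 : (N : ℝ) - 1 - 1 = N - 2 := by ring
    rw [h5] at h3
    linarith
  have hsplit : ∑ i ∈ Finset.Ico 1 N, (F i : ℝ) =
      ∑ i ∈ (Finset.Ico 1 N).filter (fun i => N ≤ K * i), (F i : ℝ) +
      ∑ i ∈ (Finset.Ico 1 N).filter (fun i => ¬ N ≤ K * i), (F i : ℝ) :=
    (Finset.sum_filter_add_sum_filter_not _ _ _).symm
  have hcount' : ∑ i ∈ (Finset.Ico 1 N).filter (fun i => N ≤ K * i), (F i : ℝ) ≤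
      (((Finset.range (⌊κ * N⌋₊ + 1) ×ˢ Finset.range (⌊κ * N⌋₊ + 1)).filter
        (fun p : ℕ × ℕ => p.1 < p.2 ∧ N ≤ K * p.1 ∧ p.1 * p.2 ≤ N ^ 2)).card : ℝ) := by
    rw [← Nat.cast_sum]
    exact_mod_cast hcount
  have hfin : (κ + 1) * N ≤ ε * (N : ℝ) ^ 2 := by
    have h1 : κ + 1 ≤ ε * N := by
      rw [div_le_iff₀ hε] at hεN
      linarith
    nlinarith
  nlinarith

end Pool.Agent.W_764f34_h80
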