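import Pool.Agent.W_764f34_h80.LowA
import Pool.Agent.W_764f34_h80.LowB
import Pool.Agent.W_pnt_h80.PNT

set_option autoImplicit false

/-! The explicit lower bound of the labelled problem. -/

namespace Pool.Agent.W_764f34_h80

open Filter Topology

/-- Primes in short intervals, from `W_pnt_h80.pi_tendsto`. -/
theorem prime_between {ε : ℝ} (hε : 0 < ε) : ∀ᶠ x : ℝ in atTop,
    ∃ p : ℕ, p.Prime ∧ x ≤ p ∧ (p : ℝ) ≤ (1 + ε) * x := by
  have h := Pool.Agent.W_pnt_h80.theta_tendsto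
  set δ : ℝ := ε / (4 + 2 * ε) with hδ
  have hδ0 : 0 < δ := by positivity
  have hδ1 : (1 + δ) < (1 - δ) * (1 + ε) := by
    have h1 : δ * (4 + 2 * ε) = ε := by
      rw [hδ]
      field_simp
    nlinarith
  have h1 : ∀ᶠ x : ℝ in atTop, Chebyshev.theta x / x < 1 + δ :=
    h.eventually (gt_mem_nhds (by linarith))
  have h2 : ∀ᶠ x : ℝ in atTop, 1 - δ < Chebyshev.theta x / x :=
    h.eventually (lt_mem_nhds (by linarith))
  have h3 : Tendsto (fun x : ℝ => (1 + ε) * x) atTop atTop :=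
    tendsto_id.const_mul_atTop (by linarith)
  filter_upwards [h1, h3.eventually h2, eventually_gt_atTop 0] with x hx1 hx2 hx0
  by_contra hcon
  push Not at hcon
  have h4 : Chebyshev.theta ((1 + ε) * x) ≤ Chebyshev.theta x := by
    unfold Chebyshev.theta
    refine Finset.sum_le_sum_of_subset_of_nonneg ?_ ?_
    · intro p hp
      rw [Finset.mem_filter, Finset.mem_Ioc] at hp ⊢
      obtain ⟨⟨hp0, hp1⟩, hpp⟩ := hp
      refine ⟨⟨hp0, ?_⟩, hpp⟩
      have h5 : (p : ℝ) ≤ (1 + ε) * x := (Nat.le_floor_iff (by positivity)).1 hp1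
      refine Nat.le_floor ?_
      by_contra h6
      push Not at h6
      have h7 := hcon p hpp h6.le
      linarith
    · intro p hp _
      rw [Finset.mem_filter, Finset.mem_Ioc] at hp
      refine Real.log_nonneg ?_
      exact_mod_cast hp.1.1
  rw [div_lt_iff₀ hx0] at hx1
  rw [lt_div_iff₀ (by positivity)] at hx2
  nlinarith

theorem LowC_graph {K N : ℕ} {κ : ℝ} (hK : 1 ≤ K) (hκ : κ ≤ K) (hκ0 : 0 ≤ κ) {q : ℕ}
    (hq : q.Prime) (hq2 : κ * N + 1 ≤ (q : ℝ) ^ 2) :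
    ((Finset.range (⌊κ * N⌋₊ + 1) ×ˢ Finset.range (⌊κ * N⌋₊ + 1)).filter
        (fun p : ℕ × ℕ => p.1 < p.2 ∧ N ≤ K * p.1 ∧ p.1 * p.2 ≤ N ^ 2)).card ≤ q * ex K N := by
  classical
  let V : Finset ℕ := (Finset.range (⌊κ * N⌋₊ + 1)).filter (fun i => N ≤ K * i)
  have hV : V.card ≤ q ^ 2 := by
    have h1 : V.card ≤ ⌊κ * N⌋₊ + 1 := by
      have := Finset.card_filter_le (Finset.range (⌊κ * N⌋₊ + 1)) (fun i => N ≤ K * i)
      rwa [Finset.card_range] at this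
    have h2 : (⌊κ * N⌋₊ : ℝ) ≤ κ * N := Nat.floor_le (by positivity)
    have h3 : ((⌊κ * N⌋₊ + 1 : ℕ) : ℝ) ≤ ((q ^ 2 : ℕ) : ℝ) := by
      push_cast
      linarith
    exact h1.trans (by exact_mod_cast h3)
  obtain ⟨G, hs, hG, hc4, hcard⟩ := polarity q hq V hV (fun i j => i * j ≤ N ^ 2)
    (fun i j h => by rw [mul_comm]; exact h)
  let m : ℕ → ℕ → ℕ := fun i j => if G i j then 1 else 0
  have hm : ∀ i j, m i j ≠ 0 ↔ G i j := by
    intro i j
    simp only [m]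
    split_ifs with h <;> simp [h]
  have hm1 : ∀ i j, G i j → m i j = 1 := fun i j h => if_pos h
  have hfl : ∀ i, i ≤ ⌊κ * N⌋₊ → i ≤ K * N := by
    intro i hi
    have h2 : (⌊κ * N⌋₊ : ℝ) ≤ κ * N := Nat.floor_le (by positivity)
    have h3 : (i : ℝ) ≤ K * N := by
      have h4 : (i : ℝ) ≤ ⌊κ * N⌋₊ := by exact_mod_cast hi
      have h5 : κ * N ≤ K * N := mul_le_mul_of_nonneg_right hκ (Nat.cast_nonneg _)
      linarith
    exact_mod_cast h3
  have hlab : IsLab K N m := by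
    refine ⟨?_, ?_, ?_, ?_, ?_, ?_⟩
    · intro i j
      by_cases h : G i j
      · rw [hm1 _ _ h, hm1 _ _ (hs _ _ h)]
      · have h' : ¬ G j i := fun h' => h (hs _ _ h')
        simp only [m]
        rw [if_neg h, if_neg h']
    · intro i
      have h : ¬ G i i := fun h => (hG _ _ h).2.2.2 rfl
      simp only [m]
      rw [if_neg h]
    · intro i j h
      have h1 := (hG _ _ ((hm _ _).1 h)).2.1
      rw [Finset.mem_filter, Finset.mem_range] at h1
      exact ⟨h1.2, hfl i (by omega)⟩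
    · intro i j
      simp only [m]
      split_ifs
      · exact hK
      · exact Nat.zero_le _
    · intro i j
      by_cases h : G i j
      · rw [hm1 _ _ h, one_mul]
        exact (hG _ _ h).1
      · simp only [m]
        rw [if_neg h, zero_mul]
        exact Nat.zero_le _
    · intro i j k l hik hjl h1 h2 h3 h4
      exact absurd (hc4 i j k l hik hjl ((hm _ _).1 h1) ((hm _ _).1 h2) ((hm _ _).1 h3)
        ((hm _ _).1 h4)) id
  have he := edges_le_ex hlab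
  refine le_trans (Finset.card_le_card ?_) (hcard.trans (Nat.mul_le_mul_left q
    (le_trans (Finset.card_le_card ?_) he)))
  · rintro ⟨i, j⟩ hp
    rw [Finset.mem_filter, Finset.mem_product, Finset.mem_range, Finset.mem_range] at hp
    obtain ⟨⟨hi, hj⟩, hij, hKi, hN⟩ := hp
    dsimp only at hi hj hij hKi hN
    simp only [Finset.mem_filter, Finset.mem_product]
    refine ⟨⟨?_, ?_⟩, hij, hN⟩
    · show i ∈ V
      rw [Finset.mem_filter, Finset.mem_range]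
      exact ⟨hi, hKi⟩
    · show j ∈ V
      rw [Finset.mem_filter, Finset.mem_range]
      exact ⟨hj, hKi.trans (Nat.mul_le_mul_left K hij.le)⟩
  · rintro ⟨i, j⟩ hp
    rw [Finset.mem_filter, Finset.mem_product] at hp
    obtain ⟨⟨hi, hj⟩, hij, hGij⟩ := hp
    dsimp only at hi hj hij hGij
    rw [Finset.mem_filter, Finset.mem_range] at hi hj
    rw [Finset.mem_filter, Finset.mem_product, Finset.mem_range, Finset.mem_range]
    refine ⟨⟨?_, ?_⟩, hij, (hm _ _).2 hGij⟩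
    · have := hfl i (by omega)
      show i < _
      omega
    · have := hfl j (by omega)
      show j < _
      omega

/-- `κ = e^(3/2)`, `V = [N / K, κ N]`, `q` a prime with `√(κ N + 1) ≤ q ≤ (1 + ε) √(κ N)`, all labels
`1` (`m i j = 1` on the edges of the graph of `polarity`): at least `(2 - κ/K - ε) N^2 / q` edges. -/
theorem ex_lower {ε : ℝ} (hε : 0 < ε) : ∀ᶠ K : ℕ in atTop, ∀ᶠ N : ℕ in atTop,
    2 * Real.exp (-(3 : ℝ) / 4) - ε ≤ (ex K N : ℝ) / (N : ℝ) ^ ((3 : ℝ) / 2) := by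
  set κ : ℝ := Real.exp (3 / 2) with hκdef
  have hκ1 : 1 ≤ κ := Real.one_le_exp (by norm_num)
  have hκ0 : 0 < κ := lt_of_lt_of_le one_pos hκ1
  have hlog : Real.log κ = 3 / 2 := Real.log_exp _
  set δ : ℝ := min (ε / 6) (1 / 4) with hδdef
  have hδ0 : 0 < δ := lt_min (by positivity) (by norm_num)
  have hδ1 : δ ≤ 1 / 4 := min_le_right _ _
  have hδ2 : 6 * δ ≤ ε := by
    have := min_le_left (ε / 6) (1 / 4)
    rw [← hδdef] at this
    linarith
  obtain ⟨K₀, hK₀⟩ := exists_nat_ge (max κ (κ / δ))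
  filter_upwards [eventually_ge_atTop (max K₀ 1)] with K hK
  have hK1 : 1 ≤ K := le_trans (le_max_right _ _) hK
  have hKK : (K₀ : ℝ) ≤ K := by exact_mod_cast le_trans (le_max_left _ _) hK
  have hK2 : κ ≤ K := le_trans (le_max_left _ _) (hK₀.trans hKK)
  have hK3 : κ / δ ≤ K := le_trans (le_max_right _ _) (hK₀.trans hKK)
  have hKpos : (0 : ℝ) < K := by exact_mod_cast hK1
  have hKδ : κ / K ≤ δ := by
    rw [div_le_iff₀ hKpos]
    rw [div_le_iff₀ hδ0] at hK3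
    linarith
  have hlim : Tendsto (fun N : ℕ => Real.sqrt (κ * N + 1)) atTop atTop := by
    refine Real.tendsto_sqrt_atTop.comp ?_
    exact tendsto_atTop_add_const_right _ _
      (tendsto_natCast_atTop_atTop.const_mul_atTop hκ0)
  obtain ⟨N₁, hN₁⟩ := exists_nat_ge (1 / (δ * κ))
  filter_upwards [host_count K hK1 hκ1 hδ0, hlim.eventually (prime_between hδ0),
    eventually_ge_atTop (max N₁ 1)] with N hN1 hN2 hN3
  have hNge : 1 ≤ N := le_trans (le_max_right _ _) hN3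
  have hNpos : (0 : ℝ) < N := by exact_mod_cast hNge
  have hNN : 1 / (δ * κ) ≤ N := hN₁.trans (by exact_mod_cast le_trans (le_max_left _ _) hN3)
  obtain ⟨q, hq, hq1, hq2⟩ := hN2
  have hqpos : (0 : ℝ) < q := by exact_mod_cast hq.pos
  have hqsq : κ * N + 1 ≤ (q : ℝ) ^ 2 := by
    have h1 : Real.sqrt (κ * N + 1) ^ 2 = κ * N + 1 := Real.sq_sqrt (by positivity)
    have h2 := Real.sqrt_nonneg (κ * N + 1)
    nlinarith
  have hg := LowC_graph (N := N) hK1 hK2 hκ0.le hq hqsq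
  have hg' : (1 / 2 + Real.log κ - κ / K - δ) * (N : ℝ) ^ 2 ≤ q * (ex K N : ℝ) := by
    refine hN1.trans ?_
    exact_mod_cast hg
  rw [hlog] at hg'
  have hg2 : (2 - 2 * δ) * (N : ℝ) ^ 2 ≤ q * (ex K N : ℝ) := by
    refine le_trans (mul_le_mul_of_nonneg_right ?_ (by positivity)) hg'
    linarith
  -- the bound for `q`
  have hsk : 0 < Real.sqrt κ := Real.sqrt_pos.2 hκ0
  have hsN : 0 < Real.sqrt N := Real.sqrt_pos.2 hNpos
  have hqle : (q : ℝ) ≤ (1 + δ) ^ 2 * (Real.sqrt κ * Real.sqrt N) := by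
    have h1 : Real.sqrt (κ * N + 1) ≤ (1 + δ) * (Real.sqrt κ * Real.sqrt N) := by
      rw [Real.sqrt_le_left (by positivity), mul_pow, mul_pow, Real.sq_sqrt hκ0.le,
        Real.sq_sqrt hNpos.le]
      have h2 : 1 ≤ δ * (κ * N) := by
        rw [div_le_iff₀ (by positivity)] at hNN
        linarith
      nlinarith [mul_pos hκ0 hNpos]
    calc (q : ℝ) ≤ (1 + δ) * Real.sqrt (κ * N + 1) := hq2
      _ ≤ (1 + δ) * ((1 + δ) * (Real.sqrt κ * Real.sqrt N)) :=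
          mul_le_mul_of_nonneg_left h1 (by linarith)
      _ = (1 + δ) ^ 2 * (Real.sqrt κ * Real.sqrt N) := by ring
  -- powers
  have hp : (N : ℝ) ^ ((3 : ℝ) / 2) * Real.sqrt N = (N : ℝ) ^ 2 := by
    rw [Real.sqrt_eq_rpow, ← Real.rpow_add hNpos]
    norm_num
  have hP : 0 < (N : ℝ) ^ ((3 : ℝ) / 2) := Real.rpow_pos_of_pos hNpos _
  have he : Real.exp (-(3 : ℝ) / 4) * Real.sqrt κ = 1 := by
    rw [hκdef, Real.sqrt_eq_rpow, ← Real.exp_mul, ← Real.exp_add]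
    norm_num
  have he1 : Real.exp (-(3 : ℝ) / 4) ≤ 1 := Real.exp_le_one_iff.2 (by norm_num)
  have he0 := Real.exp_pos (-(3 : ℝ) / 4)
  rw [le_div_iff₀ hP]
  -- (2 e - ε) P q ≤ q ex
  have hex0 : (0 : ℝ) ≤ ex K N := Nat.cast_nonneg _
  have h3 : (2 - 2 * δ) * ((N : ℝ) ^ ((3 : ℝ) / 2) * Real.sqrt N) ≤
      ((1 + δ) ^ 2 * (Real.sqrt κ * Real.sqrt N)) * (ex K N : ℝ) := by
    rw [hp]
    exact hg2.trans (mul_le_mul_of_nonneg_right hqle hex0)
  have h4 : (2 - 2 * δ) * (N : ℝ) ^ ((3 : ℝ) / 2) ≤ ((1 + δ) ^ 2 * Real.sqrt κ) * (ex K N : ℝ) := by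
    refine le_of_mul_le_mul_right ?_ hsN
    linarith
  have h5 : (2 - 2 * δ) * Real.exp (-(3 : ℝ) / 4) * (N : ℝ) ^ ((3 : ℝ) / 2) ≤
      (1 + δ) ^ 2 * (ex K N : ℝ) := by
    calc (2 - 2 * δ) * Real.exp (-(3 : ℝ) / 4) * (N : ℝ) ^ ((3 : ℝ) / 2)
        = Real.exp (-(3 : ℝ) / 4) * ((2 - 2 * δ) * (N : ℝ) ^ ((3 : ℝ) / 2)) := by ring
      _ ≤ Real.exp (-(3 : ℝ) / 4) * (((1 + δ) ^ 2 * Real.sqrt κ) * (ex K N : ℝ)) :=
          mul_le_mul_of_nonneg_left h4 he0.le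
      _ = (Real.exp (-(3 : ℝ) / 4) * Real.sqrt κ) * ((1 + δ) ^ 2 * (ex K N : ℝ)) := by ring
      _ = (1 + δ) ^ 2 * (ex K N : ℝ) := by rw [he, one_mul]
  have h6 : (2 * Real.exp (-(3 : ℝ) / 4) - ε) * (1 + δ) ^ 2 ≤
      (2 - 2 * δ) * Real.exp (-(3 : ℝ) / 4) := by
    have h7 : (2 * Real.exp (-(3 : ℝ) / 4) - ε) * (1 + δ) ^ 2 ≤
        (2 * Real.exp (-(3 : ℝ) / 4) - 6 * δ) * (1 + δ) ^ 2 :=
      mul_le_mul_of_nonneg_right (by linarith) (by positivity)
    refine h7.trans ?_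
    have h8 : 0 ≤ δ * (1 - Real.exp (-(3 : ℝ) / 4)) := mul_nonneg hδ0.le (by linarith)
    nlinarith [mul_nonneg hδ0.le he0.le, mul_nonneg (mul_nonneg hδ0.le hδ0.le) he0.le, sq_nonneg δ,
      mul_nonneg hδ0.le (sq_nonneg δ)]
  have h9 : (2 * Real.exp (-(3 : ℝ) / 4) - ε) * (N : ℝ) ^ ((3 : ℝ) / 2) * (1 + δ) ^ 2 ≤
      (ex K N : ℝ) * (1 + δ) ^ 2 := by
    calc (2 * Real.exp (-(3 : ℝ) / 4) - ε) * (N : ℝ) ^ ((3 : ℝ) / 2) * (1 + δ) ^ 2
        = (2 * Real.exp (-(3 : ℝ) / 4) - ε) * (1 + δ) ^ 2 * (N : ℝ) ^ ((3 : ℝ) / 2) := by ring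
      _ ≤ (2 - 2 * δ) * Real.exp (-(3 : ℝ) / 4) * (N : ℝ) ^ ((3 : ℝ) / 2) :=
          mul_le_mul_of_nonneg_right h6 hP.le
      _ ≤ (1 + δ) ^ 2 * (ex K N : ℝ) := h5
      _ = (ex K N : ℝ) * (1 + δ) ^ 2 := by ring
  exact le_of_mul_le_mul_right h9 (by positivity)

end Pool.Agent.W_764f34_h80
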