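import Pool.Agent.W_764f34_h80.UpB

set_option autoImplicit false

/-! The limit `N → ∞`, then `ρ → 1`. -/

namespace Pool.Agent.W_764f34_h80

open Filter Topology

theorem UpC_geom {x : ℝ} (hx0 : 0 ≤ x) (hx1 : x < 1) (R : ℕ) :
    ∑ k ∈ Finset.range R, x ^ k ≤ 1 / (1 - x) := by
  have h1 : 0 < 1 - x := by linarith
  rw [le_div_iff₀ h1]
  have h2 : (∑ k ∈ Finset.range R, x ^ k) * (1 - x) = 1 - x ^ R := by
    induction R with
    | zero => simp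
    | succ R ih => rw [Finset.sum_range_succ, add_mul, ih]; ring
  rw [h2]
  have := pow_nonneg hx0 R
  linarith

theorem UpC_geom2 {x : ℝ} (hx0 : 0 ≤ x) (hx1 : x < 1) (R : ℕ) :
    ∑ k ∈ Finset.range R, ((k : ℝ) + 1) * x ^ k ≤ 1 / (1 - x) ^ 2 := by
  have h1 : 0 < (1 - x) ^ 2 := by
    have : 0 < 1 - x := by linarith
    positivity
  rw [le_div_iff₀ h1]
  have h2 : (∑ k ∈ Finset.range R, ((k : ℝ) + 1) * x ^ k) * (1 - x) ^ 2 =
      1 - x ^ R * (1 + R * (1 - x)) := by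
    induction R with
    | zero => simp
    | succ R ih => rw [Finset.sum_range_succ, add_mul, ih]; push_cast; ring
  rw [h2]
  have h3 : 0 ≤ x ^ R * (1 + R * (1 - x)) := by
    have h4 : 0 ≤ (R : ℝ) * (1 - x) := mul_nonneg (Nat.cast_nonneg R) (by linarith)
    exact mul_nonneg (pow_nonneg hx0 R) (by linarith)
  linarith

theorem UpC_A {μ x t S P K' r ε : ℝ} (hμ : 0 < μ) (hx : 1 ≤ x) (hr : 0 < r) (hε : ε ≤ 1 / 2)
    (ht1 : (1 - ε) * r * x ^ 2 ≤ t) (ht2 : t ≤ (1 + ε) * r * x ^ 2) (hP : 0 ≤ P)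
    (hS : S ≤ P + Real.sqrt P * t) (hPK : P ≤ K' * x ^ 2) :
    μ * (x / (2 * t)) * (t ^ 2 + S) ≤
      (1 + ε) * (μ * r / 2) * x ^ 3 + μ / 2 * (2 * K' / r + Real.sqrt K') * x ^ 2 := by
  have hx0 : 0 < x := by linarith
  have hx2 : 0 < x ^ 2 := by positivity
  have hK' : 0 ≤ K' := by
    by_contra h
    push Not at h
    have : K' * x ^ 2 < 0 := mul_neg_of_neg_of_pos h hx2
    linarith
  have ht3 : 1 / 2 * r * x ^ 2 ≤ t := by
    refine le_trans ?_ ht1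
    have : 1 / 2 ≤ 1 - ε := by linarith
    have h2 : 1 / 2 * r ≤ (1 - ε) * r := mul_le_mul_of_nonneg_right this hr.le
    exact mul_le_mul_of_nonneg_right h2 hx2.le
  have ht : 0 < t := lt_of_lt_of_le (by positivity) ht3
  have hSt : S / t ≤ 2 * K' / r + Real.sqrt K' * x := by
    have h1 : S / t ≤ P / t + Real.sqrt P := by
      rw [div_le_iff₀ ht, add_mul, div_mul_cancel₀ _ ht.ne']
      exact hS
    have h2 : P / t ≤ 2 * K' / r := by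
      rw [div_le_div_iff₀ ht hr]
      have h3 : P * r ≤ K' * x ^ 2 * r := mul_le_mul_of_nonneg_right hPK hr.le
      have h4 : 2 * K' * (1 / 2 * r * x ^ 2) ≤ 2 * K' * t :=
        mul_le_mul_of_nonneg_left ht3 (by linarith)
      linarith
    have h3 : Real.sqrt P ≤ Real.sqrt K' * x := by
      calc Real.sqrt P ≤ Real.sqrt (K' * x ^ 2) := Real.sqrt_le_sqrt hPK
        _ = Real.sqrt K' * x := by rw [Real.sqrt_mul hK', Real.sqrt_sq hx0.le]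
    linarith
  have e1 : μ * (x / (2 * t)) * (t ^ 2 + S) = μ / 2 * (x * t + x * (S / t)) := by
    field_simp
  rw [e1]
  have h5 : x * t ≤ (1 + ε) * r * x ^ 3 := by
    calc x * t ≤ x * ((1 + ε) * r * x ^ 2) := mul_le_mul_of_nonneg_left ht2 hx0.le
      _ = (1 + ε) * r * x ^ 3 := by ring
  have h6 : x * (S / t) ≤ (2 * K' / r + Real.sqrt K') * x ^ 2 := by
    calc x * (S / t) ≤ x * (2 * K' / r + Real.sqrt K' * x) :=
          mul_le_mul_of_nonneg_left hSt hx0.le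
      _ = 2 * K' / r * x + Real.sqrt K' * x ^ 2 := by ring
      _ ≤ 2 * K' / r * x ^ 2 + Real.sqrt K' * x ^ 2 := by
          have : x ≤ x ^ 2 := by nlinarith
          have h7 : 0 ≤ 2 * K' / r := by positivity
          have := mul_le_mul_of_nonneg_left this h7
          linarith
      _ = (2 * K' / r + Real.sqrt K') * x ^ 2 := by ring
  calc μ / 2 * (x * t + x * (S / t)) ≤
        μ / 2 * ((1 + ε) * r * x ^ 3 + (2 * K' / r + Real.sqrt K') * x ^ 2) :=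
        mul_le_mul_of_nonneg_left (add_le_add h5 h6) (by positivity)
    _ = _ := by ring

theorem UpC_B {μ x t r ε p d w l : ℝ} (hμ : 0 < μ) (hx : 1 ≤ x) (hp : 0 < p) (hε0 : 0 ≤ ε)
    (hε : ε ≤ 1 / 2) (ht2 : t ≤ (1 + ε) * r * x ^ 2) (hrp : r * p = d) (hd : 0 ≤ d)
    (hw : 0 ≤ w) (hl : 0 ≤ l) :
    t / (2 * x * μ) * (p + x ^ 2 * p * (w * l)) ≤
      (1 + ε) * (d * l / 2 * (w * (1 / μ))) * x ^ 3 + d / μ * x ^ 2 := by
  have hx0 : 0 < x := by linarith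
  have h1 : t * p ≤ (1 + ε) * d * x ^ 2 := by
    calc t * p ≤ (1 + ε) * r * x ^ 2 * p := mul_le_mul_of_nonneg_right ht2 hp.le
      _ = (1 + ε) * d * x ^ 2 := by rw [← hrp]; ring
  have e1 : t / (2 * x * μ) * (p + x ^ 2 * p * (w * l)) =
      t * p * ((1 + x ^ 2 * (w * l)) / (2 * x * μ)) := by
    field_simp
  rw [e1]
  have h2 : 0 ≤ (1 + x ^ 2 * (w * l)) / (2 * x * μ) := by positivity
  calc t * p * ((1 + x ^ 2 * (w * l)) / (2 * x * μ)) ≤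
        (1 + ε) * d * x ^ 2 * ((1 + x ^ 2 * (w * l)) / (2 * x * μ)) :=
        mul_le_mul_of_nonneg_right h1 h2
    _ = (1 + ε) * (d * l / 2 * (w * (1 / μ))) * x ^ 3 + (1 + ε) / 2 * (d / μ) * x := by
        field_simp
        ring
    _ ≤ (1 + ε) * (d * l / 2 * (w * (1 / μ))) * x ^ 3 + d / μ * x ^ 2 := by
        have h3 : 0 ≤ d / μ := by positivity
        have h4 : (1 + ε) / 2 * (d / μ) * x ≤ d / μ * x ^ 2 := by
          have h5 : (1 + ε) / 2 ≤ 1 := by linarith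
          have h6 : x ≤ x ^ 2 := by nlinarith
          calc (1 + ε) / 2 * (d / μ) * x ≤ 1 * (d / μ) * x :=
                mul_le_mul_of_nonneg_right (mul_le_mul_of_nonneg_right h5 h3) hx0.le
            _ = d / μ * x := by ring
            _ ≤ d / μ * x ^ 2 := mul_le_mul_of_nonneg_left h6 h3
        linarith

theorem UpC_C {x t t' r r' ε p p' d c v : ℝ} (hc : 0 < c) (hx : 1 ≤ x) (hp : 0 < p)
    (hp' : 0 < p') (hε0 : 0 ≤ ε) (ht0' : 0 ≤ t')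
    (ht2 : t ≤ (1 + ε) * r * x ^ 2) (ht2' : t' ≤ (1 + ε) * r' * x ^ 2)
    (hrp : r * p = d) (hrp' : r' * p' = d) (hd : 0 ≤ d) (hv : 0 < v) :
    p * p' * t * t' / (8 * x * (c * v)) ≤ (1 + ε) ^ 2 * (d ^ 2 / (8 * c) * (1 / v)) * x ^ 3 := by
  have hx0 : 0 < x := by linarith
  have h1 : t * p ≤ (1 + ε) * d * x ^ 2 := by
    calc t * p ≤ (1 + ε) * r * x ^ 2 * p := mul_le_mul_of_nonneg_right ht2 hp.le
      _ = (1 + ε) * d * x ^ 2 := by rw [← hrp]; ring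
  have h1' : t' * p' ≤ (1 + ε) * d * x ^ 2 := by
    calc t' * p' ≤ (1 + ε) * r' * x ^ 2 * p' := mul_le_mul_of_nonneg_right ht2' hp'.le
      _ = (1 + ε) * d * x ^ 2 := by rw [← hrp']; ring
  have h2 : (t * p) * (t' * p') ≤ ((1 + ε) * d * x ^ 2) * ((1 + ε) * d * x ^ 2) :=
    mul_le_mul h1 h1' (mul_nonneg ht0' hp'.le) (by positivity)
  rw [div_le_iff₀ (by positivity)]
  calc p * p' * t * t' = (t * p) * (t' * p') := by ring
    _ ≤ ((1 + ε) * d * x ^ 2) * ((1 + ε) * d * x ^ 2) := h2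
    _ = (1 + ε) ^ 2 * (d ^ 2 / (8 * c) * (1 / v)) * x ^ 3 * (8 * x * (c * v)) := by
        field_simp

/-- From `weighted` with `μ k = c0 ρ^(2k/3)`, `ty_card`, `type_apriori` (which makes the second part
of the first sum `O(N)`) and the geometric series
`∑ ρ^(-k/3) ≤ 1/(1 - ρ^(-1/3))`, `∑ (k+1) ρ^(-2k/3) ≤ 1/(1 - ρ^(-2/3))^2`. -/
theorem ex_le_GG (K : ℕ) {ρ : ℝ} (hρ : 1 < ρ) {ε : ℝ} (hε : 0 < ε) : ∀ᶠ N : ℕ in atTop,
    (ex K N : ℝ) ≤ (GG ρ + ε) * (N : ℝ) ^ ((3 : ℝ) / 2) := by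
  obtain ⟨R, hR⟩ : ∃ R : ℕ, (K : ℝ) ≤ ρ ^ R :=
    (pow_unbounded_of_one_lt (K : ℝ) hρ).imp fun _ h => h.le
  have hρ0 : 0 < ρ := by linarith
  obtain ⟨s, hs1, hs3⟩ : ∃ s : ℝ, 1 < s ∧ s ^ 3 = ρ := by
    refine ⟨ρ ^ ((1 : ℝ) / 3), Real.one_lt_rpow hρ (by norm_num), ?_⟩
    rw [← Real.rpow_natCast, ← Real.rpow_mul hρ0.le]
    norm_num
  have hs0 : 0 < s := by linarith
  have hq1 : ρ ^ (-(1 : ℝ) / 3) = s⁻¹ := by
    rw [← hs3, ← Real.rpow_natCast, ← Real.rpow_mul hs0.le, ← Real.rpow_neg_one]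
    norm_num
  have hq2 : ρ ^ (-(2 : ℝ) / 3) = (s⁻¹) ^ 2 := by
    rw [← hs3, ← Real.rpow_natCast, ← Real.rpow_mul hs0.le, inv_pow, ← Real.rpow_natCast s 2,
      ← Real.rpow_neg hs0.le]
    norm_num
  have hq0 : 0 < s⁻¹ := inv_pos.2 hs0
  have hqlt : s⁻¹ < 1 := inv_lt_one_of_one_lt₀ hs1
  have hc0 : 0 < c0 := Real.sqrt_pos.2 (by norm_num)
  have hd : 0 ≤ ρ - 1 := by linarith
  have hlog : 0 ≤ Real.log ρ := Real.log_nonneg hρ.le
  set μ : ℕ → ℝ := fun k => c0 * (s ^ k * s ^ k) with hμdef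
  have hμ : ∀ k, 0 < μ k := fun k => by
    have : 0 < s ^ k := pow_pos hs0 k
    positivity
  set G1 : ℝ := c0 / 2 * (ρ - 1) / (ρ * (1 - s⁻¹)) with hG1
  set G2 : ℝ := (ρ - 1) * Real.log ρ / (2 * c0 * (1 - s⁻¹ ^ 2) ^ 2) with hG2
  set G3 : ℝ := (ρ - 1) ^ 2 / (8 * c0 * (1 - s⁻¹) ^ 2) with hG3
  have hGG : GG ρ = G1 + G2 + G3 := by
    rw [GG, hq1, hq2]
  have h1q : 0 < 1 - s⁻¹ := by linarith
  have hqq : s⁻¹ ^ 2 < 1 := pow_lt_one₀ hq0.le hqlt (by norm_num)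
  have h1qq : 0 < 1 - s⁻¹ ^ 2 := by linarith
  have hG10 : 0 ≤ G1 := by positivity
  have hG20 : 0 ≤ G2 := by positivity
  have hG30 : 0 ≤ G3 := by positivity
  -- choice of the small parameter
  obtain ⟨e, he0, he2, heG⟩ : ∃ e : ℝ, 0 < e ∧ e ≤ 1 / 2 ∧
      (1 + e) ^ 2 * (G1 + G2 + G3) ≤ (G1 + G2 + G3) + ε / 2 := by
    refine ⟨min (1 / 2) (ε / (6 * (G1 + G2 + G3 + 1))), ?_, min_le_left _ _, ?_⟩
    · have : 0 < G1 + G2 + G3 + 1 := by positivity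
      exact lt_min (by norm_num) (by positivity)
    · set G := G1 + G2 + G3 with hG
      have hG0 : 0 ≤ G := by positivity
      set e := min (1 / 2) (ε / (6 * (G + 1))) with he
      have he0 : 0 < e := lt_min (by norm_num) (by positivity)
      have he1 : e ≤ 1 / 2 := min_le_left _ _
      have he2 : e * (6 * (G + 1)) ≤ ε := by
        have : e ≤ ε / (6 * (G + 1)) := min_le_right _ _
        rwa [le_div_iff₀ (by positivity)] at this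
      have h3 : (1 + e) ^ 2 ≤ 1 + 3 * e := by nlinarith
      have h4 : (1 + e) ^ 2 * G ≤ (1 + 3 * e) * G := mul_le_mul_of_nonneg_right h3 hG0
      nlinarith
  set DA : ℝ := ∑ k ∈ Finset.range R, μ k / 2 *
    (2 * (((K : ℝ) + 1) * K) / ((ρ - 1) / ρ ^ (k + 1)) + Real.sqrt (((K : ℝ) + 1) * K)) with hDA
  set DB : ℝ := ∑ k ∈ Finset.range R, (ρ - 1) / μ k with hDB
  have hty := ty_card ρ hρ R he0
  have hlarge : ∀ᶠ N : ℕ in atTop, (2 * (DA + DB) / ε) ^ 2 ≤ (N : ℝ) :=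
    (tendsto_natCast_atTop_atTop (R := ℝ)).eventually_ge_atTop _
  filter_upwards [hty, hlarge, eventually_ge_atTop 1] with N hN1 hN2 hN3
  have hNR : (1 : ℝ) ≤ N := by exact_mod_cast hN3
  obtain ⟨m, hm, hme⟩ := exists_ex K N
  set x := Real.sqrt N with hx
  have hx1 : 1 ≤ x := by
    rw [hx, Real.one_le_sqrt]
    exact hNR
  have hx0 : 0 < x := by linarith
  have hxx : x ^ 2 = N := Real.sq_sqrt (by positivity)
  have hr : ∀ k : ℕ, 0 < (ρ - 1) / ρ ^ (k + 1) := fun k =>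
    div_pos (by linarith) (pow_pos hρ0 _)
  have hlow : ∀ k < R, (1 - e) * ((ρ - 1) / ρ ^ (k + 1)) * x ^ 2 ≤ (ty ρ N k).card := by
    intro k hk
    rw [hxx]
    exact (hN1 k hk).2
  have hupp : ∀ k < R, ((ty ρ N k).card : ℝ) ≤ (1 + e) * ((ρ - 1) / ρ ^ (k + 1)) * x ^ 2 := by
    intro k hk
    rw [hxx]
    exact (hN1 k hk).1
  have hne : ∀ k < R, (ty ρ N k).Nonempty := by
    intro k hk
    rw [← Finset.card_pos]
    have h1 : (0 : ℝ) < (1 - e) * ((ρ - 1) / ρ ^ (k + 1)) * x ^ 2 := by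
      have h2 := hr k
      have h3 : 0 < 1 - e := by linarith
      positivity
    have h2 := lt_of_lt_of_le h1 (hlow k hk)
    exact_mod_cast h2
  have hw := weighted hm hρ hR hN3 μ hμ hne
  rw [hme] at hw
  have hA : ∑ k ∈ Finset.range R, μ k * (Real.sqrt N / (2 * (ty ρ N k).card)) *
        ((ty ρ N k).card ^ 2 +
          ((∑ j ∈ Finset.range (K * N + 1), ∑ a ∈ Finset.Icc 1 K,
            dg m (ty ρ N k) j a : ℕ) : ℝ)) ≤ (1 + e) * G1 * x ^ 3 + DA * x ^ 2 := by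
    have h1 : ∀ k ∈ Finset.range R, μ k * (Real.sqrt N / (2 * (ty ρ N k).card)) *
        ((ty ρ N k).card ^ 2 +
          ((∑ j ∈ Finset.range (K * N + 1), ∑ a ∈ Finset.Icc 1 K,
            dg m (ty ρ N k) j a : ℕ) : ℝ)) ≤
        (1 + e) * (c0 / 2 * (ρ - 1) / ρ * s⁻¹ ^ k) * x ^ 3 + μ k / 2 *
          (2 * (((K : ℝ) + 1) * K) / ((ρ - 1) / ρ ^ (k + 1)) +
            Real.sqrt (((K : ℝ) + 1) * K)) * x ^ 2 := by
      intro k hk
      have hk' := Finset.mem_range.1 hk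
      have h2 := UpC_A (μ := μ k) (x := x) (t := ((ty ρ N k).card : ℝ))
        (S := ((∑ j ∈ Finset.range (K * N + 1), ∑ a ∈ Finset.Icc 1 K,
            dg m (ty ρ N k) j a : ℕ) : ℝ)) (P := ((K * N + 1) * K : ℝ))
        (K' := ((K : ℝ) + 1) * K) (r := (ρ - 1) / ρ ^ (k + 1)) (ε := e) (hμ k) hx1 (hr k) he2
        (hlow k hk') (hupp k hk') (by positivity) (type_apriori hm _) (by
          rw [hxx]
          have hK0 : (0 : ℝ) ≤ K := Nat.cast_nonneg K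
          have : (K * N + 1 : ℝ) ≤ (K + 1) * N := by nlinarith
          calc ((K * N + 1) * K : ℝ) ≤ ((K + 1) * N) * K := mul_le_mul_of_nonneg_right this hK0
            _ = ((K : ℝ) + 1) * K * N := by ring)
      have h3 : μ k * ((ρ - 1) / ρ ^ (k + 1)) / 2 = c0 / 2 * (ρ - 1) / ρ * s⁻¹ ^ k := by
        have hsk : s ^ k ≠ 0 := pow_ne_zero _ hs0.ne'
        have h4 : ρ ^ (k + 1) = s ^ k * s ^ k * s ^ k * ρ := by
          rw [pow_succ, ← hs3]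
          ring
        rw [h4, inv_pow]
        simp only [hμdef]
        field_simp
      rw [h3] at h2
      exact h2
    refine (Finset.sum_le_sum h1).trans ?_
    rw [Finset.sum_add_distrib, ← Finset.sum_mul, ← Finset.sum_mul, ← Finset.mul_sum,
      ← Finset.mul_sum]
    have h5 := UpC_geom hq0.le hqlt R
    have h6 : c0 / 2 * (ρ - 1) / ρ * ∑ k ∈ Finset.range R, s⁻¹ ^ k ≤ G1 := by
      calc c0 / 2 * (ρ - 1) / ρ * ∑ k ∈ Finset.range R, s⁻¹ ^ k ≤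
            c0 / 2 * (ρ - 1) / ρ * (1 / (1 - s⁻¹)) :=
            mul_le_mul_of_nonneg_left h5 (by positivity)
        _ = G1 := by rw [hG1]; field_simp
    have h7 : (1 + e) * (c0 / 2 * (ρ - 1) / ρ * ∑ k ∈ Finset.range R, s⁻¹ ^ k) * x ^ 3 ≤
        (1 + e) * G1 * x ^ 3 := by
      have : 0 ≤ 1 + e := by linarith
      exact mul_le_mul_of_nonneg_right (mul_le_mul_of_nonneg_left h6 this) (by positivity)
    exact add_le_add h7 le_rfl
  have hB : ∑ k ∈ Finset.range R, (ty ρ N k).card / (2 * Real.sqrt N * μ k) *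
        (ρ ^ (k + 1) + N * ρ ^ (k + 1) * ((k + 1) * Real.log ρ)) ≤
        (1 + e) * G2 * x ^ 3 + DB * x ^ 2 := by
    have h1 : ∀ k ∈ Finset.range R, (ty ρ N k).card / (2 * Real.sqrt N * μ k) *
        (ρ ^ (k + 1) + N * ρ ^ (k + 1) * ((k + 1) * Real.log ρ)) ≤
        (1 + e) * ((ρ - 1) * Real.log ρ / (2 * c0) * (((k : ℝ) + 1) * (s⁻¹ ^ 2) ^ k)) * x ^ 3 +
          (ρ - 1) / μ k * x ^ 2 := by
      intro k hk
      have hk' := Finset.mem_range.1 hk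
      have hrp : (ρ - 1) / ρ ^ (k + 1) * ρ ^ (k + 1) = ρ - 1 :=
        div_mul_cancel₀ _ (pow_ne_zero _ hρ0.ne')
      have h2 := UpC_B (μ := μ k) (x := x) (t := ((ty ρ N k).card : ℝ))
        (r := (ρ - 1) / ρ ^ (k + 1)) (ε := e) (p := ρ ^ (k + 1)) (d := ρ - 1)
        (w := (k : ℝ) + 1) (l := Real.log ρ) (hμ k) hx1 (pow_pos hρ0 _) he0.le he2
        (hupp k hk') hrp hd (by positivity) hlog
      have h3 : (ρ - 1) * Real.log ρ / 2 * (((k : ℝ) + 1) * (1 / μ k)) =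
          (ρ - 1) * Real.log ρ / (2 * c0) * (((k : ℝ) + 1) * (s⁻¹ ^ 2) ^ k) := by
        have hsk : s ^ k ≠ 0 := pow_ne_zero _ hs0.ne'
        have h4 : (s⁻¹ ^ 2) ^ k = (s ^ k)⁻¹ * (s ^ k)⁻¹ := by
          rw [← pow_mul, mul_comm 2 k, pow_mul, inv_pow]
          ring
        rw [h4]
        simp only [hμdef]
        field_simp
      rw [h3] at h2
      calc ((ty ρ N k).card : ℝ) / (2 * Real.sqrt N * μ k) *
            (ρ ^ (k + 1) + N * ρ ^ (k + 1) * ((k + 1) * Real.log ρ)) =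
            (ty ρ N k).card / (2 * x * μ k) *
            (ρ ^ (k + 1) + x ^ 2 * ρ ^ (k + 1) * ((k + 1) * Real.log ρ)) := by rw [hxx]
        _ ≤ _ := h2
    refine (Finset.sum_le_sum h1).trans ?_
    rw [Finset.sum_add_distrib, ← Finset.sum_mul, ← Finset.sum_mul, ← Finset.mul_sum,
      ← Finset.mul_sum]
    have h5 := UpC_geom2 (x := s⁻¹ ^ 2) (by positivity) hqq R
    have h6 : (ρ - 1) * Real.log ρ / (2 * c0) *
        ∑ k ∈ Finset.range R, ((k : ℝ) + 1) * (s⁻¹ ^ 2) ^ k ≤ G2 := by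
      calc (ρ - 1) * Real.log ρ / (2 * c0) *
            ∑ k ∈ Finset.range R, ((k : ℝ) + 1) * (s⁻¹ ^ 2) ^ k ≤
            (ρ - 1) * Real.log ρ / (2 * c0) * (1 / (1 - s⁻¹ ^ 2) ^ 2) :=
            mul_le_mul_of_nonneg_left h5 (by positivity)
        _ = G2 := by rw [hG2]; field_simp
    have h7 : (1 + e) * ((ρ - 1) * Real.log ρ / (2 * c0) *
        ∑ k ∈ Finset.range R, ((k : ℝ) + 1) * (s⁻¹ ^ 2) ^ k) * x ^ 3 ≤
        (1 + e) * G2 * x ^ 3 := by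
      have : 0 ≤ 1 + e := by linarith
      exact mul_le_mul_of_nonneg_right (mul_le_mul_of_nonneg_left h6 this) (by positivity)
    exact add_le_add h7 le_rfl
  have hC : ∑ k ∈ Finset.range R, ∑ l ∈ Finset.range R,
        ρ ^ (k + l + 2) * (ty ρ N k).card * (ty ρ N l).card /
          (8 * Real.sqrt N * Real.sqrt (μ k * μ l)) ≤ (1 + e) ^ 2 * G3 * x ^ 3 := by
    have h1 : ∀ k ∈ Finset.range R, ∀ l ∈ Finset.range R,
        ρ ^ (k + l + 2) * (ty ρ N k).card * (ty ρ N l).card /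
          (8 * Real.sqrt N * Real.sqrt (μ k * μ l)) ≤
        (1 + e) ^ 2 * ((ρ - 1) ^ 2 / (8 * c0)) * x ^ 3 * (s⁻¹ ^ k * s⁻¹ ^ l) := by
      intro k hk l hl
      have hk' := Finset.mem_range.1 hk
      have hl' := Finset.mem_range.1 hl
      have hrp : ∀ k : ℕ, (ρ - 1) / ρ ^ (k + 1) * ρ ^ (k + 1) = ρ - 1 := fun k =>
        div_mul_cancel₀ _ (pow_ne_zero _ hρ0.ne')
      have hsk : 0 < s ^ k := pow_pos hs0 k
      have hsl : 0 < s ^ l := pow_pos hs0 l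
      have h2 := UpC_C (x := x) (t := ((ty ρ N k).card : ℝ)) (t' := ((ty ρ N l).card : ℝ))
        (r := (ρ - 1) / ρ ^ (k + 1)) (r' := (ρ - 1) / ρ ^ (l + 1)) (ε := e)
        (p := ρ ^ (k + 1)) (p' := ρ ^ (l + 1)) (d := ρ - 1) (c := c0) (v := s ^ k * s ^ l)
        hc0 hx1 (pow_pos hρ0 _) (pow_pos hρ0 _) he0.le (Nat.cast_nonneg _)
        (hupp k hk') (hupp l hl') (hrp k) (hrp l) hd (mul_pos hsk hsl)
      have h3 : Real.sqrt (μ k * μ l) = c0 * (s ^ k * s ^ l) := by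
        have : μ k * μ l = (c0 * (s ^ k * s ^ l)) ^ 2 := by
          simp only [hμdef]
          ring
        rw [this, Real.sqrt_sq (by positivity)]
      have h4 : ρ ^ (k + l + 2) = ρ ^ (k + 1) * ρ ^ (l + 1) := by
        rw [← pow_add]
        congr 1
        ring
      rw [h3, h4]
      refine h2.trans (le_of_eq ?_)
      rw [inv_pow, inv_pow]
      field_simp
    refine (Finset.sum_le_sum fun k hk => Finset.sum_le_sum fun l hl => h1 k hk l hl).trans ?_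
    have h2 : ∑ k ∈ Finset.range R, ∑ l ∈ Finset.range R,
        (1 + e) ^ 2 * ((ρ - 1) ^ 2 / (8 * c0)) * x ^ 3 * (s⁻¹ ^ k * s⁻¹ ^ l) =
        (1 + e) ^ 2 * ((ρ - 1) ^ 2 / (8 * c0)) * x ^ 3 *
          ((∑ k ∈ Finset.range R, s⁻¹ ^ k) * (∑ l ∈ Finset.range R, s⁻¹ ^ l)) := by
      rw [Finset.sum_mul_sum, Finset.mul_sum]
      refine Finset.sum_congr rfl fun k _ => ?_
      rw [Finset.mul_sum]
    rw [h2]
    have h5 := UpC_geom hq0.le hqlt R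
    have h50 : 0 ≤ ∑ k ∈ Finset.range R, s⁻¹ ^ k :=
      Finset.sum_nonneg fun k _ => pow_nonneg hq0.le k
    have h6 : (∑ k ∈ Finset.range R, s⁻¹ ^ k) * (∑ l ∈ Finset.range R, s⁻¹ ^ l) ≤
        1 / (1 - s⁻¹) * (1 / (1 - s⁻¹)) := mul_le_mul h5 h5 h50 (by positivity)
    calc (1 + e) ^ 2 * ((ρ - 1) ^ 2 / (8 * c0)) * x ^ 3 *
          ((∑ k ∈ Finset.range R, s⁻¹ ^ k) * (∑ l ∈ Finset.range R, s⁻¹ ^ l)) ≤
          (1 + e) ^ 2 * ((ρ - 1) ^ 2 / (8 * c0)) * x ^ 3 *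
            (1 / (1 - s⁻¹) * (1 / (1 - s⁻¹))) :=
          mul_le_mul_of_nonneg_left h6 (by positivity)
      _ = (1 + e) ^ 2 * G3 * x ^ 3 := by
          rw [hG3]
          field_simp
  have hx3 : (N : ℝ) ^ ((3 : ℝ) / 2) = x ^ 3 := by
    rw [← hxx, ← Real.rpow_natCast x 2, ← Real.rpow_mul hx0.le, ← Real.rpow_natCast x 3]
    norm_num
  rw [hx3, hGG]
  have hDx : (DA + DB) * x ^ 2 ≤ ε / 2 * x ^ 3 := by
    have h1 : 2 * (DA + DB) / ε ≤ x := by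
      rw [hx]
      exact Real.le_sqrt_of_sq_le hN2
    have h2 : DA + DB ≤ ε / 2 * x := by
      rw [div_le_iff₀ hε] at h1
      linarith
    calc (DA + DB) * x ^ 2 ≤ ε / 2 * x * x ^ 2 := mul_le_mul_of_nonneg_right h2 (by positivity)
      _ = ε / 2 * x ^ 3 := by ring
  have hx30 : 0 ≤ x ^ 3 := by positivity
  have hpp : (1 + e) * (G1 + G2) ≤ (1 + e) ^ 2 * (G1 + G2) := by
    refine mul_le_mul_of_nonneg_right ?_ (add_nonneg hG10 hG20)
    nlinarith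
  have hfin : (ex K N : ℝ) ≤ ((1 + e) ^ 2 * (G1 + G2 + G3)) * x ^ 3 + (DA + DB) * x ^ 2 := by
    calc (ex K N : ℝ) ≤ ((1 + e) * G1 * x ^ 3 + DA * x ^ 2) + ((1 + e) * G2 * x ^ 3 + DB * x ^ 2) +
          (1 + e) ^ 2 * G3 * x ^ 3 := hw.trans (add_le_add (add_le_add hA hB) hC)
      _ = ((1 + e) * (G1 + G2) + (1 + e) ^ 2 * G3) * x ^ 3 + (DA + DB) * x ^ 2 := by ring
      _ ≤ ((1 + e) ^ 2 * (G1 + G2) + (1 + e) ^ 2 * G3) * x ^ 3 + (DA + DB) * x ^ 2 :=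
          add_le_add (mul_le_mul_of_nonneg_right (add_le_add hpp le_rfl) hx30) le_rfl
      _ = _ := by ring
  calc (ex K N : ℝ) ≤ ((1 + e) ^ 2 * (G1 + G2 + G3)) * x ^ 3 + (DA + DB) * x ^ 2 := hfin
    _ ≤ ((G1 + G2 + G3) + ε / 2) * x ^ 3 + ε / 2 * x ^ 3 :=
        add_le_add (mul_le_mul_of_nonneg_right heG hx30) hDx
    _ = (G1 + G2 + G3 + ε) * x ^ 3 := by ring

theorem UpC_slope (θ : ℝ) : Tendsto (fun ρ : ℝ => (1 - ρ ^ θ) / (ρ - 1)) (𝓝[>] 1) (𝓝 (-θ)) := by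
  have h1 : HasDerivAt (fun ρ : ℝ => ρ ^ θ) θ 1 := by
    have := Real.hasDerivAt_rpow_const (x := (1 : ℝ)) (p := θ) (Or.inl one_ne_zero)
    simpa using this
  have h2 := (hasDerivAt_iff_tendsto_slope.1 h1).neg
  have h3 : Tendsto (fun ρ : ℝ => -slope (fun ρ : ℝ => ρ ^ θ) 1 ρ) (𝓝[>] 1) (𝓝 (-θ)) :=
    h2.mono_left (nhdsWithin_mono _ fun x hx => ne_of_gt hx)
  refine h3.congr' ?_
  filter_upwards [self_mem_nhdsWithin] with ρ hρ
  have hρ' : ρ - 1 ≠ 0 := sub_ne_zero.2 (ne_of_gt hρ)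
  rw [slope_def_field, Real.one_rpow]
  field_simp
  ring

theorem UpC_log : Tendsto (fun ρ : ℝ => Real.log ρ / (ρ - 1)) (𝓝[>] 1) (𝓝 1) := by
  have h1 : HasDerivAt Real.log 1 1 := by
    have := Real.hasDerivAt_log (x := (1 : ℝ)) one_ne_zero
    simpa using this
  have h3 : Tendsto (fun ρ : ℝ => slope Real.log 1 ρ) (𝓝[>] 1) (𝓝 1) :=
    (hasDerivAt_iff_tendsto_slope.1 h1).mono_left (nhdsWithin_mono _ fun x hx => ne_of_gt hx)
  refine h3.congr' ?_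
  filter_upwards with ρ
  rw [slope_def_field, Real.log_one, sub_zero]

theorem GG_tendsto : Tendsto GG (𝓝[>] 1) (𝓝 (Real.sqrt (27 / 2))) := by
  have hc0 : 0 < c0 := Real.sqrt_pos.2 (by norm_num)
  have hc2 : c0 ^ 2 = 3 / 2 := Real.sq_sqrt (by norm_num)
  have ha := UpC_slope (-(1 : ℝ) / 3)
  have hb := UpC_slope (-(2 : ℝ) / 3)
  have hl := UpC_log
  have hr : Tendsto (fun ρ : ℝ => ρ) (𝓝[>] 1) (𝓝 1) := tendsto_nhdsWithin_of_tendsto_nhds tendsto_id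
  have h1 : Tendsto (fun ρ : ℝ => c0 / 2 / (ρ * ((1 - ρ ^ (-(1 : ℝ) / 3)) / (ρ - 1))) +
      Real.log ρ / (ρ - 1) / (2 * c0 * ((1 - ρ ^ (-(2 : ℝ) / 3)) / (ρ - 1)) ^ 2) +
      1 / (8 * c0 * ((1 - ρ ^ (-(1 : ℝ) / 3)) / (ρ - 1)) ^ 2)) (𝓝[>] 1)
      (𝓝 (c0 / 2 / (1 * (-(-(1 : ℝ) / 3))) + 1 / (2 * c0 * (-(-(2 : ℝ) / 3)) ^ 2) +
        1 / (8 * c0 * (-(-(1 : ℝ) / 3)) ^ 2))) := by
    refine ((tendsto_const_nhds.div (hr.mul ha) ?_).add
      (hl.div (tendsto_const_nhds.mul (hb.pow 2)) ?_)).add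
      (tendsto_const_nhds.div (tendsto_const_nhds.mul (ha.pow 2)) ?_)
    · norm_num
    · have : (0 : ℝ) < 2 * c0 * (-(-(2 : ℝ) / 3)) ^ 2 := by norm_num; exact hc0
      exact this.ne'
    · have : (0 : ℝ) < 8 * c0 * (-(-(1 : ℝ) / 3)) ^ 2 := by norm_num; exact hc0
      exact this.ne'
  have h2 : c0 / 2 / (1 * (-(-(1 : ℝ) / 3))) + 1 / (2 * c0 * (-(-(2 : ℝ) / 3)) ^ 2) +
        1 / (8 * c0 * (-(-(1 : ℝ) / 3)) ^ 2) = Real.sqrt (27 / 2) := by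
    symm
    rw [Real.sqrt_eq_iff_mul_self_eq (by norm_num) (by positivity)]
    field_simp
    ring_nf
    have h4 : c0 ^ 4 = (3 / 2) ^ 2 := by rw [← hc2]; ring
    rw [h4, hc2]
    norm_num
  rw [h2] at h1
  refine h1.congr' ?_
  filter_upwards [self_mem_nhdsWithin] with ρ hρ
  have hρ1 : 1 < ρ := hρ
  have hρ0 : 0 < ρ := by linarith
  have hne : ρ - 1 ≠ 0 := (sub_pos.2 hρ1).ne'
  have hq : ρ ^ (-(1 : ℝ) / 3) < 1 := Real.rpow_lt_one_of_one_lt_of_neg hρ1 (by norm_num)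
  have hq2 : ρ ^ (-(2 : ℝ) / 3) < 1 := Real.rpow_lt_one_of_one_lt_of_neg hρ1 (by norm_num)
  have hqn : 1 - ρ ^ (-(1 : ℝ) / 3) ≠ 0 := (sub_pos.2 hq).ne'
  have hq2n : 1 - ρ ^ (-(2 : ℝ) / 3) ≠ 0 := (sub_pos.2 hq2).ne'
  rw [GG]
  generalize ρ ^ (-(1 : ℝ) / 3) = u at *
  generalize ρ ^ (-(2 : ℝ) / 3) = v at *
  field_simp

theorem ex_upper (K : ℕ) {ε : ℝ} (hε : 0 < ε) : ∀ᶠ N : ℕ in atTop,
    (ex K N : ℝ) / (N : ℝ) ^ ((3 : ℝ) / 2) ≤ Real.sqrt (27 / 2) + ε := by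
  have h1 : ∀ᶠ ρ in 𝓝[>] (1 : ℝ), GG ρ < Real.sqrt (27 / 2) + ε / 2 :=
    GG_tendsto.eventually_lt_const (by linarith)
  obtain ⟨ρ, hρG, hρ⟩ := (h1.and self_mem_nhdsWithin).exists
  have hρ1 : 1 < ρ := hρ
  filter_upwards [ex_le_GG K hρ1 (half_pos hε), eventually_ge_atTop 1] with N hN hN1
  have hN0 : (0 : ℝ) < N := by exact_mod_cast hN1
  have hpos : (0 : ℝ) < (N : ℝ) ^ ((3 : ℝ) / 2) := Real.rpow_pos_of_pos hN0 _
  rw [div_le_iff₀ hpos]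
  refine hN.trans (mul_le_mul_of_nonneg_right ?_ hpos.le)
  linarith

end Pool.Agent.W_764f34_h80
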