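import Pool.Agent.W_764f34_h80.Final
import Pool.Agent.W_764f34_h80.UpC
import Pool.Agent.W_764f34_h80.LowC

set_option autoImplicit false

/-! Explicit constants. -/

namespace Pool.Agent.W_764f34_h80

open N884ee30a Filter Topology

theorem explicit_bounds : ∀ ε : ℝ, 0 < ε → ∀ᶠ n : ℕ in atTop,
    4 * Real.sqrt 2 * Real.exp (-(3 : ℝ) / 4) - ε ≤ ratio n ∧ ratio n ≤ 6 * Real.sqrt 3 + ε := by
  intro ε hε
  have hs2 : 0 < Real.sqrt 2 := by positivity
  have h22 : Real.sqrt 2 * Real.sqrt 2 = 2 := Real.mul_self_sqrt (by norm_num)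
  have h1 := (lower_iff (4 * Real.sqrt 2 * Real.exp (-(3 : ℝ) / 4))).2 (fun e he => by
    have h3 : 4 * Real.sqrt 2 * Real.exp (-(3 : ℝ) / 4) / (2 * Real.sqrt 2) =
        2 * Real.exp (-(3 : ℝ) / 4) := by
      field_simp; ring
    rw [h3]
    exact ex_lower he) ε hε
  have h2 := (upper_iff (6 * Real.sqrt 3)).2 (fun e he K => by
    have h3 : 6 * Real.sqrt 3 / (2 * Real.sqrt 2) = Real.sqrt (27 / 2) := by
      rw [eq_comm, Real.sqrt_eq_iff_mul_self_eq (by norm_num) (by positivity)]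
      have h33 : Real.sqrt 3 * Real.sqrt 3 = 3 := Real.mul_self_sqrt (by norm_num)
      rw [div_mul_div_comm, show 6 * Real.sqrt 3 * (6 * Real.sqrt 3) =
        36 * (Real.sqrt 3 * Real.sqrt 3) by ring, h33,
        show 2 * Real.sqrt 2 * (2 * Real.sqrt 2) = 4 * (Real.sqrt 2 * Real.sqrt 2) by ring, h22]
      norm_num
    rw [h3]
    exact ex_upper K he) ε hε
  filter_upwards [h1, h2] with n hn1 hn2
  exact ⟨hn1, hn2⟩

end Pool.Agent.W_764f34_h80
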