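import Pool.Agent.W_764f34_h80.FinalAux

set_option autoImplicit false

/-! The reduction. -/

namespace Pool.Agent.W_764f34_h80

open N884ee30a Filter Topology

theorem x0_bounds : 0 < 1 / (2 * Real.sqrt 2) ∧ 1 / (2 * Real.sqrt 2) ≤ 1 ∧
    0 < 2 * Real.sqrt 2 ∧ 2 * Real.sqrt 2 ≤ 3 := by
  have h1 : 1 ≤ Real.sqrt 2 := by rw [Real.one_le_sqrt]; norm_num
  have h2 : Real.sqrt 2 ≤ 3 / 2 := by
    rw [Real.sqrt_le_left (by norm_num)]; norm_num
  refine ⟨by positivity, ?_, by positivity, by linarith⟩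
  rw [div_le_one (by positivity)]; linarith

theorem const_small (C : ℝ) {ε : ℝ} (hε : 0 < ε) : ∀ᶠ n : ℕ in atTop, C ≤ ε * scale n := by
  have := small_pow (θ := 0) (by norm_num) 0 (ε := ε) (C := C) hε
  filter_upwards [this] with n hn
  simpa using hn

theorem ext_eq (n : ℕ) (h : 2 ≤ n) :
    (pairProductExtremal n : ℝ) = Nat.primeCounting n + ratio n * scale n := by
  have := scale_pos h
  unfold ratio
  field_simp
  ring

/-- Lower bound for the ratio in terms of the labelled problem. -/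
theorem ratio_ge {K : ℕ} {t : ℝ} (ht : 0 < t) : ∃ d : ℝ, 0 < d ∧ ∀ δ : ℝ, 0 < δ → δ ≤ d →
    ∀ᶠ n : ℕ in atTop, ∀ N : ℕ, (1 - 2 * δ) * ss n ≤ N → (N : ℝ) ≤ (1 - δ) * ss n →
    (ex K N : ℝ) ≤ (ratio n + t) * scale n := by
  -- reduce K = 0 to an easy case
  rcases Nat.eq_zero_or_pos K with hK | hK
  · subst hK
    obtain ⟨d, hd, h⟩ := transfer_lower 1 le_rfl
    refine ⟨d, hd, fun δ h0 h1 => ?_⟩
    filter_upwards [h δ h0 h1, local_lower 2 ht, eventually_ge_atTop 2] with n hn hl h2 N hN1 hN2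
    obtain ⟨A, hA1, hA2, hA3, hA4⟩ := hn N hN1 hN2
    have h3 := hl A hA1 hA2 hA3
    rw [ext_eq n h2] at h3
    obtain ⟨m, hm, hme⟩ := exists_ex 0 N
    have h4 : ex 0 N = 0 := by
      rw [← hme]
      unfold edges
      rw [Finset.card_eq_zero, Finset.filter_eq_empty_iff]
      rintro ⟨i, j⟩ hp ⟨-, h6⟩
      exact h6 (Nat.le_zero.1 (hm.label i j))
    rw [h4]
    have h7 : (0 : ℝ) ≤ A.card := Nat.cast_nonneg _
    push_cast
    nlinarith
  · obtain ⟨d, hd, h⟩ := transfer_lower K hK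
    refine ⟨d, hd, fun δ h0 h1 => ?_⟩
    filter_upwards [h δ h0 h1, local_lower (K + 1) ht, eventually_ge_atTop 2]
      with n hn hl h2 N hN1 hN2
    obtain ⟨A, hA1, hA2, hA3, hA4⟩ := hn N hN1 hN2
    have h3 := hl A hA1 hA2 hA3
    rw [ext_eq n h2] at h3
    have h7 : (ex K N : ℝ) ≤ A.card := by exact_mod_cast hA4
    nlinarith

/-- Upper bound for the ratio in terms of the labelled problem. -/
theorem ratio_le {t : ℝ} (ht : 0 < t) : ∀ᶠ K : ℕ in atTop, ∃ d : ℝ, 0 < d ∧ ∀ δ : ℝ, 0 < δ →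
    δ ≤ d → ∀ᶠ n : ℕ in atTop, ∀ N : ℕ, (1 + δ) * ss n ≤ N → (N : ℝ) ≤ (1 + 2 * δ) * ss n →
    (ratio n - t) * scale n ≤ ex K N := by
  classical
  have h1 := local_upper (ε := t / 2) (by positivity)
  obtain ⟨K0, hK0⟩ := eventually_atTop.1 h1
  filter_upwards [eventually_ge_atTop (K0 + 2)] with K hK
  obtain ⟨K', rfl⟩ : ∃ K', K = K' + 1 := ⟨K - 1, by omega⟩
  obtain ⟨d, hd, h⟩ := transfer_upper K' (by omega)
  refine ⟨d, hd, fun δ h0 h1 => ?_⟩
  filter_upwards [h δ h0 h1, hK0 K' (by omega), eventually_ge_atTop 2,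
    const_small ((K' : ℝ) ^ 2) (ε := t / 2) (by positivity)] with n hn hl h2 h3 N hN1 hN2
  obtain ⟨A, hA1, hA2, hA3⟩ := exists_extremal n
  have h4 := hl A hA1 hA2
  rw [hA3, ext_eq n h2] at h4
  have h5 := hn N hN1 hN2 (A.filter (fun a => Core K' n a))
    ((Finset.filter_subset _ _).trans hA1) ?_ ?_
  · have h6 : ((A.filter (fun a => Core K' n a)).card : ℝ) ≤ ex (K' + 1) N + (K' : ℝ) ^ 2 := by
      exact_mod_cast h5
    nlinarith
  · intro a b c d ha hb hc hd
    exact hA2 (Finset.mem_filter.1 ha).1 (Finset.mem_filter.1 hb).1 (Finset.mem_filter.1 hc).1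
      (Finset.mem_filter.1 hd).1
  · intro a ha
    exact (Finset.mem_filter.1 ha).2

theorem low_abs {t s N : ℝ} (hs : 0 ≤ s) (ht : 0 ≤ t) (h1 : (1 - 2 * t) * s ≤ N)
    (h2 : N ≤ (1 - t) * s) : |N - s| ≤ (2 * t) * s := by
  rw [abs_le]; constructor <;> nlinarith [mul_nonneg ht hs]

theorem high_abs {t s N : ℝ} (hs : 0 ≤ s) (ht : 0 ≤ t) (h1 : (1 + t) * s ≤ N)
    (h2 : N ≤ (1 + 2 * t) * s) : |N - s| ≤ (2 * t) * s := by
  rw [abs_le]; constructor <;> nlinarith [mul_nonneg ht hs]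

theorem upper_iff (c : ℝ) : (∀ ε : ℝ, 0 < ε → ∀ᶠ n : ℕ in atTop, ratio n ≤ c + ε) ↔
    (∀ ε : ℝ, 0 < ε → ∀ K : ℕ, ∀ᶠ N : ℕ in atTop, lab K N ≤ c / (2 * Real.sqrt 2) + ε) := by
  obtain ⟨b1, b2, b3, b4⟩ := x0_bounds
  set x0 : ℝ := 1 / (2 * Real.sqrt 2) with hx0
  have hcx : c / (2 * Real.sqrt 2) = c * x0 := by rw [hx0]; ring
  constructor
  · intro H ε hε K
    -- parameters
    set t : ℝ := min (ε / 8) 1 with ht
    have ht0 : 0 < t := by rw [ht]; positivity
    have ht8 : t ≤ ε / 8 := min_le_left _ _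
    set η : ℝ := min (ε / (4 * (|c| + 1))) 1 with hη
    have hc1 : 0 < |c| + 1 := by positivity
    have hη0 : 0 < η := by rw [hη]; positivity
    have hη1 : η ≤ 1 := min_le_right _ _
    have hη2 : |c| * η ≤ ε / 4 := by
      have h1 : η ≤ ε / (4 * (|c| + 1)) := min_le_left _ _
      have h2 : |c| * η ≤ (|c| + 1) * (ε / (4 * (|c| + 1))) :=
        mul_le_mul (by linarith) h1 hη0.le hc1.le
      refine h2.trans (le_of_eq ?_)
      field_simp
    obtain ⟨t0, ht00, hclose⟩ := close_ratio hη0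
    obtain ⟨d, hd, hge⟩ := ratio_ge (K := K) ht0
    set δ : ℝ := min (min (t0 / 2) d) (1 / 4) with hδ
    have hδ0 : 0 < δ := by rw [hδ]; positivity
    have hδ1 : δ ≤ t0 / 2 := (min_le_left _ _).trans (min_le_left _ _)
    have hδ2 : δ ≤ d := (min_le_left _ _).trans (min_le_right _ _)
    have hδ3 : δ ≤ 1 / 4 := min_le_right _ _
    obtain ⟨n0, hn0⟩ := eventually_atTop.1 ((hclose.and (hge δ hδ0 hδ2)).and
      ((H t ht0).and (eventually_ge_atTop 2)))
    filter_upwards [choose_low hδ0 hδ3 n0] with N hN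
    obtain ⟨n, hn, hN1, hN2⟩ := hN
    obtain ⟨⟨hcl, hg⟩, hr, h2⟩ := hn0 n hn
    have hss : (0 : ℝ) ≤ ss n := Nat.cast_nonneg _
    obtain ⟨-, hx, hNp⟩ := hcl N ((low_abs hss hδ0.le hN1 hN2).trans (by nlinarith))
    have hex := hg N hN1 hN2
    have hsc := scale_pos h2
    have hNpow : 0 < (N : ℝ) ^ ((3 : ℝ) / 2) := by positivity
    have hlab : lab K N ≤ (ratio n + t) * (scale n / (N : ℝ) ^ ((3 : ℝ) / 2)) := by
      unfold lab
      rw [mul_div_assoc']
      exact div_le_div_of_nonneg_right hex hNpow.le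
    set x : ℝ := scale n / (N : ℝ) ^ ((3 : ℝ) / 2) with hxdef
    have hx0' : 0 ≤ x := by rw [hxdef]; positivity
    have habs := abs_le.1 hx
    rw [hcx]
    have h3 : (ratio n + t) * x ≤ (c + 2 * t) * x :=
      mul_le_mul_of_nonneg_right (by linarith) hx0'
    have h4 : (c + 2 * t) * x = c * x0 + c * (x - x0) + 2 * t * x := by ring
    have h5 : c * (x - x0) ≤ |c| * η := by
      refine (le_abs_self _).trans ?_
      rw [abs_mul]
      exact mul_le_mul_of_nonneg_left hx (abs_nonneg _)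
    have h6 : 2 * t * x ≤ ε / 2 := by nlinarith
    linarith
  · intro H ε hε
    have hcnn : 0 ≤ c * x0 := by
      by_contra hcon
      push Not at hcon
      have h1 := H (-(c * x0) / 2) (by linarith) 0
      obtain ⟨N, hN⟩ := h1.exists
      rw [hcx] at hN
      have := lab_nonneg 0 N
      linarith
    set t : ℝ := min (ε / 16) 1 with ht
    have ht0 : 0 < t := by rw [ht]; positivity
    have ht8 : t ≤ ε / 16 := min_le_left _ _
    set η : ℝ := min (ε / (4 * (c * x0 + 1))) 1 with hη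
    have hη0 : 0 < η := by rw [hη]; positivity
    have hη1 : η ≤ 1 := min_le_right _ _
    have hη2 : (c * x0) * η ≤ ε / 4 := by
      have h1 : η ≤ ε / (4 * (c * x0 + 1)) := min_le_left _ _
      have h2 : (c * x0) * η ≤ (c * x0 + 1) * (ε / (4 * (c * x0 + 1))) :=
        mul_le_mul (by linarith) h1 hη0.le (by linarith)
      refine h2.trans (le_of_eq ?_)
      have : c * x0 + 1 ≠ 0 := by positivity
      field_simp
    obtain ⟨t0, ht00, hclose⟩ := close_ratio hη0
    obtain ⟨K, d, hd, hle⟩ := (ratio_le ht0).exists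
    set δ : ℝ := min (min (t0 / 2) d) (1 / 4) with hδ
    have hδ0 : 0 < δ := by rw [hδ]; positivity
    have hδ1 : δ ≤ t0 / 2 := (min_le_left _ _).trans (min_le_left _ _)
    have hδ2 : δ ≤ d := (min_le_left _ _).trans (min_le_right _ _)
    obtain ⟨N0, hN0⟩ := eventually_atTop.1 (H t ht0 K)
    have hbig : ∀ᶠ n : ℕ in atTop, N0 ≤ ss n := ss_tendsto.eventually_ge_atTop N0
    filter_upwards [hclose, hle δ hδ0 hδ2, choose_N_high hδ0, eventually_ge_atTop 2, hbig]
      with n hcl hl hex h2 hb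
    obtain ⟨N, hN1, hN2⟩ := hex
    have hss : (0 : ℝ) ≤ ss n := Nat.cast_nonneg _
    obtain ⟨hx, -, hNp⟩ := hcl N ((high_abs hss hδ0.le hN1 hN2).trans (by nlinarith))
    have hNN0 : N0 ≤ N := by
      have h3 : (ss n : ℝ) ≤ N := by nlinarith
      exact hb.trans (by exact_mod_cast h3)
    have hlab := hN0 N hNN0
    rw [hcx] at hlab
    have hsc := scale_pos h2
    have hNpow : 0 < (N : ℝ) ^ ((3 : ℝ) / 2) := by positivity
    have h3 := hl N hN1 hN2
    have h4 : (ex K N : ℝ) = lab K N * (N : ℝ) ^ ((3 : ℝ) / 2) := by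
      unfold lab; field_simp
    set x : ℝ := (N : ℝ) ^ ((3 : ℝ) / 2) / scale n with hxdef
    have hx0' : 0 ≤ x := by rw [hxdef]; positivity
    have h5 : ratio n - t ≤ lab K N * x := by
      rw [hxdef, mul_div_assoc', le_div_iff₀ hsc, ← h4]
      exact h3
    have habs := abs_le.1 hx
    have h6 : lab K N * x ≤ (c * x0 + t) * x := mul_le_mul_of_nonneg_right hlab hx0'
    have h7 : c * x0 * (2 * Real.sqrt 2) = c := by
      rw [hx0]; field_simp
    have h8 : (c * x0) * x ≤ c + (c * x0) * η := by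
      have : (c * x0) * x ≤ (c * x0) * (2 * Real.sqrt 2 + η) :=
        mul_le_mul_of_nonneg_left (by linarith) hcnn
      nlinarith
    nlinarith

theorem lower_iff (c : ℝ) : (∀ ε : ℝ, 0 < ε → ∀ᶠ n : ℕ in atTop, c - ε ≤ ratio n) ↔
    (∀ ε : ℝ, 0 < ε → ∀ᶠ K : ℕ in atTop, ∀ᶠ N : ℕ in atTop,
      c / (2 * Real.sqrt 2) - ε ≤ lab K N) := by
  obtain ⟨b1, b2, b3, b4⟩ := x0_bounds
  set x0 : ℝ := 1 / (2 * Real.sqrt 2) with hx0
  have hcx : c / (2 * Real.sqrt 2) = c * x0 := by rw [hx0]; ring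
  constructor
  · intro H ε hε
    set t : ℝ := min (ε / 8) 1 with ht
    have ht0 : 0 < t := by rw [ht]; positivity
    have ht8 : t ≤ ε / 8 := min_le_left _ _
    set η : ℝ := min (ε / (4 * (|c| + 1))) 1 with hη
    have hc1 : 0 < |c| + 1 := by positivity
    have hη0 : 0 < η := by rw [hη]; positivity
    have hη1 : η ≤ 1 := min_le_right _ _
    have hη2 : |c| * η ≤ ε / 4 := by
      have h1 : η ≤ ε / (4 * (|c| + 1)) := min_le_left _ _
      have h2 : |c| * η ≤ (|c| + 1) * (ε / (4 * (|c| + 1))) :=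
        mul_le_mul (by linarith) h1 hη0.le hc1.le
      refine h2.trans (le_of_eq ?_)
      field_simp
    obtain ⟨t0, ht00, hclose⟩ := close_ratio hη0
    filter_upwards [ratio_le ht0] with K hK
    obtain ⟨d, hd, hle⟩ := hK
    set δ : ℝ := min (min (t0 / 2) d) (1 / 4) with hδ
    have hδ0 : 0 < δ := by rw [hδ]; positivity
    have hδ1 : δ ≤ t0 / 2 := (min_le_left _ _).trans (min_le_left _ _)
    have hδ2 : δ ≤ d := (min_le_left _ _).trans (min_le_right _ _)
    have hδ3 : δ ≤ 1 / 4 := min_le_right _ _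
    obtain ⟨n0, hn0⟩ := eventually_atTop.1 ((hclose.and (hle δ hδ0 hδ2)).and
      ((H t ht0).and (eventually_ge_atTop 2)))
    filter_upwards [choose_high hδ0 hδ3 n0] with N hN
    obtain ⟨n, hn, hN1, hN2⟩ := hN
    obtain ⟨⟨hcl, hg⟩, hr, h2⟩ := hn0 n hn
    have hss : (0 : ℝ) ≤ ss n := Nat.cast_nonneg _
    obtain ⟨-, hx, hNp⟩ := hcl N ((high_abs hss hδ0.le hN1 hN2).trans (by nlinarith))
    have hex := hg N hN1 hN2
    have hsc := scale_pos h2
    have hNpow : 0 < (N : ℝ) ^ ((3 : ℝ) / 2) := by positivity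
    have hlab : (ratio n - t) * (scale n / (N : ℝ) ^ ((3 : ℝ) / 2)) ≤ lab K N := by
      unfold lab
      rw [mul_div_assoc']
      exact div_le_div_of_nonneg_right hex hNpow.le
    set x : ℝ := scale n / (N : ℝ) ^ ((3 : ℝ) / 2) with hxdef
    have hx0' : 0 ≤ x := by rw [hxdef]; positivity
    have habs := abs_le.1 hx
    rw [hcx]
    have h3 : (c - 2 * t) * x ≤ (ratio n - t) * x :=
      mul_le_mul_of_nonneg_right (by linarith) hx0'
    have h4 : (c - 2 * t) * x = c * x0 + c * (x - x0) - 2 * t * x := by ring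
    have h5 : -(|c| * η) ≤ c * (x - x0) := by
      have : |c * (x - x0)| ≤ |c| * η := by
        rw [abs_mul]
        exact mul_le_mul_of_nonneg_left hx (abs_nonneg _)
      exact (abs_le.1 this).1
    have h6 : 2 * t * x ≤ ε / 2 := by nlinarith
    linarith
  · intro H ε hε
    set t : ℝ := min (ε / 16) 1 with ht
    have ht0 : 0 < t := by rw [ht]; positivity
    have ht8 : t ≤ ε / 16 := min_le_left _ _
    set η : ℝ := min (ε / (4 * (|c * x0| + 1))) 1 with hη
    have hc1 : 0 < |c * x0| + 1 := by positivity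
    have hη0 : 0 < η := by rw [hη]; positivity
    have hη1 : η ≤ 1 := min_le_right _ _
    have hη2 : |c * x0| * η ≤ ε / 4 := by
      have h1 : η ≤ ε / (4 * (|c * x0| + 1)) := min_le_left _ _
      have h2 : |c * x0| * η ≤ (|c * x0| + 1) * (ε / (4 * (|c * x0| + 1))) :=
        mul_le_mul (by linarith) h1 hη0.le hc1.le
      refine h2.trans (le_of_eq ?_)
      field_simp
    obtain ⟨t0, ht00, hclose⟩ := close_ratio hη0
    obtain ⟨K, hK⟩ := (H t ht0).exists
    obtain ⟨d, hd, hge⟩ := ratio_ge (K := K) ht0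
    set δ : ℝ := min (min (t0 / 2) d) (1 / 4) with hδ
    have hδ0 : 0 < δ := by rw [hδ]; positivity
    have hδ1 : δ ≤ t0 / 2 := (min_le_left _ _).trans (min_le_left _ _)
    have hδ2 : δ ≤ d := (min_le_left _ _).trans (min_le_right _ _)
    have hδ3 : δ ≤ 1 / 4 := min_le_right _ _
    obtain ⟨N0, hN0⟩ := eventually_atTop.1 hK
    have hbig : ∀ᶠ n : ℕ in atTop, 2 * N0 ≤ ss n := ss_tendsto.eventually_ge_atTop _
    filter_upwards [hclose, hge δ hδ0 hδ2, choose_N_low hδ0 hδ3, eventually_ge_atTop 2, hbig]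
      with n hcl hl hex h2 hb
    obtain ⟨N, hN1, hN2⟩ := hex
    have hss : (0 : ℝ) ≤ ss n := Nat.cast_nonneg _
    obtain ⟨hx, -, hNp⟩ := hcl N ((low_abs hss hδ0.le hN1 hN2).trans (by nlinarith))
    have hNN0 : N0 ≤ N := by
      have h3 : (2 * N0 : ℝ) ≤ ss n := by exact_mod_cast hb
      have h4 : (N0 : ℝ) ≤ N := by nlinarith
      exact_mod_cast h4
    have hlab := hN0 N hNN0
    rw [hcx] at hlab
    have hsc := scale_pos h2
    have hNpow : 0 < (N : ℝ) ^ ((3 : ℝ) / 2) := by positivity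
    have h3 := hl N hN1 hN2
    have h4 : (ex K N : ℝ) = lab K N * (N : ℝ) ^ ((3 : ℝ) / 2) := by
      unfold lab; field_simp
    set x : ℝ := (N : ℝ) ^ ((3 : ℝ) / 2) / scale n with hxdef
    have hx0' : 0 ≤ x := by rw [hxdef]; positivity
    have h5 : lab K N * x ≤ ratio n + t := by
      rw [hxdef, mul_div_assoc', div_le_iff₀ hsc, ← h4]
      exact h3
    have habs := abs_le.1 hx
    have h6 : (c * x0 - t) * x ≤ lab K N * x := mul_le_mul_of_nonneg_right hlab hx0'
    have h7 : c * x0 * (2 * Real.sqrt 2) = c := by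
      rw [hx0]; field_simp
    have h8 : c - |c * x0| * η ≤ (c * x0) * x := by
      have h9 : |(c * x0) * (x - 2 * Real.sqrt 2)| ≤ |c * x0| * η := by
        rw [abs_mul]
        exact mul_le_mul_of_nonneg_left hx (abs_nonneg _)
      have := (abs_le.1 h9).1
      nlinarith
    nlinarith

/-- The question has a positive answer iff the purely combinatorial ratios `lab K N` have a positive
limit, as `N → ∞` and then `K → ∞`. -/
theorem question_iff : (∃ c : ℝ, 0 < c ∧ Tendsto ratio atTop (𝓝 c)) ↔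
    (∃ l : ℝ, 0 < l ∧ ∀ ε : ℝ, 0 < ε → ∀ᶠ K : ℕ in atTop, ∀ᶠ N : ℕ in atTop,
      |lab K N - l| ≤ ε) := by
  obtain ⟨b1, b2, b3, b4⟩ := x0_bounds
  constructor
  · rintro ⟨c, hc, hlim⟩
    refine ⟨c / (2 * Real.sqrt 2), by positivity, fun ε hε => ?_⟩
    have h1 := (upper_iff c).1 (fun e he => ?_) ε hε
    · have h2 := (lower_iff c).1 (fun e he => ?_) ε hε
      · filter_upwards [h2] with K hK
        filter_upwards [h1 K, hK] with N hN1 hN2
        rw [abs_le]; constructor <;> linarith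
      · have := hlim.eventually (lt_mem_nhds (show c - e < c by linarith))
        filter_upwards [this] with n hn using hn.le
    · have := hlim.eventually (gt_mem_nhds (show c < c + e by linarith))
      filter_upwards [this] with n hn using hn.le
  · rintro ⟨l, hl, h⟩
    refine ⟨2 * Real.sqrt 2 * l, by positivity, ?_⟩
    have hcl : 2 * Real.sqrt 2 * l / (2 * Real.sqrt 2) = l := by field_simp
    have hlow := (lower_iff (2 * Real.sqrt 2 * l)).2 (fun ε hε => by
      rw [hcl]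
      filter_upwards [h ε hε] with K hK
      filter_upwards [hK] with N hN
      have := (abs_le.1 hN).1
      linarith)
    have hup : ∀ ε : ℝ, 0 < ε → ∀ᶠ n : ℕ in atTop, ratio n ≤ 2 * Real.sqrt 2 * l + ε := by
      intro ε hε
      set t : ℝ := min (ε / 32) 1 with ht
      have ht0 : 0 < t := by rw [ht]; positivity
      have ht8 : t ≤ ε / 32 := min_le_left _ _
      set η : ℝ := min (ε / (4 * (l + 1))) 1 with hη
      have hη0 : 0 < η := by rw [hη]; positivity
      have hη1 : η ≤ 1 := min_le_right _ _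
      have hη2 : l * η ≤ ε / 4 := by
        have h1 : η ≤ ε / (4 * (l + 1)) := min_le_left _ _
        have h2 : l * η ≤ (l + 1) * (ε / (4 * (l + 1))) :=
          mul_le_mul (by linarith) h1 hη0.le (by linarith)
        refine h2.trans (le_of_eq ?_)
        field_simp
      obtain ⟨t0, ht00, hclose⟩ := close_ratio hη0
      obtain ⟨K, ⟨d, hd, hle⟩, hK⟩ := ((ratio_le ht0).and (h t ht0)).exists
      set δ : ℝ := min (min (t0 / 2) d) (1 / 4) with hδ
      have hδ0 : 0 < δ := by rw [hδ]; positivity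
      have hδ1 : δ ≤ t0 / 2 := (min_le_left _ _).trans (min_le_left _ _)
      have hδ2 : δ ≤ d := (min_le_left _ _).trans (min_le_right _ _)
      obtain ⟨N0, hN0⟩ := eventually_atTop.1 hK
      have hbig : ∀ᶠ n : ℕ in atTop, N0 ≤ ss n := ss_tendsto.eventually_ge_atTop N0
      filter_upwards [hclose, hle δ hδ0 hδ2, choose_N_high hδ0, eventually_ge_atTop 2, hbig]
        with n hcl hl' hex h2 hb
      obtain ⟨N, hN1, hN2⟩ := hex
      have hss : (0 : ℝ) ≤ ss n := Nat.cast_nonneg _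
      obtain ⟨hx, -, hNp⟩ := hcl N ((high_abs hss hδ0.le hN1 hN2).trans (by nlinarith))
      have hNN0 : N0 ≤ N := by
        have h3 : (ss n : ℝ) ≤ N := by nlinarith
        exact hb.trans (by exact_mod_cast h3)
      have hlab : lab K N ≤ l + t := by
        have := (abs_le.1 (hN0 N hNN0)).2
        linarith
      have hsc := scale_pos h2
      have hNpow : 0 < (N : ℝ) ^ ((3 : ℝ) / 2) := by positivity
      have h3 := hl' N hN1 hN2
      have h4 : (ex K N : ℝ) = lab K N * (N : ℝ) ^ ((3 : ℝ) / 2) := by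
        unfold lab; field_simp
      set x : ℝ := (N : ℝ) ^ ((3 : ℝ) / 2) / scale n with hxdef
      have hx0' : 0 ≤ x := by rw [hxdef]; positivity
      have h5 : ratio n - t ≤ lab K N * x := by
        rw [hxdef, mul_div_assoc', le_div_iff₀ hsc, ← h4]
        exact h3
      have habs := abs_le.1 hx
      have h6 : lab K N * x ≤ (l + t) * x := mul_le_mul_of_nonneg_right hlab hx0'
      have h8 : l * x ≤ 2 * Real.sqrt 2 * l + l * η := by
        have : l * x ≤ l * (2 * Real.sqrt 2 + η) :=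
          mul_le_mul_of_nonneg_left (by linarith) hl.le
        nlinarith
      nlinarith
    rw [Metric.tendsto_atTop]
    intro ε hε
    obtain ⟨n0, hn0⟩ := eventually_atTop.1 ((hlow (ε / 2) (by positivity)).and
      (hup (ε / 2) (by positivity)))
    refine ⟨n0, fun n hn => ?_⟩
    obtain ⟨h1, h2⟩ := hn0 n hn
    rw [Real.dist_eq, abs_lt]
    constructor <;> linarith

end Pool.Agent.W_764f34_h80
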