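import Pool.Agent.W_764f34_h80.PiFacts

set_option autoImplicit false

/-! From labelled graphs to core numbers. -/

namespace Pool.Agent.W_764f34_h80

open N884ee30a Filter Topology

theorem TransL_one {P : ℕ → ℕ} {V : ℕ → Prop} (hp : ∀ i, V i → (P i).Prime)
    (hinj : ∀ i j, V i → V j → P i = P j → i = j) {M M' k l : ℕ} (hk : V k) (hl : V l)
    (hM' : ∀ i, V i → ¬ P i ∣ M') (h : M * P k = M' * P l) : M = M' ∧ k = l := by
  have h1 : P k ∣ M' * P l := ⟨M, by rw [← h, mul_comm]⟩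
  have h2 : P k ∣ P l := ((hp k hk).dvd_mul.1 h1).resolve_left (hM' k hk)
  have h3 : k = l := hinj k l hk hl ((Nat.prime_dvd_prime_iff_eq (hp k hk) (hp l hl)).1 h2)
  subst h3
  exact ⟨Nat.eq_of_mul_eq_mul_right (hp k hk).pos h, rfl⟩

theorem TransL_mem2 {P : ℕ → ℕ} {V : ℕ → Prop} (hp : ∀ i, V i → (P i).Prime)
    (hinj : ∀ i j, V i → V j → P i = P j → i = j) {X k k' l' : ℕ} (hk : V k) (hk' : V k')
    (hl' : V l') (hX : X = P k' * P l') (hd : P k ∣ X) : k = k' ∨ k = l' := by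
  rw [hX, (hp k hk).dvd_mul] at hd
  rcases hd with hd | hd
  · exact Or.inl (hinj _ _ hk hk' ((Nat.prime_dvd_prime_iff_eq (hp k hk) (hp k' hk')).1 hd))
  · exact Or.inr (hinj _ _ hk hl' ((Nat.prime_dvd_prime_iff_eq (hp k hk) (hp l' hl')).1 hd))

theorem TransL_two {P : ℕ → ℕ} {V : ℕ → Prop} (hp : ∀ i, V i → (P i).Prime)
    (hinj : ∀ i j, V i → V j → P i = P j → i = j) {M M' k l k' l' : ℕ} (hk : V k) (hl : V l)
    (hk' : V k') (hl' : V l') (hM' : ∀ i, V i → ¬ P i ∣ M')
    (h : M * (P k * P l) = M' * (P k' * P l')) :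
    M = M' ∧ ((k = k' ∧ l = l') ∨ (k = l' ∧ l = k')) := by
  have h1 : P k ∣ M' * (P k' * P l') := ⟨M * P l, by rw [← h]; ring⟩
  have h2 : P k ∣ P k' * P l' := ((hp k hk).dvd_mul.1 h1).resolve_left (hM' k hk)
  rcases TransL_mem2 hp hinj hk hk' hl' rfl h2 with h3 | h3
  · subst h3
    have h4 : M * P l = M' * P l' := by
      apply Nat.eq_of_mul_eq_mul_left (hp k hk).pos
      calc P k * (M * P l) = M * (P k * P l) := by ring
        _ = M' * (P k * P l') := h
        _ = P k * (M' * P l') := by ring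
    obtain ⟨h5, h6⟩ := TransL_one hp hinj hl hl' hM' h4
    exact ⟨h5, Or.inl ⟨rfl, h6⟩⟩
  · subst h3
    have h4 : M * P l = M' * P k' := by
      apply Nat.eq_of_mul_eq_mul_left (hp k hk).pos
      calc P k * (M * P l) = M * (P k * P l) := by ring
        _ = M' * (P k' * P k) := h
        _ = P k * (M' * P k') := by ring
    obtain ⟨h5, h6⟩ := TransL_one hp hinj hl hk' hM' h4
    exact ⟨h5, Or.inr ⟨rfl, h6⟩⟩

/-- The number attached to an edge. -/
def TransL_g (m : ℕ → ℕ → ℕ) (P : ℕ → ℕ) (i j : ℕ) : ℕ := m i j * (P i * P j)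

theorem TransL_g_comm {K N : ℕ} {m : ℕ → ℕ → ℕ} (hm : IsLab K N m) (P : ℕ → ℕ) (i j : ℕ) :
    TransL_g m P i j = TransL_g m P j i := by
  unfold TransL_g
  rw [hm.symm i j, mul_comm (P i)]

/-- The two 4-tuples of end points are interchanged. -/
def TransL_Q (m : ℕ → ℕ → ℕ) (P : ℕ → ℕ) (i j k l i' j' k' l' : ℕ) : Prop :=
  (TransL_g m P i j = TransL_g m P i' j' ∧ TransL_g m P k l = TransL_g m P k' l') ∨
    (TransL_g m P i j = TransL_g m P k' l' ∧ TransL_g m P k l = TransL_g m P i' j')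

theorem TransL_Y {K N : ℕ} {m : ℕ → ℕ → ℕ} (hm : IsLab K N m) (P : ℕ → ℕ) {i j k l : ℕ}
    (h1 : m i j ≠ 0) (h2 : m k l ≠ 0) (h3 : m i k ≠ 0) (h4 : m j l ≠ 0)
    (h : m i j * m k l = m i k * m j l) : TransL_Q m P i j k l i k j l := by
  by_cases hil : i = l
  · subst hil
    exact Or.inr ⟨TransL_g_comm hm P i j, TransL_g_comm hm P k i⟩
  · by_cases hjk : j = k
    · subst hjk
      exact Or.inl ⟨rfl, rfl⟩
    · exfalso
      refine hm.cycle i j l k hil hjk h1 h4 ?_ ?_ ?_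
      · rw [hm.symm]; exact h2
      · rw [hm.symm]; exact h3
      · rw [hm.symm l k, hm.symm k i, h, mul_comm]

theorem TransL_c2 {K N : ℕ} {m : ℕ → ℕ → ℕ} (hm : IsLab K N m) {P : ℕ → ℕ} {V : ℕ → Prop}
    (hp : ∀ i, V i → (P i).Prime) (hinj : ∀ i j, V i → V j → P i = P j → i = j)
    {i j k l j' k' l' : ℕ} (hj : V j) (hk : V k) (hl : V l) (hj' : V j') (hk' : V k') (hl' : V l')
    (hM' : ∀ v, V v → ¬ P v ∣ m i j' * m k' l')
    (h1 : m i j ≠ 0) (h2 : m k l ≠ 0) (h3 : m i j' ≠ 0) (h4 : m k' l' ≠ 0)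
    (h : m i j * m k l * (P j * (P k * P l)) = m i j' * m k' l' * (P j' * (P k' * P l'))) :
    TransL_Q m P i j k l i j' k' l' := by
  have hd : P j ∣ m i j' * m k' l' * (P j' * (P k' * P l')) :=
    ⟨m i j * m k l * (P k * P l), by rw [← h]; ring⟩
  have hd2 := ((hp j hj).dvd_mul.1 hd).resolve_left (hM' j hj)
  rw [(hp j hj).dvd_mul] at hd2
  have key : ∀ k' l', V k' → V l' → m k' l' ≠ 0 → (∀ v, V v → ¬ P v ∣ m i j' * m k' l') →
      m i j * m k l * (P j * (P k * P l)) = m i j' * m k' l' * (P j' * (P k' * P l')) → j = k' →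
      TransL_Q m P i j k l i j' k' l' := by
    intro k' l' hk' hl' h4 hM' h he
    subst he
    have h5 : m i j * m k l * (P k * P l) = m i j' * m j l' * (P j' * P l') := by
      apply Nat.eq_of_mul_eq_mul_left (hp j hj).pos
      calc P j * (m i j * m k l * (P k * P l)) = m i j * m k l * (P j * (P k * P l)) := by ring
        _ = m i j' * m j l' * (P j' * (P j * P l')) := h
        _ = P j * (m i j' * m j l' * (P j' * P l')) := by ring
    obtain ⟨h6, ⟨rfl, rfl⟩ | ⟨rfl, rfl⟩⟩ := TransL_two hp hinj hk hl hj' hl' hM' h5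
    · exact TransL_Y hm P h1 h2 h3 h4 h6
    · rw [hm.symm k l] at h6 h2
      have := TransL_Y hm P h1 h2 h3 h4 h6
      unfold TransL_Q at this ⊢
      rw [TransL_g_comm hm P l k] at this
      exact this
  rcases hd2 with hd2 | hd2
  · have he := hinj _ _ hj hj' ((Nat.prime_dvd_prime_iff_eq (hp j hj) (hp j' hj')).1 hd2)
    subst he
    have h5 : m i j * m k l * (P k * P l) = m i j * m k' l' * (P k' * P l') := by
      apply Nat.eq_of_mul_eq_mul_left (hp j hj).pos
      calc P j * (m i j * m k l * (P k * P l)) = m i j * m k l * (P j * (P k * P l)) := by ring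
        _ = m i j * m k' l' * (P j * (P k' * P l')) := h
        _ = P j * (m i j * m k' l' * (P k' * P l')) := by ring
    obtain ⟨-, ⟨rfl, rfl⟩ | ⟨rfl, rfl⟩⟩ := TransL_two hp hinj hk hl hk' hl' hM' h5
    · exact Or.inl ⟨rfl, rfl⟩
    · exact Or.inl ⟨rfl, TransL_g_comm hm P k l⟩
  · rcases TransL_mem2 hp hinj hj hk' hl' rfl hd2 with he | he
    · exact key k' l' hk' hl' h4 hM' h he
    · have := key l' k' hl' hk' (by rw [hm.symm]; exact h4) (by rw [hm.symm l' k']; exact hM')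
        (by rw [hm.symm l' k', mul_comm (P l') (P k')]; exact h) he
      unfold TransL_Q at this ⊢
      rw [TransL_g_comm hm P l' k'] at this
      exact this

theorem TransL_c1 {K N : ℕ} {m : ℕ → ℕ → ℕ} (hm : IsLab K N m) {P : ℕ → ℕ} {V : ℕ → Prop}
    (hp : ∀ i, V i → (P i).Prime) (hinj : ∀ i j, V i → V j → P i = P j → i = j)
    (hV : ∀ i j, m i j ≠ 0 → V i) (hK : ∀ v i j, V v → m i j ≠ 0 → ¬ P v ∣ m i j)
    {i j k l i' j' k' l' : ℕ} (h1 : m i j ≠ 0) (h2 : m k l ≠ 0) (h3 : m i' j' ≠ 0)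
    (h4 : m k' l' ≠ 0)
    (h : TransL_g m P i j * TransL_g m P k l = TransL_g m P i' j' * TransL_g m P k' l') :
    TransL_Q m P i j k l i' j' k' l' := by
  have hV' : ∀ i j, m i j ≠ 0 → V j := fun i j h => hV j i (by rw [hm.symm]; exact h)
  have hMM : ∀ i' j' k' l', m i' j' ≠ 0 → m k' l' ≠ 0 → ∀ v, V v → ¬ P v ∣ m i' j' * m k' l' := by
    intro i' j' k' l' h3 h4 v hv hd
    rcases (hp v hv).dvd_mul.1 hd with hd | hd
    · exact hK v _ _ hv h3 hd
    · exact hK v _ _ hv h4 hd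
  have hi := hV _ _ h1
  have key : ∀ i' j' k' l', m i' j' ≠ 0 → m k' l' ≠ 0 →
      TransL_g m P i j * TransL_g m P k l = TransL_g m P i' j' * TransL_g m P k' l' → i = i' →
      TransL_Q m P i j k l i' j' k' l' := by
    intro i' j' k' l' h3 h4 h he
    subst he
    refine TransL_c2 hm hp hinj (hV' _ _ h1) (hV _ _ h2) (hV' _ _ h2) (hV' _ _ h3) (hV _ _ h4)
      (hV' _ _ h4) (hMM _ _ _ _ h3 h4) h1 h2 h3 h4 ?_
    apply Nat.eq_of_mul_eq_mul_left (hp i hi).pos
    unfold TransL_g at h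
    calc P i * (m i j * m k l * (P j * (P k * P l)))
        = m i j * (P i * P j) * (m k l * (P k * P l)) := by ring
      _ = m i j' * (P i * P j') * (m k' l' * (P k' * P l')) := h
      _ = P i * (m i j' * m k' l' * (P j' * (P k' * P l'))) := by ring
  have hd : P i ∣ m i' j' * m k' l' * ((P i' * P j') * (P k' * P l')) := by
    refine ⟨m i j * m k l * (P j * (P k * P l)), ?_⟩
    unfold TransL_g at h
    calc m i' j' * m k' l' * ((P i' * P j') * (P k' * P l'))
        = m i' j' * (P i' * P j') * (m k' l' * (P k' * P l')) := by ring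
      _ = m i j * (P i * P j) * (m k l * (P k * P l)) := h.symm
      _ = P i * (m i j * m k l * (P j * (P k * P l))) := by ring
  have hd2 := ((hp i hi).dvd_mul.1 hd).resolve_left (hMM _ _ _ _ h3 h4 i hi)
  rw [(hp i hi).dvd_mul] at hd2
  have h3' : m j' i' ≠ 0 := by rw [hm.symm]; exact h3
  have h4' : m l' k' ≠ 0 := by rw [hm.symm]; exact h4
  rcases hd2 with hd2 | hd2
  · rcases TransL_mem2 hp hinj hi (hV _ _ h3) (hV' _ _ h3) rfl hd2 with he | he
    · exact key _ _ _ _ h3 h4 h he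
    · have := key j' i' k' l' h3' h4 (by rw [TransL_g_comm hm P j' i']; exact h) he
      unfold TransL_Q at this ⊢
      rw [TransL_g_comm hm P j' i'] at this
      exact this
  · rcases TransL_mem2 hp hinj hi (hV _ _ h4) (hV' _ _ h4) rfl hd2 with he | he
    · have := key k' l' i' j' h4 h3 (by rw [h, mul_comm]) he
      unfold TransL_Q at this ⊢
      exact this.symm
    · have := key l' k' i' j' h4' h3 (by rw [TransL_g_comm hm P l' k', h, mul_comm]) he
      unfold TransL_Q at this ⊢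
      rw [TransL_g_comm hm P l' k'] at this
      exact this.symm

/-- The combinatorial part. -/
theorem TransL_comb {K N n : ℕ} {m : ℕ → ℕ → ℕ} (hm : IsLab K N m) (hN : 0 < N) (P : ℕ → ℕ)
    (hp : ∀ i, N ≤ K * i → i ≤ K * N → (P i).Prime)
    (hinj : ∀ i j, N ≤ K * i → N ≤ K * j → P i = P j → i = j)
    (hmono : ∀ i j, 0 < i → i < j → P i < P j)
    (hub : ∀ i, N ≤ K * i → i ≤ K * N → (P i : ℝ) ≤ (i / N) * Real.sqrt n)
    (hlb : ∀ i, N ≤ K * i → i ≤ K * N → Real.sqrt n / (K + 1) < P i)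
    (hbig : ∀ i, N ≤ K * i → i ≤ K * N → K < P i) :
    ∃ A : Finset ℕ, A ⊆ Finset.Icc 1 n ∧ PairProductDistinct A ∧ (∀ a ∈ A, Core (K + 1) n a) ∧
      edges K N m ≤ A.card := by
  classical
  have hN' : (0 : ℝ) < N := by exact_mod_cast hN
  let V : ℕ → Prop := fun i => N ≤ K * i ∧ i ≤ K * N
  have hpV : ∀ i, V i → (P i).Prime := fun i h => hp i h.1 h.2
  have hinjV : ∀ i j, V i → V j → P i = P j → i = j := fun i j h h' => hinj i j h.1 h'.1
  have hV : ∀ i j, m i j ≠ 0 → V i := fun i j h => hm.range i j h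
  have hV' : ∀ i j, m i j ≠ 0 → V j := fun i j h => hV j i (by rw [hm.symm]; exact h)
  have hKV : ∀ v i j, V v → m i j ≠ 0 → ¬ P v ∣ m i j := by
    intro v i j hv h0 hd
    have h1 := Nat.le_of_dvd (Nat.pos_of_ne_zero h0) hd
    have h2 := hm.label i j
    have h3 := hbig v hv.1 hv.2
    omega
  let E := (Finset.range (K * N + 1) ×ˢ Finset.range (K * N + 1)).filter
    (fun p => p.1 < p.2 ∧ m p.1 p.2 ≠ 0)
  have hE : ∀ p, p ∈ E → p.1 < p.2 ∧ m p.1 p.2 ≠ 0 := fun p hp => (Finset.mem_filter.1 hp).2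
  refine ⟨E.image (fun p => TransL_g m P p.1 p.2), ?_, ?_, ?_, ?_⟩
  · intro a ha
    obtain ⟨⟨i, j⟩, hij, rfl⟩ := Finset.mem_image.1 ha
    obtain ⟨h1, h2⟩ := hE _ hij
    dsimp only at h1 h2 ⊢
    have hi := hV _ _ h2
    have hj := hV' _ _ h2
    rw [Finset.mem_Icc]
    constructor
    · unfold TransL_g
      exact Nat.mul_pos (Nat.pos_of_ne_zero h2) (Nat.mul_pos (hpV i hi).pos (hpV j hj).pos)
    · have hs := hm.size i j
      have e1 := hub i hi.1 hi.2
      have e2 := hub j hj.1 hj.2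
      have hs' : (m i j : ℝ) * (i * j) ≤ (N : ℝ) ^ 2 := by exact_mod_cast hs
      have e3 : (P i : ℝ) * P j ≤ ((i / N) * Real.sqrt n) * ((j / N) * Real.sqrt n) :=
        mul_le_mul e1 e2 (Nat.cast_nonneg _) (le_trans (Nat.cast_nonneg _) e1)
      have hsq : Real.sqrt n * Real.sqrt n = n := Real.mul_self_sqrt (Nat.cast_nonneg n)
      have e4 : (TransL_g m P i j : ℝ) ≤ n := by
        unfold TransL_g
        push_cast
        calc (m i j : ℝ) * (P i * P j) ≤ m i j * (((i / N) * Real.sqrt n) *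
              ((j / N) * Real.sqrt n)) := mul_le_mul_of_nonneg_left e3 (Nat.cast_nonneg _)
          _ = ((m i j : ℝ) * (i * j)) / (N : ℝ) ^ 2 * (Real.sqrt n * Real.sqrt n) := by
              field_simp
          _ ≤ 1 * (Real.sqrt n * Real.sqrt n) := by
              apply mul_le_mul_of_nonneg_right _ (by positivity)
              rw [div_le_one (by positivity)]
              exact hs'
          _ = n := by rw [one_mul, hsq]
      exact_mod_cast e4
  · intro a b c d ha hb hc hd hab hcd h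
    obtain ⟨⟨i, j⟩, hij, rfl⟩ := Finset.mem_image.1 ha
    obtain ⟨⟨k, l⟩, hkl, rfl⟩ := Finset.mem_image.1 hb
    obtain ⟨⟨i', j'⟩, hij', rfl⟩ := Finset.mem_image.1 hc
    obtain ⟨⟨k', l'⟩, hkl', rfl⟩ := Finset.mem_image.1 hd
    dsimp only at *
    have := TransL_c1 hm hpV hinjV hV hKV (hE _ hij).2 (hE _ hkl).2 (hE _ hij').2 (hE _ hkl').2 h
    rcases this with ⟨h1, h2⟩ | ⟨h1, h2⟩
    · exact ⟨h1, h2⟩
    · exfalso
      dsimp only at h1 h2
      rw [h1, h2] at hab
      exact lt_asymm hab hcd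
  · intro a ha
    obtain ⟨⟨i, j⟩, hij, rfl⟩ := Finset.mem_image.1 ha
    obtain ⟨h1, h2⟩ := hE _ hij
    dsimp only at h1 h2 ⊢
    have hi := hV _ _ h2
    have hj := hV' _ _ h2
    have hi0 : 0 < i := by
      rcases Nat.eq_zero_or_pos i with h0 | h0
      · exfalso
        have := hi.1
        rw [h0] at this
        omega
      · exact h0
    refine ⟨m i j, P i, P j, ?_, ?_, hpV i hi, hpV j hj, hmono i j hi0 h1, ?_, ?_⟩
    · unfold TransL_g
      ring
    · exact le_trans (hm.label i j) (Nat.le_succ K)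
    · have e1 := hlb i hi.1 hi.2
      rw [div_lt_iff₀ (by positivity)] at e1
      have e2 : (n : ℝ) ≤ (((K : ℝ) + 1) * P i) ^ 2 := by
        have e3 := Real.sq_sqrt (Nat.cast_nonneg (α := ℝ) n)
        rw [← e3]
        apply pow_le_pow_left₀ (Real.sqrt_nonneg _)
        linarith
      exact_mod_cast e2
    · have e1 := hub j hj.1 hj.2
      have hjK : (j : ℝ) ≤ K * N := by exact_mod_cast hj.2
      have e3 : (j : ℝ) / N ≤ K + 1 := by
        rw [div_le_iff₀ hN']
        nlinarith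
      have e4 : (P j : ℝ) ≤ (K + 1) * Real.sqrt n :=
        le_trans e1 (mul_le_mul_of_nonneg_right e3 (Real.sqrt_nonneg _))
      have e5 : (P j : ℝ) ^ 2 ≤ ((K : ℝ) + 1) ^ 2 * n := by
        have e6 := Real.sq_sqrt (Nat.cast_nonneg (α := ℝ) n)
        calc (P j : ℝ) ^ 2 ≤ ((K + 1) * Real.sqrt n) ^ 2 :=
              pow_le_pow_left₀ (Nat.cast_nonneg _) e4 2
          _ = ((K : ℝ) + 1) ^ 2 * n := by rw [mul_pow, e6]
      exact_mod_cast e5
  · rw [Finset.card_image_of_injOn]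
    · exact le_refl _
    · rintro ⟨i, j⟩ hij ⟨k, l⟩ hkl h
      obtain ⟨h1, h2⟩ := hE _ hij
      obtain ⟨h3, h4⟩ := hE _ hkl
      dsimp only at h h1 h2 h3 h4
      have := TransL_two hpV hinjV (hV _ _ h2) (hV' _ _ h2) (hV _ _ h4) (hV' _ _ h4)
        (fun v hv => hKV v _ _ hv h4) h
      rcases this.2 with ⟨rfl, rfl⟩ | ⟨rfl, rfl⟩
      · rfl
      · omega

/-- From labelled graphs to core numbers: for `N` slightly smaller than `π(√n)`.
Proof. Let `s = π(√n)`, `η` small (depending on `K, δ`), `n` large. Take `m` with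
`edges K N m = ex K N` (`exists_ex`). Let `p_i = Nat.nth Nat.Prime (i - 1)`, the prime with
`π(p_i) = i`. For `N / K ≤ i ≤ K N`: `p_i ≤ (i / N) √n`, because with `x = i / N`
`π(x √n) ≥ (x - η) s ≥ x (1 - η K) N / (1 - δ) ≥ i`; and `p_i > √n / (K + 1)`, because
`π(√n / (K + 1)) ≤ (1 / (K + 1) + η) s < (1 - 2 δ) s / K ≤ i`. In particular `p_i > K`. Put
`A = {m_ij p_i p_j : i < j, m_ij ≠ 0}`; `m_ij p_i p_j ≤ m_ij (i j / N^2) n ≤ n`. Distinct products:
if `a b = c d`, by unique factorisation (labels are `≤ K`, primes `> K`) the two pairs of edges use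
the same four end points (with multiplicity) and equal label products; if the pairs of edges differ
this is a 4-cycle with equal products of opposite labels. -/
theorem transfer_lower (K : ℕ) (hK : 1 ≤ K) : ∃ δ₀ : ℝ, 0 < δ₀ ∧ ∀ δ : ℝ, 0 < δ → δ ≤ δ₀ →
    ∀ᶠ n : ℕ in atTop, ∀ N : ℕ, (1 - 2 * δ) * Nat.primeCounting (Nat.sqrt n) ≤ N →
    (N : ℝ) ≤ (1 - δ) * Nat.primeCounting (Nat.sqrt n) →
    ∃ A : Finset ℕ, A ⊆ Finset.Icc 1 n ∧ PairProductDistinct A ∧ (∀ a ∈ A, Core (K + 1) n a) ∧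
      ex K N ≤ A.card := by
  have hK' : (1 : ℝ) ≤ K := by exact_mod_cast hK
  refine ⟨1 / (4 * ((K : ℝ) + 1)), by positivity, fun δ hδ hδ₀ => ?_⟩
  have hη : 0 < δ / K := by positivity
  have hδ1 : δ * (4 * ((K : ℝ) + 1)) ≤ 1 := by
    rwa [le_div_iff₀ (by positivity)] at hδ₀
  filter_upwards [pi_uniform K hK hη, pi_uniform (K + 1) (by omega) hη,
    eventually_ge_atTop 4, eventually_ge_atTop ((K * (K + 1)) ^ 2)] with n h1 h2 h4 h5 N hN1 hN2
  have hs2 : 2 ≤ Nat.sqrt n := by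
    rw [Nat.le_sqrt]
    exact h4
  have hs : 1 ≤ Nat.primeCounting (Nat.sqrt n) := by
    have := Nat.monotone_primeCounting hs2
    have h0 : Nat.primeCounting 2 = 1 := by decide
    omega
  have hsr : (1 : ℝ) ≤ (Nat.primeCounting (Nat.sqrt n) : ℝ) := by exact_mod_cast hs
  set s : ℝ := (Nat.primeCounting (Nat.sqrt n) : ℝ) with hsdef
  have hδ8 : δ ≤ 1 / 8 := by nlinarith
  have hNpos' : (0 : ℝ) < N := by nlinarith
  have hNpos : 0 < N := by exact_mod_cast hNpos'
  have hsn : ((K : ℝ) * (K + 1)) ≤ Real.sqrt n := by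
    apply Real.le_sqrt_of_sq_le
    exact_mod_cast h5
  obtain ⟨m, hm, hme⟩ := exists_ex K N
  have hpos : ∀ i, N ≤ K * i → 0 < i := by
    intro i hi
    rcases Nat.eq_zero_or_pos i with h0 | h0
    · exfalso
      rw [h0] at hi
      omega
    · exact h0
  have hlow : ∀ i, N ≤ K * i → i ≤ K * N →
      Real.sqrt n / (K + 1) < (Nat.nth Nat.Prime (i - 1) : ℕ) := by
    intro i hi1 hi2
    have hi0 := hpos i hi1
    have hx1 := h2 (1 / ((K : ℝ) + 1)) (by push_cast; exact le_refl _) (by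
      push_cast
      rw [div_le_iff₀ (by positivity)]
      nlinarith)
    rw [abs_le] at hx1
    have hx2 := hx1.2
    have hi1' : (N : ℝ) ≤ K * i := by exact_mod_cast hi1
    -- π(√n/(K+1)) < i
    have hlt : (Nat.primeCounting ⌊1 / ((K : ℝ) + 1) * Real.sqrt n⌋₊ : ℝ) < i := by
      have e1 : (Nat.primeCounting ⌊1 / ((K : ℝ) + 1) * Real.sqrt n⌋₊ : ℝ) ≤
          (1 / ((K : ℝ) + 1) + δ / K) * s := by linarith
      have e2 : (1 / ((K : ℝ) + 1) + δ / K) * s < (1 - 2 * δ) * s / K := by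
        rw [lt_div_iff₀ (by positivity)]
        have e3 : (1 / ((K : ℝ) + 1) + δ / K) * s * K = (K / ((K : ℝ) + 1) + δ) * s := by
          field_simp
        rw [e3]
        apply mul_lt_mul_of_pos_right _ (by linarith)
        have e4 : (K : ℝ) / (K + 1) = 1 - 1 / (K + 1) := by
          field_simp
          ring
        rw [e4]
        have e5 : 3 * δ < 1 / ((K : ℝ) + 1) := by
          rw [lt_div_iff₀ (by positivity)]
          nlinarith
        linarith
      have e6 : (1 - 2 * δ) * s / K ≤ i := by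
        rw [div_le_iff₀ (by positivity)]
        linarith
      linarith
    have hlt' : Nat.primeCounting ⌊1 / ((K : ℝ) + 1) * Real.sqrt n⌋₊ < i := by exact_mod_cast hlt
    have hge : ⌊1 / ((K : ℝ) + 1) * Real.sqrt n⌋₊ < Nat.nth Nat.Prime (i - 1) := by
      by_contra hcon
      push Not at hcon
      have h7 := Nat.monotone_primeCounting hcon
      have h8 : Nat.primeCounting (Nat.nth Nat.Prime (i - 1)) = i := by
        have h9 : Nat.count Nat.Prime (Nat.nth Nat.Prime (i - 1) + 1) = i - 1 + 1 :=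
          Nat.count_nth_succ_of_infinite Nat.infinite_setOfPred_prime (i - 1)
        have : Nat.primeCounting (Nat.nth Nat.Prime (i - 1)) =
          Nat.count Nat.Prime (Nat.nth Nat.Prime (i - 1) + 1) := rfl
        rw [this, h9]
        omega
      omega
    have h10 := (Nat.floor_lt (by positivity)).1 hge
    calc Real.sqrt n / (K + 1) = 1 / ((K : ℝ) + 1) * Real.sqrt n := by ring
      _ < _ := h10
  rw [← hme]
  refine TransL_comb (n := n) hm hNpos
    (fun i => Nat.nth Nat.Prime (i - 1)) (fun i _ _ => Nat.prime_nth_prime _) ?_ ?_ ?_ hlow ?_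
  · intro i j hi hj h
    have := Nat.nth_injective Nat.infinite_setOfPred_prime h
    have h1 := hpos i hi
    have h2 := hpos j hj
    omega
  · intro i j hi hij
    exact Nat.nth_strictMono Nat.infinite_setOfPred_prime (by omega)
  · intro i hi1 hi2
    have hi0 := hpos i hi1
    have hi1' : (N : ℝ) ≤ K * i := by exact_mod_cast hi1
    have hi2' : (i : ℝ) ≤ K * N := by exact_mod_cast hi2
    have hx := h1 ((i : ℝ) / N) (by
      rw [div_le_div_iff₀ (by positivity) hNpos']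
      linarith) (by
      rw [div_le_iff₀ hNpos']
      exact hi2')
    rw [abs_le] at hx
    have hx1 := hx.1
    have hxK : 1 / (K : ℝ) ≤ (i : ℝ) / N := by
      rw [div_le_div_iff₀ (by positivity) hNpos']
      linarith
    have hge : (i : ℝ) ≤ Nat.primeCounting ⌊(i : ℝ) / N * Real.sqrt n⌋₊ := by
      have e1 : (i : ℝ) = (i : ℝ) / N * N := by field_simp
      have e2 : (i : ℝ) / N * N ≤ (i : ℝ) / N * ((1 - δ) * s) :=
        mul_le_mul_of_nonneg_left hN2 (by positivity)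
      have e3 : δ / K * s ≤ (i : ℝ) / N * (δ * s) := by
        calc δ / K * s = 1 / (K : ℝ) * (δ * s) := by ring
          _ ≤ _ := mul_le_mul_of_nonneg_right hxK (by positivity)
      have e4 : (i : ℝ) / N * ((1 - δ) * s) = (i : ℝ) / N * s - (i : ℝ) / N * (δ * s) := by ring
      linarith
    have hge' : i ≤ Nat.primeCounting ⌊(i : ℝ) / N * Real.sqrt n⌋₊ := by exact_mod_cast hge
    have hlt : i - 1 < Nat.count Nat.Prime (⌊(i : ℝ) / N * Real.sqrt n⌋₊ + 1) := by
      have : Nat.primeCounting ⌊(i : ℝ) / N * Real.sqrt n⌋₊ =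
        Nat.count Nat.Prime (⌊(i : ℝ) / N * Real.sqrt n⌋₊ + 1) := rfl
      omega
    have h7 := Nat.nth_lt_of_lt_count hlt
    have h8 : Nat.nth Nat.Prime (i - 1) ≤ ⌊(i : ℝ) / N * Real.sqrt n⌋₊ := by omega
    exact le_trans (by exact_mod_cast h8) (Nat.floor_le (by positivity))
  · intro i hi1 hi2
    have h7 := hlow i hi1 hi2
    have h8 : (K : ℝ) ≤ Real.sqrt n / (K + 1) := by
      rw [le_div_iff₀ (by positivity)]
      exact hsn
    have h9 : (K : ℝ) < (Nat.nth Nat.Prime (i - 1) : ℕ) := lt_of_le_of_lt h8 h7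
    exact_mod_cast h9

end Pool.Agent.W_764f34_h80
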