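import Pool.Agent.W_764f34_h80.PiFacts

set_option autoImplicit false

/-! From core numbers to labelled graphs. -/

namespace Pool.Agent.W_764f34_h80

open N884ee30a Filter Topology

/-- The allowed range of primes. -/
def TransUR (K n p : ℕ) : Prop := n ≤ (K * p) ^ 2 ∧ p ^ 2 ≤ K ^ 2 * n

/-- The least admissible label of the pair of primes `p, q`, or `0`. -/
noncomputable def transULam (A : Finset ℕ) (K n p q : ℕ) : ℕ :=
  sInf {m | m * p * q ∈ A ∧ m ≤ K ∧ TransUR K n p ∧ TransUR K n q}

/-- The `i`-th prime, counted from `1`. -/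
noncomputable def transUP (i : ℕ) : ℕ := Nat.nth Nat.Prime (i - 1)

/-- The labelled graph. -/
noncomputable def transUM (A : Finset ℕ) (K n i j : ℕ) : ℕ :=
  if i = 0 ∨ j = 0 ∨ i = j then 0 else transULam A K n (transUP i) (transUP j)

theorem transU_lam_mem {A : Finset ℕ} {K n p q : ℕ} (h : transULam A K n p q ≠ 0) :
    transULam A K n p q * p * q ∈ A ∧ transULam A K n p q ≤ K ∧ TransUR K n p ∧
      TransUR K n q := by
  have hne : {m | m * p * q ∈ A ∧ m ≤ K ∧ TransUR K n p ∧ TransUR K n q}.Nonempty :=
    Nat.nonempty_of_pos_sInf (Nat.pos_of_ne_zero h)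
  exact Nat.sInf_mem hne

theorem transU_lam_symm (A : Finset ℕ) (K n p q : ℕ) :
    transULam A K n p q = transULam A K n q p := by
  unfold transULam
  congr 1
  ext m
  change (m * p * q ∈ A ∧ m ≤ K ∧ TransUR K n p ∧ TransUR K n q) ↔
    (m * q * p ∈ A ∧ m ≤ K ∧ TransUR K n q ∧ TransUR K n p)
  rw [mul_right_comm]
  tauto

theorem transU_prime (i : ℕ) : (transUP i).Prime := Nat.prime_nth_prime _

theorem transU_pi {i : ℕ} (hi : i ≠ 0) : Nat.primeCounting (transUP i) = i := by
  have h1 : Nat.primeCounting' (transUP i) = i - 1 := Nat.primeCounting'_nth_eq (i - 1)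
  have h2 : Nat.primeCounting (transUP i) = Nat.primeCounting' (transUP i) + 1 := by
    unfold Nat.primeCounting Nat.primeCounting'
    rw [Nat.count_succ, if_pos (transU_prime i)]
  omega

theorem transU_P_pi {p : ℕ} (hp : p.Prime) : transUP (Nat.primeCounting p) = p := by
  have h2 : Nat.primeCounting p = Nat.count Nat.Prime p + 1 := by
    unfold Nat.primeCounting Nat.primeCounting'
    rw [Nat.count_succ, if_pos hp]
  unfold transUP
  rw [h2, Nat.add_sub_cancel]
  exact Nat.nth_count hp

theorem transU_P_inj {i j : ℕ} (hi : i ≠ 0) (hj : j ≠ 0) (h : transUP i = transUP j) : i = j := by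
  rw [← transU_pi hi, ← transU_pi hj, h]

theorem transU_uniq {K m m' p q r t : ℕ} (hp : p.Prime) (hr : r.Prime) (ht : t.Prime)
    (hpK : K < p) (hm' : 1 ≤ m') (hm'K : m' ≤ K) (h : m * p * q = m' * r * t) :
    p = r ∨ p = t := by
  have h1 : p ∣ m' * r * t := ⟨m * q, by rw [← h]; ring⟩
  rcases (hp.dvd_mul).1 h1 with h2 | h2
  · rcases (hp.dvd_mul).1 h2 with h3 | h3
    · exact absurd (Nat.le_of_dvd (by omega) h3) (by omega)
    · left
      exact (Nat.prime_dvd_prime_iff_eq hp hr).1 h3
  · right
    exact (Nat.prime_dvd_prime_iff_eq hp ht).1 h2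

theorem transU_ppd {A : Finset ℕ} (hA : PairProductDistinct A) {a b c d : ℕ} (ha : a ∈ A)
    (hb : b ∈ A) (hc : c ∈ A) (hd : d ∈ A) (hab : a ≠ b) (hcd : c ≠ d) (h : a * b = c * d) :
    a = c ∨ a = d := by
  rcases lt_or_gt_of_ne hab with h1 | h1 <;> rcases lt_or_gt_of_ne hcd with h2 | h2
  · exact Or.inl (hA ha hb hc hd h1 h2 h).1
  · exact Or.inr (hA ha hb hd hc h1 h2 (by rw [h, mul_comm])).1
  · exact Or.inr (hA hb ha hc hd h1 h2 (by rw [mul_comm, h])).2
  · exact Or.inl (hA hb ha hd hc h1 h2 (by rw [mul_comm, h, mul_comm])).2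

theorem transU_big {K n p : ℕ} (hn : K ^ 4 < n) (hR : TransUR K n p) : K < p := by
  by_contra hcon
  have hcon' : p ≤ K := not_lt.1 hcon
  have h1 : (K * p) ^ 2 ≤ (K * K) ^ 2 := Nat.pow_le_pow_left (Nat.mul_le_mul_left K hcon') 2
  have h2 : (K * K) ^ 2 = K ^ 4 := by ring
  have := hR.1
  omega

theorem transU_est {K n p : ℕ} {η s : ℝ} (hn : 0 < n) (hK : 1 ≤ K) (hR : TransUR K n p)
    (hpi : ∀ x : ℝ, 1 / (K : ℝ) ≤ x → x ≤ K →
      |(Nat.primeCounting ⌊x * Real.sqrt n⌋₊ : ℝ) - x * s| ≤ η * s) :
    ∃ x : ℝ, x * Real.sqrt n = p ∧ 1 / (K : ℝ) ≤ x ∧ x ≤ K ∧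
      (x - η) * s ≤ Nat.primeCounting p ∧ (Nat.primeCounting p : ℝ) ≤ (x + η) * s := by
  have hn0 : (0 : ℝ) < n := by exact_mod_cast hn
  have hs : 0 < Real.sqrt n := Real.sqrt_pos.2 hn0
  have hK0 : (0 : ℝ) < K := by exact_mod_cast hK
  have hx : (p : ℝ) / Real.sqrt n * Real.sqrt n = p := div_mul_cancel₀ _ hs.ne'
  have h1 : 1 / (K : ℝ) ≤ (p : ℝ) / Real.sqrt n := by
    rw [div_le_div_iff₀ hK0 hs, one_mul]
    rw [Real.sqrt_le_iff]
    refine ⟨by positivity, ?_⟩
    have := hR.1
    have h2 : ((n : ℕ) : ℝ) ≤ (((K * p) ^ 2 : ℕ) : ℝ) := by exact_mod_cast this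
    push_cast at h2
    nlinarith
  have h2 : (p : ℝ) / Real.sqrt n ≤ K := by
    rw [div_le_iff₀ hs]
    have h3 : (((p : ℕ) ^ 2 : ℕ) : ℝ) ≤ ((K ^ 2 * n : ℕ) : ℝ) := by exact_mod_cast hR.2
    push_cast at h3
    have h4 : (Real.sqrt n) ^ 2 = n := Real.sq_sqrt hn0.le
    have h5 : (p : ℝ) ^ 2 ≤ ((K : ℝ) * Real.sqrt n) ^ 2 := by
      rw [mul_pow, h4]; exact h3
    exact le_of_sq_le_sq h5 (by positivity)
  have h3 := hpi _ h1 h2
  rw [hx, Nat.floor_natCast] at h3
  rw [abs_le] at h3
  refine ⟨(p : ℝ) / Real.sqrt n, hx, h1, h2, ?_, ?_⟩ <;> nlinarith [h3.1, h3.2]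

/-- From core numbers to labelled graphs: for `N` slightly larger than `π(√n)`.
Proof. Let `s = π(√n)`, `η` small (depending on `K, δ`), `n` large so that `pi_uniform (K+1) η` holds
and every prime of a core number is `≥ √n / K > K`; so the representation `a = m p q` (`m ≤ K`,
`p < q`) of a core number is unique. For primes `p ≠ q` let `lam p q` be the least `m` with
`m p q ∈ A` (or `0`). Elements of `A` that are not of the form `lam p q * p * q`: at most `K^2`, since
for `m < m'` at most one pair has both `m p q, m' p q ∈ A` (two pairs `{p, q} ≠ {r, t}` would give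
`(m p q)(m' r t) = (m' p q)(m r t)`). Put `mm i j = lam p q` if `i = π(p)`, `j = π(q)` for primes
`p ≠ q` (`p = Nat.nth Nat.Prime (i - 1)`), `0` otherwise. Range: `π(p) ≥ (1/K - η) s ≥ N / (K + 1)`
and `π(p) ≤ (K + η) s ≤ (K + 1) N`. Size: with `x = p / √n`, `y = q / √n` in `[1/K, K]`,
`π(p) ≤ (x + η) s ≤ x (1 + η K) s`, so `m π(p) π(q) ≤ m x y (1 + η K)^2 s^2 ≤ (1 + δ)^2 s^2 ≤ N^2` as
`m x y = m p q / n ≤ 1`. Cycle: opposite edges with equal label products give
`a b = c d` with `a = m_ij p_i p_j`, `b = m_kl p_k p_l`, `c = m_jk p_j p_k`, `d = m_li p_l p_i`, all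
in `A`, and `{a, b} ≠ {c, d}`, `a ≠ b`, `c ≠ d`. -/
theorem transfer_upper (K : ℕ) (hK : 1 ≤ K) : ∃ δ₀ : ℝ, 0 < δ₀ ∧ ∀ δ : ℝ, 0 < δ → δ ≤ δ₀ →
    ∀ᶠ n : ℕ in atTop, ∀ N : ℕ, (1 + δ) * Nat.primeCounting (Nat.sqrt n) ≤ N →
    (N : ℝ) ≤ (1 + 2 * δ) * Nat.primeCounting (Nat.sqrt n) →
    ∀ A : Finset ℕ, A ⊆ Finset.Icc 1 n → PairProductDistinct A → (∀ a ∈ A, Core K n a) →
    A.card ≤ ex (K + 1) N + K ^ 2 := by
  have hK0 : (0 : ℝ) < K := by exact_mod_cast hK
  have hK1 : (1 : ℝ) ≤ K := by exact_mod_cast hK
  refine ⟨1 / (4 * K), by positivity, ?_⟩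
  intro δ hδ hδ0
  -- choice of η
  set η : ℝ := min (δ / K) (1 / (2 * K * (K + 1))) with hηdef
  have hη : 0 < η := lt_min (by positivity) (by positivity)
  have hη1 : η * K ≤ δ := by
    have : η ≤ δ / K := min_le_left _ _
    rwa [le_div_iff₀ hK0] at this
  have hη2 : (K + 1) * η ≤ 1 / (2 * K) := by
    have : η ≤ 1 / (2 * K * (K + 1)) := min_le_right _ _
    calc (K + 1) * η ≤ (K + 1) * (1 / (2 * K * (K + 1))) := by
          apply mul_le_mul_of_nonneg_left this (by positivity)
      _ = 1 / (2 * K) := by field_simp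
  have hδ1 : 2 * δ ≤ 1 / (2 * K) := by
    calc 2 * δ ≤ 2 * (1 / (4 * K)) := by linarith
      _ = 1 / (2 * K) := by field_simp; norm_num
  have hηle : η ≤ 1 := by
    have h1 : 1 / (2 * (K : ℝ)) ≤ 1 := by
      rw [div_le_one (by positivity)]; linarith
    nlinarith
  filter_upwards [pi_uniform K hK hη, eventually_gt_atTop (K ^ 4)] with n hpi hnK
  intro N hN1 hN2 A hAn hA hcore
  have hn0 : 0 < n := by omega
  have hn0' : (0 : ℝ) < n := by exact_mod_cast hn0
  set s : ℝ := (Nat.primeCounting (Nat.sqrt n) : ℝ) with hsdef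
  have hs0 : 0 ≤ s := by positivity
  -- facts about the labels
  have hmem : ∀ i j, transUM A K n i j ≠ 0 → i ≠ 0 ∧ j ≠ 0 ∧ i ≠ j ∧
      transUM A K n i j * transUP i * transUP j ∈ A ∧ transUM A K n i j ≤ K ∧
      TransUR K n (transUP i) ∧ TransUR K n (transUP j) := by
    intro i j h
    unfold transUM at h ⊢
    split_ifs at h ⊢ with h0
    · exact absurd rfl h
    · push Not at h0
      have := transU_lam_mem h
      exact ⟨h0.1, h0.2.1, h0.2.2, this.1, this.2.1, this.2.2.1, this.2.2.2⟩
  have hLab : IsLab (K + 1) N (transUM A K n) := by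
    refine ⟨?_, ?_, ?_, ?_, ?_, ?_⟩
    · intro i j
      unfold transUM
      by_cases h : i = 0 ∨ j = 0 ∨ i = j
      · rw [if_pos h, if_pos (by tauto)]
      · rw [if_neg h, if_neg (by tauto), transU_lam_symm]
    · intro i
      unfold transUM
      rw [if_pos (Or.inr (Or.inr rfl))]
    · intro i j h
      obtain ⟨hi, hj, hij, hA1, hmK, hRi, hRj⟩ := hmem i j h
      obtain ⟨x, hx, hx1, hx2, hx3, hx4⟩ := transU_est hn0 hK hRi hpi
      rw [transU_pi hi] at hx3 hx4
      constructor
      · have h1 : (N : ℝ) ≤ (K + 1) * i := by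
          have h2 : (1 / (K : ℝ) - η) * s ≤ i := by
            refine le_trans ?_ hx3
            apply mul_le_mul_of_nonneg_right _ hs0
            linarith
          have h3 : (1 + 2 * δ) ≤ (K + 1) * (1 / (K : ℝ) - η) := by
            have h4 : ((K : ℝ) + 1) * (1 / (K : ℝ)) = 1 + 1 / K := by field_simp
            have h5 : 1 / (K : ℝ) = 1 / (2 * K) + 1 / (2 * K) := by field_simp; norm_num
            have h6 : ((K : ℝ) + 1) * (1 / (K : ℝ) - η) = 1 + 1 / K - (K + 1) * η := by
              rw [mul_sub, h4]
            rw [h6]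
            linarith
          calc (N : ℝ) ≤ (1 + 2 * δ) * s := hN2
            _ ≤ ((K + 1) * (1 / (K : ℝ) - η)) * s := mul_le_mul_of_nonneg_right h3 hs0
            _ = (K + 1) * ((1 / (K : ℝ) - η) * s) := by ring
            _ ≤ (K + 1) * i := mul_le_mul_of_nonneg_left h2 (by positivity)
        exact_mod_cast h1
      · have h1 : (i : ℝ) ≤ (K + 1) * N := by
          have h2 : s ≤ N := by nlinarith
          calc (i : ℝ) ≤ (x + η) * s := hx4
            _ ≤ (K + 1) * s := mul_le_mul_of_nonneg_right (by linarith) hs0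
            _ ≤ (K + 1) * N := mul_le_mul_of_nonneg_left h2 (by positivity)
        exact_mod_cast h1
    · intro i j
      by_cases h : transUM A K n i j = 0
      · rw [h]; omega
      · have := (hmem i j h).2.2.2.2.1
        omega
    · intro i j
      by_cases h : transUM A K n i j = 0
      · rw [h]; simp
      · obtain ⟨hi, hj, hij, hA1, hmK, hRi, hRj⟩ := hmem i j h
        obtain ⟨x, hx, hx1, hx2, hx3, hx4⟩ := transU_est hn0 hK hRi hpi
        obtain ⟨y, hy, hy1, hy2, hy3, hy4⟩ := transU_est hn0 hK hRj hpi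
        rw [transU_pi hi] at hx3 hx4
        rw [transU_pi hj] at hy3 hy4
        have hx0 : 0 < x := lt_of_lt_of_le (by positivity) hx1
        have hy0 : 0 < y := lt_of_lt_of_le (by positivity) hy1
        have hle : transUM A K n i j * transUP i * transUP j ≤ n :=
          (Finset.mem_Icc.1 (hAn hA1)).2
        set m := transUM A K n i j with hm
        have hle' : (m : ℝ) * x * y ≤ 1 := by
          have h1 : ((m * transUP i * transUP j : ℕ) : ℝ) ≤ n := by exact_mod_cast hle
          push_cast at h1
          rw [← hx, ← hy] at h1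
          have h2 : Real.sqrt n * Real.sqrt n = n := Real.mul_self_sqrt hn0'.le
          have h3 : ((m : ℝ) * x * y) * n ≤ 1 * n := by
            calc ((m : ℝ) * x * y) * n = (m : ℝ) * x * y * (Real.sqrt n * Real.sqrt n) := by
                  rw [h2]
              _ = (m : ℝ) * (x * Real.sqrt n) * (y * Real.sqrt n) := by ring
              _ ≤ n := h1
              _ = 1 * n := by ring
          exact le_of_mul_le_mul_right h3 hn0'
        have hxK : η ≤ η * K * x := by
          have h1 : 1 ≤ K * x := by
            rw [div_le_iff₀ hK0] at hx1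
            linarith
          nlinarith
        have hyK : η ≤ η * K * y := by
          have h1 : 1 ≤ K * y := by
            rw [div_le_iff₀ hK0] at hy1
            linarith
          nlinarith
        have hi1 : (i : ℝ) ≤ x * ((1 + δ) * s) := by
          calc (i : ℝ) ≤ (x + η) * s := hx4
            _ ≤ (x + η * K * x) * s := mul_le_mul_of_nonneg_right (by linarith) hs0
            _ ≤ (x + δ * x) * s := by
                apply mul_le_mul_of_nonneg_right _ hs0
                nlinarith
            _ = x * ((1 + δ) * s) := by ring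
        have hj1 : (j : ℝ) ≤ y * ((1 + δ) * s) := by
          calc (j : ℝ) ≤ (y + η) * s := hy4
            _ ≤ (y + η * K * y) * s := mul_le_mul_of_nonneg_right (by linarith) hs0
            _ ≤ (y + δ * y) * s := by
                apply mul_le_mul_of_nonneg_right _ hs0
                nlinarith
            _ = y * ((1 + δ) * s) := by ring
        have hfin : (m : ℝ) * (i * j) ≤ (N : ℝ) ^ 2 := by
          have h0 : 0 ≤ (1 + δ) * s := by positivity
          calc (m : ℝ) * (i * j) ≤ (m : ℝ) * ((x * ((1 + δ) * s)) * (y * ((1 + δ) * s))) := by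
                apply mul_le_mul_of_nonneg_left _ (by positivity)
                apply mul_le_mul hi1 hj1 (by positivity) (by positivity)
            _ = ((m : ℝ) * x * y) * ((1 + δ) * s) ^ 2 := by ring
            _ ≤ 1 * ((1 + δ) * s) ^ 2 := mul_le_mul_of_nonneg_right hle' (by positivity)
            _ = ((1 + δ) * s) ^ 2 := by ring
            _ ≤ (N : ℝ) ^ 2 := pow_le_pow_left₀ h0 hN1 2
        exact_mod_cast hfin
    · intro i j k l hik hjl h1 h2 h3 h4 heq
      obtain ⟨hi, hj, hij, hA1, hmK1, hRi, hRj⟩ := hmem i j h1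
      obtain ⟨-, hk, hjk, hA2, hmK2, -, hRk⟩ := hmem j k h2
      obtain ⟨-, hl, hkl, hA3, hmK3, -, hRl⟩ := hmem k l h3
      obtain ⟨-, -, hli, hA4, hmK4, -, -⟩ := hmem l i h4
      have hpi' := transU_big hnK hRi
      have hpj' := transU_big hnK hRj
      have hpk' := transU_big hnK hRk
      have hpl' := transU_big hnK hRl
      have hne1 : transUM A K n i j * transUP i * transUP j ≠
          transUM A K n k l * transUP k * transUP l := by
        intro h
        rcases transU_uniq (transU_prime i) (transU_prime k) (transU_prime l) hpi'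
          (Nat.pos_of_ne_zero h3) hmK3 h with h5 | h5
        · exact hik (transU_P_inj hi hk h5)
        · exact hli (transU_P_inj hi hl h5).symm
      have hne2 : transUM A K n j k * transUP j * transUP k ≠
          transUM A K n l i * transUP l * transUP i := by
        intro h
        rcases transU_uniq (transU_prime j) (transU_prime l) (transU_prime i) hpj'
          (Nat.pos_of_ne_zero h4) hmK4 h with h5 | h5
        · exact hjl (transU_P_inj hj hl h5)
        · exact hij (transU_P_inj hj hi h5).symm
      have hprod : (transUM A K n i j * transUP i * transUP j) *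
          (transUM A K n k l * transUP k * transUP l) =
          (transUM A K n j k * transUP j * transUP k) *
          (transUM A K n l i * transUP l * transUP i) := by
        calc _ = (transUM A K n i j * transUM A K n k l) *
              (transUP i * transUP j * transUP k * transUP l) := by ring
          _ = (transUM A K n j k * transUM A K n l i) *
              (transUP i * transUP j * transUP k * transUP l) := by rw [heq]
          _ = _ := by ring
      rcases transU_ppd hA hA1 hA3 hA2 hA4 hne1 hne2 hprod with h | h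
      · rcases transU_uniq (transU_prime i) (transU_prime j) (transU_prime k) hpi'
          (Nat.pos_of_ne_zero h2) hmK2 h with h5 | h5
        · exact hij (transU_P_inj hi hj h5)
        · exact hik (transU_P_inj hi hk h5)
      · have h' : transUM A K n i j * transUP j * transUP i =
            transUM A K n l i * transUP l * transUP i := by
          rw [← h]; ring
        rcases transU_uniq (transU_prime j) (transU_prime l) (transU_prime i) hpj'
          (Nat.pos_of_ne_zero h4) hmK4 h' with h5 | h5
        · exact hjl (transU_P_inj hj hl h5)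
        · exact hij (transU_P_inj hj hi h5).symm
  -- counting
  have hcount : A.card ≤ edges (K + 1) N (transUM A K n) + K ^ 2 := by
    classical
    -- representation
    have hrep : ∀ a ∈ A, ∃ m p q : ℕ, a = m * p * q ∧ 1 ≤ m ∧ m ≤ K ∧ p.Prime ∧ q.Prime ∧ p < q ∧
        TransUR K n p ∧ TransUR K n q := by
      intro a ha
      obtain ⟨m, p, q, h1, h2, h3, h4, h5, h6, h7⟩ := hcore a ha
      have ha1 : 1 ≤ a := (Finset.mem_Icc.1 (hAn ha)).1
      refine ⟨m, p, q, h1, ?_, h2, h3, h4, h5, ⟨h6, ?_⟩, ⟨?_, h7⟩⟩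
      · rcases Nat.eq_zero_or_pos m with h | h
        · rw [h] at h1; simp at h1; omega
        · exact h
      · exact le_trans (Nat.pow_le_pow_left h5.le 2) h7
      · exact le_trans h6 (Nat.pow_le_pow_left (Nat.mul_le_mul_left K h5.le) 2)
    choose! fm fp fq hf using hrep
    -- the label of the pair
    set g : ℕ → ℕ := fun a => transULam A K n (fp a) (fq a) with hg
    have hgle : ∀ a ∈ A, g a ≤ fm a := by
      intro a ha
      obtain ⟨h1, h2, h3, h4, h5, h6, h7, h8⟩ := hf a ha
      apply Nat.sInf_le
      exact ⟨by rw [← h1]; exact ha, h3, h7, h8⟩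
    have hgpos : ∀ a ∈ A, g a ≠ 0 := by
      intro a ha hz
      obtain ⟨h1, h2, h3, h4, h5, h6, h7, h8⟩ := hf a ha
      have hne : {m | m * fp a * fq a ∈ A ∧ m ≤ K ∧ TransUR K n (fp a) ∧
          TransUR K n (fq a)}.Nonempty := ⟨fm a, by rw [← h1]; exact ha, h3, h7, h8⟩
      have hmm := Nat.sInf_mem hne
      have hz' : sInf {m | m * fp a * fq a ∈ A ∧ m ≤ K ∧ TransUR K n (fp a) ∧
          TransUR K n (fq a)} = 0 := hz
      rw [hz'] at hmm
      have h9 := hmm.1
      rw [zero_mul, zero_mul] at h9
      have := (Finset.mem_Icc.1 (hAn h9)).1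
      omega
    have hsplit : A.card = (A.filter (fun a => g a = fm a)).card +
        (A.filter (fun a => ¬ g a = fm a)).card :=
      (Finset.card_filter_add_card_filter_not (s := A) (fun a => g a = fm a)).symm
    rw [hsplit]
    apply Nat.add_le_add
    · -- the map to the edges
      unfold edges
      apply Finset.card_le_card_of_injOn
        (fun a => (Nat.primeCounting (fp a), Nat.primeCounting (fq a)))
      · intro a ha
        rw [Finset.mem_coe, Finset.mem_filter] at ha
        obtain ⟨haA, hga⟩ := ha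
        obtain ⟨h1, h2, h3, h4, h5, h6, h7, h8⟩ := hf a haA
        have hp1 : transUP (Nat.primeCounting (fp a)) = fp a := transU_P_pi h4
        have hq1 : transUP (Nat.primeCounting (fq a)) = fq a := transU_P_pi h5
        have hlt : Nat.primeCounting (fp a) < Nat.primeCounting (fq a) := by
          rcases lt_or_ge (Nat.primeCounting (fp a)) (Nat.primeCounting (fq a)) with h | h
          · exact h
          · exfalso
            have h9 : Nat.primeCounting (fp a) = Nat.primeCounting (fq a) :=
              le_antisymm (Nat.monotone_primeCounting h6.le) h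
            rw [h9, hq1] at hp1
            omega
        have hne0 : Nat.primeCounting (fp a) ≠ 0 := by
          intro h
          have h9 : Nat.primeCounting (fp a) = Nat.count Nat.Prime (fp a) + 1 := by
            unfold Nat.primeCounting Nat.primeCounting'
            rw [Nat.count_succ, if_pos h4]
          omega
        have hmne : transUM A K n (Nat.primeCounting (fp a)) (Nat.primeCounting (fq a)) ≠ 0 := by
          unfold transUM
          rw [if_neg (by omega), hp1, hq1]
          exact hgpos a haA
        have hr := hLab.range _ _ hmne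
        have hmne' : transUM A K n (Nat.primeCounting (fq a)) (Nat.primeCounting (fp a)) ≠ 0 := by
          rw [hLab.symm]; exact hmne
        have hr' := hLab.range _ _ hmne'
        rw [Finset.mem_coe, Finset.mem_filter, Finset.mem_product, Finset.mem_range,
          Finset.mem_range]
        exact ⟨⟨Nat.lt_succ_of_le hr.2, Nat.lt_succ_of_le hr'.2⟩, hlt, hmne⟩
      · intro a ha b hb hab
        rw [Finset.mem_coe, Finset.mem_filter] at ha hb
        obtain ⟨haA, hga⟩ := ha
        obtain ⟨hbA, hgb⟩ := hb
        obtain ⟨h1, h2, h3, h4, h5, h6, h7, h8⟩ := hf a haA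
        obtain ⟨k1, k2, k3, k4, k5, k6, k7, k8⟩ := hf b hbA
        simp only [Prod.mk.injEq] at hab
        have e1 : fp a = fp b := by
          rw [← transU_P_pi h4, ← transU_P_pi k4, hab.1]
        have e2 : fq a = fq b := by
          rw [← transU_P_pi h5, ← transU_P_pi k5, hab.2]
        rw [h1, k1, ← hga, ← hgb]
        simp only [hg, e1, e2]
    · -- the exceptional elements
      have hcard : (Finset.Icc 1 K ×ˢ Finset.Icc 1 K).card = K ^ 2 := by
        rw [Finset.card_product, Nat.card_Icc]
        simp [sq]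
      rw [← hcard]
      apply Finset.card_le_card_of_injOn (fun a => (g a, fm a))
      · intro a ha
        rw [Finset.mem_coe, Finset.mem_filter] at ha
        obtain ⟨haA, hga⟩ := ha
        obtain ⟨h1, h2, h3, h4, h5, h6, h7, h8⟩ := hf a haA
        rw [Finset.mem_coe, Finset.mem_product, Finset.mem_Icc, Finset.mem_Icc]
        have hle1 := hgle a haA
        have hpos1 := hgpos a haA
        exact ⟨⟨Nat.pos_of_ne_zero hpos1, hle1.trans h3⟩, ⟨h2, h3⟩⟩
      · intro a ha b hb hab
        rw [Finset.mem_coe, Finset.mem_filter] at ha hb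
        obtain ⟨haA, hga⟩ := ha
        obtain ⟨hbA, hgb⟩ := hb
        obtain ⟨h1, h2, h3, h4, h5, h6, h7, h8⟩ := hf a haA
        obtain ⟨k1, k2, k3, k4, k5, k6, k7, k8⟩ := hf b hbA
        simp only [Prod.mk.injEq] at hab
        obtain ⟨e1, e2⟩ := hab
        by_contra hne
        have hga' := hgpos a haA
        have hgb' := hgpos b hbA
        have mema := transU_lam_mem (A := A) (K := K) (n := n) (p := fp a) (q := fq a) hga'
        have memb := transU_lam_mem (A := A) (K := K) (n := n) (p := fp b) (q := fq b) hgb'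
        have hwa : g a * fp a * fq a ∈ A := mema.1
        have hwb : g b * fp b * fq b ∈ A := memb.1
        have hgaK : g a ≤ K := mema.2.1
        have hgbK : g b ≤ K := memb.2.1
        -- key: equality of two products forces a = b
        have key : ∀ m m' : ℕ, 1 ≤ m → m ≤ K → 1 ≤ m' → m' ≤ K →
            m * fp a * fq a = m' * fp b * fq b → False := by
          intro m m' hm1 hmK hm1' hmK' h
          have q1 := transU_uniq h4 k4 k5 (transU_big hnK h7) hm1' hmK' h
          have q2 : fq a = fp b ∨ fq a = fq b :=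
            transU_uniq (q := fp a) (m := m) h5 k4 k5 (transU_big hnK h8) hm1' hmK'
              (by rw [← h]; ring)
          have e3 : fp a = fp b ∧ fq a = fq b := by omega
          apply hne
          rw [h1, k1, e2, e3.1, e3.2]
        have hprod : (fm a * fp a * fq a) * (g b * fp b * fq b) =
            (g a * fp a * fq a) * (fm b * fp b * fq b) := by
          rw [e1, e2]; ring
        have hmemA : fm a * fp a * fq a ∈ A := by rw [← h1]; exact haA
        have hmemB : fm b * fp b * fq b ∈ A := by rw [← k1]; exact hbA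
        have hn1 : fm a * fp a * fq a ≠ g b * fp b * fq b := fun h =>
          key _ _ h2 h3 (Nat.pos_of_ne_zero hgb') hgbK h
        have hn2 : g a * fp a * fq a ≠ fm b * fp b * fq b := fun h =>
          key _ _ (Nat.pos_of_ne_zero hga') hgaK k2 k3 h
        rcases transU_ppd hA hmemA hwb hwa hmemB hn1 hn2 hprod with h | h
        · have hpq : 0 < fp a * fq a := Nat.mul_pos h4.pos h5.pos
          rw [mul_assoc, mul_assoc] at h
          have := Nat.eq_of_mul_eq_mul_right hpq h
          exact hga this.symm
        · exact key _ _ h2 h3 k2 k3 h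
  exact hcount.trans (Nat.add_le_add_right (edges_le_ex hLab) _)

end Pool.Agent.W_764f34_h80
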