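import Pool.Agent.W_764f34_h80.Local
import Pool.Agent.W_764f34_h80.TransU
import Pool.Agent.W_764f34_h80.TransL

set_option autoImplicit false

/-! Auxiliary lemmas for the reduction. -/

namespace Pool.Agent.W_764f34_h80

open N884ee30a Filter Topology

/-- The normalised extremal number of the labelled problem. -/
noncomputable def lab (K N : ℕ) : ℝ := (ex K N : ℝ) / (N : ℝ) ^ ((3 : ℝ) / 2)

/-- `s(n) = π(√n)`. -/
noncomputable def ss (n : ℕ) : ℕ := Nat.primeCounting (Nat.sqrt n)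

theorem ss_mono : Monotone ss := fun _ _ h => Nat.monotone_primeCounting (Nat.sqrt_le_sqrt h)

theorem ss_surj (M : ℕ) : ∃ n, ss n = M := by
  obtain ⟨k, hk⟩ := Nat.surjective_primeCounting M
  refine ⟨k * k, ?_⟩
  simp [ss, Nat.sqrt_eq, hk]

theorem ss_tendsto : Tendsto ss atTop atTop := by
  refine tendsto_atTop.2 fun b => ?_
  obtain ⟨n, hn⟩ := ss_surj b
  filter_upwards [eventually_ge_atTop n] with m hm
  exact hn ▸ ss_mono hm

theorem lab_nonneg (K N : ℕ) : 0 ≤ lab K N := by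
  unfold lab; positivity

/-- Choice of `n` for given `N`, below. -/
theorem choose_low {t : ℝ} (h0 : 0 < t) (h1 : t ≤ 1 / 4) (n0 : ℕ) : ∀ᶠ N : ℕ in atTop,
    ∃ n : ℕ, n0 ≤ n ∧ (1 - 2 * t) * ss n ≤ N ∧ (N : ℝ) ≤ (1 - t) * ss n := by
  have h2 : ∀ᶠ N : ℕ in atTop, 1 / t ≤ (N : ℝ) :=
    tendsto_natCast_atTop_atTop.eventually_ge_atTop (1 / t)
  filter_upwards [h2, eventually_gt_atTop (ss n0)] with N hN hN0
  have hpos : 0 < 1 - t := by linarith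
  obtain ⟨n, hn⟩ := ss_surj ⌈(N : ℝ) / (1 - t)⌉₊
  have hge : (N : ℝ) / (1 - t) ≤ (ss n : ℝ) := by rw [hn]; exact Nat.le_ceil _
  have hlt : (ss n : ℝ) < (N : ℝ) / (1 - t) + 1 := by
    rw [hn]; exact Nat.ceil_lt_add_one (by positivity)
  have hNt : 1 ≤ (N : ℝ) * t := by
    rw [div_le_iff₀ h0] at hN; exact hN
  refine ⟨n, ?_, ?_, ?_⟩
  · by_contra hcon
    push Not at hcon
    have h3 : ss n ≤ ss n0 := ss_mono hcon.le
    have h4 : (N : ℝ) ≤ (N : ℝ) / (1 - t) := by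
      rw [le_div_iff₀ hpos]; nlinarith [(Nat.cast_nonneg N : (0 : ℝ) ≤ N)]
    have h5 : (N : ℝ) ≤ ss n0 := h4.trans (hge.trans (by exact_mod_cast h3))
    have h6 : (ss n0 : ℝ) < N := by exact_mod_cast hN0
    linarith
  · have h3 : (1 - 2 * t) * ss n ≤ (1 - 2 * t) * ((N : ℝ) / (1 - t) + 1) :=
      mul_le_mul_of_nonneg_left hlt.le (by linarith)
    refine h3.trans ?_
    have h4 : (1 - 2 * t) * ((N : ℝ) / (1 - t) + 1) =
        ((1 - 2 * t) * N + (1 - 2 * t) * (1 - t)) / (1 - t) := by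
      field_simp
    rw [h4, div_le_iff₀ hpos]
    nlinarith
  · rw [div_le_iff₀ hpos] at hge
    linarith [hge]

/-- Choice of `n` for given `N`, above. -/
theorem choose_high {t : ℝ} (h0 : 0 < t) (h1 : t ≤ 1 / 4) (n0 : ℕ) : ∀ᶠ N : ℕ in atTop,
    ∃ n : ℕ, n0 ≤ n ∧ (1 + t) * ss n ≤ N ∧ (N : ℝ) ≤ (1 + 2 * t) * ss n := by
  have h2 : ∀ᶠ N : ℕ in atTop, 2 / t + 2 * (ss n0 + 2) ≤ (N : ℝ) :=
    tendsto_natCast_atTop_atTop.eventually_ge_atTop _
  filter_upwards [h2] with N hN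
  have hpos : 0 < 1 + t := by linarith
  have hN0 : 0 ≤ (N : ℝ) := Nat.cast_nonneg N
  obtain ⟨n, hn⟩ := ss_surj ⌊(N : ℝ) / (1 + t)⌋₊
  have hle : (ss n : ℝ) ≤ (N : ℝ) / (1 + t) := by rw [hn]; exact Nat.floor_le (by positivity)
  have hlt : (N : ℝ) / (1 + t) < (ss n : ℝ) + 1 := by rw [hn]; exact Nat.lt_floor_add_one _
  have h2t : 0 < 2 / t := by positivity
  have hNt : 2 ≤ (N : ℝ) * t := by
    have : 2 / t ≤ N := by
      have : (0 : ℝ) ≤ ss n0 := Nat.cast_nonneg _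
      linarith
    rw [div_le_iff₀ h0] at this; exact this
  refine ⟨n, ?_, ?_, ?_⟩
  · by_contra hcon
    push Not at hcon
    have h3 : (ss n : ℝ) ≤ ss n0 := by exact_mod_cast ss_mono hcon.le
    have h4 : (N : ℝ) < (ss n + 1) * (1 + t) := by
      rwa [div_lt_iff₀ hpos] at hlt
    have h5 : (0 : ℝ) ≤ ss n := Nat.cast_nonneg _
    have h6 : (0 : ℝ) ≤ ss n0 := Nat.cast_nonneg _
    nlinarith
  · rw [le_div_iff₀ hpos] at hle
    linarith [hle]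
  · rw [div_lt_iff₀ hpos] at hlt
    have h5 : (0 : ℝ) ≤ ss n := Nat.cast_nonneg _
    have h6 : (1 : ℝ) + t ≤ t * ss n := by
      have h7 : (ss n : ℝ) > N / (1 + t) - 1 := by
        have := hlt
        rw [← div_lt_iff₀ hpos] at this
        linarith
      have h8 : t * ss n ≥ t * (N / (1 + t) - 1) := mul_le_mul_of_nonneg_left h7.le h0.le
      have h9 : t * (N / (1 + t) - 1) = (N * t - t * (1 + t)) / (1 + t) := by
        field_simp
      rw [h9] at h8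
      refine le_trans ?_ h8
      rw [le_div_iff₀ hpos]
      nlinarith
    nlinarith

/-- Choice of `N` for given `n`. -/
theorem choose_N_low {t : ℝ} (h0 : 0 < t) (h1 : t ≤ 1 / 4) : ∀ᶠ n : ℕ in atTop,
    ∃ N : ℕ, (1 - 2 * t) * ss n ≤ N ∧ (N : ℝ) ≤ (1 - t) * ss n := by
  have h2 : ∀ᶠ n : ℕ in atTop, 1 / t ≤ (ss n : ℝ) :=
    (tendsto_natCast_atTop_atTop.comp ss_tendsto).eventually_ge_atTop (1 / t)
  filter_upwards [h2] with n hn
  rw [div_le_iff₀ h0] at hn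
  have h5 : (0 : ℝ) ≤ ss n := Nat.cast_nonneg _
  have h6 : 0 ≤ (1 - t) * ss n := mul_nonneg (by linarith) h5
  refine ⟨⌊(1 - t) * ss n⌋₊, ?_, Nat.floor_le h6⟩
  have := Nat.lt_floor_add_one ((1 - t) * ss n)
  nlinarith

theorem choose_N_high {t : ℝ} (h0 : 0 < t) : ∀ᶠ n : ℕ in atTop,
    ∃ N : ℕ, (1 + t) * ss n ≤ N ∧ (N : ℝ) ≤ (1 + 2 * t) * ss n := by
  have h2 : ∀ᶠ n : ℕ in atTop, 1 / t ≤ (ss n : ℝ) :=
    (tendsto_natCast_atTop_atTop.comp ss_tendsto).eventually_ge_atTop (1 / t)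
  filter_upwards [h2] with n hn
  rw [div_le_iff₀ h0] at hn
  have h5 : (0 : ℝ) ≤ ss n := Nat.cast_nonneg _
  have h6 : 0 ≤ (1 + 2 * t) * ss n := mul_nonneg (by linarith) h5
  refine ⟨⌊(1 + 2 * t) * ss n⌋₊, ?_, Nat.floor_le h6⟩
  have := Nat.lt_floor_add_one ((1 + 2 * t) * ss n)
  nlinarith

/-- `N^(3/2) / scale n` and its inverse, when `N` is close to `π(√n)`. -/
theorem close_ratio {η : ℝ} (hη : 0 < η) : ∃ t0 : ℝ, 0 < t0 ∧ ∀ᶠ n : ℕ in atTop, ∀ N : ℕ,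
    |(N : ℝ) - ss n| ≤ t0 * ss n →
    |(N : ℝ) ^ ((3 : ℝ) / 2) / scale n - 2 * Real.sqrt 2| ≤ η ∧
    |scale n / (N : ℝ) ^ ((3 : ℝ) / 2) - 1 / (2 * Real.sqrt 2)| ≤ η ∧ 0 < N := by
  have hs2 : 0 < 2 * Real.sqrt 2 := by positivity
  have hc1 : ContinuousAt (fun x : ℝ × ℝ => x.1 ^ ((3 : ℝ) / 2) * x.2) (1, 2 * Real.sqrt 2) := by
    refine ContinuousAt.mul ?_ continuousAt_snd
    exact continuousAt_fst.rpow_const (Or.inl (by norm_num))
  have hc2 : ContinuousAt (fun x : ℝ × ℝ => (x.1 ^ ((3 : ℝ) / 2) * x.2)⁻¹)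
      (1, 2 * Real.sqrt 2) := by
    refine ContinuousAt.inv₀ hc1 ?_
    simp
  have e1 : ∀ᶠ x : ℝ × ℝ in 𝓝 (1, 2 * Real.sqrt 2),
      |x.1 ^ ((3 : ℝ) / 2) * x.2 - 2 * Real.sqrt 2| < η := by
    have := hc1.tendsto.eventually (Metric.ball_mem_nhds _ hη)
    filter_upwards [this] with x hx
    rw [Real.dist_eq] at hx
    simpa using hx
  have e2 : ∀ᶠ x : ℝ × ℝ in 𝓝 (1, 2 * Real.sqrt 2),
      |(x.1 ^ ((3 : ℝ) / 2) * x.2)⁻¹ - 1 / (2 * Real.sqrt 2)| < η := by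
    have := hc2.tendsto.eventually (Metric.ball_mem_nhds _ hη)
    filter_upwards [this] with x hx
    rw [Real.dist_eq] at hx
    simpa using hx
  have e3 := e1.and e2
  rw [nhds_prod_eq] at e3
  obtain ⟨pa, hpa, pb, hpb, hab⟩ := Filter.eventually_prod_iff.1 e3
  obtain ⟨d, hd, hdb⟩ := Metric.eventually_nhds_iff.1 hpa
  refine ⟨min (d / 2) (1 / 2), by positivity, ?_⟩
  have hr := pi_scale.eventually hpb
  have hbig : ∀ᶠ n : ℕ in atTop, 1 ≤ ss n := ss_tendsto.eventually_ge_atTop 1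
  filter_upwards [hr, hbig, eventually_ge_atTop 2] with n hn hb h2 N hN
  have hsp : (0 : ℝ) < ss n := by exact_mod_cast hb
  have hsc := scale_pos h2
  have hmin1 : min (d / 2) (1 / 2) ≤ d / 2 := min_le_left _ _
  have hmin2 : min (d / 2) (1 / 2) ≤ 1 / 2 := min_le_right _ _
  have hNpos : 0 < (N : ℝ) := by
    have h1 := (abs_le.1 hN).1
    nlinarith
  set ρ : ℝ := (N : ℝ) / ss n with hρ
  have hρN : (N : ℝ) = ρ * ss n := by rw [hρ]; field_simp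
  have hρ0 : 0 < ρ := div_pos hNpos hsp
  have hρ1 : |ρ - 1| < d := by
    have h1 : ρ - 1 = ((N : ℝ) - ss n) / ss n := by rw [hρ]; field_simp
    rw [h1, abs_div, abs_of_pos hsp, div_lt_iff₀ hsp]
    calc |(N : ℝ) - ss n| ≤ min (d / 2) (1 / 2) * ss n := hN
      _ ≤ d / 2 * ss n := mul_le_mul_of_nonneg_right hmin1 hsp.le
      _ < d * ss n := by nlinarith
  have hPa : pa ρ := hdb (by rw [Real.dist_eq]; exact hρ1)
  have key := hab hPa hn
  simp only at key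
  have hpow : (N : ℝ) ^ ((3 : ℝ) / 2) / scale n =
      ρ ^ ((3 : ℝ) / 2) * ((ss n : ℝ) ^ ((3 : ℝ) / 2) / scale n) := by
    rw [hρN, Real.mul_rpow hρ0.le hsp.le]; ring
  have hinv : scale n / (N : ℝ) ^ ((3 : ℝ) / 2) =
      (ρ ^ ((3 : ℝ) / 2) * ((ss n : ℝ) ^ ((3 : ℝ) / 2) / scale n))⁻¹ := by
    rw [← hpow, inv_div]
  refine ⟨?_, ?_, by exact_mod_cast hNpos⟩
  · rw [hpow]; exact key.1.le
  · rw [hinv]; exact key.2.le

end Pool.Agent.W_764f34_h80
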