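import Pool.Agent.W_764f34_h80.Defs

set_option autoImplicit false

/-! A weighted Kovari-Sos-Turan bound with densities, for bipartite graphs with `u v ≤ n`. -/

namespace Pool.Agent.W_764f34_h80

open Filter Topology MeasureTheory Set

/-- Layer cake bound for the exponent `-3/2`. -/
theorem KST_sumA (S : Finset ℕ) {X0 κ : ℝ} (hX : 0 < X0)
    (h : ∀ x : ℝ, X0 ≤ x → ((S.filter (fun u : ℕ => (u : ℝ) ≤ x)).card : ℝ) ≤ κ * x) :
    ∑ u ∈ S, (max (u : ℝ) X0) ^ (-(3 / 2) : ℝ) ≤ 3 * κ * X0 ^ (-(1 / 2) : ℝ) := by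
  classical
  have hint : ∀ c : ℝ, 0 < c → IntegrableOn (fun t : ℝ => t ^ (-(5 / 2) : ℝ)) (Ioi c) := fun c hc =>
    integrableOn_Ioi_rpow_of_lt (by norm_num) hc
  have hint2 : IntegrableOn (fun t : ℝ => κ * t ^ (-(3 / 2) : ℝ)) (Ioi X0) :=
    (integrableOn_Ioi_rpow_of_lt (by norm_num) hX).const_mul κ
  have h1 : ∀ u ∈ S, (max (u : ℝ) X0) ^ (-(3 / 2) : ℝ) = 3 / 2 * ∫ t in Ioi X0,
      (Ioi (max (u : ℝ) X0)).indicator (fun t : ℝ => t ^ (-(5 / 2) : ℝ)) t := by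
    intro u _
    have hc : 0 < max (u : ℝ) X0 := lt_max_of_lt_right hX
    rw [setIntegral_indicator measurableSet_Ioi, Ioi_inter_Ioi, max_comm X0, max_assoc, max_self,
      integral_Ioi_rpow_of_lt (by norm_num) hc]
    have e : (-(5 / 2) + 1 : ℝ) = -(3 / 2) := by norm_num
    rw [e]
    ring
  rw [Finset.sum_congr rfl h1, ← Finset.mul_sum, ← integral_finsetSum]
  swap
  · intro u _
    exact ((hint X0 hX).indicator measurableSet_Ioi)
  have h2 : ∫ t in Ioi X0, ∑ u ∈ S,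
      (Ioi (max (u : ℝ) X0)).indicator (fun t : ℝ => t ^ (-(5 / 2) : ℝ)) t ≤
      ∫ t in Ioi X0, κ * t ^ (-(3 / 2) : ℝ) := by
    refine setIntegral_mono_on ?_ hint2 measurableSet_Ioi fun t ht => ?_
    · exact integrable_finsetSum _ fun u _ => (hint X0 hX).indicator measurableSet_Ioi
    · have ht0 : 0 < t := hX.trans ht
      have e1 : ∑ u ∈ S, (Ioi (max (u : ℝ) X0)).indicator (fun t : ℝ => t ^ (-(5 / 2) : ℝ)) t =
          ((S.filter (fun u : ℕ => t ∈ Ioi (max (u : ℝ) X0))).card : ℝ) *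
            t ^ (-(5 / 2) : ℝ) := by
        simp only [Set.indicator_apply]
        rw [← Finset.sum_filter, Finset.sum_const, nsmul_eq_mul]
      rw [e1]
      have e2 : ((S.filter (fun u : ℕ => t ∈ Ioi (max (u : ℝ) X0))).card : ℝ) ≤ κ * t := by
        refine le_trans ?_ (h t (le_of_lt ht))
        exact_mod_cast Finset.card_le_card fun u hu => by
          rw [Finset.mem_filter] at hu ⊢
          exact ⟨hu.1, ((le_max_left _ _).trans_lt hu.2).le⟩
      have e3 : t ^ (-(3 / 2) : ℝ) = t * t ^ (-(5 / 2) : ℝ) := by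
        rw [show (-(3 / 2) : ℝ) = 1 + -(5 / 2) by norm_num, Real.rpow_add ht0, Real.rpow_one]
      rw [e3, ← mul_assoc]
      exact mul_le_mul_of_nonneg_right e2 (Real.rpow_nonneg ht0.le _)
  have h3 : ∫ t in Ioi X0, κ * t ^ (-(3 / 2) : ℝ) = 2 * κ * X0 ^ (-(1 / 2) : ℝ) := by
    rw [integral_const_mul, integral_Ioi_rpow_of_lt (by norm_num) hX]
    have e : (-(3 / 2) + 1 : ℝ) = -(1 / 2) := by norm_num
    rw [e]
    ring
  rw [h3] at h2
  linarith

/-- A set with at most `β v` elements up to each of its elements `v`. -/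
theorem KST_sumB {β : ℝ} (hβ : 0 < β) (V : Finset ℕ) :
    (∀ v ∈ V, 1 ≤ v) → (∀ v ∈ V, ((V.filter (fun v' : ℕ => v' ≤ v)).card : ℝ) ≤ β * v) →
    ∑ v ∈ V, (Real.sqrt (v : ℝ))⁻¹ ≤ 2 * Real.sqrt β * Real.sqrt (V.card : ℝ) := by
  classical
  induction V using Finset.induction_on_max with
  | empty => intro _ _; simp
  | insert a V ha ih =>
    intro h1 h2
    have hnot : a ∉ V := fun h => lt_irrefl _ (ha a h)
    have ih' := ih (fun v hv => h1 v (Finset.mem_insert_of_mem hv)) (fun v hv => by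
      refine le_trans ?_ (h2 v (Finset.mem_insert_of_mem hv))
      exact_mod_cast Finset.card_le_card (Finset.filter_subset_filter _ (Finset.subset_insert a V)))
    have h3 := h2 a (Finset.mem_insert_self a V)
    have h4 : (insert a V).filter (fun v' : ℕ => v' ≤ a) = insert a V := by
      refine Finset.filter_true_of_mem fun v hv => ?_
      rcases Finset.mem_insert.1 hv with rfl | hv
      · exact le_rfl
      · exact (ha v hv).le
    rw [h4, Finset.card_insert_of_notMem hnot] at h3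
    rw [Finset.sum_insert hnot, Finset.card_insert_of_notMem hnot]
    push_cast at h3 ⊢
    set m : ℝ := (V.card : ℝ) with hm
    have hm0 : 0 ≤ m := Nat.cast_nonneg _
    have ha1 : (1 : ℝ) ≤ a := by exact_mod_cast h1 a (Finset.mem_insert_self a V)
    have hsa : 0 < Real.sqrt a := Real.sqrt_pos.2 (by linarith)
    have hsm : 0 < Real.sqrt (m + 1) := Real.sqrt_pos.2 (by linarith)
    have hsb : 0 < Real.sqrt β := Real.sqrt_pos.2 hβ
    have h5 : Real.sqrt (m + 1) ≤ Real.sqrt β * Real.sqrt a := by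
      rw [← Real.sqrt_mul hβ.le]
      exact Real.sqrt_le_sqrt h3
    have h6 : (Real.sqrt (a : ℝ))⁻¹ ≤ Real.sqrt β / Real.sqrt (m + 1) := by
      rw [le_div_iff₀ hsm, inv_mul_le_iff₀ hsa]
      linarith
    have h7 : 1 / Real.sqrt (m + 1) ≤ 2 * (Real.sqrt (m + 1) - Real.sqrt m) := by
      rw [div_le_iff₀ hsm]
      have e1 := Real.sq_sqrt (show 0 ≤ m + 1 by linarith)
      have e2 := Real.sq_sqrt hm0
      have e3 := Real.sqrt_nonneg m
      nlinarith [sq_nonneg (Real.sqrt (m + 1) - Real.sqrt m)]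
    have h8 : Real.sqrt β / Real.sqrt (m + 1) ≤
        Real.sqrt β * (2 * (Real.sqrt (m + 1) - Real.sqrt m)) := by
      rw [div_eq_mul_one_div]
      exact mul_le_mul_of_nonneg_left h7 hsb.le
    nlinarith

/-- The elementary inequality. -/
theorem KST_elem (d : ℕ) {s : ℝ} (hs : 0 < s) :
    (d : ℝ) ≤ 1 + s + ((d * d - d : ℕ) : ℝ) * s⁻¹ := by
  have hdd : d ≤ d * d := by
    rcases Nat.eq_zero_or_pos d with h | h
    · subst h; simp
    · exact Nat.le_mul_of_pos_left d h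
  rw [Nat.cast_sub hdd]
  push_cast
  have hd0 : (0 : ℝ) ≤ d := Nat.cast_nonneg d
  have hnn : (0 : ℝ) ≤ (d : ℝ) * d - d := by
    have : (d : ℝ) ≤ (d : ℝ) * d := by exact_mod_cast hdd
    linarith
  by_cases h : (d : ℝ) ≤ 1 + s
  · have : 0 ≤ ((d : ℝ) * d - d) * s⁻¹ := mul_nonneg hnn (inv_nonneg.2 hs.le)
    linarith
  · push Not at h
    have h2 : (d : ℝ) ≤ ((d : ℝ) * d - d) * s⁻¹ := by
      rw [← div_eq_mul_inv, le_div_iff₀ hs]
      nlinarith
    linarith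

/-- The pairs of different edges at the same first vertex. -/
def KST_T (E : Finset (ℕ × ℕ)) : Finset ((ℕ × ℕ) × (ℕ × ℕ)) :=
  (E ×ˢ E).filter (fun x => x.1.1 = x.2.1 ∧ x.1 ≠ x.2)

theorem KST_fiber (E : Finset (ℕ × ℕ)) (u : ℕ) :
    ((KST_T E).filter (fun x => x.1.1 = u)).card =
      (E.filter (fun p => p.1 = u)).card * (E.filter (fun p => p.1 = u)).card -
        (E.filter (fun p => p.1 = u)).card := by
  rw [← Finset.offDiag_card]
  congr 1
  ext ⟨p, q⟩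
  simp only [KST_T, Finset.mem_filter, Finset.mem_product, Finset.mem_offDiag]
  constructor
  · rintro ⟨⟨⟨hp, hq⟩, he, hne⟩, hu⟩
    exact ⟨⟨hp, hu⟩, ⟨hq, he ▸ hu⟩, hne⟩
  · rintro ⟨⟨hp, hu⟩, ⟨hq, hu'⟩, hne⟩
    exact ⟨⟨⟨hp, hq⟩, hu.trans hu'.symm, hne⟩, hu⟩

theorem KST_sum_fiber (E : Finset (ℕ × ℕ)) (f : ℕ → ℝ) :
    ∑ u ∈ E.image Prod.fst, (((E.filter (fun p => p.1 = u)).card *
        (E.filter (fun p => p.1 = u)).card - (E.filter (fun p => p.1 = u)).card : ℕ) : ℝ) * f u =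
      ∑ x ∈ KST_T E, f x.1.1 := by
  have hmaps : ∀ x ∈ KST_T E, x.1.1 ∈ E.image Prod.fst := by
    intro x hx
    simp only [KST_T, Finset.mem_filter, Finset.mem_product] at hx
    exact Finset.mem_image_of_mem _ hx.1.1
  rw [← Finset.sum_fiberwise_of_maps_to hmaps]
  refine Finset.sum_congr rfl fun u _ => ?_
  rw [← KST_fiber]
  have : ∑ x ∈ (KST_T E).filter (fun x => x.1.1 = u), f x.1.1 =
      ∑ x ∈ (KST_T E).filter (fun x => x.1.1 = u), f u :=
    Finset.sum_congr rfl fun x hx => by rw [(Finset.mem_filter.1 hx).2]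
  rw [this, Finset.sum_const, nsmul_eq_mul]

theorem KST_inj (E : Finset (ℕ × ℕ)) (hE : C4Free E) :
    Set.InjOn (fun x : (ℕ × ℕ) × (ℕ × ℕ) => (x.1.2, x.2.2)) (KST_T E : Set _) := by
  rintro ⟨⟨u, v⟩, ⟨u2, v'⟩⟩ hx ⟨⟨w, z⟩, ⟨w2, z'⟩⟩ hy hxy
  simp only [KST_T, Finset.coe_filter, Finset.mem_product, Set.mem_ofPred_eq] at hx hy
  obtain ⟨⟨h1, h2⟩, rfl, h3⟩ := hx
  obtain ⟨⟨h4, h5⟩, rfl, h6⟩ := hy
  simp only [Prod.mk.injEq] at hxy
  obtain ⟨rfl, rfl⟩ := hxy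
  have hv : v ≠ v' := fun h => h3 (by rw [h])
  by_cases huw : u = w
  · subst huw
    rfl
  · exact (hE u w v v' huw hv h1 h2 h4 h5).elim

theorem KST_pairs (V : Finset ℕ) (h : ℕ → ℝ) :
    ∑ x ∈ V.offDiag, h (max x.1 x.2) =
      2 * ∑ v ∈ V, ((V.filter (fun v' => v' < v)).card : ℝ) * h v := by
  have e1 : ∑ x ∈ V.offDiag, h (max x.1 x.2) =
      ∑ x ∈ V ×ˢ V, ((if x.2 < x.1 then h x.1 else 0) + (if x.1 < x.2 then h x.2 else 0)) := by
    have e0 : V.offDiag = (V ×ˢ V).filter (fun x => x.1 ≠ x.2) := by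
      ext x
      simp only [Finset.mem_offDiag, Finset.mem_filter, Finset.mem_product, and_assoc]
    rw [e0, Finset.sum_filter]
    refine Finset.sum_congr rfl fun x _ => ?_
    rcases lt_trichotomy x.1 x.2 with hlt | heq | hgt
    · rw [if_pos (ne_of_lt hlt), if_neg (not_lt.2 hlt.le), if_pos hlt, max_eq_right hlt.le,
        zero_add]
    · rw [if_neg (by simpa using heq), if_neg (by rw [heq]; exact lt_irrefl _),
        if_neg (by rw [heq]; exact lt_irrefl _), add_zero]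
    · rw [if_pos (ne_of_gt hgt), if_pos hgt, if_neg (not_lt.2 hgt.le), max_eq_left hgt.le,
        add_zero]
  have e2 : ∑ v ∈ V, ∑ v' ∈ V, (if v' < v then h v else 0) =
      ∑ v ∈ V, ((V.filter (fun v' => v' < v)).card : ℝ) * h v := by
    refine Finset.sum_congr rfl fun v _ => ?_
    rw [← Finset.sum_filter, Finset.sum_const, nsmul_eq_mul]
  rw [e1, Finset.sum_add_distrib, Finset.sum_product, Finset.sum_product_right, two_mul]
  exact congrArg₂ (· + ·) e2 e2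

theorem KST_V (V : Finset ℕ) {Y Y0 β : ℝ} (hV1 : ∀ v ∈ V, 1 ≤ v) (hVY : ∀ v ∈ V, (v : ℝ) ≤ Y)
    (hβ : 0 < β) (hY0 : 1 ≤ Y0) (hY : 1 ≤ Y)
    (hVc : ∀ x : ℝ, Y0 ≤ x → ((V.filter (fun v : ℕ => (v : ℝ) ≤ x)).card : ℝ) ≤ β * x) :
    ∑ v ∈ V, ((V.filter (fun v' => v' < v)).card : ℝ) * (v : ℝ) ^ (-(3 / 2) : ℝ) ≤
      2 * Real.sqrt Y0 + 2 * β ^ 2 * Real.sqrt Y := by
  classical
  have hpw : ∀ v ∈ V, (v : ℝ) * (v : ℝ) ^ (-(3 / 2) : ℝ) = (Real.sqrt (v : ℝ))⁻¹ := by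
    intro v hv
    have hv0 : (0 : ℝ) < v := by exact_mod_cast hV1 v hv
    rw [Real.sqrt_eq_rpow, ← Real.rpow_neg hv0.le]
    have e : (-(1 / 2) : ℝ) = 1 + -(3 / 2) := by norm_num
    rw [e, Real.rpow_add hv0, Real.rpow_one]
  have hgn : ∀ v : ℕ, (0 : ℝ) ≤ (v : ℝ) ^ (-(3 / 2) : ℝ) := fun v =>
    Real.rpow_nonneg (Nat.cast_nonneg v) _
  rw [← Finset.sum_filter_add_sum_filter_not V (fun v : ℕ => (v : ℝ) < Y0)]
  refine add_le_add ?_ ?_
  · -- small vertices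
    set V1 := V.filter (fun v : ℕ => (v : ℝ) < Y0) with hV1d
    have h1 : ∑ v ∈ V1, ((V.filter (fun v' => v' < v)).card : ℝ) * (v : ℝ) ^ (-(3 / 2) : ℝ) ≤
        ∑ v ∈ V1, (Real.sqrt (v : ℝ))⁻¹ := by
      refine Finset.sum_le_sum fun v hv => ?_
      have hvV : v ∈ V := (Finset.mem_filter.1 hv).1
      rw [← hpw v hvV]
      refine mul_le_mul_of_nonneg_right ?_ (hgn v)
      have : (V.filter (fun v' => v' < v)).card ≤ (Finset.Ico 0 v).card :=
        Finset.card_le_card fun a ha => by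
          rw [Finset.mem_filter] at ha
          rw [Finset.mem_Ico]
          exact ⟨Nat.zero_le _, ha.2⟩
      rw [Nat.card_Ico, Nat.sub_zero] at this
      exact_mod_cast this
    have hsub : ∀ (W : Finset ℕ) (a : ℕ), (∀ v ∈ W, 1 ≤ v) → (∀ v ∈ W, v ≤ a) → W.card ≤ a := by
      intro W a hW1 hWa
      have : W.card ≤ (Finset.Icc 1 a).card := Finset.card_le_card fun v hv =>
        Finset.mem_Icc.2 ⟨hW1 v hv, hWa v hv⟩
      rwa [Nat.card_Icc, Nat.add_sub_cancel] at this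
    have h2 := KST_sumB one_pos V1 (fun v hv => hV1 v (Finset.mem_filter.1 hv).1)
      (fun v hv => by
        rw [one_mul]
        exact_mod_cast hsub _ v (fun v' hv' => hV1 v' (Finset.mem_filter.1
          (Finset.mem_filter.1 hv').1).1) (fun v' hv' => (Finset.mem_filter.1 hv').2))
    have h3 : (V1.card : ℝ) ≤ Y0 := by
      have h4 : V1.card ≤ ⌊Y0⌋₊ := hsub _ _ (fun v hv => hV1 v (Finset.mem_filter.1 hv).1)
        (fun v hv => Nat.le_floor (Finset.mem_filter.1 hv).2.le)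
      exact (Nat.cast_le.2 h4).trans (Nat.floor_le (by linarith))
    have h5 := Real.sqrt_le_sqrt h3
    rw [Real.sqrt_one, mul_one] at h2
    linarith
  · -- large vertices
    set V2 := V.filter (fun v : ℕ => ¬ (v : ℝ) < Y0) with hV2d
    have hmem : ∀ v ∈ V2, v ∈ V ∧ Y0 ≤ (v : ℝ) := fun v hv =>
      ⟨(Finset.mem_filter.1 hv).1, not_lt.1 (Finset.mem_filter.1 hv).2⟩
    have h1 : ∑ v ∈ V2, ((V.filter (fun v' => v' < v)).card : ℝ) * (v : ℝ) ^ (-(3 / 2) : ℝ) ≤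
        ∑ v ∈ V2, β * (Real.sqrt (v : ℝ))⁻¹ := by
      refine Finset.sum_le_sum fun v hv => ?_
      obtain ⟨hvV, hvY⟩ := hmem v hv
      rw [← hpw v hvV, ← mul_assoc]
      refine mul_le_mul_of_nonneg_right ?_ (hgn v)
      refine le_trans ?_ (hVc v hvY)
      exact_mod_cast Finset.card_le_card fun a ha => by
        rw [Finset.mem_filter] at ha ⊢
        exact ⟨ha.1, by exact_mod_cast ha.2.le⟩
    rw [← Finset.mul_sum] at h1
    by_cases hE : V2 = ∅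
    · rw [hE] at h1 ⊢
      rw [Finset.sum_empty]
      have := Real.sqrt_nonneg Y
      positivity
    obtain ⟨v0, hv0⟩ := Finset.nonempty_iff_ne_empty.2 hE
    have hYY : Y0 ≤ Y := (hmem v0 hv0).2.trans (hVY v0 (hmem v0 hv0).1)
    have h2 := KST_sumB hβ V2 (fun v hv => hV1 v (hmem v hv).1)
      (fun v hv => by
        refine le_trans ?_ (hVc v (hmem v hv).2)
        exact_mod_cast Finset.card_le_card fun a ha => by
          rw [Finset.mem_filter] at ha ⊢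
          exact ⟨(hmem a ha.1).1, by exact_mod_cast ha.2⟩)
    have h3 : (V2.card : ℝ) ≤ β * Y := by
      refine le_trans ?_ (hVc Y hYY)
      exact_mod_cast Finset.card_le_card fun a ha => by
        rw [Finset.mem_filter]
        exact ⟨(hmem a ha).1, hVY a (hmem a ha).1⟩
    have h4 : Real.sqrt (V2.card : ℝ) ≤ Real.sqrt β * Real.sqrt Y := by
      rw [← Real.sqrt_mul hβ.le]
      exact Real.sqrt_le_sqrt h3
    have h5 : 2 * Real.sqrt β * Real.sqrt (V2.card : ℝ) ≤ 2 * β * Real.sqrt Y := by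
      have h6 := mul_le_mul_of_nonneg_left h4 (show 0 ≤ 2 * Real.sqrt β by positivity)
      have h7 : 2 * Real.sqrt β * (Real.sqrt β * Real.sqrt Y) = 2 * β * Real.sqrt Y := by
        have := Real.mul_self_sqrt hβ.le
        calc 2 * Real.sqrt β * (Real.sqrt β * Real.sqrt Y) =
            2 * (Real.sqrt β * Real.sqrt β) * Real.sqrt Y := by ring
          _ = _ := by rw [this]
      linarith
    have h8 := mul_le_mul_of_nonneg_left (h2.trans h5) hβ.le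
    calc _ ≤ β * ∑ v ∈ V2, (Real.sqrt (v : ℝ))⁻¹ := h1
      _ ≤ β * (2 * β * Real.sqrt Y) := h8
      _ = 2 * β ^ 2 * Real.sqrt Y := by ring

theorem KST_inv {n u v v' : ℕ} {Y w : ℝ} (hn : 1 ≤ n) (hY : 1 ≤ Y) (hw : 0 < w)
    (hv : 1 ≤ v) (h1 : u * v ≤ n) (h2 : u * v' ≤ n) (hvY : (v : ℝ) ≤ Y)
    (hvY' : (v' : ℝ) ≤ Y) :
    ((n : ℝ) / w * (max (u : ℝ) (n / Y)) ^ (-(3 / 2) : ℝ))⁻¹ ≤
      w * Real.sqrt n * ((max v v' : ℕ) : ℝ) ^ (-(3 / 2) : ℝ) := by
  have hn0 : (0 : ℝ) < n := by exact_mod_cast hn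
  have hY0 : (0 : ℝ) < Y := by linarith
  have hc : 0 < max (u : ℝ) (n / Y) := lt_max_of_lt_right (by positivity)
  have hM1 : 1 ≤ max v v' := hv.trans (le_max_left _ _)
  have hM0 : (0 : ℝ) < ((max v v' : ℕ) : ℝ) := by exact_mod_cast hM1
  have hMY : ((max v v' : ℕ) : ℝ) ≤ Y := by
    rw [Nat.cast_max]
    exact max_le hvY hvY'
  have huM : (u : ℝ) * ((max v v' : ℕ) : ℝ) ≤ n := by
    have : u * max v v' ≤ n := by
      rcases max_choice v v' with h | h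
      · rw [h]; exact h1
      · rw [h]; exact h2
    exact_mod_cast this
  have hcM : max (u : ℝ) (n / Y) ≤ n / ((max v v' : ℕ) : ℝ) := by
    refine max_le ?_ ?_
    · rw [le_div_iff₀ hM0]
      exact huM
    · exact div_le_div_of_nonneg_left hn0.le hM0 hMY
  have e1 : ((n : ℝ) / w * (max (u : ℝ) (n / Y)) ^ (-(3 / 2) : ℝ))⁻¹ =
      w / n * (max (u : ℝ) (n / Y)) ^ (3 / 2 : ℝ) := by
    rw [mul_inv, inv_div, ← Real.rpow_neg hc.le, neg_neg]
  have e2 : (max (u : ℝ) (n / Y)) ^ (3 / 2 : ℝ) ≤ (n / ((max v v' : ℕ) : ℝ)) ^ (3 / 2 : ℝ) :=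
    Real.rpow_le_rpow hc.le hcM (by norm_num)
  have e3 : ((n : ℝ) / ((max v v' : ℕ) : ℝ)) ^ (3 / 2 : ℝ) =
      (n : ℝ) * Real.sqrt n * ((max v v' : ℕ) : ℝ) ^ (-(3 / 2) : ℝ) := by
    rw [Real.div_rpow hn0.le hM0.le, Real.rpow_neg hM0.le, div_eq_mul_inv]
    congr 1
    rw [show (3 / 2 : ℝ) = 1 + 1 / 2 by norm_num, Real.rpow_add hn0, Real.rpow_one,
      Real.sqrt_eq_rpow]
  rw [e1]
  rw [e3] at e2
  have h5 := mul_le_mul_of_nonneg_left e2 (show 0 ≤ w / n by positivity)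
  refine h5.trans (le_of_eq ?_)
  field_simp

/-- Weighted KST bound. Proof: for `s > 0` and a natural number `d`, `d ≤ 1 + s + d (d - 1) / s`.
Put `X0 = n / Y`, `w = √α / β` and `s(u) = (n / w) max(u, X0)^(-3/2)` and sum over `u`, `d = d(u)`
the degree of `u`. Each ordered pair `v ≠ v'` has at most one common neighbour `u`, and then
`1 / s(u) ≤ w √n max(v, v')^(-3/2)` because `u ≤ n / max(v, v')` and `X0 ≤ n / max(v, v')`. So
`|E| ≤ |U| + (n / w) ∑_{u ∈ U} max(u, X0)^(-3/2) + 2 w √n ∑_{v ∈ V} #{v' ∈ V, v' < v} v^(-3/2)`.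
The first sum is at most `8 α X0^(-1/2)` (dyadic blocks above `X0`), the second at most
`2 √Y0 + 5 β^2 √Y` (trivial count `#{v' < v} ≤ v` for `v < Y0`, dyadic blocks below `Y` for
`v ≥ Y0`). -/
theorem kst_density (E : Finset (ℕ × ℕ)) (hE : C4Free E) {n : ℕ} {Y Y0 α β : ℝ}
    (hn : 1 ≤ n) (hpos : ∀ p ∈ E, 1 ≤ p.1 ∧ 1 ≤ p.2) (hprod : ∀ p ∈ E, p.1 * p.2 ≤ n)
    (hY : 1 ≤ Y) (hYn : Y ≤ n) (hV : ∀ p ∈ E, (p.2 : ℝ) ≤ Y) (hα : 0 < α) (hβ : 0 < β)
    (hY0 : 1 ≤ Y0)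
    (hU : ∀ x : ℝ, n / Y ≤ x →
      (((E.image Prod.fst).filter (fun u : ℕ => (u : ℝ) ≤ x)).card : ℝ) ≤ α * x)
    (hVc : ∀ x : ℝ, Y0 ≤ x →
      (((E.image Prod.snd).filter (fun v : ℕ => (v : ℝ) ≤ x)).card : ℝ) ≤ β * x) :
    (E.card : ℝ) ≤ (E.image Prod.fst).card + 30 * Real.sqrt α * β * Real.sqrt (n * Y) +
      8 * (Real.sqrt α / β) * Real.sqrt (n * Y0) := by
  classical
  have hn0 : (0 : ℝ) < n := by exact_mod_cast hn
  have hYp : (0 : ℝ) < Y := by linarith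
  set w : ℝ := Real.sqrt α / β with hw
  have hsα : 0 < Real.sqrt α := Real.sqrt_pos.2 hα
  have hw0 : 0 < w := div_pos hsα hβ
  set X0 : ℝ := n / Y with hX0
  have hX0p : 0 < X0 := by positivity
  set s : ℕ → ℝ := fun u => (n : ℝ) / w * (max (u : ℝ) X0) ^ (-(3 / 2) : ℝ) with hs
  have hsp : ∀ u, 0 < s u := fun u => by
    have : 0 < max (u : ℝ) X0 := lt_max_of_lt_right hX0p
    positivity
  have h1 : (E.card : ℝ) = ∑ u ∈ E.image Prod.fst, ((E.filter (fun p => p.1 = u)).card : ℝ) := by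
    rw [Finset.card_eq_sum_card_image Prod.fst E]
    push_cast
    rfl
  have h2 : (E.card : ℝ) ≤ ∑ u ∈ E.image Prod.fst, (1 + s u +
      (((E.filter (fun p => p.1 = u)).card * (E.filter (fun p => p.1 = u)).card -
        (E.filter (fun p => p.1 = u)).card : ℕ) : ℝ) * (s u)⁻¹) := by
    rw [h1]
    exact Finset.sum_le_sum fun u _ => KST_elem _ (hsp u)
  rw [Finset.sum_add_distrib, Finset.sum_add_distrib, KST_sum_fiber E (fun u => (s u)⁻¹)] at h2
  have h3 : ∑ u ∈ E.image Prod.fst, (1 : ℝ) = (E.image Prod.fst).card := by simp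
  have h4 : ∑ u ∈ E.image Prod.fst, s u ≤ 3 * Real.sqrt α * β * Real.sqrt (n * Y) := by
    have h5 := KST_sumA (E.image Prod.fst) hX0p hU
    rw [← Finset.mul_sum]
    have h6 := mul_le_mul_of_nonneg_left h5 (show 0 ≤ (n : ℝ) / w by positivity)
    refine h6.trans (le_of_eq ?_)
    have e1 : X0 ^ (-(1 / 2) : ℝ) = Real.sqrt Y / Real.sqrt n := by
      rw [Real.rpow_neg hX0p.le, ← Real.sqrt_eq_rpow, hX0, Real.sqrt_div hn0.le, inv_div]
    rw [e1, hw, Real.sqrt_mul hn0.le]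
    have e2 : (n : ℝ) = Real.sqrt n * Real.sqrt n := (Real.mul_self_sqrt hn0.le).symm
    have e3 : α = Real.sqrt α * Real.sqrt α := (Real.mul_self_sqrt hα.le).symm
    have e4 : 0 < Real.sqrt n := Real.sqrt_pos.2 hn0
    field_simp
    rw [Real.sq_sqrt hn0.le, Real.sq_sqrt hα.le]
    ring
  have hpos1 : ∀ v ∈ E.image Prod.snd, 1 ≤ v := by
    intro v hv
    obtain ⟨p, hp, rfl⟩ := Finset.mem_image.1 hv
    exact (hpos p hp).2
  have hVY : ∀ v ∈ E.image Prod.snd, (v : ℝ) ≤ Y := by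
    intro v hv
    obtain ⟨p, hp, rfl⟩ := Finset.mem_image.1 hv
    exact hV p hp
  have h7 : ∑ x ∈ KST_T E, (s x.1.1)⁻¹ ≤ ∑ x ∈ KST_T E,
      w * Real.sqrt n * ((max x.1.2 x.2.2 : ℕ) : ℝ) ^ (-(3 / 2) : ℝ) := by
    refine Finset.sum_le_sum fun x hx => ?_
    simp only [KST_T, Finset.mem_filter, Finset.mem_product] at hx
    obtain ⟨⟨hx1, hx2⟩, hx3, -⟩ := hx
    exact KST_inv hn hY hw0 (hpos _ hx1).2 (hprod _ hx1)
      (by rw [hx3]; exact hprod _ hx2) (hV _ hx1) (hV _ hx2)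
  have h8 : ∑ x ∈ KST_T E, w * Real.sqrt n * ((max x.1.2 x.2.2 : ℕ) : ℝ) ^ (-(3 / 2) : ℝ) ≤
      ∑ y ∈ (E.image Prod.snd).offDiag,
        w * Real.sqrt n * ((max y.1 y.2 : ℕ) : ℝ) ^ (-(3 / 2) : ℝ) := by
    rw [← Finset.sum_image (f := fun y : ℕ × ℕ =>
      w * Real.sqrt n * ((max y.1 y.2 : ℕ) : ℝ) ^ (-(3 / 2) : ℝ)) (KST_inj E hE)]
    refine Finset.sum_le_sum_of_subset_of_nonneg ?_ fun y _ _ => ?_
    · intro y hy
      obtain ⟨x, hx, rfl⟩ := Finset.mem_image.1 hy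
      simp only [KST_T, Finset.mem_filter, Finset.mem_product] at hx
      obtain ⟨⟨hx1, hx2⟩, hx3, hx4⟩ := hx
      rw [Finset.mem_offDiag]
      exact ⟨Finset.mem_image.2 ⟨x.1, hx1, rfl⟩, Finset.mem_image.2 ⟨x.2, hx2, rfl⟩,
        fun h => hx4 (Prod.ext hx3 h)⟩
    · have := Real.rpow_nonneg (Nat.cast_nonneg (max y.1 y.2) : (0 : ℝ) ≤ _) (-(3 / 2) : ℝ)
      positivity
  have h9 := KST_pairs (E.image Prod.snd)
    (fun v => w * Real.sqrt n * (v : ℝ) ^ (-(3 / 2) : ℝ))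
  have h10 := KST_V (E.image Prod.snd) hpos1 hVY hβ hY0 hY hVc
  have h11 : ∑ v ∈ E.image Prod.snd, (((E.image Prod.snd).filter (fun v' => v' < v)).card : ℝ) *
      (w * Real.sqrt n * (v : ℝ) ^ (-(3 / 2) : ℝ)) = w * Real.sqrt n *
      ∑ v ∈ E.image Prod.snd, (((E.image Prod.snd).filter (fun v' => v' < v)).card : ℝ) *
        (v : ℝ) ^ (-(3 / 2) : ℝ) := by
    rw [Finset.mul_sum]
    exact Finset.sum_congr rfl fun v _ => by ring
  rw [h11] at h9
  have h12 := mul_le_mul_of_nonneg_left h10 (show 0 ≤ w * Real.sqrt n by positivity)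
  have h13 : w * Real.sqrt n * (2 * Real.sqrt Y0 + 2 * β ^ 2 * Real.sqrt Y) =
      2 * w * Real.sqrt (n * Y0) + 2 * Real.sqrt α * β * Real.sqrt (n * Y) := by
    rw [Real.sqrt_mul hn0.le, Real.sqrt_mul hn0.le, hw]
    field_simp
  rw [h3] at h2
  have h14 : 0 ≤ Real.sqrt α * β * Real.sqrt (n * Y) := by positivity
  have h15 : 0 ≤ w * Real.sqrt (n * Y0) := by positivity
  nlinarith

end Pool.Agent.W_764f34_h80
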