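import Pool.Agent.W_764f34_h80.KST
import Pool.Agent.W_764f34_h80.Count

set_option autoImplicit false

/-! The main class: labels `> K` and primes outside `[√n / K, K √n]` contribute little. -/

namespace Pool.Agent.W_764f34_h80

open N884ee30a Filter Topology

theorem Main_growth {δ : ℝ} (hδ : 0 < δ) (C : ℝ) (k : ℕ) :
    ∀ᶠ n : ℕ in atTop, C * Real.log n ^ k ≤ (n : ℝ) ^ δ := by
  have h := (isLittleO_log_rpow_rpow_atTop (k : ℝ) hδ).comp_tendsto
    (tendsto_natCast_atTop_atTop (R := ℝ))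
  have hc : 0 < 1 / (|C| + 1) := by positivity
  filter_upwards [h.def hc] with n hn
  simp only [Function.comp_apply, Real.rpow_natCast, Real.norm_eq_abs] at hn
  have hlog : 0 ≤ Real.log n := Real.log_natCast_nonneg n
  rw [abs_of_nonneg (pow_nonneg hlog k),
    abs_of_nonneg (Real.rpow_nonneg (Nat.cast_nonneg n) δ)] at hn
  calc C * Real.log n ^ k ≤ (|C| + 1) * Real.log n ^ k := by
        gcongr
        linarith [le_abs_self C]
    _ ≤ (|C| + 1) * (1 / (|C| + 1) * (n : ℝ) ^ δ) := by gcongr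
    _ = (n : ℝ) ^ δ := by field_simp

theorem Main_zz (n : ℕ) : zz n = Real.sqrt n := (Real.sqrt_eq_rpow (n : ℝ)).symm

theorem Main_zz_sq (n : ℕ) : zz n * zz n = n := by
  rw [Main_zz, Real.mul_self_sqrt (Nat.cast_nonneg n)]

theorem Main_log_ge {n : ℕ} (hn : 3 ≤ n) : 1 ≤ Real.log n := by
  rw [Real.le_log_iff_exp_le (by positivity)]
  have h : (3 : ℝ) ≤ n := by exact_mod_cast hn
  linarith [Real.exp_one_lt_d9]

theorem Main_card_le {S : Finset ℕ} {x : ℝ} (hx : 0 ≤ x) (h : ∀ u ∈ S, 1 ≤ u ∧ (u : ℝ) ≤ x) :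
    (S.card : ℝ) ≤ x := by
  have h1 : S ⊆ Finset.Icc 1 ⌊x⌋₊ := by
    intro u hu
    rw [Finset.mem_Icc]
    exact ⟨(h u hu).1, Nat.le_floor (h u hu).2⟩
  have h2 := Finset.card_le_card h1
  rw [Nat.card_Icc, Nat.add_sub_cancel] at h2
  exact (by exact_mod_cast h2 : (S.card : ℝ) ≤ (⌊x⌋₊ : ℝ)).trans (Nat.floor_le hx)

theorem Main_card_primes {S : Finset ℕ} {x : ℝ} (h : ∀ u ∈ S, u.Prime ∧ (u : ℝ) ≤ x) :
    (S.card : ℝ) ≤ Nat.primeCounting ⌊x⌋₊ := by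
  have h1 : S ⊆ (Finset.range (⌊x⌋₊ + 1)).filter Nat.Prime := by
    intro u hu
    rw [Finset.mem_filter, Finset.mem_range]
    exact ⟨Nat.lt_succ_of_le (Nat.le_floor (h u hu).2), (h u hu).1⟩
  have h2 := Finset.card_le_card h1
  have h3 : Nat.primeCounting ⌊x⌋₊ = ((Finset.range (⌊x⌋₊ + 1)).filter Nat.Prime).card := by
    unfold Nat.primeCounting Nat.primeCounting'
    exact Nat.count_eq_card_filter_range _ _
  rw [h3]
  exact_mod_cast h2

theorem Main_rpow_log {l : ℝ} (hl : 0 < l) :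
    l ^ (-(3 : ℝ) / 2) = (Real.sqrt l)⁻¹ * l⁻¹ := by
  rw [Real.sqrt_eq_rpow, ← Real.rpow_neg hl.le, ← Real.rpow_neg_one l, ← Real.rpow_add hl]
  norm_num

/-- One block: the elements `a = m p q` of `A` with `m ∈ [2^j, 2^(j+1))`, `m ≤ L^2`, primes
`z / L < q ≤ p ≤ z L` and `q ≤ Y`, where `Y ≤ z`. `kst_density` with `U = {m p}`, `V = {q}`:
`α = C / log n` (`block_count`, as `n / Y ≥ z`), `β = 20 C / log n` (Chebyshev, `Y0 = n^(1/10)`),
`|U| ≤ n / (z / L) = z L`. -/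
theorem block_bound : ∃ C : ℝ, 1 ≤ C ∧ ∀ᶠ n : ℕ in atTop, ∀ (j : ℕ) (Y : ℝ), 1 ≤ Y → Y ≤ zz n →
    ∀ A B : Finset ℕ, A ⊆ Finset.Icc 1 n → PairProductDistinct A → B ⊆ A →
    (∀ a ∈ B, ∃ m p q : ℕ, a = m * p * q ∧ p.Prime ∧ q.Prime ∧ q ≤ p ∧ zz n / Lg n < q ∧
      (p : ℝ) ≤ zz n * Lg n ∧ (m : ℝ) ≤ Lg n ^ 2 ∧ 2 ^ j ≤ m ∧ m < 2 ^ (j + 1) ∧ (q : ℝ) ≤ Y) →
    (B.card : ℝ) ≤ C * Real.log n ^ (-(3 : ℝ) / 2) * Real.sqrt (n * Y) +
      C * (n : ℝ) ^ ((3 : ℝ) / 5) := by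
  classical
  obtain ⟨C₁, hC₁, hblk⟩ := block_count
  obtain ⟨C₂, hC₂, hcheb⟩ := cheb
  have hC0 : 0 ≤ 300 * Real.sqrt C₁ * C₂ := by positivity
  refine ⟨300 * Real.sqrt C₁ * C₂ + 2, by linarith, ?_⟩
  filter_upwards [hblk, Main_growth (δ := 1 / 10) (by norm_num) 2 0,
    Main_growth (δ := 1 / 10) (by norm_num) 1 4,
    Main_growth (δ := 1 / 20) (by norm_num) (8 * (Real.sqrt C₁ / (10 * C₂))) 1,
    eventually_ge_atTop 3] with n hn g2 g3 g4 h3
  intro j Y hY1 hYz A B hA hPPD hBA hB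
  have hlog1 : 1 ≤ Real.log n := Main_log_ge h3
  have hlog0 : 0 < Real.log n := by linarith
  have hn0 : (0 : ℝ) < n := by
    have : 0 < n := by omega
    exact_mod_cast this
  have hn1 : (1 : ℝ) ≤ n := by
    have : 1 ≤ n := by omega
    exact_mod_cast this
  have hzz0 : 0 < zz n := by
    rw [Main_zz]
    exact Real.sqrt_pos.2 hn0
  have hLg1 : 1 ≤ Lg n := one_le_pow₀ hlog1
  have hLg0 : 0 < Lg n := by linarith
  have hY0 : 0 < Y := by linarith
  choose! m p q hh using hB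
  obtain ⟨hC4, hcard⟩ := c4free_of_distinct hPPD hBA (fun a => (m a * p a, q a))
    (fun a ha => (hh a ha).1.symm)
  set E := B.image (fun a => (m a * p a, q a)) with hE
  have hmem : ∀ x ∈ E, ∃ a ∈ B, (m a * p a, q a) = x := fun x hx => Finset.mem_image.1 hx
  have hapos : ∀ a ∈ B, 1 ≤ a ∧ a ≤ n := fun a ha => Finset.mem_Icc.1 (hA (hBA ha))
  have hmp : ∀ a ∈ B, 1 ≤ m a * p a ∧ 1 ≤ q a := by
    intro a ha
    have h1 := (hh a ha).1
    have h2 := (hapos a ha).1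
    constructor
    · rcases Nat.eq_zero_or_pos (m a * p a) with h | h
      · rw [h, zero_mul] at h1
        omega
      · exact h
    · exact (hh a ha).2.2.1.one_le
  have hYn : Y ≤ n := by
    have h1 : zz n ≤ n := by
      rw [Main_zz]
      exact Real.sqrt_le_iff.2 ⟨by linarith, by nlinarith⟩
    linarith
  have hx10 : (2 : ℝ) ≤ (n : ℝ) ^ ((1 : ℝ) / 10) := by simpa using g2
  have key := kst_density E hC4 (n := n) (Y := Y) (Y0 := (n : ℝ) ^ ((1 : ℝ) / 10))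
    (α := C₁ / Real.log n) (β := 10 * C₂ / Real.log n) (by omega)
    (by
      intro x hx
      obtain ⟨a, ha, rfl⟩ := hmem x hx
      exact hmp a ha)
    (by
      intro x hx
      obtain ⟨a, ha, rfl⟩ := hmem x hx
      show m a * p a * q a ≤ n
      rw [← (hh a ha).1]
      exact (hapos a ha).2)
    hY1 hYn
    (by
      intro x hx
      obtain ⟨a, ha, rfl⟩ := hmem x hx
      exact (hh a ha).2.2.2.2.2.2.2.2.2)
    (by positivity) (by positivity) (by linarith)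
    (by
      intro x hx
      have h1 : zz n ≤ x := by
        refine le_trans ?_ hx
        rw [le_div_iff₀ hY0]
        calc zz n * Y ≤ zz n * zz n := by gcongr
          _ = n := Main_zz_sq n
      have h2 := hn x h1 j ((E.image Prod.fst).filter (fun u : ℕ => (u : ℝ) ≤ x)) (by
        intro u hu
        rw [Finset.mem_filter, Finset.mem_image] at hu
        obtain ⟨⟨y, hy, rfl⟩, hux⟩ := hu
        obtain ⟨a, ha, rfl⟩ := hmem y hy
        obtain ⟨-, h4, -, -, -, -, h5, h6, h7, -⟩ := hh a ha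
        exact ⟨hux, m a, p a, rfl, h4, h6, h7, h5⟩)
      calc _ ≤ C₁ * x / Real.log n := h2
        _ = C₁ / Real.log n * x := by ring)
    (by
      intro x hx
      have hx2 : 2 ≤ x := hx10.trans hx
      have h2 := Main_card_primes (S := (E.image Prod.snd).filter (fun v : ℕ => (v : ℝ) ≤ x))
        (x := x) (by
        intro u hu
        rw [Finset.mem_filter, Finset.mem_image] at hu
        obtain ⟨⟨y, hy, rfl⟩, hux⟩ := hu
        obtain ⟨a, ha, rfl⟩ := hmem y hy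
        exact ⟨(hh a ha).2.2.1, hux⟩)
      have h3 := hcheb x hx2
      have h4 : Real.log n / 10 ≤ Real.log x := by
        have h5 : Real.log ((n : ℝ) ^ ((1 : ℝ) / 10)) ≤ Real.log x :=
          Real.log_le_log (by positivity) hx
        rw [Real.log_rpow hn0] at h5
        linarith
      calc _ ≤ _ := h2
        _ ≤ C₂ * x / Real.log x := h3
        _ ≤ C₂ * x / (Real.log n / 10) := by gcongr
        _ = 10 * C₂ / Real.log n * x := by
          field_simp)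
  rw [hcard] at key
  have hU : ((E.image Prod.fst).card : ℝ) ≤ (n : ℝ) ^ ((3 : ℝ) / 5) := by
    have h1 : ((E.image Prod.fst).card : ℝ) ≤ zz n * Lg n := by
      refine Main_card_le (by positivity) ?_
      intro u hu
      obtain ⟨y, hy, rfl⟩ := Finset.mem_image.1 hu
      obtain ⟨a, ha, rfl⟩ := hmem y hy
      refine ⟨(hmp a ha).1, ?_⟩
      obtain ⟨h4, -, -, -, h5, -⟩ := hh a ha
      have h6 : ((m a * p a : ℕ) : ℝ) * (q a : ℝ) ≤ n := by
        have := (hapos a ha).2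
        rw [h4] at this
        exact_mod_cast this
      by_contra hlt
      push Not at hlt
      have h7 : zz n * Lg n * (zz n / Lg n) < ((m a * p a : ℕ) : ℝ) * (q a : ℝ) := by
        apply mul_lt_mul'' hlt h5 (by positivity) (by positivity)
      have h8 : zz n * Lg n * (zz n / Lg n) = n := by
        rw [← Main_zz_sq n]
        field_simp
      rw [h8] at h7
      linarith
    refine h1.trans ?_
    have h2 : Lg n ≤ (n : ℝ) ^ ((1 : ℝ) / 10) := by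
      unfold Lg
      simpa using g3
    calc zz n * Lg n ≤ (n : ℝ) ^ ((1 : ℝ) / 2) * (n : ℝ) ^ ((1 : ℝ) / 10) := by
          unfold zz
          gcongr
      _ = (n : ℝ) ^ ((3 : ℝ) / 5) := by
          rw [← Real.rpow_add hn0]
          norm_num
  have hmid : 30 * Real.sqrt (C₁ / Real.log n) * (10 * C₂ / Real.log n) * Real.sqrt (n * Y) =
      300 * Real.sqrt C₁ * C₂ * Real.log n ^ (-(3 : ℝ) / 2) * Real.sqrt (n * Y) := by
    rw [Main_rpow_log hlog0, Real.sqrt_div (by linarith) (Real.log n)]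
    ring
  have hlast : 8 * (Real.sqrt (C₁ / Real.log n) / (10 * C₂ / Real.log n)) *
      Real.sqrt (n * (n : ℝ) ^ ((1 : ℝ) / 10)) ≤ (n : ℝ) ^ ((3 : ℝ) / 5) := by
    have h1 : Real.sqrt (C₁ / Real.log n) ≤ Real.sqrt C₁ := by
      apply Real.sqrt_le_sqrt
      exact div_le_self (by linarith) hlog1
    have h2 : Real.sqrt (n * (n : ℝ) ^ ((1 : ℝ) / 10)) = (n : ℝ) ^ ((11 : ℝ) / 20) := by
      rw [Real.sqrt_eq_rpow]
      have : (n : ℝ) * (n : ℝ) ^ ((1 : ℝ) / 10) = (n : ℝ) ^ ((11 : ℝ) / 10) := by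
        nth_rewrite 1 [← Real.rpow_one (n : ℝ)]
        rw [← Real.rpow_add hn0]
        norm_num
      rw [this, ← Real.rpow_mul hn0.le]
      norm_num
    rw [h2]
    have h3 : 8 * (Real.sqrt (C₁ / Real.log n) / (10 * C₂ / Real.log n)) ≤
        (n : ℝ) ^ ((1 : ℝ) / 20) := by
      have h4 : Real.sqrt (C₁ / Real.log n) / (10 * C₂ / Real.log n) ≤
          Real.sqrt C₁ / (10 * C₂ / Real.log n) := by gcongr
      have h5 : Real.sqrt C₁ / (10 * C₂ / Real.log n) =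
          Real.sqrt C₁ / (10 * C₂) * Real.log n := by
        field_simp
      rw [h5] at h4
      have h6 : 8 * (Real.sqrt C₁ / (10 * C₂)) * Real.log n ≤ (n : ℝ) ^ ((1 : ℝ) / 20) := by
        simpa using g4
      linarith
    calc _ ≤ (n : ℝ) ^ ((1 : ℝ) / 20) * (n : ℝ) ^ ((11 : ℝ) / 20) := by gcongr
      _ = (n : ℝ) ^ ((3 : ℝ) / 5) := by
          rw [← Real.rpow_add hn0]
          norm_num
  rw [hmid] at key
  have h9 : 0 ≤ Real.log n ^ (-(3 : ℝ) / 2) * Real.sqrt (n * Y) := by positivity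
  have h10 : 0 ≤ (n : ℝ) ^ ((3 : ℝ) / 5) := by positivity
  nlinarith [mul_nonneg hC0 h10]

/-- Dyadic size of the smaller prime. -/
theorem Main_key {K n t p q j : ℕ} (hK : 2 ≤ K) (ht : 2 ^ j ≤ t) (ht' : t < 2 ^ (j + 1))
    (hqp : q ≤ p) (hn : t * p * q ≤ n)
    (hcore : ¬ (t ≤ K ∧ n ≤ (K * q) ^ 2 ∧ p ^ 2 ≤ K ^ 2 * n)) :
    q ^ 4 * (K * 2 ^ j) ≤ 2 * n ^ 2 := by
  have ht1 : 1 ≤ t := Nat.one_le_two_pow.trans ht
  have h1 : t * q ^ 2 ≤ n := by
    calc t * q ^ 2 = t * q * q := by ring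
      _ ≤ t * p * q := by gcongr
      _ ≤ n := hn
  rcases Nat.lt_or_ge K (2 ^ (j + 1)) with hj | hj
  · have h2 : 2 ^ j * q ^ 2 ≤ n := (Nat.mul_le_mul_right _ ht).trans h1
    have h3 : (2 ^ j * q ^ 2) ^ 2 ≤ n ^ 2 := Nat.pow_le_pow_left h2 2
    calc q ^ 4 * (K * 2 ^ j) ≤ q ^ 4 * (2 ^ (j + 1) * 2 ^ j) := by gcongr
      _ = 2 * (2 ^ j * q ^ 2) ^ 2 := by ring
      _ ≤ 2 * n ^ 2 := by gcongr
  · have htK : t ≤ K := by omega
    have h4 : (K * q) ^ 2 ≤ n := by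
      by_contra hlt
      push Not at hlt
      apply hcore
      refine ⟨htK, hlt.le, ?_⟩
      by_contra hlt2
      push Not at hlt2
      have h5 : (p * q) ^ 2 ≤ n ^ 2 := by
        apply Nat.pow_le_pow_left
        calc p * q = 1 * p * q := by ring
          _ ≤ t * p * q := by gcongr
          _ ≤ n := hn
      have h6 : K ^ 2 * n * n < (p * q * K) ^ 2 := by
        have hq0 : 0 < q := by
          rcases Nat.eq_zero_or_pos q with h | h
          · rw [h] at hlt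
            simp at hlt
          · exact h
        calc K ^ 2 * n * n ≤ K ^ 2 * n * (K * q) ^ 2 := by gcongr
          _ < p ^ 2 * (K * q) ^ 2 := by
              have : 0 < (K * q) ^ 2 := by positivity
              exact Nat.mul_lt_mul_of_pos_right hlt2 this
          _ = (p * q * K) ^ 2 := by ring
      have h7 : (p * q * K) ^ 2 ≤ n ^ 2 * K ^ 2 := by
        calc (p * q * K) ^ 2 = (p * q) ^ 2 * K ^ 2 := by ring
          _ ≤ n ^ 2 * K ^ 2 := by gcongr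
      have h8 : K ^ 2 * n * n = n ^ 2 * K ^ 2 := by ring
      omega
    have h9 : ((K * q) ^ 2) ^ 2 ≤ n ^ 2 := Nat.pow_le_pow_left h4 2
    have h10 : 2 ^ j ≤ K := by
      calc 2 ^ j ≤ 2 ^ (j + 1) := Nat.pow_le_pow_right (by norm_num) (Nat.le_succ j)
        _ ≤ K := hj
    calc q ^ 4 * (K * 2 ^ j) ≤ q ^ 4 * (K * K) := by gcongr
      _ ≤ q ^ 4 * (K * K) * (K * K) := Nat.le_mul_of_pos_right _ (by positivity)
      _ = ((K * q) ^ 2) ^ 2 := by ring
      _ ≤ n ^ 2 := h9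
      _ ≤ 2 * n ^ 2 := by omega

/-- The size of a block. -/
theorem Main_sqrt {K n j : ℕ} (hK : 2 ≤ K) :
    Real.sqrt (n * (zz n / ((K : ℝ) * 2 ^ j / 2) ^ ((1 : ℝ) / 4))) =
      (n : ℝ) ^ ((3 : ℝ) / 4) * ((K : ℝ) / 2) ^ (-((1 : ℝ) / 8)) *
        ((2 : ℝ) ^ (-((1 : ℝ) / 8))) ^ j := by
  have hK0 : (0 : ℝ) < (K : ℝ) / 2 := by
    have : (2 : ℝ) ≤ K := by exact_mod_cast hK
    linarith
  rcases Nat.eq_zero_or_pos n with h0 | h0
  · subst h0
    norm_num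
  have hn0 : (0 : ℝ) < n := by exact_mod_cast h0
  have h1 : (n : ℝ) * (zz n / ((K : ℝ) * 2 ^ j / 2) ^ ((1 : ℝ) / 4)) =
      (n : ℝ) ^ ((3 : ℝ) / 2) * ((K : ℝ) / 2) ^ (-((1 : ℝ) / 4)) *
        ((2 : ℝ) ^ j) ^ (-((1 : ℝ) / 4)) := by
    have h2 : (K : ℝ) * 2 ^ j / 2 = (K : ℝ) / 2 * 2 ^ j := by ring
    rw [h2, Real.mul_rpow hK0.le (by positivity), Real.rpow_neg hK0.le,
      Real.rpow_neg (by positivity)]
    have h3 : (n : ℝ) ^ ((3 : ℝ) / 2) = n * zz n := by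
      unfold zz
      nth_rewrite 2 [← Real.rpow_one (n : ℝ)]
      rw [← Real.rpow_add hn0]
      norm_num
    rw [h3]
    field_simp
  rw [h1, Real.sqrt_eq_rpow, Real.mul_rpow (by positivity) (by positivity),
    Real.mul_rpow (by positivity) (by positivity), ← Real.rpow_mul hn0.le,
    ← Real.rpow_mul hK0.le, ← Real.rpow_mul (by positivity), ← Real.rpow_natCast 2 j,
    ← Real.rpow_natCast _ j, ← Real.rpow_mul (by norm_num), ← Real.rpow_mul (by norm_num)]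
  congr 1
  · congr 1 <;> norm_num
  · congr 1
    ring

/-- The smaller prime is at most the bound of the block. -/
theorem Main_le {K n q j : ℕ} (hK : 2 ≤ K) (h : q ^ 4 * (K * 2 ^ j) ≤ 2 * n ^ 2) :
    (q : ℝ) ≤ zz n / ((K : ℝ) * 2 ^ j / 2) ^ ((1 : ℝ) / 4) := by
  have hK0 : (0 : ℝ) < (K : ℝ) := by
    have : 0 < K := by omega
    exact_mod_cast this
  have hR : 0 < ((K : ℝ) * 2 ^ j / 2) ^ ((1 : ℝ) / 4) := by positivity
  have hR4 : (((K : ℝ) * 2 ^ j / 2) ^ ((1 : ℝ) / 4)) ^ 4 = (K : ℝ) * 2 ^ j / 2 := by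
    rw [← Real.rpow_natCast, ← Real.rpow_mul (by positivity)]
    norm_num
  have hz0 : 0 ≤ zz n := by
    rw [Main_zz]
    exact Real.sqrt_nonneg _
  rw [le_div_iff₀ hR, ← pow_le_pow_iff_left₀ (by positivity) hz0 (show 4 ≠ 0 by norm_num),
    mul_pow, hR4]
  have h1 : (q : ℝ) ^ 4 * ((K : ℝ) * 2 ^ j) ≤ 2 * (n : ℝ) ^ 2 := by exact_mod_cast h
  have h2 : zz n ^ 4 = (n : ℝ) ^ 2 := by
    calc zz n ^ 4 = (zz n * zz n) ^ 2 := by ring
      _ = _ := by rw [Main_zz_sq]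
  rw [h2]
  linarith

theorem Main_kappa : Tendsto (fun K : ℕ => ((K : ℝ) / 2) ^ (-((1 : ℝ) / 8))) atTop (𝓝 0) := by
  have h := tendsto_rpow_neg_atTop (show (0 : ℝ) < 1 / 8 by norm_num)
  exact h.comp ((tendsto_natCast_atTop_atTop (R := ℝ)).atTop_div_const (by norm_num))

open Classical in
/-- The tail of the main class. If `a = t p q` is in class M but not in `Core K n`, then `p = q` (at
most `z L^3` such `a`), or `t > K`, or `q < z / K` (if `t ≤ K`, `p ≠ q` and `p > K z` then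
`q ≤ n / p < z / K`). Labels in the block `[2^j, 2^(j+1))` force `q ≤ z 2^(-j/2)` (as `t q^2 ≤ n`).
Blocks with `2^(j+1) > K`: sum over `j` of `C (log n)^(-3/2) √(n z) 2^(-j/4)`, at most
`C' K^(-1/4) scale n`. Blocks with `2^j ≤ K`, `q < z / K`: at most `(1 + log2 K)` times
`C (log n)^(-3/2) √(n z / K)`. The number of blocks is at most `log2 (L^2) + 1`, which takes care of
the terms `n^(3/5)`. -/
theorem main_tail {ε : ℝ} (hε : 0 < ε) : ∀ᶠ K : ℕ in atTop, ∀ᶠ n : ℕ in atTop, ∀ A : Finset ℕ,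
    A ⊆ Finset.Icc 1 n → PairProductDistinct A →
    ((A.filter (fun a => ClM n a ∧ ¬ Core K n a)).card : ℝ) ≤ ε * scale n := by
  obtain ⟨C, hC, hbb⟩ := block_bound
  set θ : ℝ := (2 : ℝ) ^ (-((1 : ℝ) / 8)) with hθ
  have hθ0 : 0 < θ := by positivity
  have hθ1 : θ < 1 := Real.rpow_lt_one_of_one_lt_of_neg (by norm_num) (by norm_num)
  have hδ : 0 < ε / 3 * (1 - θ) / C := by
    have : 0 < 1 - θ := by linarith
    positivity
  filter_upwards [Main_kappa.eventually (gt_mem_nhds hδ), eventually_ge_atTop 2] with K hκ hK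
  have hK0 : (0 : ℝ) < K := by
    have : 0 < K := by omega
    exact_mod_cast this
  have hK2 : (2 : ℝ) ≤ K := by exact_mod_cast hK
  filter_upwards [hbb, small_pow (θ := 3 / 5) (by norm_num) 8 (ε := ε / 3) (C := 2 * C)
    (by positivity), small_pow (θ := 1 / 2) (by norm_num) 12 (ε := ε / 3) (C := 1)
    (by positivity), Main_growth (δ := 1) (by norm_num) K 8, eventually_ge_atTop 3]
    with n hbb hs1 hs2 hg hn3
  intro A hA hPPD
  have hlog1 : 1 ≤ Real.log n := Main_log_ge hn3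
  have hn1 : (1 : ℝ) ≤ n := by
    have : 1 ≤ n := by omega
    exact_mod_cast this
  have hLg1 : 1 ≤ Lg n := one_le_pow₀ hlog1
  have hLg2 : 1 ≤ Lg n ^ 2 := one_le_pow₀ hLg1
  have hz1 : 1 ≤ zz n := by
    rw [Main_zz]
    exact Real.one_le_sqrt.2 hn1
  have hscale : 0 < scale n := scale_pos (by omega)
  set Y : ℕ → ℝ := fun j => zz n / ((K : ℝ) * 2 ^ j / 2) ^ ((1 : ℝ) / 4) with hY
  set B : ℕ → Finset ℕ := fun j => A.filter (fun a => ∃ m p q : ℕ, a = m * p * q ∧ p.Prime ∧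
    q.Prime ∧ q ≤ p ∧ zz n / Lg n < q ∧ (p : ℝ) ≤ zz n * Lg n ∧ (m : ℝ) ≤ Lg n ^ 2 ∧
    2 ^ j ≤ m ∧ m < 2 ^ (j + 1) ∧ (q : ℝ) ≤ Y j) with hB
  set S₀ : Finset ℕ := (Finset.Icc 1 ⌊Lg n ^ 2⌋₊ ×ˢ Finset.Icc 1 ⌊zz n * Lg n⌋₊).image
    (fun x => x.1 * x.2 * x.2) with hS₀
  set J : ℕ := ⌊Lg n ^ 2⌋₊ + 1 with hJ
  -- the covering
  have hcov : A.filter (fun a => ClM n a ∧ ¬ Core K n a) ⊆
      S₀ ∪ (Finset.range J).biUnion B := by
    intro a ha
    rw [Finset.mem_filter] at ha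
    obtain ⟨haA, ⟨t, p, q, hat, hp, hq, hqp, hq1, hp1, ht1⟩, hncore⟩ := ha
    have ha1 := Finset.mem_Icc.1 (hA haA)
    have ht0 : t ≠ 0 := by
      rintro rfl
      rw [zero_mul, zero_mul] at hat
      omega
    rw [Finset.mem_union]
    by_cases hpq : p = q
    · left
      rw [hS₀, Finset.mem_image]
      refine ⟨(t, p), ?_, by rw [hat, hpq]⟩
      rw [Finset.mem_product, Finset.mem_Icc, Finset.mem_Icc]
      exact ⟨⟨Nat.one_le_iff_ne_zero.2 ht0, Nat.le_floor ht1⟩, hp.one_le, Nat.le_floor hp1⟩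
    · right
      have h1 : 2 ^ Nat.log 2 t ≤ t := Nat.pow_log_le_self 2 ht0
      have h2 : t < 2 ^ (Nat.log 2 t + 1) := Nat.lt_pow_succ_log_self (by norm_num) t
      have h3 : q ^ 4 * (K * 2 ^ Nat.log 2 t) ≤ 2 * n ^ 2 := by
        refine Main_key (p := p) hK h1 h2 hqp (hat ▸ ha1.2) ?_
        rintro ⟨h4, h5, h6⟩
        apply hncore
        exact ⟨t, q, p, by rw [hat]; ring, h4, hq, hp, lt_of_le_of_ne hqp (Ne.symm hpq), h5, h6⟩
      rw [Finset.mem_biUnion]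
      refine ⟨Nat.log 2 t, ?_, ?_⟩
      · rw [Finset.mem_range, hJ]
        have h4 : Nat.log 2 t < 2 ^ Nat.log 2 t := Nat.lt_two_pow_self
        have h5 : t ≤ ⌊Lg n ^ 2⌋₊ := Nat.le_floor ht1
        omega
      · rw [hB, Finset.mem_filter]
        exact ⟨haA, t, p, q, hat, hp, hq, hqp, hq1, hp1, ht1, h1, h2, Main_le hK h3⟩
  -- the squares
  have hcard0 : (S₀.card : ℝ) ≤ ε / 3 * scale n := by
    have h1 : (S₀.card : ℝ) ≤ (⌊Lg n ^ 2⌋₊ : ℝ) * (⌊zz n * Lg n⌋₊ : ℝ) := by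
      have h2 : S₀.card ≤ ⌊Lg n ^ 2⌋₊ * ⌊zz n * Lg n⌋₊ := by
        refine Finset.card_image_le.trans ?_
        rw [Finset.card_product, Nat.card_Icc, Nat.card_Icc, Nat.add_sub_cancel,
          Nat.add_sub_cancel]
      exact_mod_cast h2
    have h2 : (⌊Lg n ^ 2⌋₊ : ℝ) ≤ Lg n ^ 2 := Nat.floor_le (by positivity)
    have h3 : (⌊zz n * Lg n⌋₊ : ℝ) ≤ zz n * Lg n := Nat.floor_le (by positivity)
    have h4 : (⌊Lg n ^ 2⌋₊ : ℝ) * (⌊zz n * Lg n⌋₊ : ℝ) ≤ Lg n ^ 2 * (zz n * Lg n) :=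
      mul_le_mul h2 h3 (Nat.cast_nonneg _) (by positivity)
    have h5 : Lg n ^ 2 * (zz n * Lg n) = 1 * ((n : ℝ) ^ ((1 : ℝ) / 2) * Real.log n ^ 12) := by
      unfold zz Lg
      ring
    linarith
  -- the blocks
  have hblock : ∀ j, ((B j).card : ℝ) ≤
      C * (((K : ℝ) / 2) ^ (-((1 : ℝ) / 8)) * scale n) * θ ^ j +
        C * (n : ℝ) ^ ((3 : ℝ) / 5) := by
    intro j
    have hrhs : 0 ≤ C * (((K : ℝ) / 2) ^ (-((1 : ℝ) / 8)) * scale n) * θ ^ j +
        C * (n : ℝ) ^ ((3 : ℝ) / 5) := by positivity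
    rcases (B j).eq_empty_or_nonempty with h0 | ⟨a, ha⟩
    · rw [h0, Finset.card_empty, Nat.cast_zero]
      exact hrhs
    have hBj : ∀ a ∈ B j, ∃ m p q : ℕ, a = m * p * q ∧ p.Prime ∧
        q.Prime ∧ q ≤ p ∧ zz n / Lg n < q ∧ (p : ℝ) ≤ zz n * Lg n ∧ (m : ℝ) ≤ Lg n ^ 2 ∧
        2 ^ j ≤ m ∧ m < 2 ^ (j + 1) ∧ (q : ℝ) ≤ Y j := fun a ha => (Finset.mem_filter.1 ha).2
    obtain ⟨m, p, q, -, -, -, -, -, -, hm1, hm2, -, -⟩ := hBj a ha
    have h2j : (2 : ℝ) ^ j ≤ Lg n ^ 2 := by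
      refine le_trans ?_ hm1
      exact_mod_cast hm2
    have hR0 : 0 < ((K : ℝ) * 2 ^ j / 2) ^ ((1 : ℝ) / 4) := by positivity
    have hR1 : 1 ≤ ((K : ℝ) * 2 ^ j / 2) ^ ((1 : ℝ) / 4) := by
      apply Real.one_le_rpow _ (by norm_num)
      have : (1 : ℝ) ≤ 2 ^ j := one_le_pow₀ (by norm_num)
      nlinarith
    have hR2 : ((K : ℝ) * 2 ^ j / 2) ^ ((1 : ℝ) / 4) ≤ zz n := by
      have hR4 : (((K : ℝ) * 2 ^ j / 2) ^ ((1 : ℝ) / 4)) ^ 4 = (K : ℝ) * 2 ^ j / 2 := by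
        rw [← Real.rpow_natCast, ← Real.rpow_mul (by positivity)]
        norm_num
      rw [← pow_le_pow_iff_left₀ hR0.le (by positivity) (show 4 ≠ 0 by norm_num), hR4]
      have h2 : zz n ^ 4 = (n : ℝ) ^ 2 := by
        calc zz n ^ 4 = (zz n * zz n) ^ 2 := by ring
          _ = _ := by rw [Main_zz_sq]
      rw [h2]
      have h3 : (K : ℝ) * Lg n ^ 2 ≤ n := by
        have h4 : Lg n ^ 2 = Real.log n ^ 8 := by
          unfold Lg
          ring
        rw [h4]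
        simpa using hg
      have h5 : (K : ℝ) * 2 ^ j ≤ K * Lg n ^ 2 := by gcongr
      have h6 : 0 < (K : ℝ) * 2 ^ j := by positivity
      nlinarith
    have h1 := hbb j (Y j) (by rw [hY]; exact (one_le_div hR0).2 hR2)
      (by rw [hY]; exact div_le_self (by positivity) hR1) A (B j) hA hPPD
      (Finset.filter_subset _ _) hBj
    have h2 : Real.sqrt (n * Y j) = (n : ℝ) ^ ((3 : ℝ) / 4) *
        ((K : ℝ) / 2) ^ (-((1 : ℝ) / 8)) * θ ^ j := Main_sqrt hK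
    rw [h2] at h1
    refine h1.trans (le_of_eq ?_)
    unfold scale
    ring
  have hsum : (((Finset.range J).biUnion B).card : ℝ) ≤
      C * (((K : ℝ) / 2) ^ (-((1 : ℝ) / 8)) * scale n) * (1 - θ)⁻¹ +
        J * (C * (n : ℝ) ^ ((3 : ℝ) / 5)) := by
    have h1 : (((Finset.range J).biUnion B).card : ℝ) ≤ ∑ j ∈ Finset.range J, ((B j).card : ℝ) := by
      exact_mod_cast Finset.card_biUnion_le
    have h2 : ∑ j ∈ Finset.range J, θ ^ j ≤ (1 - θ)⁻¹ := by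
      have h3 : 0 < 1 - θ := by linarith
      rw [geom_sum_eq hθ1.ne, inv_eq_one_div, le_div_iff₀ h3]
      have h4 : (θ ^ J - 1) / (θ - 1) * (1 - θ) = 1 - θ ^ J := by
        have : θ - 1 ≠ 0 := by linarith
        field_simp
        ring
      rw [h4]
      have : 0 < θ ^ J := by positivity
      linarith
    calc _ ≤ _ := h1
      _ ≤ ∑ j ∈ Finset.range J, (C * (((K : ℝ) / 2) ^ (-((1 : ℝ) / 8)) * scale n) * θ ^ j +
          C * (n : ℝ) ^ ((3 : ℝ) / 5)) := Finset.sum_le_sum fun j _ => hblock j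
      _ = C * (((K : ℝ) / 2) ^ (-((1 : ℝ) / 8)) * scale n) * ∑ j ∈ Finset.range J, θ ^ j +
          J * (C * (n : ℝ) ^ ((3 : ℝ) / 5)) := by
          rw [Finset.sum_add_distrib, Finset.mul_sum, Finset.sum_const, Finset.card_range,
            nsmul_eq_mul]
      _ ≤ _ := by gcongr
  have hmain : C * (((K : ℝ) / 2) ^ (-((1 : ℝ) / 8)) * scale n) * (1 - θ)⁻¹ ≤
      ε / 3 * scale n := by
    have h1 : 0 < 1 - θ := by linarith
    have h2 : C * ((K : ℝ) / 2) ^ (-((1 : ℝ) / 8)) * (1 - θ)⁻¹ ≤ ε / 3 := by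
      have h3 : C * ((K : ℝ) / 2) ^ (-((1 : ℝ) / 8)) * (1 - θ)⁻¹ ≤
          C * (ε / 3 * (1 - θ) / C) * (1 - θ)⁻¹ := by gcongr
      have h4 : C * (ε / 3 * (1 - θ) / C) * (1 - θ)⁻¹ = ε / 3 := by
        field_simp
      linarith
    calc _ = C * ((K : ℝ) / 2) ^ (-((1 : ℝ) / 8)) * (1 - θ)⁻¹ * scale n := by ring
      _ ≤ _ := by gcongr
  have hrest : (J : ℝ) * (C * (n : ℝ) ^ ((3 : ℝ) / 5)) ≤ ε / 3 * scale n := by
    have h1 : (J : ℝ) ≤ 2 * Real.log n ^ 8 := by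
      have h2 : (⌊Lg n ^ 2⌋₊ : ℝ) ≤ Lg n ^ 2 := Nat.floor_le (by positivity)
      have h4 : Lg n ^ 2 = Real.log n ^ 8 := by
        unfold Lg
        ring
      rw [hJ, Nat.cast_add, Nat.cast_one]
      linarith
    calc (J : ℝ) * (C * (n : ℝ) ^ ((3 : ℝ) / 5)) ≤
        2 * Real.log n ^ 8 * (C * (n : ℝ) ^ ((3 : ℝ) / 5)) := by gcongr
      _ = 2 * C * ((n : ℝ) ^ ((3 : ℝ) / 5) * Real.log n ^ 8) := by ring
      _ ≤ _ := hs1
  have hfin : ((A.filter (fun a => ClM n a ∧ ¬ Core K n a)).card : ℝ) ≤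
      S₀.card + ((Finset.range J).biUnion B).card := by
    exact_mod_cast (Finset.card_le_card hcov).trans (Finset.card_union_le _ _)
  linarith

end Pool.Agent.W_764f34_h80
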