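import Pool.Agent.W_764f34_h80.KST
import Pool.Agent.W_764f34_h80.Count

set_option autoImplicit false

/-! All classes except the main one contribute `o(scale n)`, apart from the term `π(n)`. -/

namespace Pool.Agent.W_764f34_h80

open N884ee30a Filter Topology

theorem Small_card (S : Finset ℕ) (hS : ∀ u ∈ S, 1 ≤ u) {x : ℝ} (hx : 0 ≤ x)
    (h : ∀ u ∈ S, (u : ℝ) ≤ x) : (S.card : ℝ) ≤ x := by
  have h1 : S ⊆ Finset.Icc 1 ⌊x⌋₊ := by
    intro u hu
    rw [Finset.mem_Icc]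
    exact ⟨hS u hu, Nat.le_floor (h u hu)⟩
  have h2 := Finset.card_le_card h1
  rw [Nat.card_Icc, Nat.add_sub_cancel] at h2
  have h3 : (S.card : ℝ) ≤ (⌊x⌋₊ : ℝ) := by exact_mod_cast h2
  exact h3.trans (Nat.floor_le hx)

open Classical in
/-- the common application of `kst_density` with all densities one -/
theorem Small_core {n : ℕ} (hn : 1 ≤ n) {A A' : Finset ℕ} (hA : A ⊆ Finset.Icc 1 n)
    (hP : PairProductDistinct A) (hsub : A' ⊆ A) (f : ℕ → ℕ × ℕ)
    (hf : ∀ a ∈ A', (f a).1 * (f a).2 = a) {Y : ℝ} (hY : 1 ≤ Y) (hYn : Y ≤ n)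
    (hV : ∀ a ∈ A', ((f a).2 : ℝ) ≤ Y) :
    (A'.card : ℝ) ≤ ((A'.image f).image Prod.fst).card + 30 * Real.sqrt (n * Y) +
      8 * Real.sqrt n := by
  obtain ⟨h1, h2⟩ := c4free_of_distinct hP hsub f hf
  have hpos : ∀ p ∈ A'.image f, 1 ≤ p.1 ∧ 1 ≤ p.2 := by
    intro p hp
    obtain ⟨a, ha, rfl⟩ := Finset.mem_image.1 hp
    have h3 := (Finset.mem_Icc.1 (hA (hsub ha))).1
    rw [← hf a ha] at h3
    exact ⟨Nat.pos_of_mul_pos_right h3, Nat.pos_of_mul_pos_left h3⟩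
  have hprod : ∀ p ∈ A'.image f, p.1 * p.2 ≤ n := by
    intro p hp
    obtain ⟨a, ha, rfl⟩ := Finset.mem_image.1 hp
    rw [hf a ha]
    exact (Finset.mem_Icc.1 (hA (hsub ha))).2
  have hV' : ∀ p ∈ A'.image f, (p.2 : ℝ) ≤ Y := by
    intro p hp
    obtain ⟨a, ha, rfl⟩ := Finset.mem_image.1 hp
    exact hV a ha
  have hcount : ∀ (g : ℕ × ℕ → ℕ) (_ : ∀ p ∈ A'.image f, 1 ≤ g p) (x : ℝ), 0 ≤ x →
      ((((A'.image f).image g).filter (fun u : ℕ => (u : ℝ) ≤ x)).card : ℝ) ≤ 1 * x := by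
    intro g hg x hx
    rw [one_mul]
    refine Small_card _ ?_ hx ?_
    · intro u hu
      obtain ⟨p, hp, rfl⟩ := Finset.mem_image.1 (Finset.mem_filter.1 hu).1
      exact hg p hp
    · intro u hu
      exact (Finset.mem_filter.1 hu).2
  have hnr : (0 : ℝ) ≤ n := Nat.cast_nonneg n
  have h3 := kst_density (A'.image f) h1 (Y := Y) (Y0 := 1) (α := 1) (β := 1) hn hpos hprod hY hYn
    hV' one_pos one_pos le_rfl
    (fun x hx => hcount Prod.fst (fun p hp => (hpos p hp).1) x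
      ((div_nonneg hnr (by linarith)).trans hx))
    (fun x hx => hcount Prod.snd (fun p hp => (hpos p hp).2) x (by linarith))
  rw [h2, Real.sqrt_one, mul_one, mul_one, div_one, mul_one, mul_one] at h3
  exact h3

/-- the elementary facts valid for large `n` -/
theorem Small_ev : ∀ᶠ n : ℕ in atTop, 1 ≤ n ∧ 1 ≤ Real.log n ∧
    Real.log n ^ 4 ≤ (n : ℝ) ^ ((1 : ℝ) / 2) := by
  have h1 : ∀ᶠ n : ℕ in atTop, 1 ≤ n := eventually_ge_atTop 1
  have h2 : ∀ᶠ n : ℕ in atTop, 1 ≤ Real.log n :=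
    (Real.tendsto_log_atTop.comp tendsto_natCast_atTop_atTop).eventually_ge_atTop 1
  have h3 : (fun x : ℝ => Real.log x ^ (4 : ℝ)) =o[atTop] fun x => x ^ ((1 : ℝ) / 2) :=
    isLittleO_log_rpow_rpow_atTop 4 (by norm_num)
  have h4 : ∀ᶠ x : ℝ in atTop, ‖Real.log x ^ (4 : ℝ)‖ ≤ 1 * ‖x ^ ((1 : ℝ) / 2)‖ :=
    h3.bound one_pos
  have h5 := tendsto_natCast_atTop_atTop (R := ℝ).eventually h4
  filter_upwards [h1, h2, h5] with n hn1 hn2 hn5
  refine ⟨hn1, hn2, ?_⟩
  rw [one_mul, Real.norm_of_nonneg (by positivity), Real.norm_of_nonneg (by positivity)] at hn5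
  have h6 : Real.log n ^ (4 : ℝ) = Real.log n ^ 4 := by
    rw [← Real.rpow_natCast]
    norm_num
  rwa [h6] at hn5

theorem Small_zz_sq {n : ℕ} : zz n * zz n = n := by
  unfold zz
  rcases Nat.eq_zero_or_pos n with h | h
  · subst h
    simp
  · rw [← Real.rpow_add (by exact_mod_cast h)]
    norm_num

theorem Small_sqrt1 {n : ℕ} : Real.sqrt n = (n : ℝ) ^ ((1 : ℝ) / 2) * Real.log n ^ 0 := by
  rw [pow_zero, mul_one, Real.sqrt_eq_rpow]

/-- `√(n z / L) ≤ n^(3/4) (log n)^(-13/8)` -/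
theorem Small_sqrt2 {n : ℕ} (hn : 1 ≤ n) (hl : 1 ≤ Real.log n) :
    Real.sqrt (n * (zz n / Lg n)) ≤ (n : ℝ) ^ ((3 : ℝ) / 4) * Real.log n ^ (-(13 : ℝ) / 8) := by
  have hn0 : (0 : ℝ) < n := by exact_mod_cast hn
  have hl0 : 0 < Real.log n := by linarith
  have h1 : (n : ℝ) * (zz n / Lg n) = ((n : ℝ) ^ ((3 : ℝ) / 4) * Real.log n ^ (-(2 : ℝ))) ^ 2 := by
    have h2 : (n : ℝ) * (n : ℝ) ^ ((1 : ℝ) / 2) = ((n : ℝ) ^ ((3 : ℝ) / 4)) ^ 2 := by
      rw [← Real.rpow_natCast ((n : ℝ) ^ ((3 : ℝ) / 4)), ← Real.rpow_mul hn0.le]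
      nth_rewrite 1 [← Real.rpow_one (n : ℝ)]
      rw [← Real.rpow_add hn0]
      norm_num
    have h3 : Real.log n ^ (-(2 : ℝ)) = (Real.log n ^ 2)⁻¹ := by
      rw [Real.rpow_neg hl0.le, ← Real.rpow_natCast]
      norm_num
    unfold zz Lg
    rw [mul_pow, ← h2, h3]
    field_simp
  rw [h1, Real.sqrt_sq (by positivity)]
  apply mul_le_mul_of_nonneg_left _ (by positivity)
  exact Real.rpow_le_rpow_of_exponent_le hl (by norm_num)

/-- `√(n y L) = n^(5/8) (log n)^2` -/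
theorem Small_sqrt3 {n : ℕ} (hn : 1 ≤ n) (hl : 1 ≤ Real.log n) :
    Real.sqrt (n * (yy n * Lg n)) = (n : ℝ) ^ ((5 : ℝ) / 8) * Real.log n ^ 2 := by
  have hn0 : (0 : ℝ) < n := by exact_mod_cast hn
  have hl0 : 0 < Real.log n := by linarith
  have h1 : (n : ℝ) * (yy n * Lg n) = ((n : ℝ) ^ ((5 : ℝ) / 8) * Real.log n ^ 2) ^ 2 := by
    have h2 : (n : ℝ) * (n : ℝ) ^ ((1 : ℝ) / 4) = ((n : ℝ) ^ ((5 : ℝ) / 8)) ^ 2 := by
      rw [← Real.rpow_natCast ((n : ℝ) ^ ((5 : ℝ) / 8)), ← Real.rpow_mul hn0.le]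
      nth_rewrite 1 [← Real.rpow_one (n : ℝ)]
      rw [← Real.rpow_add hn0]
      norm_num
    unfold yy Lg
    rw [mul_pow, ← h2]
    ring
  rw [h1, Real.sqrt_sq (by positivity)]

/-- `n / (y L) ≤ n^(3/4) (log n)^(-13/8)` -/
theorem Small_div {n : ℕ} (hn : 1 ≤ n) (hl : 1 ≤ Real.log n) :
    (n : ℝ) / (yy n * Lg n) ≤ (n : ℝ) ^ ((3 : ℝ) / 4) * Real.log n ^ (-(13 : ℝ) / 8) := by
  have hn0 : (0 : ℝ) < n := by exact_mod_cast hn
  have hl0 : 0 < Real.log n := by linarith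
  have h2 : (n : ℝ) = (n : ℝ) ^ ((3 : ℝ) / 4) * (n : ℝ) ^ ((1 : ℝ) / 4) := by
    rw [← Real.rpow_add hn0]
    norm_num
  have h3 : Real.log n ^ (-(4 : ℝ)) = (Real.log n ^ 4)⁻¹ := by
    rw [Real.rpow_neg hl0.le, ← Real.rpow_natCast]
    norm_num
  have h4 : (n : ℝ) / (yy n * Lg n) = (n : ℝ) ^ ((3 : ℝ) / 4) * Real.log n ^ (-(4 : ℝ)) := by
    unfold yy Lg
    rw [h3]
    nth_rewrite 1 [h2]
    have h5 : (0 : ℝ) < (n : ℝ) ^ ((1 : ℝ) / 4) := by positivity
    field_simp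
  rw [h4]
  apply mul_le_mul_of_nonneg_left _ (by positivity)
  exact Real.rpow_le_rpow_of_exponent_le hl (by norm_num)

open Classical in
/-- Class P, `a = p v` with `p > z L` prime: `kst_density` with `E = {(p, v)}`, `Y = z / L`,
`α = β = 1` (or `α = 2`), `Y0 = 1`; the number of `p` is at most `π(n)`; the error is
`O(n^(3/4) L^(-1/2))`. -/
theorem small_P {ε : ℝ} (hε : 0 < ε) : ∀ᶠ n : ℕ in atTop, ∀ A : Finset ℕ,
    A ⊆ Finset.Icc 1 n → PairProductDistinct A →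
    ((A.filter (fun a => ClP n a)).card : ℝ) ≤ Nat.primeCounting n + ε * scale n := by
  have hε2 : 0 < ε / 2 := by positivity
  filter_upwards [Small_ev, small_log (C := 30) hε2,
    small_pow (θ := (1 : ℝ) / 2) (by norm_num) 0 (C := 8) hε2] with n hn h30 h8 A hA hP
  obtain ⟨hn1, hl, hL⟩ := hn
  have hn0 : (0 : ℝ) < n := by exact_mod_cast hn1
  have hz0 : 0 < zz n := by unfold zz; positivity
  have hL0 : 0 < Lg n := by unfold Lg; positivity
  have hL1 : 1 ≤ Lg n := by unfold Lg; exact one_le_pow₀ hl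
  let f : ℕ → ℕ × ℕ := fun a => if h : ClP n a then (h.choose, a / h.choose) else (0, 0)
  have hfp : ∀ a, ClP n a → ∃ p : ℕ, p.Prime ∧ zz n * Lg n < p ∧ p ∣ a ∧ f a = (p, a / p) := by
    intro a h
    exact ⟨h.choose, h.choose_spec.1, h.choose_spec.2.1, h.choose_spec.2.2, dif_pos h⟩
  have hcl : ∀ a ∈ A.filter (fun a => ClP n a), ClP n a ∧ 1 ≤ a ∧ a ≤ n := by
    intro a ha
    have h1 := Finset.mem_filter.1 ha
    have h2 := Finset.mem_Icc.1 (hA h1.1)
    exact ⟨h1.2, h2.1, h2.2⟩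
  have hY1 : 1 ≤ zz n / Lg n := by
    rw [le_div_iff₀ hL0, one_mul]
    exact hL
  have hYn : zz n / Lg n ≤ n := by
    have h1 : 1 ≤ zz n := by
      rw [le_div_iff₀ hL0, one_mul] at hY1
      linarith
    calc zz n / Lg n ≤ zz n := div_le_self hz0.le hL1
      _ ≤ zz n * zz n := le_mul_of_one_le_left hz0.le h1
      _ = n := Small_zz_sq
  have hcore := Small_core hn1 hA hP (Finset.filter_subset (fun a => ClP n a) A) f
    (by
      intro a ha
      obtain ⟨p, -, -, hd, he⟩ := hfp a (hcl a ha).1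
      rw [he]
      exact Nat.mul_div_cancel' hd) hY1 hYn
    (by
      intro a ha
      obtain ⟨p, hp, hlt, hd, he⟩ := hfp a (hcl a ha).1
      rw [he]
      show ((a / p : ℕ) : ℝ) ≤ zz n / Lg n
      rw [le_div_iff₀ hL0]
      have h1 : ((a / p : ℕ) : ℝ) * p = a := by
        rw [← Nat.cast_mul, Nat.div_mul_cancel hd]
      have h2 : (a : ℝ) ≤ n := by exact_mod_cast (hcl a ha).2.2
      have h3 : ((a / p : ℕ) : ℝ) * (zz n * Lg n) ≤ ((a / p : ℕ) : ℝ) * p :=
        mul_le_mul_of_nonneg_left hlt.le (Nat.cast_nonneg _)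
      have h4 : zz n * (((a / p : ℕ) : ℝ) * Lg n) ≤ zz n * zz n := by
        rw [Small_zz_sq]
        linarith
      exact le_of_mul_le_mul_left h4 hz0)
  have hU : (((A.filter (fun a => ClP n a)).image f).image Prod.fst).card ≤
      Nat.primeCounting n := by
    have h1 : ((A.filter (fun a => ClP n a)).image f).image Prod.fst ⊆
        (Finset.range (n + 1)).filter Nat.Prime := by
      intro u hu
      obtain ⟨x, hx, rfl⟩ := Finset.mem_image.1 hu
      obtain ⟨a, ha, rfl⟩ := Finset.mem_image.1 hx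
      obtain ⟨p, hp, -, hd, he⟩ := hfp a (hcl a ha).1
      rw [he, Finset.mem_filter, Finset.mem_range]
      refine ⟨?_, hp⟩
      have h2 := Nat.le_of_dvd (hcl a ha).2.1 hd
      have h3 := (hcl a ha).2.2
      show p < n + 1
      omega
    refine (Finset.card_le_card h1).trans (le_of_eq ?_)
    rw [Nat.primeCounting, Nat.primeCounting', Nat.count_eq_card_filter_range]
  have hU' : ((((A.filter (fun a => ClP n a)).image f).image Prod.fst).card : ℝ) ≤
      Nat.primeCounting n := by exact_mod_cast hU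
  have hs := Small_sqrt2 hn1 hl
  rw [Small_sqrt1] at hcore
  linarith

open Classical in
/-- Class I, `a = u d`: `Y = z / L`, `α = β = 1`, `|U| ≤ n / (y L) = n^(3/4) / L`. -/
theorem small_I {ε : ℝ} (hε : 0 < ε) : ∀ᶠ n : ℕ in atTop, ∀ A : Finset ℕ,
    A ⊆ Finset.Icc 1 n → PairProductDistinct A →
    ((A.filter (fun a => ClI n a)).card : ℝ) ≤ ε * scale n := by
  have hε2 : 0 < ε / 2 := by positivity
  filter_upwards [Small_ev, small_log (C := 31) hε2,
    small_pow (θ := (1 : ℝ) / 2) (by norm_num) 0 (C := 8) hε2] with n hn h30 h8 A hA hP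
  obtain ⟨hn1, hl, hL⟩ := hn
  have hn0 : (0 : ℝ) < n := by exact_mod_cast hn1
  have hz0 : 0 < zz n := by unfold zz; positivity
  have hy0 : 0 < yy n := by unfold yy; positivity
  have hL0 : 0 < Lg n := by unfold Lg; positivity
  have hL1 : 1 ≤ Lg n := by unfold Lg; exact one_le_pow₀ hl
  let f : ℕ → ℕ × ℕ := fun a => if h : ClI n a then (a / h.choose, h.choose) else (0, 0)
  have hfp : ∀ a, ClI n a → ∃ d : ℕ, d ∣ a ∧ yy n * Lg n ≤ d ∧ (d : ℝ) ≤ zz n / Lg n ∧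
      f a = (a / d, d) := by
    intro a h
    exact ⟨h.choose, h.choose_spec.1, h.choose_spec.2.1, h.choose_spec.2.2, dif_pos h⟩
  have hcl : ∀ a ∈ A.filter (fun a => ClI n a), ClI n a ∧ 1 ≤ a ∧ a ≤ n := by
    intro a ha
    have h1 := Finset.mem_filter.1 ha
    have h2 := Finset.mem_Icc.1 (hA h1.1)
    exact ⟨h1.2, h2.1, h2.2⟩
  have hY1 : 1 ≤ zz n / Lg n := by
    rw [le_div_iff₀ hL0, one_mul]
    exact hL
  have hYn : zz n / Lg n ≤ n := by
    have h1 : 1 ≤ zz n := by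
      rw [le_div_iff₀ hL0, one_mul] at hY1
      linarith
    calc zz n / Lg n ≤ zz n := div_le_self hz0.le hL1
      _ ≤ zz n * zz n := le_mul_of_one_le_left hz0.le h1
      _ = n := Small_zz_sq
  have hmul : ∀ a ∈ A.filter (fun a => ClI n a), (f a).1 * (f a).2 = a := by
    intro a ha
    obtain ⟨d, hd, -, -, he⟩ := hfp a (hcl a ha).1
    rw [he]
    exact Nat.div_mul_cancel hd
  have hcore := Small_core hn1 hA hP (Finset.filter_subset (fun a => ClI n a) A) f hmul hY1 hYn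
    (by
      intro a ha
      obtain ⟨d, -, -, hle, he⟩ := hfp a (hcl a ha).1
      rw [he]
      exact hle)
  have hU : ((((A.filter (fun a => ClI n a)).image f).image Prod.fst).card : ℝ) ≤
      n / (yy n * Lg n) := by
    refine Small_card _ ?_ (by positivity) ?_
    · intro u hu
      obtain ⟨x, hx, rfl⟩ := Finset.mem_image.1 hu
      obtain ⟨a, ha, rfl⟩ := Finset.mem_image.1 hx
      have h3 := (hcl a ha).2.1
      rw [← hmul a ha] at h3
      exact Nat.pos_of_mul_pos_right h3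
    · intro u hu
      obtain ⟨x, hx, rfl⟩ := Finset.mem_image.1 hu
      obtain ⟨a, ha, rfl⟩ := Finset.mem_image.1 hx
      obtain ⟨d, hd, hge, -, he⟩ := hfp a (hcl a ha).1
      rw [he]
      show ((a / d : ℕ) : ℝ) ≤ n / (yy n * Lg n)
      rw [le_div_iff₀ (by positivity)]
      have h1 : ((a / d : ℕ) : ℝ) * d = a := by
        rw [← Nat.cast_mul, Nat.div_mul_cancel hd]
      have h2 : (a : ℝ) ≤ n := by exact_mod_cast (hcl a ha).2.2
      have h3 : ((a / d : ℕ) : ℝ) * (yy n * Lg n) ≤ ((a / d : ℕ) : ℝ) * d :=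
        mul_le_mul_of_nonneg_left hge (Nat.cast_nonneg _)
      linarith
  have hs := Small_sqrt2 hn1 hl
  have hd := Small_div hn1 hl
  rw [Small_sqrt1] at hcore
  linarith

open Classical in
/-- Class S, `a = u v`: `Y = y L`, `α = β = 1`, `|U| ≤ z L^2`, error `O(n^(5/8) L^(1/2))`. -/
theorem small_S {ε : ℝ} (hε : 0 < ε) : ∀ᶠ n : ℕ in atTop, ∀ A : Finset ℕ,
    A ⊆ Finset.Icc 1 n → PairProductDistinct A →
    ((A.filter (fun a => ClS n a)).card : ℝ) ≤ ε * scale n := by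
  have hε3 : 0 < ε / 3 := by positivity
  filter_upwards [Small_ev, small_pow (θ := (5 : ℝ) / 8) (by norm_num) 2 (C := 30) hε3,
    small_pow (θ := (1 : ℝ) / 2) (by norm_num) 8 (C := 1) hε3,
    small_pow (θ := (1 : ℝ) / 2) (by norm_num) 0 (C := 8) hε3] with n hn h30 hu8 h8 A hA hP
  obtain ⟨hn1, hl, hL⟩ := hn
  have hn0 : (0 : ℝ) < n := by exact_mod_cast hn1
  have hn1' : (1 : ℝ) ≤ n := by exact_mod_cast hn1
  have hz0 : 0 < zz n := by unfold zz; positivity
  have hy0 : 0 < yy n := by unfold yy; positivity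
  have hL0 : 0 < Lg n := by unfold Lg; positivity
  have hL1 : 1 ≤ Lg n := by unfold Lg; exact one_le_pow₀ hl
  let f : ℕ → ℕ × ℕ := fun a => if h : ClS n a then (h.choose, h.choose_spec.choose) else (0, 0)
  have hfp : ∀ a, ClS n a → ∃ u v : ℕ, a = u * v ∧ (u : ℝ) ≤ zz n * Lg n ^ 2 ∧
      (v : ℝ) ≤ yy n * Lg n ∧ f a = (u, v) := by
    intro a h
    exact ⟨h.choose, h.choose_spec.choose, h.choose_spec.choose_spec.1,
      h.choose_spec.choose_spec.2.1, h.choose_spec.choose_spec.2.2, dif_pos h⟩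
  have hcl : ∀ a ∈ A.filter (fun a => ClS n a), ClS n a ∧ 1 ≤ a ∧ a ≤ n := by
    intro a ha
    have h1 := Finset.mem_filter.1 ha
    have h2 := Finset.mem_Icc.1 (hA h1.1)
    exact ⟨h1.2, h2.1, h2.2⟩
  have hy1 : 1 ≤ yy n := by
    unfold yy
    exact Real.one_le_rpow hn1' (by norm_num)
  have hY1 : 1 ≤ yy n * Lg n := by nlinarith
  have hYn : yy n * Lg n ≤ n := by
    have h1 : yy n * Lg n ≤ yy n * zz n := mul_le_mul_of_nonneg_left hL hy0.le
    have h2 : yy n ≤ zz n := by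
      unfold yy zz
      exact Real.rpow_le_rpow_of_exponent_le hn1' (by norm_num)
    calc yy n * Lg n ≤ yy n * zz n := h1
      _ ≤ zz n * zz n := mul_le_mul_of_nonneg_right h2 hz0.le
      _ = n := Small_zz_sq
  have hmul : ∀ a ∈ A.filter (fun a => ClS n a), (f a).1 * (f a).2 = a := by
    intro a ha
    obtain ⟨u, v, hd, -, -, he⟩ := hfp a (hcl a ha).1
    rw [he]
    exact hd.symm
  have hcore := Small_core hn1 hA hP (Finset.filter_subset (fun a => ClS n a) A) f hmul hY1 hYn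
    (by
      intro a ha
      obtain ⟨u, v, -, -, hle, he⟩ := hfp a (hcl a ha).1
      rw [he]
      exact hle)
  have hU : ((((A.filter (fun a => ClS n a)).image f).image Prod.fst).card : ℝ) ≤
      zz n * Lg n ^ 2 := by
    refine Small_card _ ?_ (by positivity) ?_
    · intro u hu
      obtain ⟨x, hx, rfl⟩ := Finset.mem_image.1 hu
      obtain ⟨a, ha, rfl⟩ := Finset.mem_image.1 hx
      have h3 := (hcl a ha).2.1
      rw [← hmul a ha] at h3
      exact Nat.pos_of_mul_pos_right h3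
    · intro u hu
      obtain ⟨x, hx, rfl⟩ := Finset.mem_image.1 hu
      obtain ⟨a, ha, rfl⟩ := Finset.mem_image.1 hx
      obtain ⟨u, v, -, hle, -, he⟩ := hfp a (hcl a ha).1
      rw [he]
      exact hle
  have hz : zz n * Lg n ^ 2 = (n : ℝ) ^ ((1 : ℝ) / 2) * Real.log n ^ 8 := by
    unfold zz Lg
    ring
  rw [Small_sqrt1, Small_sqrt3 hn1 hl] at hcore
  rw [hz] at hU
  linarith

end Pool.Agent.W_764f34_h80
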