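import Pool.Agent.W_764f34_h80.KST
import Pool.Agent.W_764f34_h80.Count

set_option autoImplicit false

/-! The classes D and E contribute `o(scale n)`. -/

namespace Pool.Agent.W_764f34_h80

open N884ee30a Filter Topology

/-- A set of positive numbers at most `x` has at most `x` elements. -/
theorem SmallB_card_le {S : Finset ℕ} {x : ℝ} (hx : 0 ≤ x)
    (h : ∀ u ∈ S, 1 ≤ u ∧ (u : ℝ) ≤ x) : (S.card : ℝ) ≤ x := by
  have h1 : S ⊆ Finset.Icc 1 ⌊x⌋₊ := by
    intro u hu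
    rw [Finset.mem_Icc]
    exact ⟨(h u hu).1, Nat.le_floor (h u hu).2⟩
  have h2 := Finset.card_le_card h1
  rw [Nat.card_Icc] at h2
  have h3 : (S.card : ℝ) ≤ (⌊x⌋₊ : ℝ) := by
    exact_mod_cast (by omega : S.card ≤ ⌊x⌋₊)
  exact h3.trans (Nat.floor_le hx)

theorem SmallB_yy_sq (n : ℕ) : yy n * yy n = zz n := by
  unfold yy zz
  rw [← Real.rpow_add_of_nonneg (Nat.cast_nonneg n) (by norm_num) (by norm_num)]
  norm_num

theorem SmallB_zz_sq (n : ℕ) : zz n * zz n = n := by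
  unfold zz
  rw [← Real.rpow_add_of_nonneg (Nat.cast_nonneg n) (by norm_num) (by norm_num)]
  norm_num

theorem SmallB_Lg_nonneg (n : ℕ) : 0 ≤ Lg n := by
  unfold Lg
  positivity

theorem SmallB_zz_nonneg (n : ℕ) : 0 ≤ zz n := by
  unfold zz
  positivity

theorem SmallB_yy_nonneg (n : ℕ) : 0 ≤ yy n := by
  unfold yy
  positivity

/-- Elements of `M2` are at most `z L^10`. -/
theorem SmallB_M2_le {n w : ℕ} (h : M2 n w) : (w : ℝ) ≤ zz n * Lg n ^ 10 := by
  obtain ⟨t, r, s, rfl, _, ht, _, _, _, hr, _, hs⟩ := h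
  have hL := SmallB_Lg_nonneg n
  have hy := SmallB_yy_nonneg n
  push_cast
  calc (t : ℝ) * r * s ≤ Lg n ^ 8 * (yy n * Lg n) * (yy n * Lg n) := by
        gcongr
    _ = (yy n * yy n) * Lg n ^ 10 := by ring
    _ = zz n * Lg n ^ 10 := by rw [SmallB_yy_sq]

theorem SmallB_sqrt_nz {n : ℕ} (hn : 1 ≤ n) : Real.sqrt ((n : ℝ) * zz n) = (n : ℝ) ^ ((3 : ℝ) / 4) := by
  have hn0 : (0 : ℝ) < n := by exact_mod_cast hn
  unfold zz
  rw [Real.sqrt_eq_rpow]
  nth_rewrite 1 [← Real.rpow_one (n : ℝ)]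
  rw [← Real.rpow_add hn0, ← Real.rpow_mul hn0.le]
  norm_num

theorem SmallB_sqrt_nθ {n : ℕ} (hn : 1 ≤ n) (θ : ℝ) :
    Real.sqrt ((n : ℝ) * (n : ℝ) ^ θ) = (n : ℝ) ^ ((1 + θ) / 2) := by
  have hn0 : (0 : ℝ) < n := by exact_mod_cast hn
  rw [Real.sqrt_eq_rpow]
  nth_rewrite 1 [← Real.rpow_one (n : ℝ)]
  rw [← Real.rpow_add hn0, ← Real.rpow_mul hn0.le]
  congr 1
  ring

theorem SmallB_log_ev : ∀ᶠ n : ℕ in atTop, (1 : ℝ) ≤ Real.log n :=
  (Real.tendsto_log_atTop.comp tendsto_natCast_atTop_atTop).eventually_ge_atTop 1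

theorem SmallB_zz_le {n : ℕ} (hn : 1 ≤ n) : zz n ≤ n := by
  have h1 : (1 : ℝ) ≤ n := by exact_mod_cast hn
  unfold zz
  calc (n : ℝ) ^ ((1 : ℝ) / 2) ≤ (n : ℝ) ^ (1 : ℝ) :=
        Real.rpow_le_rpow_of_exponent_le h1 (by norm_num)
    _ = n := Real.rpow_one _

theorem SmallB_one_le_zz {n : ℕ} (hn : 1 ≤ n) : 1 ≤ zz n := by
  have h1 : (1 : ℝ) ≤ n := by exact_mod_cast hn
  unfold zz
  exact Real.one_le_rpow h1 (by norm_num)

theorem SmallB_n_div_zz {n : ℕ} (hn : 1 ≤ n) : (n : ℝ) / zz n = zz n := by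
  have h1 := SmallB_one_le_zz hn
  rw [div_eq_iff (by positivity), SmallB_zz_sq]

/-- The first case: products `u v` with `u ≤ z L^10`, `v ≤ z` in `M2`. -/
theorem SmallB_aux1 {ε : ℝ} (hε : 0 < ε) : ∀ᶠ n : ℕ in atTop, ∀ A : Finset ℕ,
    A ⊆ Finset.Icc 1 n → PairProductDistinct A → ∀ A' : Finset ℕ, A' ⊆ A →
    (∀ a ∈ A', ∃ u v : ℕ, a = u * v ∧ (u : ℝ) ≤ zz n * Lg n ^ 10 ∧ M2 n v ∧ (v : ℝ) ≤ zz n) →
    (A'.card : ℝ) ≤ ε * scale n := by
  have hε3 : 0 < ε / 3 := by positivity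
  filter_upwards [M2_count, SmallB_log_ev, eventually_ge_atTop 1,
    small_pow (θ := 1 / 2) (by norm_num) 40 (ε := ε / 3) (C := 1) hε3,
    small_pow (θ := 7 / 10) (by norm_num) 2 (ε := ε / 3) (C := 8) hε3,
    small_log (ε := ε / 3) (C := 30) hε3] with n hM2 hlog hn hp1 hp2 hl1
  intro A hA hAd A' hA' hrep
  choose! u v huv hu hvM hv using hrep
  have hL := SmallB_Lg_nonneg n
  have hz := SmallB_zz_nonneg n
  have hz1 := SmallB_one_le_zz hn
  have hn1 : (1 : ℝ) ≤ n := by exact_mod_cast hn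
  obtain ⟨hC4, hcard⟩ := c4free_of_distinct hAd hA' (fun a => (u a, v a))
    (fun a ha => (huv a ha).symm)
  set E := A'.image (fun a => (u a, v a)) with hE
  have hmem : ∀ p ∈ E, ∃ a ∈ A', p = (u a, v a) := by
    intro p hp
    rw [hE, Finset.mem_image] at hp
    obtain ⟨a, ha, rfl⟩ := hp
    exact ⟨a, ha, rfl⟩
  have hpos : ∀ p ∈ E, 1 ≤ p.1 ∧ 1 ≤ p.2 := by
    intro p hp
    obtain ⟨a, ha, rfl⟩ := hmem p hp
    have h1 : 1 ≤ a := (Finset.mem_Icc.1 (hA (hA' ha))).1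
    have h2 := huv a ha
    constructor
    · rcases Nat.eq_zero_or_pos (u a) with h | h
      · rw [h, zero_mul] at h2; omega
      · exact h
    · rcases Nat.eq_zero_or_pos (v a) with h | h
      · rw [h, mul_zero] at h2; omega
      · exact h
  have hprod : ∀ p ∈ E, p.1 * p.2 ≤ n := by
    intro p hp
    obtain ⟨a, ha, rfl⟩ := hmem p hp
    have h1 : a ≤ n := (Finset.mem_Icc.1 (hA (hA' ha))).2
    have h2 := huv a ha
    show u a * v a ≤ n
    omega
  set β : ℝ := Real.log n ^ (-(7 : ℝ) / 4) with hβ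
  have hlog0 : 0 < Real.log n := by linarith
  have hβ0 : 0 < β := Real.rpow_pos_of_pos hlog0 _
  have hkst := kst_density E hC4 (n := n) (Y := zz n) (Y0 := (n : ℝ) ^ ((2 : ℝ) / 5)) (α := 1)
    (β := β) hn hpos hprod hz1 (SmallB_zz_le hn)
    (by
      intro p hp
      obtain ⟨a, ha, rfl⟩ := hmem p hp
      exact hv a ha)
    one_pos hβ0 (Real.one_le_rpow hn1 (by norm_num))
    (by
      intro x hx
      rw [one_mul]
      have hx0 : 0 ≤ x := le_trans (by positivity) hx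
      refine SmallB_card_le hx0 ?_
      intro w hw
      rw [Finset.mem_filter, Finset.mem_image] at hw
      obtain ⟨⟨p, hp, rfl⟩, hw2⟩ := hw
      exact ⟨(hpos p hp).1, hw2⟩)
    (by
      intro x hx
      rw [mul_comm]
      refine hM2 x hx _ ?_
      intro w hw
      rw [Finset.mem_filter, Finset.mem_image] at hw
      obtain ⟨⟨p, hp, rfl⟩, hw2⟩ := hw
      obtain ⟨a, ha, rfl⟩ := hmem p hp
      exact ⟨hvM a ha, hw2⟩)
  have hUc : ((E.image Prod.fst).card : ℝ) ≤ zz n * Lg n ^ 10 := by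
    refine SmallB_card_le (by positivity) ?_
    intro w hw
    rw [Finset.mem_image] at hw
    obtain ⟨p, hp, rfl⟩ := hw
    obtain ⟨a, ha, hpa⟩ := hmem p hp
    refine ⟨(hpos p hp).1, ?_⟩
    rw [hpa]
    exact hu a ha
  have h1 : zz n * Lg n ^ 10 ≤ ε / 3 * scale n := by
    have : zz n * Lg n ^ 10 = 1 * ((n : ℝ) ^ ((1 : ℝ) / 2) * Real.log n ^ 40) := by
      unfold zz Lg
      rw [← pow_mul, one_mul]
    rw [this]
    exact hp1
  have h2 : 30 * Real.sqrt 1 * β * Real.sqrt (n * zz n) ≤ ε / 3 * scale n := by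
    refine le_trans ?_ hl1
    rw [SmallB_sqrt_nz hn, Real.sqrt_one]
    have h3 : β ≤ Real.log n ^ (-(13 : ℝ) / 8) :=
      Real.rpow_le_rpow_of_exponent_le hlog (by norm_num)
    have h4 : 0 ≤ (n : ℝ) ^ ((3 : ℝ) / 4) := by positivity
    nlinarith [mul_le_mul_of_nonneg_left h3 h4]
  have h3 : 8 * (Real.sqrt 1 / β) * Real.sqrt (n * (n : ℝ) ^ ((2 : ℝ) / 5)) ≤
      ε / 3 * scale n := by
    refine le_trans ?_ hp2
    rw [SmallB_sqrt_nθ hn, Real.sqrt_one]
    have h5 : (1 : ℝ) / β ≤ Real.log n ^ 2 := by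
      rw [hβ, one_div, ← Real.rpow_neg hlog0.le]
      calc Real.log n ^ (-(-(7 : ℝ) / 4)) ≤ Real.log n ^ (2 : ℝ) :=
            Real.rpow_le_rpow_of_exponent_le hlog (by norm_num)
        _ = Real.log n ^ 2 := by norm_cast
    have h6 : ((1 : ℝ) + 2 / 5) / 2 = 7 / 10 := by norm_num
    rw [h6]
    have h4 : 0 ≤ (n : ℝ) ^ ((7 : ℝ) / 10) := by positivity
    nlinarith [mul_le_mul_of_nonneg_left h5 h4]
  have hcard' : (A'.card : ℝ) = E.card := by
    rw [hcard]
  rw [hcard']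
  linarith

/-- The second case: products `u v` with `u` in `M2` and `v ≤ z` prime. -/
theorem SmallB_aux2 {ε : ℝ} (hε : 0 < ε) : ∀ᶠ n : ℕ in atTop, ∀ A : Finset ℕ,
    A ⊆ Finset.Icc 1 n → PairProductDistinct A → ∀ A' : Finset ℕ, A' ⊆ A →
    (∀ a ∈ A', ∃ u v : ℕ, a = u * v ∧ M2 n u ∧ v.Prime ∧ (v : ℝ) ≤ zz n) →
    (A'.card : ℝ) ≤ ε * scale n := by
  have hε3 : 0 < ε / 3 := by positivity
  obtain ⟨C, hC1, hcheb⟩ := cheb
  filter_upwards [M2_count, SmallB_log_ev, eventually_ge_atTop 1,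
    (tendsto_rpow_atTop (show (0 : ℝ) < 1 / 10 by norm_num)).comp
      tendsto_natCast_atTop_atTop |>.eventually_ge_atTop 2,
    small_pow (θ := 1 / 2) (by norm_num) 40 (ε := ε / 3) (C := 1) hε3,
    small_pow (θ := 11 / 20) (by norm_num) 1 (ε := ε / 3) (C := 8) hε3,
    small_log (ε := ε / 3) (C := 300 * C) hε3] with n hM2 hlog hn h10 hp1 hp2 hl1
  intro A hA hAd A' hA' hrep
  choose! u v huv huM hvP hv using hrep
  have hL := SmallB_Lg_nonneg n
  have hz := SmallB_zz_nonneg n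
  have hz1 := SmallB_one_le_zz hn
  have hn1 : (1 : ℝ) ≤ n := by exact_mod_cast hn
  obtain ⟨hC4, hcard⟩ := c4free_of_distinct hAd hA' (fun a => (u a, v a))
    (fun a ha => (huv a ha).symm)
  set E := A'.image (fun a => (u a, v a)) with hE
  have hmem : ∀ p ∈ E, ∃ a ∈ A', p = (u a, v a) := by
    intro p hp
    rw [hE, Finset.mem_image] at hp
    obtain ⟨a, ha, rfl⟩ := hp
    exact ⟨a, ha, rfl⟩
  have hpos : ∀ p ∈ E, 1 ≤ p.1 ∧ 1 ≤ p.2 := by
    intro p hp
    obtain ⟨a, ha, rfl⟩ := hmem p hp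
    have h1 : 1 ≤ a := (Finset.mem_Icc.1 (hA (hA' ha))).1
    have h2 := huv a ha
    constructor
    · rcases Nat.eq_zero_or_pos (u a) with h | h
      · rw [h, zero_mul] at h2; omega
      · exact h
    · rcases Nat.eq_zero_or_pos (v a) with h | h
      · rw [h, mul_zero] at h2; omega
      · exact h
  have hprod : ∀ p ∈ E, p.1 * p.2 ≤ n := by
    intro p hp
    obtain ⟨a, ha, rfl⟩ := hmem p hp
    have h1 : a ≤ n := (Finset.mem_Icc.1 (hA (hA' ha))).2
    have h2 := huv a ha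
    show u a * v a ≤ n
    omega
  have hlog0 : 0 < Real.log n := by linarith
  set α : ℝ := Real.log n ^ (-(7 : ℝ) / 4) with hα
  have hα0 : 0 < α := Real.rpow_pos_of_pos hlog0 _
  have hα1 : α ≤ 1 := Real.rpow_le_one_of_one_le_of_nonpos hlog (by norm_num)
  set β : ℝ := 10 * C / Real.log n with hβ
  have hβ0 : 0 < β := by positivity
  have h10' : (2 : ℝ) ≤ (n : ℝ) ^ ((1 : ℝ) / 10) := h10
  have hkst := kst_density E hC4 (n := n) (Y := zz n) (Y0 := (n : ℝ) ^ ((1 : ℝ) / 10)) (α := α)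
    (β := β) hn hpos hprod hz1 (SmallB_zz_le hn)
    (by
      intro p hp
      obtain ⟨a, ha, rfl⟩ := hmem p hp
      exact hv a ha)
    hα0 hβ0 (by linarith)
    (by
      intro x hx
      rw [SmallB_n_div_zz hn] at hx
      rw [mul_comm]
      have hx2 : (n : ℝ) ^ ((2 : ℝ) / 5) ≤ x := by
        refine le_trans ?_ hx
        unfold zz
        exact Real.rpow_le_rpow_of_exponent_le hn1 (by norm_num)
      refine hM2 x hx2 _ ?_
      intro w hw
      rw [Finset.mem_filter, Finset.mem_image] at hw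
      obtain ⟨⟨p, hp, rfl⟩, hw2⟩ := hw
      obtain ⟨a, ha, rfl⟩ := hmem p hp
      exact ⟨huM a ha, hw2⟩)
    (by
      intro x hx
      have hx2 : 2 ≤ x := h10'.trans hx
      have hx0 : 0 < x := by linarith
      have hc : ((((E.image Prod.snd).filter (fun v : ℕ => (v : ℝ) ≤ x)).card : ℕ) : ℝ) ≤
          Nat.primeCounting ⌊x⌋₊ := by
        rw [Nat.primeCounting, Nat.primeCounting', Nat.count_eq_card_filter_range]
        exact_mod_cast Finset.card_le_card (by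
          intro w hw
          rw [Finset.mem_filter, Finset.mem_image] at hw
          obtain ⟨⟨p, hp, rfl⟩, hw2⟩ := hw
          obtain ⟨a, ha, rfl⟩ := hmem p hp
          rw [Finset.mem_filter, Finset.mem_range]
          exact ⟨Nat.lt_succ_of_le (Nat.le_floor hw2), hvP a ha⟩)
      refine hc.trans ((hcheb x hx2).trans ?_)
      have hlx : Real.log n / 10 ≤ Real.log x := by
        have h5 : Real.log ((n : ℝ) ^ ((1 : ℝ) / 10)) ≤ Real.log x :=
          Real.log_le_log (by positivity) hx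
        rw [Real.log_rpow (by positivity)] at h5
        linarith
      have hlx0 : 0 < Real.log n / 10 := by positivity
      calc C * x / Real.log x ≤ C * x / (Real.log n / 10) := by
            gcongr
        _ = β * x := by rw [hβ]; field_simp)
  have hUc : ((E.image Prod.fst).card : ℝ) ≤ zz n * Lg n ^ 10 := by
    refine SmallB_card_le (by positivity) ?_
    intro w hw
    rw [Finset.mem_image] at hw
    obtain ⟨p, hp, rfl⟩ := hw
    obtain ⟨a, ha, hpa⟩ := hmem p hp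
    refine ⟨(hpos p hp).1, ?_⟩
    rw [hpa]
    exact SmallB_M2_le (huM a ha)
  have h1 : zz n * Lg n ^ 10 ≤ ε / 3 * scale n := by
    have : zz n * Lg n ^ 10 = 1 * ((n : ℝ) ^ ((1 : ℝ) / 2) * Real.log n ^ 40) := by
      unfold zz Lg
      rw [← pow_mul, one_mul]
    rw [this]
    exact hp1
  have hsα : Real.sqrt α = Real.log n ^ (-(7 : ℝ) / 8) := by
    rw [hα, Real.sqrt_eq_rpow, ← Real.rpow_mul hlog0.le]
    norm_num
  have h2 : 30 * Real.sqrt α * β * Real.sqrt (n * zz n) ≤ ε / 3 * scale n := by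
    refine le_trans ?_ hl1
    rw [SmallB_sqrt_nz hn, hsα, hβ]
    have h3 : Real.log n ^ (-(7 : ℝ) / 8) / Real.log n ≤ Real.log n ^ (-(13 : ℝ) / 8) := by
      rw [← Real.rpow_sub_one hlog0.ne']
      exact Real.rpow_le_rpow_of_exponent_le hlog (by norm_num)
    have h4 : 0 ≤ 300 * C * (n : ℝ) ^ ((3 : ℝ) / 4) := by positivity
    have h5 := mul_le_mul_of_nonneg_left h3 h4
    calc 30 * Real.log n ^ (-(7 : ℝ) / 8) * (10 * C / Real.log n) * (n : ℝ) ^ ((3 : ℝ) / 4)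
        = 300 * C * (n : ℝ) ^ ((3 : ℝ) / 4) * (Real.log n ^ (-(7 : ℝ) / 8) / Real.log n) := by
          ring
      _ ≤ 300 * C * (n : ℝ) ^ ((3 : ℝ) / 4) * Real.log n ^ (-(13 : ℝ) / 8) := h5
      _ = _ := by ring
  have h3 : 8 * (Real.sqrt α / β) * Real.sqrt (n * (n : ℝ) ^ ((1 : ℝ) / 10)) ≤
      ε / 3 * scale n := by
    refine le_trans ?_ hp2
    rw [SmallB_sqrt_nθ hn]
    have hs1 : Real.sqrt α ≤ 1 := by
      rw [Real.sqrt_le_one]
      exact hα1
    have h5 : Real.sqrt α / β ≤ Real.log n ^ 1 := by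
      rw [hβ, div_div_eq_mul_div, pow_one]
      have h7 : Real.sqrt α * Real.log n ≤ Real.log n := by nlinarith
      have h8 : (1 : ℝ) ≤ 10 * C := by linarith
      rw [div_le_iff₀ (by positivity)]
      nlinarith
    have h6 : ((1 : ℝ) + 1 / 10) / 2 = 11 / 20 := by norm_num
    rw [h6]
    have h4 : 0 ≤ (n : ℝ) ^ ((11 : ℝ) / 20) := by positivity
    nlinarith [mul_le_mul_of_nonneg_left h5 h4]
  have hcard' : (A'.card : ℝ) = E.card := by
    rw [hcard]
  rw [hcard']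
  linarith

open Classical in
/-- Class D, `a = p w`. If `w ≤ z`: `U` = primes `≤ z L`, `V = M2 ∩ [1, z]`, `Y = z`, `α = 1`,
`β = (log n)^(-7/4)`, `Y0 = n^(2/5)`: error `O(n^(3/4) (log n)^(-7/4))`. If `w > z`, so `p ≤ z`:
`V` = primes `≤ z`, `β = 20 C / log n` (Chebyshev, `Y0 = n^(1/10)`), `U` = the numbers `w`,
`α = (log n)^(-7/4)` (`M2_count`), `|U| ≤ z L^10`: error `O(n^(3/4) (log n)^(-7/8 - 1))`. -/
theorem small_D {ε : ℝ} (hε : 0 < ε) : ∀ᶠ n : ℕ in atTop, ∀ A : Finset ℕ,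
    A ⊆ Finset.Icc 1 n → PairProductDistinct A →
    ((A.filter (fun a => ClD n a)).card : ℝ) ≤ ε * scale n := by
  have hε2 : 0 < ε / 2 := by positivity
  filter_upwards [SmallB_aux1 hε2, SmallB_aux2 hε2, SmallB_log_ev, eventually_ge_atTop 1]
    with n h1 h2 hlog hn
  intro A hA hAd
  have hz1 := SmallB_one_le_zz hn
  let P : ℕ → Prop := fun a => ∃ p w : ℕ, a = p * w ∧ (p : ℝ) ≤ zz n * Lg n ∧ M2 n w ∧
    (w : ℝ) ≤ zz n
  let Q : ℕ → Prop := fun a => ∃ u v : ℕ, a = u * v ∧ M2 n u ∧ v.Prime ∧ (v : ℝ) ≤ zz n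
  have hsub : A.filter (fun a => ClD n a) ⊆ A.filter P ∪ A.filter Q := by
    intro a ha
    rw [Finset.mem_filter] at ha
    obtain ⟨haA, p, w, hpw, hp, hpz, hw⟩ := ha
    rw [Finset.mem_union, Finset.mem_filter, Finset.mem_filter]
    by_cases hwz : (w : ℝ) ≤ zz n
    · exact Or.inl ⟨haA, p, w, hpw, hpz, hw, hwz⟩
    · refine Or.inr ⟨haA, w, p, by rw [hpw, mul_comm], hw, hp, ?_⟩
      push Not at hwz
      have han : (a : ℝ) ≤ n := by exact_mod_cast (Finset.mem_Icc.1 (hA haA)).2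
      by_contra hpz2
      push Not at hpz2
      have h3 : zz n * zz n < (p : ℝ) * w :=
        mul_lt_mul'' hpz2 hwz (SmallB_zz_nonneg n) (SmallB_zz_nonneg n)
      rw [SmallB_zz_sq] at h3
      have h4 : (a : ℝ) = p * w := by exact_mod_cast hpw
      linarith
  have hL1 : 1 ≤ Lg n := by
    unfold Lg
    exact one_le_pow₀ hlog
  have hP := h1 A hA hAd (A.filter P) (Finset.filter_subset _ _) (by
    intro a ha
    rw [Finset.mem_filter] at ha
    obtain ⟨_, p, w, hpw, hp, hw, hwz⟩ := ha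
    refine ⟨p, w, hpw, hp.trans ?_, hw, hwz⟩
    have h5 : Lg n ≤ Lg n ^ 10 := le_self_pow₀ hL1 (by norm_num)
    exact mul_le_mul_of_nonneg_left h5 (SmallB_zz_nonneg n))
  have hQ := h2 A hA hAd (A.filter Q) (Finset.filter_subset _ _) (by
    intro a ha
    rw [Finset.mem_filter] at ha
    exact ha.2)
  have h6 : ((A.filter (fun a => ClD n a)).card : ℝ) ≤ (A.filter P).card + (A.filter Q).card := by
    exact_mod_cast (Finset.card_le_card hsub).trans (Finset.card_union_le _ _)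
  linarith

open Classical in
/-- Class E, `a = u v`, both in `M2`; one of them is `≤ z`, call it `v`: `Y = z`, `α = 1`,
`β = (log n)^(-7/4)`, `Y0 = n^(2/5)`, `|U| ≤ z L^10`: error `O(n^(3/4) (log n)^(-7/4))`. -/
theorem small_E {ε : ℝ} (hε : 0 < ε) : ∀ᶠ n : ℕ in atTop, ∀ A : Finset ℕ,
    A ⊆ Finset.Icc 1 n → PairProductDistinct A →
    ((A.filter (fun a => ClE n a)).card : ℝ) ≤ ε * scale n := by
  filter_upwards [SmallB_aux1 hε, SmallB_log_ev, eventually_ge_atTop 1]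
    with n h1 hlog hn
  intro A hA hAd
  refine h1 A hA hAd _ (Finset.filter_subset _ _) ?_
  intro a ha
  rw [Finset.mem_filter] at ha
  obtain ⟨haA, u, v, huv, hu, hv⟩ := ha
  by_cases hvz : (v : ℝ) ≤ zz n
  · exact ⟨u, v, huv, SmallB_M2_le hu, hv, hvz⟩
  · refine ⟨v, u, by rw [huv, mul_comm], SmallB_M2_le hv, hu, ?_⟩
    push Not at hvz
    have han : (a : ℝ) ≤ n := by exact_mod_cast (Finset.mem_Icc.1 (hA haA)).2
    by_contra huz
    push Not at huz
    have h3 : zz n * zz n < (u : ℝ) * v :=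
      mul_lt_mul'' huz hvz (SmallB_zz_nonneg n) (SmallB_zz_nonneg n)
    rw [SmallB_zz_sq] at h3
    have h4 : (a : ℝ) = u * v := by exact_mod_cast huv
    linarith

end Pool.Agent.W_764f34_h80
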