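import Pool.Agent.W_764f34_h80.Classify
import Pool.Agent.W_764f34_h80.Small
import Pool.Agent.W_764f34_h80.SmallB
import Pool.Agent.W_764f34_h80.Main

set_option autoImplicit false

/-! Localisation of the second-order term. -/

namespace Pool.Agent.W_764f34_h80

open N884ee30a Filter Topology

open Classical in
/-- Upper half of the localisation: up to `ε scale n`, everything beyond `π(n)` is in the core. -/
theorem local_upper {ε : ℝ} (hε : 0 < ε) : ∀ᶠ K : ℕ in atTop, ∀ᶠ n : ℕ in atTop,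
    ∀ A : Finset ℕ, A ⊆ Finset.Icc 1 n → PairProductDistinct A →
    (A.card : ℝ) ≤ Nat.primeCounting n + (A.filter (fun a => Core K n a)).card + ε * scale n := by
  have hε' : 0 < ε / 6 := by positivity
  filter_upwards [main_tail hε'] with K hK
  filter_upwards [hK, classify, small_P hε', small_I hε', small_S hε', small_D hε', small_E hε']
    with n hM hcl hP hI hS hD hE A hA hd
  have h1 := hM A hA hd
  have h2 := hP A hA hd
  have h3 := hI A hA hd
  have h4 := hS A hA hd
  have h5 := hD A hA hd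
  have h6 := hE A hA hd
  have hsub : A ⊆ A.filter (fun a => ClP n a) ∪ (A.filter (fun a => ClI n a) ∪
      (A.filter (fun a => ClS n a) ∪ (A.filter (fun a => ClM n a ∧ ¬ Core K n a) ∪
      (A.filter (fun a => Core K n a) ∪ (A.filter (fun a => ClD n a) ∪
      A.filter (fun a => ClE n a)))))) := by
    intro a ha
    have hmem := Finset.mem_Icc.1 (hA ha)
    have := hcl a hmem.1 hmem.2
    simp only [Finset.mem_union, Finset.mem_filter, ha, true_and]
    tauto
  have hc1 : A.card ≤ (A.filter (fun a => ClP n a)).card + ((A.filter (fun a => ClI n a)).card +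
      ((A.filter (fun a => ClS n a)).card + ((A.filter (fun a => ClM n a ∧ ¬ Core K n a)).card +
      ((A.filter (fun a => Core K n a)).card + ((A.filter (fun a => ClD n a)).card +
      (A.filter (fun a => ClE n a)).card))))) := by
    refine (Finset.card_le_card hsub).trans ?_
    refine (Finset.card_union_le _ _).trans (Nat.add_le_add_left ?_ _)
    refine (Finset.card_union_le _ _).trans (Nat.add_le_add_left ?_ _)
    refine (Finset.card_union_le _ _).trans (Nat.add_le_add_left ?_ _)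
    refine (Finset.card_union_le _ _).trans (Nat.add_le_add_left ?_ _)
    refine (Finset.card_union_le _ _).trans (Nat.add_le_add_left ?_ _)
    exact Finset.card_union_le _ _
  have hc2 : (A.card : ℝ) ≤ (A.filter (fun a => ClP n a)).card +
      ((A.filter (fun a => ClI n a)).card +
      ((A.filter (fun a => ClS n a)).card + ((A.filter (fun a => ClM n a ∧ ¬ Core K n a)).card +
      ((A.filter (fun a => Core K n a)).card + ((A.filter (fun a => ClD n a)).card +
      (A.filter (fun a => ClE n a)).card))))) := by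
    exact_mod_cast hc1
  linarith

/-- All prime factors of a core number are at most `K √n`. -/
theorem Local_core_prime {K n a P : ℕ} (h : Core K n a) (ha : 1 ≤ a) (hn : 1 ≤ n) (hP : P.Prime)
    (hPa : P ∣ a) : P ^ 2 ≤ K ^ 2 * n := by
  obtain ⟨m, p, q, rfl, hm, hp, hq, hpq, -, hqK⟩ := h
  rcases (Nat.Prime.dvd_mul hP).1 hPa with h1 | h1
  · rcases (Nat.Prime.dvd_mul hP).1 h1 with h2 | h2
    · have hm0 : 0 < m := by
        rcases Nat.eq_zero_or_pos m with h3 | h3
        · subst h3; simp at ha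
        · exact h3
      have h3 : P ≤ K := (Nat.le_of_dvd hm0 h2).trans hm
      calc P ^ 2 ≤ K ^ 2 := Nat.pow_le_pow_left h3 2
        _ ≤ K ^ 2 * n := Nat.le_mul_of_pos_right _ hn
    · rw [(Nat.prime_dvd_prime_iff_eq hP hp).1 h2]
      exact (Nat.pow_le_pow_left hpq.le 2).trans hqK
  · rw [(Nat.prime_dvd_prime_iff_eq hP hq).1 h1]
    exact hqK

/-- The primes up to `n` whose square is larger than `K² n`. -/
theorem Local_distinct {K n : ℕ} (hn : 1 ≤ n) {A : Finset ℕ} (hA : A ⊆ Finset.Icc 1 n)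
    (hd : PairProductDistinct A) (hc : ∀ a ∈ A, Core K n a) :
    PairProductDistinct (A ∪ (Finset.Icc 1 n).filter (fun p => p.Prime ∧ K ^ 2 * n < p ^ 2)) := by
  have key : ∀ P a : ℕ, P.Prime → K ^ 2 * n < P ^ 2 →
      a ∈ A ∪ (Finset.Icc 1 n).filter (fun p => p.Prime ∧ K ^ 2 * n < p ^ 2) → P ∣ a → P = a := by
    intro P a hP hPK ha hPa
    rcases Finset.mem_union.1 ha with h1 | h1
    · have := Local_core_prime (hc a h1) (Finset.mem_Icc.1 (hA h1)).1 hn hP hPa
      omega
    · exact (Nat.prime_dvd_prime_iff_eq hP (Finset.mem_filter.1 h1).2.1).1 hPa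
  intro a b c d ha hb hcc hdd hab hcd heq
  have pos : ∀ x ∈ A ∪ (Finset.Icc 1 n).filter (fun p => p.Prime ∧ K ^ 2 * n < p ^ 2), 0 < x := by
    intro x hx
    rcases Finset.mem_union.1 hx with h1 | h1
    · exact (Finset.mem_Icc.1 (hA h1)).1
    · exact (Finset.mem_filter.1 h1).2.1.pos
  have ha0 := pos a ha
  have hb0 := pos b hb
  have hc0 := pos c hcc
  have hd0 := pos d hdd
  -- case a large prime
  by_cases haP : a.Prime ∧ K ^ 2 * n < a ^ 2
  · rcases (Nat.Prime.dvd_mul haP.1).1 (heq ▸ Dvd.intro b rfl : a ∣ c * d) with h1 | h1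
    · have h2 := key a c haP.1 haP.2 hcc h1
      subst h2
      exact ⟨rfl, Nat.eq_of_mul_eq_mul_left ha0 heq⟩
    · have h2 := key a d haP.1 haP.2 hdd h1
      subst h2
      have h3 : b = c := by
        rw [mul_comm c a] at heq
        exact Nat.eq_of_mul_eq_mul_left ha0 heq
      omega
  by_cases hbP : b.Prime ∧ K ^ 2 * n < b ^ 2
  · rcases (Nat.Prime.dvd_mul hbP.1).1 (heq ▸ Dvd.intro_left a rfl : b ∣ c * d) with h1 | h1
    · have h2 := key b c hbP.1 hbP.2 hcc h1
      subst h2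
      have h3 : a = d := by
        rw [mul_comm a b] at heq
        exact Nat.eq_of_mul_eq_mul_left hb0 heq
      omega
    · have h2 := key b d hbP.1 hbP.2 hdd h1
      subst h2
      exact ⟨Nat.eq_of_mul_eq_mul_right hb0 heq, rfl⟩
  by_cases hcP : c.Prime ∧ K ^ 2 * n < c ^ 2
  · rcases (Nat.Prime.dvd_mul hcP.1).1 (heq.symm ▸ Dvd.intro d rfl : c ∣ a * b) with h1 | h1
    · exact absurd (key c a hcP.1 hcP.2 ha h1 ▸ hcP) haP
    · exact absurd (key c b hcP.1 hcP.2 hb h1 ▸ hcP) hbP
  by_cases hdP : d.Prime ∧ K ^ 2 * n < d ^ 2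
  · rcases (Nat.Prime.dvd_mul hdP.1).1 (heq.symm ▸ Dvd.intro_left c rfl : d ∣ a * b) with h1 | h1
    · exact absurd (key d a hdP.1 hdP.2 ha h1 ▸ hdP) haP
    · exact absurd (key d b hdP.1 hdP.2 hb h1 ▸ hdP) hbP
  have inA : ∀ x ∈ A ∪ (Finset.Icc 1 n).filter (fun p => p.Prime ∧ K ^ 2 * n < p ^ 2),
      ¬ (x.Prime ∧ K ^ 2 * n < x ^ 2) → x ∈ A := by
    intro x hx hxP
    rcases Finset.mem_union.1 hx with h1 | h1
    · exact h1
    · exact absurd (Finset.mem_filter.1 h1).2 hxP
  exact hd (inA a ha haP) (inA b hb hbP) (inA c hcc hcP) (inA d hdd hdP) hab hcd heq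

theorem Local_card {K n : ℕ} (hn : 1 ≤ n) {A : Finset ℕ} (hA : A ⊆ Finset.Icc 1 n)
    (hc : ∀ a ∈ A, Core K n a) :
    (Nat.primeCounting n : ℝ) + A.card - K * (n : ℝ) ^ ((1 : ℝ) / 2) ≤
    ((A ∪ (Finset.Icc 1 n).filter (fun p => p.Prime ∧ K ^ 2 * n < p ^ 2)).card : ℕ) := by
  have hdis : Disjoint A ((Finset.Icc 1 n).filter (fun p => p.Prime ∧ K ^ 2 * n < p ^ 2)) := by
    rw [Finset.disjoint_left]
    intro a ha h1
    have h2 := (Finset.mem_filter.1 h1).2
    have := Local_core_prime (hc a ha) (Finset.mem_Icc.1 (hA ha)).1 hn h2.1 dvd_rfl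
    omega
  rw [Finset.card_union_of_disjoint hdis]
  have h1 : Nat.primeCounting n ≤
      ((Finset.Icc 1 n).filter (fun p => p.Prime ∧ K ^ 2 * n < p ^ 2)).card +
      (Finset.Icc 1 ⌊(K : ℝ) * (n : ℝ) ^ ((1 : ℝ) / 2)⌋₊).card := by
    rw [Nat.primeCounting, Nat.primeCounting', Nat.count_eq_card_filter_range]
    refine (Finset.card_le_card ?_).trans (Finset.card_union_le _ _)
    intro p hp
    rw [Finset.mem_filter, Finset.mem_range] at hp
    rw [Finset.mem_union, Finset.mem_filter, Finset.mem_Icc, Finset.mem_Icc]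
    by_cases h2 : K ^ 2 * n < p ^ 2
    · exact Or.inl ⟨⟨hp.2.one_le, by omega⟩, hp.2, h2⟩
    · refine Or.inr ⟨hp.2.one_le, ?_⟩
      apply Nat.le_floor
      have h3 : (p : ℝ) ^ 2 ≤ (K : ℝ) ^ 2 * n := by exact_mod_cast not_lt.1 h2
      have h4 : ((K : ℝ) * (n : ℝ) ^ ((1 : ℝ) / 2)) ^ 2 = (K : ℝ) ^ 2 * n := by
        rw [mul_pow, ← Real.sqrt_eq_rpow, Real.sq_sqrt (by positivity)]
      rw [← h4] at h3
      exact le_of_sq_le_sq h3 (by positivity)
  have h2 : ((Finset.Icc 1 ⌊(K : ℝ) * (n : ℝ) ^ ((1 : ℝ) / 2)⌋₊).card : ℝ) ≤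
      K * (n : ℝ) ^ ((1 : ℝ) / 2) := by
    rw [Nat.card_Icc, Nat.add_sub_cancel]
    exact Nat.floor_le (by positivity)
  have h3 : (Nat.primeCounting n : ℝ) ≤
      (((Finset.Icc 1 n).filter (fun p => p.Prime ∧ K ^ 2 * n < p ^ 2)).card : ℝ) +
      ((Finset.Icc 1 ⌊(K : ℝ) * (n : ℝ) ^ ((1 : ℝ) / 2)⌋₊).card : ℝ) := by exact_mod_cast h1
  push_cast
  linarith

/-- Lower half: a subset of the core with distinct products can be completed by the primes
`> K √n` (all prime factors of core numbers are `≤ K √n`); at most `K √n` primes are lost. -/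
theorem local_lower (K : ℕ) {ε : ℝ} (hε : 0 < ε) : ∀ᶠ n : ℕ in atTop,
    ∀ A : Finset ℕ, A ⊆ Finset.Icc 1 n → PairProductDistinct A → (∀ a ∈ A, Core K n a) →
    (Nat.primeCounting n : ℝ) + A.card - ε * scale n ≤ pairProductExtremal n := by
  filter_upwards [small_pow (θ := 1 / 2) (by norm_num) 0 (C := K) hε, eventually_ge_atTop 1]
    with n hn hn1 A hA hd hc
  have h1 := Local_card hn1 hA hc
  have h2 := card_le_extremal (n := n)
    (A := A ∪ (Finset.Icc 1 n).filter (fun p => p.Prime ∧ K ^ 2 * n < p ^ 2))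
    (Finset.union_subset hA (Finset.filter_subset _ _)) (Local_distinct hn1 hA hd hc)
  have h3 : ((A ∪ (Finset.Icc 1 n).filter (fun p => p.Prime ∧ K ^ 2 * n < p ^ 2)).card : ℝ) ≤
    pairProductExtremal n := by exact_mod_cast h2
  rw [pow_zero, mul_one] at hn
  linarith

end Pool.Agent.W_764f34_h80
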