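import Pool.Agent.W_764f34_h80.Local
import Pool.Agent.W_764f34_h80.CoreDef

set_option autoImplicit false

/-! Quantitative localisation. -/

namespace Pool.Agent.W_764f34_h80

open N884ee30a Filter Topology

theorem LocalQ_bdd (K n : ℕ) : BddAbove {s | ∃ A : Finset ℕ, A ⊆ Finset.Icc 1 n ∧
    PairProductDistinct A ∧ (∀ a ∈ A, Core K n a) ∧ A.card = s} := by
  refine ⟨n, ?_⟩
  rintro s ⟨A, hA, -, -, rfl⟩
  simpa using Finset.card_le_card hA

theorem LocalQ_le {K n : ℕ} {A : Finset ℕ} (hA : A ⊆ Finset.Icc 1 n) (hd : PairProductDistinct A)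
    (hc : ∀ a ∈ A, Core K n a) : A.card ≤ coreMax K n :=
  le_csSup (LocalQ_bdd K n) ⟨A, hA, hd, hc, rfl⟩

theorem LocalQ_ex (K n : ℕ) : ∃ A : Finset ℕ, A ⊆ Finset.Icc 1 n ∧ PairProductDistinct A ∧
    (∀ a ∈ A, Core K n a) ∧ A.card = coreMax K n := by
  have hne : {s | ∃ A : Finset ℕ, A ⊆ Finset.Icc 1 n ∧ PairProductDistinct A ∧
      (∀ a ∈ A, Core K n a) ∧ A.card = s}.Nonempty := by
    refine ⟨0, ∅, Finset.empty_subset _, ?_, fun a ha => absurd ha (Finset.notMem_empty a), rfl⟩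
    intro a b c d ha
    exact absurd ha (Finset.notMem_empty a)
  exact Nat.sSup_mem hne (LocalQ_bdd K n)

/-- The smaller prime, all blocks. -/
theorem LocalQ_keyA {n t p q j : ℕ} (ht : 2 ^ j ≤ t) (hqp : q ≤ p) (hn : t * p * q ≤ n) :
    2 ^ j * q ^ 2 ≤ n := by
  calc 2 ^ j * q ^ 2 ≤ t * q ^ 2 := by gcongr
    _ = t * q * q := by ring
    _ ≤ t * p * q := by gcongr
    _ ≤ n := hn

/-- The smaller prime, blocks with labels at most `K`. -/
theorem LocalQ_keyB {K n t p q : ℕ} (ht1 : 1 ≤ t) (htK : t ≤ K) (hn : t * p * q ≤ n)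
    (hcore : ¬ (t ≤ K ∧ n ≤ (K * q) ^ 2 ∧ p ^ 2 ≤ K ^ 2 * n)) : (K * q) ^ 2 ≤ n := by
  by_contra hlt
  push Not at hlt
  apply hcore
  refine ⟨htK, hlt.le, ?_⟩
  by_contra hlt2
  push Not at hlt2
  have h5 : (p * q) ^ 2 ≤ n ^ 2 := by
    apply Nat.pow_le_pow_left
    calc p * q = 1 * p * q := by ring
      _ ≤ t * p * q := by gcongr
      _ ≤ n := hn
  have h6 : K ^ 2 * n * n < (p * q * K) ^ 2 := by
    have hKq0 : 0 < (K * q) ^ 2 := by omega
    calc K ^ 2 * n * n ≤ K ^ 2 * n * (K * q) ^ 2 := by gcongr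
      _ < p ^ 2 * (K * q) ^ 2 := Nat.mul_lt_mul_of_pos_right hlt2 hKq0
      _ = (p * q * K) ^ 2 := by ring
  have h7 : (p * q * K) ^ 2 ≤ n ^ 2 * K ^ 2 := by
    calc (p * q * K) ^ 2 = (p * q) ^ 2 * K ^ 2 := by ring
      _ ≤ n ^ 2 * K ^ 2 := by gcongr
  have h8 : K ^ 2 * n * n = n ^ 2 * K ^ 2 := by ring
  omega

theorem LocalQ_sqrt {n : ℕ} {R : ℝ} (hR : 1 ≤ R) :
    Real.sqrt (n * (zz n / R)) = (n : ℝ) ^ ((3 : ℝ) / 4) * R ^ (-((1 : ℝ) / 2)) := by
  have hR0 : 0 < R := by linarith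
  rcases Nat.eq_zero_or_pos n with h0 | h0
  · subst h0
    norm_num
  have hn0 : (0 : ℝ) < n := by exact_mod_cast h0
  have h3 : (n : ℝ) ^ ((3 : ℝ) / 2) = n * zz n := by
    unfold zz
    nth_rewrite 2 [← Real.rpow_one (n : ℝ)]
    rw [← Real.rpow_add hn0]
    norm_num
  have h1 : (n : ℝ) * (zz n / R) = (n : ℝ) ^ ((3 : ℝ) / 2) * R ^ (-(1 : ℝ)) := by
    rw [Real.rpow_neg hR0.le, Real.rpow_one, h3]
    ring
  rw [h1, Real.sqrt_eq_rpow, Real.mul_rpow (by positivity) (by positivity),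
    ← Real.rpow_mul hn0.le, ← Real.rpow_mul hR0.le]
  congr 1 <;> congr 1 <;> norm_num

/-- One block. -/
theorem LocalQ_block : ∃ C : ℝ, 1 ≤ C ∧ ∀ᶠ n : ℕ in atTop, ∀ (j : ℕ) (R : ℝ), 1 ≤ R → R ≤ zz n →
    ∀ A B : Finset ℕ, A ⊆ Finset.Icc 1 n → PairProductDistinct A → B ⊆ A →
    (∀ a ∈ B, ∃ m p q : ℕ, a = m * p * q ∧ p.Prime ∧ q.Prime ∧ q ≤ p ∧ zz n / Lg n < q ∧
      (p : ℝ) ≤ zz n * Lg n ∧ (m : ℝ) ≤ Lg n ^ 2 ∧ 2 ^ j ≤ m ∧ m < 2 ^ (j + 1) ∧
      (q : ℝ) ≤ zz n / R) →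
    (B.card : ℝ) ≤ C * scale n * R ^ (-((1 : ℝ) / 2)) + C * (n : ℝ) ^ ((3 : ℝ) / 5) := by
  obtain ⟨C, hC, hbb⟩ := block_bound
  refine ⟨C, hC, ?_⟩
  filter_upwards [hbb] with n hn j R hR1 hR2 A B hA hd hBA hB
  have hR0 : 0 < R := by linarith
  have hz0 : 0 ≤ zz n := by
    rw [Main_zz]
    exact Real.sqrt_nonneg _
  have h1 := hn j (zz n / R) ((one_le_div hR0).2 hR2) (div_le_self hz0 hR1) A B hA hd hBA hB
  rw [LocalQ_sqrt hR1] at h1
  refine h1.trans (le_of_eq ?_)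
  unfold scale
  ring

theorem LocalQ_geom {θ : ℝ} (h0 : 0 < θ) (h1 : θ < 1) (J : ℕ) :
    ∑ j ∈ Finset.range J, θ ^ j ≤ (1 - θ)⁻¹ := by
  have h3 : 0 < 1 - θ := by linarith
  rw [geom_sum_eq h1.ne, inv_eq_one_div, le_div_iff₀ h3]
  have h4 : (θ ^ J - 1) / (θ - 1) * (1 - θ) = 1 - θ ^ J := by
    have : θ - 1 ≠ 0 := by linarith
    field_simp
    ring
  rw [h4]
  have : 0 < θ ^ J := by positivity
  linarith

theorem LocalQ_pow (j : ℕ) : (Real.sqrt (2 ^ j)) ^ (-((1 : ℝ) / 2)) =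
    ((2 : ℝ) ^ (-((1 : ℝ) / 4))) ^ j := by
  rw [Real.sqrt_eq_rpow, ← Real.rpow_natCast 2 j, ← Real.rpow_natCast _ j,
    ← Real.rpow_mul (by positivity), ← Real.rpow_mul (by positivity),
    ← Real.rpow_mul (by norm_num)]
  congr 1
  ring

/-- Small powers of `2` give the second factor `K^(-1/4)`. -/
theorem LocalQ_K1 {K j : ℕ} (hK : 1 ≤ K) (hj : 2 ^ j ≤ K) :
    (K : ℝ) ^ (-((1 : ℝ) / 2)) ≤ (K : ℝ) ^ (-(1 : ℝ) / 4) * ((2 : ℝ) ^ (-((1 : ℝ) / 4))) ^ j := by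
  have hK0 : (0 : ℝ) < K := by exact_mod_cast hK
  have h1 : (K : ℝ) ^ (-((1 : ℝ) / 2)) = (K : ℝ) ^ (-(1 : ℝ) / 4) * (K : ℝ) ^ (-(1 : ℝ) / 4) := by
    rw [← Real.rpow_add hK0]
    norm_num
  rw [h1]
  apply mul_le_mul_of_nonneg_left _ (by positivity)
  have h2 : ((2 : ℝ) ^ (-((1 : ℝ) / 4))) ^ j = ((2 : ℝ) ^ j) ^ (-(1 : ℝ) / 4) := by
    rw [← Real.rpow_natCast 2 j, ← Real.rpow_natCast _ j, ← Real.rpow_mul (by norm_num),
      ← Real.rpow_mul (by norm_num)]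
    congr 1
    ring
  rw [h2]
  apply Real.rpow_le_rpow_of_nonpos (by positivity) _ (by norm_num)
  exact_mod_cast hj

theorem LocalQ_K2 {K j : ℕ} (hK : 1 ≤ K) (hj : K < 2 ^ (j + 1)) :
    ((2 : ℝ) ^ (-((1 : ℝ) / 4))) ^ j ≤ 2 * (K : ℝ) ^ (-(1 : ℝ) / 4) := by
  have hK0 : (0 : ℝ) < K := by exact_mod_cast hK
  have h2 : ((2 : ℝ) ^ (-((1 : ℝ) / 4))) ^ j = ((2 : ℝ) ^ j) ^ (-(1 : ℝ) / 4) := by
    rw [← Real.rpow_natCast 2 j, ← Real.rpow_natCast _ j, ← Real.rpow_mul (by norm_num),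
      ← Real.rpow_mul (by norm_num)]
    congr 1
    ring
  rw [h2]
  have h3 : (K : ℝ) / 2 ≤ (2 : ℝ) ^ j := by
    have h4 : (K : ℝ) < 2 ^ (j + 1) := by exact_mod_cast hj
    rw [pow_succ] at h4
    linarith
  have h5 : ((2 : ℝ) ^ j) ^ (-(1 : ℝ) / 4) ≤ ((K : ℝ) / 2) ^ (-(1 : ℝ) / 4) :=
    Real.rpow_le_rpow_of_nonpos (by positivity) h3 (by norm_num)
  have h6 : ((K : ℝ) / 2) ^ (-(1 : ℝ) / 4) = (K : ℝ) ^ (-(1 : ℝ) / 4) * 2 ^ ((1 : ℝ) / 4) := by
    rw [Real.div_rpow hK0.le (by norm_num), div_eq_mul_inv, ← Real.rpow_neg (by norm_num)]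
    norm_num
  have h7 : (2 : ℝ) ^ ((1 : ℝ) / 4) ≤ 2 := by
    calc (2 : ℝ) ^ ((1 : ℝ) / 4) ≤ (2 : ℝ) ^ (1 : ℝ) :=
          Real.rpow_le_rpow_of_exponent_le (by norm_num) (by norm_num)
      _ = 2 := Real.rpow_one 2
  rw [h6] at h5
  have h8 : 0 ≤ (K : ℝ) ^ (-(1 : ℝ) / 4) := by positivity
  nlinarith

open Classical in
/-- Quantitative form of `main_tail`. As there, from `block_bound`: if `a = t p q` is in class M and
not in `Core K n`, then `p = q` (few), or `t > K`, or `q < √n / K`. Blocks `t ∈ [2^j, 2^(j+1))` with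
`2^(j+1) > K`: `q ≤ z 2^(-j/2)` (as `t q^2 ≤ n`), the sum over `j` of
`C (log n)^(-3/2) √(n z) 2^(-j/4)` is at most `C' K^(-1/4) scale n`. Blocks with `2^j ≤ K` and
`q ≤ z / K`: at most `(1 + log2 K) C (log n)^(-3/2) √(n z / K) ≤ C' K^(-1/4) scale n`. -/
theorem main_tail_quant : ∃ C : ℝ, 0 < C ∧ ∀ K : ℕ, 1 ≤ K → ∀ᶠ n : ℕ in atTop, ∀ A : Finset ℕ,
    A ⊆ Finset.Icc 1 n → PairProductDistinct A →
    ((A.filter (fun a => ClM n a ∧ ¬ Core K n a)).card : ℝ) ≤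
      C * (K : ℝ) ^ (-(1 : ℝ) / 4) * scale n := by
  obtain ⟨C, hC, hbb⟩ := LocalQ_block
  set θ : ℝ := (2 : ℝ) ^ (-((1 : ℝ) / 4)) with hθ
  have hθ0 : 0 < θ := by positivity
  have hθ1 : θ < 1 := Real.rpow_lt_one_of_one_lt_of_neg (by norm_num) (by norm_num)
  have h1θ : 0 < 1 - θ := by linarith
  refine ⟨3 * (C * (1 - θ)⁻¹) + 2, by positivity, fun K hK => ?_⟩
  have hK0 : (0 : ℝ) < K := by exact_mod_cast hK
  have hK1 : (1 : ℝ) ≤ K := by exact_mod_cast hK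
  set ε : ℝ := (K : ℝ) ^ (-(1 : ℝ) / 4) with hε
  have hε0 : 0 < ε := by positivity
  filter_upwards [hbb, small_pow (θ := 3 / 5) (by norm_num) 8 (ε := ε) (C := (K + 2) * C)
    hε0, small_pow (θ := 1 / 2) (by norm_num) 12 (ε := ε) (C := 1)
    hε0, Main_growth (δ := 1) (by norm_num) (K ^ 2) 8, eventually_ge_atTop 3]
    with n hbb hs1 hs2 hg hn3
  intro A hA hPPD
  have hlog1 : 1 ≤ Real.log n := Main_log_ge hn3
  have hn1 : (1 : ℝ) ≤ n := by
    have : 1 ≤ n := by omega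
    exact_mod_cast this
  have hLg1 : 1 ≤ Lg n := one_le_pow₀ hlog1
  have hLg2 : 1 ≤ Lg n ^ 2 := one_le_pow₀ hLg1
  have hz1 : 1 ≤ zz n := by
    rw [Main_zz]
    exact Real.one_le_sqrt.2 hn1
  have hscale : 0 < scale n := scale_pos (by omega)
  have hLg8 : Lg n ^ 2 = Real.log n ^ 8 := by
    unfold Lg
    ring
  have hgn : (K : ℝ) ^ 2 * Lg n ^ 2 ≤ n := by
    rw [hLg8]
    simpa using hg
  have hK2 : (1 : ℝ) ≤ (K : ℝ) ^ 2 := one_le_pow₀ hK1
  have hKz : (K : ℝ) ≤ zz n := by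
    rw [Main_zz]
    apply Real.le_sqrt_of_sq_le
    nlinarith
  have hLz : Lg n ≤ zz n := by
    rw [Main_zz]
    apply Real.le_sqrt_of_sq_le
    nlinarith
  have hz0 : 0 < zz n := by linarith
  set j0 : ℕ := Nat.log 2 K with hj0
  have hj01 : 2 ^ j0 ≤ K := Nat.pow_log_le_self 2 (by omega)
  have hj02 : K < 2 ^ (j0 + 1) := Nat.lt_pow_succ_log_self (by norm_num) K
  set B₁ : ℕ → Finset ℕ := fun j => A.filter (fun a => ∃ m p q : ℕ, a = m * p * q ∧ p.Prime ∧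
    q.Prime ∧ q ≤ p ∧ zz n / Lg n < q ∧ (p : ℝ) ≤ zz n * Lg n ∧ (m : ℝ) ≤ Lg n ^ 2 ∧
    2 ^ j ≤ m ∧ m < 2 ^ (j + 1) ∧ (q : ℝ) ≤ zz n / K) with hB₁
  set B₂ : ℕ → Finset ℕ := fun i => A.filter (fun a => ∃ m p q : ℕ, a = m * p * q ∧ p.Prime ∧
    q.Prime ∧ q ≤ p ∧ zz n / Lg n < q ∧ (p : ℝ) ≤ zz n * Lg n ∧ (m : ℝ) ≤ Lg n ^ 2 ∧
    2 ^ (j0 + i) ≤ m ∧ m < 2 ^ (j0 + i + 1) ∧ (q : ℝ) ≤ zz n / Real.sqrt (2 ^ (j0 + i))) with hB₂
  set S₀ : Finset ℕ := (Finset.Icc 1 ⌊Lg n ^ 2⌋₊ ×ˢ Finset.Icc 1 ⌊zz n * Lg n⌋₊).image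
    (fun x => x.1 * x.2 * x.2) with hS₀
  set J : ℕ := ⌊Lg n ^ 2⌋₊ + 1 with hJ
  -- the covering
  have hcov : A.filter (fun a => ClM n a ∧ ¬ Core K n a) ⊆
      S₀ ∪ ((Finset.range j0).biUnion B₁ ∪ (Finset.range J).biUnion B₂) := by
    intro a ha
    rw [Finset.mem_filter] at ha
    obtain ⟨haA, ⟨t, p, q, hat, hp, hq, hqp, hq1, hp1, ht1⟩, hncore⟩ := ha
    have ha1 := Finset.mem_Icc.1 (hA haA)
    have ht0 : t ≠ 0 := by
      rintro rfl
      rw [zero_mul, zero_mul] at hat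
      omega
    rw [Finset.mem_union]
    by_cases hpq : p = q
    · left
      rw [hS₀, Finset.mem_image]
      refine ⟨(t, p), ?_, by rw [hat, hpq]⟩
      rw [Finset.mem_product, Finset.mem_Icc, Finset.mem_Icc]
      exact ⟨⟨Nat.one_le_iff_ne_zero.2 ht0, Nat.le_floor ht1⟩, hp.one_le, Nat.le_floor hp1⟩
    · right
      have h1 : 2 ^ Nat.log 2 t ≤ t := Nat.pow_log_le_self 2 ht0
      have h2 : t < 2 ^ (Nat.log 2 t + 1) := Nat.lt_pow_succ_log_self (by norm_num) t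
      have hcore' : ¬ (t ≤ K ∧ n ≤ (K * q) ^ 2 ∧ p ^ 2 ≤ K ^ 2 * n) := by
        rintro ⟨h4, h5, h6⟩
        apply hncore
        exact ⟨t, q, p, by rw [hat]; ring, h4, hq, hp, lt_of_le_of_ne hqp (Ne.symm hpq), h5, h6⟩
      have htn : t * p * q ≤ n := hat ▸ ha1.2
      rw [Finset.mem_union]
      rcases Nat.lt_or_ge (Nat.log 2 t) j0 with hlt | hge
      · left
        rw [Finset.mem_biUnion]
        refine ⟨Nat.log 2 t, Finset.mem_range.2 hlt, ?_⟩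
        rw [hB₁, Finset.mem_filter]
        refine ⟨haA, t, p, q, hat, hp, hq, hqp, hq1, hp1, ht1, h1, h2, ?_⟩
        have htK : t ≤ K := by
          have h3 : 2 ^ (Nat.log 2 t + 1) ≤ 2 ^ j0 := Nat.pow_le_pow_right (by norm_num) hlt
          omega
        have h4 := LocalQ_keyB (Nat.one_le_iff_ne_zero.2 ht0) htK htn hcore'
        rw [le_div_iff₀ hK0, Main_zz]
        apply Real.le_sqrt_of_sq_le
        have h5 : ((K : ℝ) * q) ^ 2 ≤ n := by exact_mod_cast h4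
        rw [mul_comm (q : ℝ) (K : ℝ)]
        exact h5
      · right
        rw [Finset.mem_biUnion]
        refine ⟨Nat.log 2 t - j0, ?_, ?_⟩
        · rw [Finset.mem_range, hJ]
          have h4 : Nat.log 2 t < 2 ^ Nat.log 2 t := Nat.lt_two_pow_self
          have h5 : t ≤ ⌊Lg n ^ 2⌋₊ := Nat.le_floor ht1
          omega
        · have h6 : j0 + (Nat.log 2 t - j0) = Nat.log 2 t := by omega
          rw [hB₂]
          dsimp only
          rw [Finset.mem_filter, h6]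
          refine ⟨haA, t, p, q, hat, hp, hq, hqp, hq1, hp1, ht1, h1, h2, ?_⟩
          have h7 := LocalQ_keyA h1 hqp htn
          rw [le_div_iff₀ (by positivity), Main_zz]
          apply Real.le_sqrt_of_sq_le
          rw [mul_pow, Real.sq_sqrt (by positivity)]
          have h8 : (2 : ℝ) ^ Nat.log 2 t * (q : ℝ) ^ 2 ≤ n := by exact_mod_cast h7
          linarith
  -- the squares
  have hcard0 : (S₀.card : ℝ) ≤ ε * scale n := by
    have h1 : (S₀.card : ℝ) ≤ (⌊Lg n ^ 2⌋₊ : ℝ) * (⌊zz n * Lg n⌋₊ : ℝ) := by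
      have h2 : S₀.card ≤ ⌊Lg n ^ 2⌋₊ * ⌊zz n * Lg n⌋₊ := by
        refine Finset.card_image_le.trans ?_
        rw [Finset.card_product, Nat.card_Icc, Nat.card_Icc, Nat.add_sub_cancel,
          Nat.add_sub_cancel]
      exact_mod_cast h2
    have h2 : (⌊Lg n ^ 2⌋₊ : ℝ) ≤ Lg n ^ 2 := Nat.floor_le (by positivity)
    have h3 : (⌊zz n * Lg n⌋₊ : ℝ) ≤ zz n * Lg n := Nat.floor_le (by positivity)
    have h4 : (⌊Lg n ^ 2⌋₊ : ℝ) * (⌊zz n * Lg n⌋₊ : ℝ) ≤ Lg n ^ 2 * (zz n * Lg n) :=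
      mul_le_mul h2 h3 (Nat.cast_nonneg _) (by positivity)
    have h5 : Lg n ^ 2 * (zz n * Lg n) = 1 * ((n : ℝ) ^ ((1 : ℝ) / 2) * Real.log n ^ 12) := by
      unfold zz Lg
      ring
    linarith
  -- the blocks
  have hblock1 : ∀ j ∈ Finset.range j0, ((B₁ j).card : ℝ) ≤
      C * scale n * (ε * θ ^ j) + C * (n : ℝ) ^ ((3 : ℝ) / 5) := by
    intro j hj
    have h1 := hbb j K hK1 hKz A (B₁ j) hA hPPD (Finset.filter_subset _ _)
      (fun a ha => (Finset.mem_filter.1 ha).2)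
    have h2 : 2 ^ j ≤ K :=
      (Nat.pow_le_pow_right (by norm_num) (Finset.mem_range.1 hj).le).trans hj01
    have h3 := LocalQ_K1 hK h2
    have h4 : C * scale n * (K : ℝ) ^ (-((1 : ℝ) / 2)) ≤ C * scale n * (ε * θ ^ j) :=
      mul_le_mul_of_nonneg_left h3 (by positivity)
    linarith
  have hblock2 : ∀ i ∈ Finset.range J, ((B₂ i).card : ℝ) ≤
      C * scale n * (2 * ε * θ ^ i) + C * (n : ℝ) ^ ((3 : ℝ) / 5) := by
    intro i _
    rcases (B₂ i).eq_empty_or_nonempty with h0 | ⟨a, ha⟩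
    · rw [h0, Finset.card_empty, Nat.cast_zero]
      positivity
    have hBj : ∀ a ∈ B₂ i, ∃ m p q : ℕ, a = m * p * q ∧ p.Prime ∧
        q.Prime ∧ q ≤ p ∧ zz n / Lg n < q ∧ (p : ℝ) ≤ zz n * Lg n ∧ (m : ℝ) ≤ Lg n ^ 2 ∧
        2 ^ (j0 + i) ≤ m ∧ m < 2 ^ (j0 + i + 1) ∧ (q : ℝ) ≤ zz n / Real.sqrt (2 ^ (j0 + i)) :=
      fun a ha => (Finset.mem_filter.1 ha).2
    obtain ⟨m, p, q, -, -, -, -, -, -, hm1, hm2, -, -⟩ := hBj a ha
    have h2j : (2 : ℝ) ^ (j0 + i) ≤ Lg n ^ 2 := by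
      refine le_trans ?_ hm1
      exact_mod_cast hm2
    have hR1 : 1 ≤ Real.sqrt (2 ^ (j0 + i)) :=
      Real.one_le_sqrt.2 (one_le_pow₀ (by norm_num))
    have hR2 : Real.sqrt (2 ^ (j0 + i)) ≤ zz n := by
      refine le_trans ?_ hLz
      rw [Real.sqrt_le_left (by positivity)]
      exact h2j
    have h1 := hbb (j0 + i) (Real.sqrt (2 ^ (j0 + i))) hR1 hR2 A (B₂ i) hA hPPD
      (Finset.filter_subset _ _) hBj
    rw [LocalQ_pow, pow_add] at h1
    have h3 : θ ^ j0 * θ ^ i ≤ 2 * ε * θ ^ i :=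
      mul_le_mul_of_nonneg_right (LocalQ_K2 hK hj02) (by positivity)
    have h4 : C * scale n * (θ ^ j0 * θ ^ i) ≤ C * scale n * (2 * ε * θ ^ i) :=
      mul_le_mul_of_nonneg_left h3 (by positivity)
    linarith
  have hsum1 : (((Finset.range j0).biUnion B₁).card : ℝ) ≤
      C * scale n * ε * (1 - θ)⁻¹ + j0 * (C * (n : ℝ) ^ ((3 : ℝ) / 5)) := by
    have h1 : (((Finset.range j0).biUnion B₁).card : ℝ) ≤
        ∑ j ∈ Finset.range j0, ((B₁ j).card : ℝ) := by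
      exact_mod_cast Finset.card_biUnion_le
    calc _ ≤ _ := h1
      _ ≤ ∑ j ∈ Finset.range j0, (C * scale n * (ε * θ ^ j) + C * (n : ℝ) ^ ((3 : ℝ) / 5)) :=
          Finset.sum_le_sum hblock1
      _ = C * scale n * ε * ∑ j ∈ Finset.range j0, θ ^ j +
          j0 * (C * (n : ℝ) ^ ((3 : ℝ) / 5)) := by
          rw [Finset.sum_add_distrib, Finset.sum_const, Finset.card_range, nsmul_eq_mul,
            Finset.mul_sum]
          congr 1
          exact Finset.sum_congr rfl fun j _ => by ring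
      _ ≤ _ := by
          have := LocalQ_geom hθ0 hθ1 j0
          gcongr
  have hsum2 : (((Finset.range J).biUnion B₂).card : ℝ) ≤
      C * scale n * (2 * ε) * (1 - θ)⁻¹ + J * (C * (n : ℝ) ^ ((3 : ℝ) / 5)) := by
    have h1 : (((Finset.range J).biUnion B₂).card : ℝ) ≤
        ∑ j ∈ Finset.range J, ((B₂ j).card : ℝ) := by
      exact_mod_cast Finset.card_biUnion_le
    calc _ ≤ _ := h1
      _ ≤ ∑ j ∈ Finset.range J, (C * scale n * (2 * ε * θ ^ j) +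
          C * (n : ℝ) ^ ((3 : ℝ) / 5)) := Finset.sum_le_sum hblock2
      _ = C * scale n * (2 * ε) * ∑ j ∈ Finset.range J, θ ^ j +
          J * (C * (n : ℝ) ^ ((3 : ℝ) / 5)) := by
          rw [Finset.sum_add_distrib, Finset.sum_const, Finset.card_range, nsmul_eq_mul,
            Finset.mul_sum]
          congr 1
          exact Finset.sum_congr rfl fun j _ => by ring
      _ ≤ _ := by
          have := LocalQ_geom hθ0 hθ1 J
          gcongr
  have hrest : ((j0 : ℝ) + J) * (C * (n : ℝ) ^ ((3 : ℝ) / 5)) ≤ ε * scale n := by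
    have h0 : (j0 : ℝ) ≤ K := by
      have : j0 ≤ K := Nat.log_le_self 2 K
      exact_mod_cast this
    have h8 : 1 ≤ Real.log n ^ 8 := one_le_pow₀ hlog1
    have h1 : (J : ℝ) ≤ 2 * Real.log n ^ 8 := by
      have h2 : (⌊Lg n ^ 2⌋₊ : ℝ) ≤ Lg n ^ 2 := Nat.floor_le (by positivity)
      rw [hJ, Nat.cast_add, Nat.cast_one]
      linarith
    have h3 : (j0 : ℝ) + J ≤ (K + 2) * Real.log n ^ 8 := by nlinarith
    calc ((j0 : ℝ) + J) * (C * (n : ℝ) ^ ((3 : ℝ) / 5)) ≤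
        ((K + 2) * Real.log n ^ 8) * (C * (n : ℝ) ^ ((3 : ℝ) / 5)) := by gcongr
      _ = (K + 2) * C * ((n : ℝ) ^ ((3 : ℝ) / 5) * Real.log n ^ 8) := by ring
      _ ≤ _ := hs1
  have hfin : ((A.filter (fun a => ClM n a ∧ ¬ Core K n a)).card : ℝ) ≤
      S₀.card + (((Finset.range j0).biUnion B₁).card + ((Finset.range J).biUnion B₂).card) := by
    exact_mod_cast (Finset.card_le_card hcov).trans ((Finset.card_union_le _ _).trans
      (Nat.add_le_add_left (Finset.card_union_le _ _) _))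
  have hend : (3 * (C * (1 - θ)⁻¹) + 2) * ε * scale n =
      C * scale n * ε * (1 - θ)⁻¹ + C * scale n * (2 * ε) * (1 - θ)⁻¹ + 2 * (ε * scale n) := by
    ring
  rw [hend]
  have hjJ : ((j0 : ℝ) + J) * (C * (n : ℝ) ^ ((3 : ℝ) / 5)) =
      j0 * (C * (n : ℝ) ^ ((3 : ℝ) / 5)) + J * (C * (n : ℝ) ^ ((3 : ℝ) / 5)) := by ring
  linarith

/-- The localisation with an explicit rate: `F(n) = π(n) + coreMax K n + O(K^(-1/4) scale n)`.
Upper half as in `local_upper` (classes P, I, S, D, E cost `o(scale n)`), with `main_tail_quant`;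
lower half: `local_lower`. -/
theorem local_quant : ∃ C : ℝ, 0 < C ∧ ∀ K : ℕ, 1 ≤ K → ∀ᶠ n : ℕ in atTop,
    |(pairProductExtremal n : ℝ) - Nat.primeCounting n - coreMax K n| ≤
      C * (K : ℝ) ^ (-(1 : ℝ) / 4) * scale n := by
  classical
  obtain ⟨C, hC, htail⟩ := main_tail_quant
  refine ⟨C + 5, by positivity, fun K hK => ?_⟩
  have hK0 : (0 : ℝ) < K := by exact_mod_cast hK
  have hε : 0 < (K : ℝ) ^ (-(1 : ℝ) / 4) := by positivity
  filter_upwards [htail K hK, classify, small_P hε, small_I hε, small_S hε, small_D hε,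
    small_E hε, local_lower K hε, eventually_ge_atTop 2]
    with n hM hcl hP hI hS hD hE hlow hn2
  have hscale : 0 < scale n := scale_pos hn2
  have hes : 0 < (K : ℝ) ^ (-(1 : ℝ) / 4) * scale n := by positivity
  rw [abs_le]
  constructor
  · obtain ⟨A, hA, hd, hc, hcard⟩ := LocalQ_ex K n
    have h1 := hlow A hA hd hc
    rw [hcard] at h1
    have h2 : 0 < C * (K : ℝ) ^ (-(1 : ℝ) / 4) * scale n := by positivity
    nlinarith
  · obtain ⟨A, hA, hd, hcard⟩ := exists_extremal n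
    have h1 := hM A hA hd
    have h2 := hP A hA hd
    have h3 := hI A hA hd
    have h4 := hS A hA hd
    have h5 := hD A hA hd
    have h6 := hE A hA hd
    have hsub : A ⊆ A.filter (fun a => ClP n a) ∪ (A.filter (fun a => ClI n a) ∪
        (A.filter (fun a => ClS n a) ∪ (A.filter (fun a => ClM n a ∧ ¬ Core K n a) ∪
        (A.filter (fun a => Core K n a) ∪ (A.filter (fun a => ClD n a) ∪
        A.filter (fun a => ClE n a)))))) := by
      intro a ha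
      have hmem := Finset.mem_Icc.1 (hA ha)
      have := hcl a hmem.1 hmem.2
      simp only [Finset.mem_union, Finset.mem_filter, ha, true_and]
      tauto
    have hc1 : A.card ≤ (A.filter (fun a => ClP n a)).card + ((A.filter (fun a => ClI n a)).card +
        ((A.filter (fun a => ClS n a)).card + ((A.filter (fun a => ClM n a ∧ ¬ Core K n a)).card +
        ((A.filter (fun a => Core K n a)).card + ((A.filter (fun a => ClD n a)).card +
        (A.filter (fun a => ClE n a)).card))))) := by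
      refine (Finset.card_le_card hsub).trans ?_
      refine (Finset.card_union_le _ _).trans (Nat.add_le_add_left ?_ _)
      refine (Finset.card_union_le _ _).trans (Nat.add_le_add_left ?_ _)
      refine (Finset.card_union_le _ _).trans (Nat.add_le_add_left ?_ _)
      refine (Finset.card_union_le _ _).trans (Nat.add_le_add_left ?_ _)
      refine (Finset.card_union_le _ _).trans (Nat.add_le_add_left ?_ _)
      exact Finset.card_union_le _ _
    have hc2 : (A.card : ℝ) ≤ (A.filter (fun a => ClP n a)).card +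
        ((A.filter (fun a => ClI n a)).card +
        ((A.filter (fun a => ClS n a)).card + ((A.filter (fun a => ClM n a ∧ ¬ Core K n a)).card +
        ((A.filter (fun a => Core K n a)).card + ((A.filter (fun a => ClD n a)).card +
        (A.filter (fun a => ClE n a)).card))))) := by
      exact_mod_cast hc1
    have hcore : (A.filter (fun a => Core K n a)).card ≤ coreMax K n := by
      refine LocalQ_le ((Finset.filter_subset _ _).trans hA) ?_
        (fun a ha => (Finset.mem_filter.1 ha).2)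
      intro a b c d ha hb hc' hd' hab hcd h
      exact hd (Finset.filter_subset _ _ ha) (Finset.filter_subset _ _ hb)
        (Finset.filter_subset _ _ hc') (Finset.filter_subset _ _ hd') hab hcd h
    have hcore' : ((A.filter (fun a => Core K n a)).card : ℝ) ≤ coreMax K n := by
      exact_mod_cast hcore
    rw [← hcard]
    nlinarith

end Pool.Agent.W_764f34_h80
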