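import Pool.Agent.W_764f34_h80.LocalQ

set_option autoImplicit false

/-! Localisation, structural form. -/

namespace Pool.Agent.W_764f34_h80

open N884ee30a Filter Topology

open Classical in
theorem local_struct : ∃ C : ℝ, 0 < C ∧ ∀ K : ℕ, 1 ≤ K → ∀ᶠ n : ℕ in atTop,
    ∀ A : Finset ℕ, A ⊆ Finset.Icc 1 n → PairProductDistinct A →
    ((A.filter (fun a => ¬ Core K n a)).card : ℝ) ≤
      Nat.primeCounting n + C * (K : ℝ) ^ (-(1 : ℝ) / 4) * scale n := by
  obtain ⟨C, hC, htail⟩ := main_tail_quant
  refine ⟨C + 5, by positivity, fun K hK => ?_⟩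
  have hK0 : (0 : ℝ) < K := by exact_mod_cast hK
  have hε : 0 < (K : ℝ) ^ (-(1 : ℝ) / 4) := by positivity
  filter_upwards [htail K hK, classify, small_P hε, small_I hε, small_S hε, small_D hε,
    small_E hε, eventually_ge_atTop 2]
    with n hM hcl hP hI hS hD hE hn2 A hA hd
  have hscale : 0 < scale n := scale_pos hn2
  have hes : 0 < (K : ℝ) ^ (-(1 : ℝ) / 4) * scale n := by positivity
  have h1 := hM A hA hd
  have h2 := hP A hA hd
  have h3 := hI A hA hd
  have h4 := hS A hA hd
  have h5 := hD A hA hd
  have h6 := hE A hA hd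
  have hsub : A.filter (fun a => ¬ Core K n a) ⊆
      A.filter (fun a => ClP n a) ∪ (A.filter (fun a => ClI n a) ∪
      (A.filter (fun a => ClS n a) ∪ (A.filter (fun a => ClM n a ∧ ¬ Core K n a) ∪
      (A.filter (fun a => ClD n a) ∪ A.filter (fun a => ClE n a))))) := by
    intro a ha
    obtain ⟨ha, hnc⟩ := Finset.mem_filter.1 ha
    have hmem := Finset.mem_Icc.1 (hA ha)
    have := hcl a hmem.1 hmem.2
    simp only [Finset.mem_union, Finset.mem_filter, ha, true_and]
    tauto
  have hc1 : (A.filter (fun a => ¬ Core K n a)).card ≤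
      (A.filter (fun a => ClP n a)).card + ((A.filter (fun a => ClI n a)).card +
      ((A.filter (fun a => ClS n a)).card + ((A.filter (fun a => ClM n a ∧ ¬ Core K n a)).card +
      ((A.filter (fun a => ClD n a)).card + (A.filter (fun a => ClE n a)).card)))) := by
    refine (Finset.card_le_card hsub).trans ?_
    refine (Finset.card_union_le _ _).trans (Nat.add_le_add_left ?_ _)
    refine (Finset.card_union_le _ _).trans (Nat.add_le_add_left ?_ _)
    refine (Finset.card_union_le _ _).trans (Nat.add_le_add_left ?_ _)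
    refine (Finset.card_union_le _ _).trans (Nat.add_le_add_left ?_ _)
    exact Finset.card_union_le _ _
  have hc2 : ((A.filter (fun a => ¬ Core K n a)).card : ℝ) ≤
      (A.filter (fun a => ClP n a)).card + ((A.filter (fun a => ClI n a)).card +
      ((A.filter (fun a => ClS n a)).card + ((A.filter (fun a => ClM n a ∧ ¬ Core K n a)).card +
      ((A.filter (fun a => ClD n a)).card + (A.filter (fun a => ClE n a)).card)))) := by
    exact_mod_cast hc1
  nlinarith

end Pool.Agent.W_764f34_h80
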