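import Pool.Agent.W_764f34_h80.Basic

set_option autoImplicit false

/-! C4-free subgraphs by averaging over shifts of a polarity graph. -/

namespace Pool.Agent.W_764f34_h80

open Classical in
/-- Every graph `H` on a set `V` of at most `q^2` vertices (`q` prime) contains a C4-free subgraph with
at least `e(H) / q` edges. Proof: number the vertices injectively by `(x_i, y_i) ∈ (ZMod q)^2`; for
`β ∈ ZMod q` keep the edges `ij` of `H` with `y_i + y_j - x_i x_j = β`. Each edge of `H` is kept for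
exactly one `β`, so some `β` keeps at least `e(H) / q` edges. If `i ≠ k` have common neighbours
`j ≠ l` then `(x_i - x_k)(x_j - x_l) = 0`, and `x_i = x_k` gives `y_i = y_k`. -/
theorem polarity (q : ℕ) (hq : q.Prime) (V : Finset ℕ) (hV : V.card ≤ q ^ 2) (H : ℕ → ℕ → Prop)
    (hs : ∀ i j, H i j → H j i) :
    ∃ G : ℕ → ℕ → Prop, (∀ i j, G i j → G j i) ∧ (∀ i j, G i j → H i j ∧ i ∈ V ∧ j ∈ V ∧ i ≠ j) ∧
      (∀ i j k l, i ≠ k → j ≠ l → G i j → G j k → G k l → G l i → False) ∧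
      ((V ×ˢ V).filter (fun p => p.1 < p.2 ∧ H p.1 p.2)).card ≤
        q * ((V ×ˢ V).filter (fun p => p.1 < p.2 ∧ G p.1 p.2)).card := by
  have : Fact q.Prime := ⟨hq⟩
  have : NeZero q := ⟨hq.ne_zero⟩
  have hcard : Fintype.card V ≤ Fintype.card (ZMod q × ZMod q) := by
    rw [Fintype.card_prod, ZMod.card, Fintype.card_coe]
    calc V.card ≤ q ^ 2 := hV
      _ = q * q := sq q
  obtain ⟨e⟩ := Function.Embedding.nonempty_of_card_le hcard
  let f : ℕ → ZMod q × ZMod q := fun i => if h : i ∈ V then e ⟨i, h⟩ else 0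
  have hf : ∀ i j, i ∈ V → j ∈ V → f i = f j → i = j := by
    intro i j hi hj hij
    have h1 : f i = e ⟨i, hi⟩ := dif_pos hi
    have h2 : f j = e ⟨j, hj⟩ := dif_pos hj
    rw [h1, h2] at hij
    have h3 := e.injective hij
    exact congrArg Subtype.val h3
  let c : ℕ × ℕ → ZMod q := fun p => (f p.1).2 + (f p.2).2 - (f p.1).1 * (f p.2).1
  let E : Finset (ℕ × ℕ) := (V ×ˢ V).filter (fun p => p.1 < p.2 ∧ H p.1 p.2)
  have hsum : E.card = ∑ β : ZMod q, (E.filter (fun p => c p = β)).card :=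
    Finset.card_eq_sum_card_fiberwise (fun p _ => Finset.mem_coe.2 (Finset.mem_univ (c p)))
  obtain ⟨β, hβ⟩ : ∃ β : ZMod q, E.card ≤ q * (E.filter (fun p => c p = β)).card := by
    by_contra hcon
    push Not at hcon
    have h1 : ∑ β : ZMod q, q * (E.filter (fun p => c p = β)).card < ∑ _β : ZMod q, E.card :=
      Finset.sum_lt_sum_of_nonempty ⟨0, Finset.mem_univ _⟩ (fun β _ => hcon β)
    rw [← Finset.mul_sum, ← hsum, Finset.sum_const, Finset.card_univ, ZMod.card, smul_eq_mul] at h1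
    exact lt_irrefl _ h1
  obtain ⟨G, hG⟩ : ∃ G : ℕ → ℕ → Prop, ∀ i j,
      G i j ↔ (H i j ∧ i ∈ V ∧ j ∈ V ∧ i ≠ j ∧ c (i, j) = β) := ⟨_, fun _ _ => Iff.rfl⟩
  have key : ∀ i j k l, i ∈ V → k ∈ V → i ≠ k → c (i, j) = β → c (j, k) = β → c (k, l) = β →
      c (l, i) = β → (f j).1 = (f l).1 := by
    intro i j k l hi hk hik h1 h2 h3 h4
    have e1 : (f i).2 + (f j).2 - (f i).1 * (f j).1 = β := h1
    have e2 : (f j).2 + (f k).2 - (f j).1 * (f k).1 = β := h2
    have e3 : (f k).2 + (f l).2 - (f k).1 * (f l).1 = β := h3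
    have e4 : (f l).2 + (f i).2 - (f l).1 * (f i).1 = β := h4
    have e5 : ((f i).1 - (f k).1) * ((f j).1 - (f l).1) = 0 := by
      linear_combination e4 - e1 + e2 - e3
    rcases mul_eq_zero.1 e5 with h | h
    · exfalso
      apply hik
      apply hf i k hi hk
      have h5 : (f i).1 = (f k).1 := sub_eq_zero.1 h
      refine Prod.ext h5 ?_
      linear_combination e1 - e2 + (f j).1 * h5
    · exact sub_eq_zero.1 h
  refine ⟨G, ?_, ?_, ?_, ?_⟩
  · intro i j hij
    obtain ⟨h1, h2, h3, h4, h5⟩ := (hG i j).1 hij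
    refine (hG j i).2 ⟨hs i j h1, h3, h2, h4.symm, ?_⟩
    have e1 : (f i).2 + (f j).2 - (f i).1 * (f j).1 = β := h5
    show (f j).2 + (f i).2 - (f j).1 * (f i).1 = β
    linear_combination e1
  · intro i j hij
    obtain ⟨h1, h2, h3, h4, h5⟩ := (hG i j).1 hij
    exact ⟨h1, h2, h3, h4⟩
  · intro i j k l hik hjl g1 g2 g3 g4
    obtain ⟨_, hi, hj, _, h1⟩ := (hG i j).1 g1
    obtain ⟨_, _, hk, _, h2⟩ := (hG j k).1 g2
    obtain ⟨_, _, hl, _, h3⟩ := (hG k l).1 g3
    obtain ⟨_, _, _, _, h4⟩ := (hG l i).1 g4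
    have a1 : (f j).1 = (f l).1 := key i j k l hi hk hik h1 h2 h3 h4
    apply hjl
    apply hf j l hj hl
    refine Prod.ext a1 ?_
    have e1 : (f i).2 + (f j).2 - (f i).1 * (f j).1 = β := h1
    have e4 : (f l).2 + (f i).2 - (f l).1 * (f i).1 = β := h4
    linear_combination e1 - e4 + (f i).1 * a1
  · refine hβ.trans (Nat.mul_le_mul_left q (Finset.card_le_card ?_))
    intro p hp
    rw [Finset.mem_filter] at hp ⊢
    obtain ⟨hp1, hp2⟩ := hp
    rw [Finset.mem_filter] at hp1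
    obtain ⟨hpV, hlt, hH⟩ := hp1
    rw [Finset.mem_product] at hpV
    exact ⟨Finset.mem_product.2 hpV, hlt, (hG p.1 p.2).2 ⟨hH, hpV.1, hpV.2, hlt.ne, hp2⟩⟩

end Pool.Agent.W_764f34_h80
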