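import Pool.Agent.W_764f34_h80.Basic
import Pool.Agent.W_pnt_h80.PNT

set_option autoImplicit false

/-! Consequences of the prime number theorem near `√n`. -/

namespace Pool.Agent.W_764f34_h80

open N884ee30a Filter Topology

theorem PiFacts_floor_sqrt (n : ℕ) : ⌊Real.sqrt (n : ℝ)⌋₊ = Nat.sqrt n :=
  Real.nat_floor_real_sqrt_eq_nat_sqrt

theorem PiFacts_upper {A B x z L M δ K η : ℝ} (hA : 0 ≤ A) (hB : 0 ≤ B) (hx : 0 ≤ x) (hxK : x ≤ K)
    (hL : 0 < L) (hδ0 : 0 ≤ δ) (hδ : δ ≤ 1 / 2) (hη : 12 * K * δ ≤ η)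
    (h1 : A * M ≤ (1 + δ) * (x * z)) (h2 : (1 - δ) * z ≤ B * L) (h3 : (1 - δ) * L ≤ M) :
    A - x * B ≤ η * B := by
  have h4 : A * ((1 - δ) * L) ≤ (1 + δ) * (x * z) := (mul_le_mul_of_nonneg_left h3 hA).trans h1
  have h5 : (1 + δ) * x * ((1 - δ) * z) ≤ (1 + δ) * x * (B * L) :=
    mul_le_mul_of_nonneg_left h2 (by positivity)
  have h6 : A * (1 - δ) ^ 2 * L ≤ (1 + δ) * x * B * L := by
    have h7 : A * ((1 - δ) * L) * (1 - δ) ≤ (1 + δ) * (x * z) * (1 - δ) :=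
      mul_le_mul_of_nonneg_right h4 (by linarith)
    nlinarith
  have h8 : A * (1 - δ) ^ 2 ≤ (1 + δ) * x * B := le_of_mul_le_mul_right h6 hL
  rcases le_or_gt A (x * B) with h9 | h9
  · have hη0 : 0 ≤ η := by
      have : 0 ≤ K := hx.trans hxK
      exact le_trans (by positivity) hη
    have : 0 ≤ η * B := mul_nonneg hη0 hB
    linarith
  · have h10 : (1 - δ) ^ 2 * (A - x * B) ≤ 3 * δ * (x * B) := by
      have h11 : 0 ≤ δ ^ 2 * (x * B) := by positivity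
      nlinarith
    have h12 : (1 : ℝ) / 4 ≤ (1 - δ) ^ 2 := by nlinarith
    have h13 : 1 / 4 * (A - x * B) ≤ (1 - δ) ^ 2 * (A - x * B) :=
      mul_le_mul_of_nonneg_right h12 (by linarith)
    have h14 : δ * (x * B) ≤ δ * (K * B) :=
      mul_le_mul_of_nonneg_left (mul_le_mul_of_nonneg_right hxK hB) hδ0
    have h15 : 12 * K * δ * B ≤ η * B := mul_le_mul_of_nonneg_right hη hB
    nlinarith

theorem PiFacts_lower {A B x z L M δ K η : ℝ} (hA : 0 ≤ A) (hB : 0 ≤ B) (hx : 0 ≤ x) (hxK : x ≤ K)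
    (hL : 0 < L) (hδ0 : 0 ≤ δ) (hδ : δ ≤ 1 / 2) (hη : 12 * K * δ ≤ η)
    (h1 : (1 - δ) * (x * z) ≤ A * M) (h2 : B * L ≤ (1 + δ) * z) (h3 : M ≤ (1 + δ) * L) :
    x * B - A ≤ η * B := by
  have h4 : (1 - δ) * (x * z) ≤ A * ((1 + δ) * L) := h1.trans (mul_le_mul_of_nonneg_left h3 hA)
  have h5 : (1 - δ) * x * (B * L) ≤ (1 - δ) * x * ((1 + δ) * z) :=
    mul_le_mul_of_nonneg_left h2 (mul_nonneg (by linarith) hx)
  have h6 : (1 - δ) * x * B * L ≤ A * (1 + δ) ^ 2 * L := by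
    have h7 : (1 - δ) * (x * z) * (1 + δ) ≤ A * ((1 + δ) * L) * (1 + δ) :=
      mul_le_mul_of_nonneg_right h4 (by linarith)
    nlinarith
  have h8 : (1 - δ) * x * B ≤ A * (1 + δ) ^ 2 := le_of_mul_le_mul_right h6 hL
  have hK : 0 ≤ K := hx.trans hxK
  rcases le_or_gt (x * B) A with h9 | h9
  · have hη0 : 0 ≤ η := le_trans (by positivity) hη
    have : 0 ≤ η * B := mul_nonneg hη0 hB
    linarith
  · have h10 : (1 + δ) ^ 2 * (x * B - A) ≤ 4 * δ * (x * B) := by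
      have h11 : 0 ≤ δ * (x * B) := by positivity
      have h12 : δ ^ 2 * (x * B) ≤ δ * (x * B) := by nlinarith
      nlinarith
    have h12 : (1 : ℝ) ≤ (1 + δ) ^ 2 := by nlinarith
    have h13 : 1 * (x * B - A) ≤ (1 + δ) ^ 2 * (x * B - A) :=
      mul_le_mul_of_nonneg_right h12 (by linarith)
    have h14 : δ * (x * B) ≤ δ * (K * B) :=
      mul_le_mul_of_nonneg_left (mul_le_mul_of_nonneg_right hxK hB) hδ0
    have h15 : 12 * K * δ * B ≤ η * B := mul_le_mul_of_nonneg_right hη hB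
    have h16 : 0 ≤ δ * (K * B) := by positivity
    nlinarith

/-- Uniform form of the prime number theorem near `√n` (from `W_pnt_h80.pi_tendsto`): uniformly in
`x ∈ [1/K, K]`, `π(x √n) = (1 + o(1)) x √n / log(x √n) = (1 + o(1)) x √n / log √n`. -/
theorem pi_uniform (K : ℕ) (hK : 1 ≤ K) {η : ℝ} (hη : 0 < η) : ∀ᶠ n : ℕ in atTop, ∀ x : ℝ,
    1 / (K : ℝ) ≤ x → x ≤ K →
    |(Nat.primeCounting ⌊x * Real.sqrt n⌋₊ : ℝ) - x * Nat.primeCounting (Nat.sqrt n)| ≤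
      η * Nat.primeCounting (Nat.sqrt n) := by
  have hK0 : (0 : ℝ) < K := by exact_mod_cast hK
  have hK1 : (1 : ℝ) ≤ K := by exact_mod_cast hK
  obtain ⟨δ, hδ0, hδ, hη2⟩ : ∃ δ : ℝ, 0 < δ ∧ δ ≤ 1 / 2 ∧ 12 * (K : ℝ) * δ ≤ η := by
    refine ⟨min (1 / 2) (η / (12 * K)), lt_min (by norm_num) (by positivity), min_le_left _ _, ?_⟩
    calc 12 * (K : ℝ) * min (1 / 2) (η / (12 * K)) ≤ 12 * (K : ℝ) * (η / (12 * K)) :=
          mul_le_mul_of_nonneg_left (min_le_right _ _) (by positivity)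
      _ = η := by field_simp
  have hp := W_pnt_h80.pi_tendsto
  rw [Metric.tendsto_atTop] at hp
  obtain ⟨Y, hY⟩ := hp δ hδ0
  have hs : Tendsto (fun n : ℕ => Real.sqrt (n : ℝ)) atTop atTop :=
    Real.tendsto_sqrt_atTop.comp tendsto_natCast_atTop_atTop
  have hl : Tendsto (fun n : ℕ => Real.log (Real.sqrt (n : ℝ))) atTop atTop :=
    Real.tendsto_log_atTop.comp hs
  filter_upwards [hs.eventually_ge_atTop (K * max Y 2), hl.eventually_ge_atTop
    (Real.log K / δ)] with n hn1 hn2 x hx1 hx2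
  set z := Real.sqrt (n : ℝ) with hz
  have hY1 : Y ≤ max Y 2 := le_max_left _ _
  have hY2 : (2 : ℝ) ≤ max Y 2 := le_max_right _ _
  have hz1 : max Y 2 ≤ z := by
    refine le_trans ?_ hn1
    nlinarith
  have hz0 : 0 < z := by linarith
  have hx0 : 0 < x := lt_of_lt_of_le (by positivity) hx1
  have hxz1 : max Y 2 ≤ x * z := by
    have h1 : 1 / (K : ℝ) * (K * max Y 2) ≤ x * z :=
      mul_le_mul hx1 hn1 (by positivity) hx0.le
    have h2 : 1 / (K : ℝ) * (K * max Y 2) = max Y 2 := by field_simp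
    linarith
  have hxz0 : 0 < x * z := mul_pos hx0 hz0
  have hLz : 0 < Real.log z := Real.log_pos (by linarith)
  have g1 := hY (x * z) (hY1.trans hxz1)
  have g2 := hY z (hY1.trans hz1)
  rw [Real.dist_eq, abs_lt] at g1 g2
  have hlogx : |Real.log x| ≤ Real.log K := by
    rw [abs_le]
    constructor
    · have h1 := Real.log_le_log (by positivity) hx1
      rw [one_div, Real.log_inv] at h1
      exact h1
    · exact Real.log_le_log hx0 hx2
  have hlogK : Real.log K ≤ δ * Real.log z := by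
    rw [div_le_iff₀ hδ0] at hn2
    linarith
  have hM : Real.log (x * z) = Real.log x + Real.log z := Real.log_mul hx0.ne' hz0.ne'
  rw [abs_le] at hlogx
  have hfl : ⌊z⌋₊ = Nat.sqrt n := PiFacts_floor_sqrt n
  rw [hfl] at g2
  have e1 : ∀ {a y : ℝ}, 0 < y → a / y - 1 < δ → a ≤ (1 + δ) * y := by
    intro a y hy h
    have h1 : a / y < 1 + δ := by linarith
    rw [div_lt_iff₀ hy] at h1
    exact h1.le
  have e2 : ∀ {a y : ℝ}, 0 < y → -δ < a / y - 1 → (1 - δ) * y ≤ a := by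
    intro a y hy h
    have h1 : 1 - δ < a / y := by linarith
    rw [lt_div_iff₀ hy] at h1
    exact h1.le
  have f1 := e1 hxz0 g1.2
  have f2 := e2 hxz0 g1.1
  have f3 := e1 hz0 g2.2
  have f4 := e2 hz0 g2.1
  have hA0 : (0 : ℝ) ≤ Nat.primeCounting ⌊x * z⌋₊ := Nat.cast_nonneg _
  have hB0 : (0 : ℝ) ≤ Nat.primeCounting (Nat.sqrt n) := Nat.cast_nonneg _
  rw [abs_le]
  constructor
  · have h1 := PiFacts_lower hA0 hB0 hx0.le hx2 hLz hδ0.le hδ hη2 f2 f3 (by rw [hM]; linarith)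
    linarith
  · exact PiFacts_upper hA0 hB0 hx0.le hx2 hLz hδ0.le hδ hη2 f1 f4 (by rw [hM]; linarith)

/-- `π(√n)^(3/2) / scale n → 2 √2`. -/
theorem pi_scale : Tendsto (fun n : ℕ => (Nat.primeCounting (Nat.sqrt n) : ℝ) ^ ((3 : ℝ) / 2) /
    scale n) atTop (𝓝 (2 * Real.sqrt 2)) := by
  have hs : Tendsto (fun n : ℕ => Real.sqrt (n : ℝ)) atTop atTop :=
    Real.tendsto_sqrt_atTop.comp tendsto_natCast_atTop_atTop
  have h1 := W_pnt_h80.pi_tendsto.comp hs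
  have h2 : Tendsto (fun n : ℕ => (2 : ℝ) ^ ((3 : ℝ) / 2) *
      ((Nat.primeCounting ⌊Real.sqrt (n : ℝ)⌋₊ : ℝ) * Real.log (Real.sqrt n) / Real.sqrt n) ^
        ((3 : ℝ) / 2)) atTop (𝓝 ((2 : ℝ) ^ ((3 : ℝ) / 2) * (1 : ℝ) ^ ((3 : ℝ) / 2))) :=
    (h1.rpow_const (Or.inr (by norm_num))).const_mul _
  have h3 : (2 : ℝ) ^ ((3 : ℝ) / 2) * (1 : ℝ) ^ ((3 : ℝ) / 2) = 2 * Real.sqrt 2 := by
    rw [Real.one_rpow, mul_one, Real.sqrt_eq_rpow]
    have h4 : (3 : ℝ) / 2 = 1 + 1 / 2 := by norm_num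
    rw [h4, Real.rpow_add (by norm_num), Real.rpow_one]
  rw [h3] at h2
  refine h2.congr' ?_
  filter_upwards [eventually_ge_atTop 2] with n hn
  have hn2 : (2 : ℝ) ≤ n := by exact_mod_cast hn
  have hn0 : (0 : ℝ) < n := by linarith
  have hl : 0 < Real.log n := Real.log_pos (by linarith)
  rw [PiFacts_floor_sqrt, Real.log_sqrt hn0.le]
  set P : ℝ := (Nat.primeCounting (Nat.sqrt n) : ℝ) with hP
  have hP0 : 0 ≤ P := Nat.cast_nonneg _
  have hsq : 0 < Real.sqrt (n : ℝ) := Real.sqrt_pos.2 hn0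
  have e1 : P * (Real.log n / 2) / Real.sqrt n = P * (Real.log n * (2 * Real.sqrt n)⁻¹) := by
    field_simp
  rw [e1, Real.mul_rpow hP0 (by positivity), Real.mul_rpow hl.le (by positivity),
    Real.inv_rpow (by positivity), Real.mul_rpow (by norm_num) hsq.le]
  have e2 : Real.sqrt (n : ℝ) ^ ((3 : ℝ) / 2) = (n : ℝ) ^ ((3 : ℝ) / 4) := by
    rw [Real.sqrt_eq_rpow, ← Real.rpow_mul hn0.le]
    norm_num
  have e3 : Real.log (n : ℝ) ^ (-(3 : ℝ) / 2) = (Real.log (n : ℝ) ^ ((3 : ℝ) / 2))⁻¹ := by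
    rw [neg_div, Real.rpow_neg hl.le]
  rw [e2, scale, e3]
  have p1 : (0 : ℝ) < 2 ^ ((3 : ℝ) / 2) := by positivity
  have p2 : (0 : ℝ) < (n : ℝ) ^ ((3 : ℝ) / 4) := by positivity
  have p3 : (0 : ℝ) < Real.log (n : ℝ) ^ ((3 : ℝ) / 2) := by positivity
  field_simp

end Pool.Agent.W_764f34_h80
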