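import Pool.Agent.W_764f34_h80.UpDefs

set_option autoImplicit false

/-! Kovari-Sos-Turan inside one type. -/

namespace Pool.Agent.W_764f34_h80

/-- Each ordered pair `i ≠ i'` of vertices of `T` has at most one common neighbour `j` with
`m i j = m i' j` (`cycle` with `i j i' j'`). -/
theorem type_kst {K N : ℕ} {m : ℕ → ℕ → ℕ} (h : IsLab K N m) (T : Finset ℕ) :
    ∑ j ∈ Finset.range (K * N + 1), ∑ a ∈ Finset.Icc 1 K, (dg m T j a) ^ 2 ≤
      T.card ^ 2 + ∑ j ∈ Finset.range (K * N + 1), ∑ a ∈ Finset.Icc 1 K, dg m T j a := by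
  classical
  have h1 : ∀ j a, (dg m T j a) ^ 2 ≤ dg m T j a +
      ∑ p ∈ T.offDiag, (if m p.1 j = a ∧ m p.2 j = a then 1 else 0) := by
    intro j a
    have h2 : (dg m T j a) ^ 2 = dg m T j a + ((T.filter (fun i => m i j = a)).offDiag).card := by
      unfold dg
      rw [Finset.offDiag_card]
      have h3 := Nat.le_mul_self (T.filter (fun i => m i j = a)).card
      rw [pow_two]
      omega
    rw [h2, ← Finset.card_filter]
    refine Nat.add_le_add_left (Finset.card_le_card fun p hp => ?_) _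
    rw [Finset.mem_offDiag] at hp
    rw [Finset.mem_filter, Finset.mem_offDiag]
    exact ⟨⟨(Finset.mem_filter.1 hp.1).1, (Finset.mem_filter.1 hp.2.1).1, hp.2.2⟩,
      (Finset.mem_filter.1 hp.1).2, (Finset.mem_filter.1 hp.2.1).2⟩
  have h4 : ∀ p ∈ T.offDiag, (∑ j ∈ Finset.range (K * N + 1), ∑ a ∈ Finset.Icc 1 K,
      (if m p.1 j = a ∧ m p.2 j = a then 1 else 0)) ≤ 1 := by
    intro p hp
    rw [Finset.mem_offDiag] at hp
    rw [← Finset.sum_product' (Finset.range (K * N + 1)) (Finset.Icc 1 K)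
      (fun j a => if m p.1 j = a ∧ m p.2 j = a then 1 else 0), ← Finset.card_filter,
      Finset.card_le_one]
    rintro ⟨j, a⟩ hx ⟨j', b⟩ hy
    simp only [Finset.mem_filter, Finset.mem_product, Finset.mem_Icc] at hx hy
    obtain ⟨⟨-, ha1, -⟩, hx1, hx2⟩ := hx
    obtain ⟨⟨-, hb1, -⟩, hy1, hy2⟩ := hy
    have hjj : j = j' := by
      by_contra hne
      have e1 : m j p.2 = a := by rw [h.symm, hx2]
      have e2 : m j' p.1 = b := by rw [h.symm, hy1]
      refine h.cycle p.1 j p.2 j' hp.2.2 hne (by omega) (by omega) (by omega) (by omega) ?_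
      rw [hx1, hy2, e1, e2]
    subst hjj
    rw [Prod.mk.injEq]
    exact ⟨rfl, hx1.symm.trans hy1⟩
  calc ∑ j ∈ Finset.range (K * N + 1), ∑ a ∈ Finset.Icc 1 K, (dg m T j a) ^ 2
      ≤ ∑ j ∈ Finset.range (K * N + 1), ∑ a ∈ Finset.Icc 1 K, (dg m T j a +
      ∑ p ∈ T.offDiag, (if m p.1 j = a ∧ m p.2 j = a then 1 else 0)) :=
        Finset.sum_le_sum fun j _ => Finset.sum_le_sum fun a _ => h1 j a
    _ = (∑ p ∈ T.offDiag, ∑ j ∈ Finset.range (K * N + 1), ∑ a ∈ Finset.Icc 1 K,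
          (if m p.1 j = a ∧ m p.2 j = a then 1 else 0)) +
        ∑ j ∈ Finset.range (K * N + 1), ∑ a ∈ Finset.Icc 1 K, dg m T j a := by
      simp only [Finset.sum_add_distrib]
      rw [add_comm]
      congr 1
      exact (Finset.sum_congr rfl fun j _ => Finset.sum_comm).trans Finset.sum_comm
    _ ≤ T.card ^ 2 + ∑ j ∈ Finset.range (K * N + 1), ∑ a ∈ Finset.Icc 1 K, dg m T j a := by
      refine Nat.add_le_add_right ?_ _
      refine (Finset.sum_le_sum h4).trans ?_
      rw [Finset.sum_const, smul_eq_mul, mul_one, Finset.offDiag_card, pow_two]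
      exact Nat.sub_le _ _

/-- A priori bound: with `P = (K N + 1) K` pairs `(j, a)`, Cauchy-Schwarz and `type_kst` give
`S^2 ≤ P (|T|^2 + S)`, so `S ≤ P + √P |T|`. -/
theorem type_apriori {K N : ℕ} {m : ℕ → ℕ → ℕ} (h : IsLab K N m) (T : Finset ℕ) :
    ((∑ j ∈ Finset.range (K * N + 1), ∑ a ∈ Finset.Icc 1 K, dg m T j a : ℕ) : ℝ) ≤
      ((K * N + 1) * K : ℝ) + Real.sqrt ((K * N + 1) * K) * T.card := by
  classical
  set S : ℕ := ∑ j ∈ Finset.range (K * N + 1), ∑ a ∈ Finset.Icc 1 K, dg m T j a with hS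
  have h1 := type_kst h T
  rw [← hS] at h1
  have h2 : S ^ 2 ≤ ((K * N + 1) * K) *
      ∑ j ∈ Finset.range (K * N + 1), ∑ a ∈ Finset.Icc 1 K, (dg m T j a) ^ 2 := by
    have h3 := sq_sum_le_card_mul_sum_sq (s := Finset.range (K * N + 1) ×ˢ Finset.Icc 1 K)
      (f := fun x : ℕ × ℕ => dg m T x.1 x.2)
    rw [Finset.card_product, Finset.card_range, Nat.card_Icc, Nat.add_sub_cancel,
      Finset.sum_product, Finset.sum_product] at h3
    exact h3
  have h5 : S ^ 2 ≤ ((K * N + 1) * K) * (T.card ^ 2 + S) := h2.trans (Nat.mul_le_mul_left _ h1)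
  have h6 : (S : ℝ) ^ 2 ≤ ((K * N + 1) * K : ℝ) * ((T.card : ℝ) ^ 2 + S) := by exact_mod_cast h5
  have hP : (0 : ℝ) ≤ (K * N + 1) * K := by positivity
  set P : ℝ := (K * N + 1) * K with hPdef
  by_contra hcon
  push Not at hcon
  have h7 : 0 ≤ Real.sqrt P * T.card := by positivity
  have h8 : Real.sqrt P * T.card < S - P := by linarith
  have h9 : Real.sqrt P * T.card < S := by linarith
  have h10 : (Real.sqrt P * T.card) * (Real.sqrt P * T.card) < S * (S - P) :=
    mul_lt_mul'' h9 h8 h7 h7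
  have h11 : (Real.sqrt P * T.card) * (Real.sqrt P * T.card) = P * (T.card : ℝ) ^ 2 := by
    have := Real.mul_self_sqrt hP
    calc (Real.sqrt P * T.card) * (Real.sqrt P * T.card)
        = (Real.sqrt P * Real.sqrt P) * (T.card : ℝ) ^ 2 := by ring
      _ = _ := by rw [this]
  rw [h11] at h10
  nlinarith

end Pool.Agent.W_764f34_h80
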