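import Pool.Agent.W_764f34_h80.UpA

set_option autoImplicit false

/-! Splitting the edges into types and weighting. -/

namespace Pool.Agent.W_764f34_h80

open Filter Topology

theorem UpB_ty_eq {ρ : ℝ} (hρ : 1 < ρ) (N k : ℕ) :
    ty ρ N k = Finset.Ico ⌈(N : ℝ) / ρ ^ (k + 1)⌉₊ ⌈(N : ℝ) / ρ ^ k⌉₊ := by
  have h0 : 0 < ρ := by linarith
  ext i
  unfold ty
  rw [Finset.mem_filter, Finset.mem_range, Finset.mem_Ico, Nat.ceil_le, Nat.lt_ceil,
    div_le_iff₀ (by positivity), lt_div_iff₀ (by positivity)]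
  constructor
  · rintro ⟨-, h1, h2⟩
    exact ⟨h1, h2⟩
  · rintro ⟨h1, h2⟩
    refine ⟨?_, h1, h2⟩
    have h3 : (1 : ℝ) ≤ ρ ^ k := one_le_pow₀ hρ.le
    have h4 : (i : ℝ) ≤ i * ρ ^ k := le_mul_of_one_le_right (Nat.cast_nonneg i) h3
    exact_mod_cast h4.trans_lt h2

theorem UpB_ty_card {ρ : ℝ} (hρ : 1 < ρ) (N k : ℕ) :
    ((ty ρ N k).card : ℝ) ≤ (ρ - 1) / ρ ^ (k + 1) * N + 1 ∧
      (ρ - 1) / ρ ^ (k + 1) * N - 1 ≤ (ty ρ N k).card := by
  have h0 : 0 < ρ := by linarith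
  have hab : (N : ℝ) / ρ ^ (k + 1) ≤ (N : ℝ) / ρ ^ k := by
    apply div_le_div_of_nonneg_left (Nat.cast_nonneg N) (by positivity)
    exact pow_le_pow_right₀ hρ.le (Nat.le_succ k)
  have hd : (ρ - 1) / ρ ^ (k + 1) * N = (N : ℝ) / ρ ^ k - (N : ℝ) / ρ ^ (k + 1) := by
    rw [pow_succ]
    field_simp
  have hc : ((ty ρ N k).card : ℝ) =
      (⌈(N : ℝ) / ρ ^ k⌉₊ : ℝ) - (⌈(N : ℝ) / ρ ^ (k + 1)⌉₊ : ℝ) := by
    rw [UpB_ty_eq hρ, Nat.card_Ico, Nat.cast_sub (Nat.ceil_le_ceil hab)]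
  have h1 := Nat.le_ceil ((N : ℝ) / ρ ^ k)
  have h2 := Nat.le_ceil ((N : ℝ) / ρ ^ (k + 1))
  have h3 := Nat.ceil_lt_add_one (show 0 ≤ (N : ℝ) / ρ ^ k by positivity)
  have h4 := Nat.ceil_lt_add_one (show 0 ≤ (N : ℝ) / ρ ^ (k + 1) by positivity)
  rw [hc, hd]
  constructor <;> linarith

/-- Size of a type, above and below, for large `N`. -/
theorem ty_card (ρ : ℝ) (hρ : 1 < ρ) (R : ℕ) {ε : ℝ} (hε : 0 < ε) : ∀ᶠ N : ℕ in atTop,
    ∀ k < R, ((ty ρ N k).card : ℝ) ≤ (1 + ε) * ((ρ - 1) / ρ ^ (k + 1)) * N ∧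
      (1 - ε) * ((ρ - 1) / ρ ^ (k + 1)) * N ≤ (ty ρ N k).card := by
  have h0 : 0 < ρ := by linarith
  have h1 : 0 < ε * ((ρ - 1) / ρ ^ R) := by
    have : 0 < ρ - 1 := by linarith
    positivity
  have h2 : Tendsto (fun N : ℕ => ε * ((ρ - 1) / ρ ^ R) * (N : ℝ)) atTop atTop :=
    (tendsto_natCast_atTop_atTop (R := ℝ)).const_mul_atTop h1
  filter_upwards [h2.eventually_ge_atTop 1] with N hN k hk
  have h3 : ε * ((ρ - 1) / ρ ^ R) * N ≤ ε * ((ρ - 1) / ρ ^ (k + 1)) * N := by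
    have h4 : ρ ^ (k + 1) ≤ ρ ^ R := pow_le_pow_right₀ hρ.le hk
    have h5 : 0 ≤ ρ - 1 := by linarith
    gcongr
  obtain ⟨h6, h7⟩ := UpB_ty_card hρ N k
  constructor
  · calc _ ≤ _ := h6
      _ ≤ (ρ - 1) / ρ ^ (k + 1) * N + ε * ((ρ - 1) / ρ ^ (k + 1)) * N := by linarith
      _ = _ := by ring
  · calc (1 - ε) * ((ρ - 1) / ρ ^ (k + 1)) * N =
        (ρ - 1) / ρ ^ (k + 1) * N - ε * ((ρ - 1) / ρ ^ (k + 1)) * N := by ring
      _ ≤ (ρ - 1) / ρ ^ (k + 1) * N - 1 := by linarith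
      _ ≤ _ := h7

/-- The number of neighbours in `T` of `j`. -/
theorem UpB_nbr {K N : ℕ} {m : ℕ → ℕ → ℕ} (h : IsLab K N m) (T : Finset ℕ) (j : ℕ) :
    (T.filter (fun i => m i j ≠ 0)).card = ∑ a ∈ Finset.Icc 1 K, dg m T j a := by
  rw [Finset.card_eq_sum_card_fiberwise (f := fun i => m i j) (t := Finset.Icc 1 K)]
  · refine Finset.sum_congr rfl fun a ha => ?_
    unfold dg
    rw [Finset.filter_filter]
    congr 1
    refine Finset.filter_congr fun i _ => ?_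
    have := (Finset.mem_Icc.1 ha).1
    constructor
    · exact fun h => h.2
    · intro h
      exact ⟨by omega, h⟩
  · intro i hi
    have h1 := (Finset.mem_filter.1 hi).2
    exact Finset.mem_Icc.2 ⟨Nat.one_le_iff_ne_zero.2 h1, h.label i j⟩

/-- The number of pairs joined by an edge. -/
theorem UpB_pairs {K N : ℕ} {m : ℕ → ℕ → ℕ} (h : IsLab K N m) (T U : Finset ℕ) :
    ((T ×ˢ U).filter (fun p => m p.1 p.2 ≠ 0)).card =
      ∑ j ∈ U, ∑ a ∈ Finset.Icc 1 K, dg m T j a := by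
  rw [Finset.card_filter, Finset.sum_product_right]
  refine Finset.sum_congr rfl fun j _ => ?_
  rw [← UpB_nbr h T j, Finset.card_filter]

theorem UpB_symm {K N : ℕ} {m : ℕ → ℕ → ℕ} (h : IsLab K N m) (T U : Finset ℕ) :
    ∑ j ∈ U, ∑ a ∈ Finset.Icc 1 K, dg m T j a = ∑ j ∈ T, ∑ a ∈ Finset.Icc 1 K, dg m U j a := by
  rw [← UpB_pairs h T U, ← UpB_pairs h U T]
  refine Finset.card_bij' (fun p _ => p.swap) (fun p _ => p.swap) ?_ ?_ ?_ ?_
  · rintro ⟨i, j⟩ hp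
    rw [Finset.mem_filter, Finset.mem_product] at hp ⊢
    refine ⟨⟨hp.1.2, hp.1.1⟩, ?_⟩
    show m j i ≠ 0
    rw [h.symm]
    exact hp.2
  · rintro ⟨i, j⟩ hp
    rw [Finset.mem_filter, Finset.mem_product] at hp ⊢
    refine ⟨⟨hp.1.2, hp.1.1⟩, ?_⟩
    show m j i ≠ 0
    rw [h.symm]
    exact hp.2
  · intro p _
    rfl
  · intro p _
    rfl

/-- every admissible number below `N` has a type -/
theorem UpB_exists_ty {K N R : ℕ} {ρ : ℝ} (hρ : 1 < ρ) (hR : (K : ℝ) ≤ ρ ^ R) {i : ℕ}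
    (hi : i < N) (hK : N ≤ K * i) : ∃ k < R, i ∈ ty ρ N k := by
  classical
  have h0 : 0 < ρ := by linarith
  have hex : ∃ k, (N : ℝ) ≤ i * ρ ^ k := by
    refine ⟨R, ?_⟩
    have h1 : (N : ℝ) ≤ K * i := by exact_mod_cast hK
    calc (N : ℝ) ≤ K * i := h1
      _ ≤ ρ ^ R * i := by gcongr
      _ = _ := mul_comm _ _
  have hR' : Nat.find hex ≤ R := by
    apply Nat.find_min'
    have h1 : (N : ℝ) ≤ K * i := by exact_mod_cast hK
    calc (N : ℝ) ≤ K * i := h1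
      _ ≤ ρ ^ R * i := by gcongr
      _ = _ := mul_comm _ _
  have hpos : Nat.find hex ≠ 0 := by
    intro h
    have h1 := Nat.find_spec hex
    rw [h, pow_zero, mul_one] at h1
    have h2 : N ≤ i := by exact_mod_cast h1
    omega
  obtain ⟨k, hk⟩ := Nat.exists_eq_succ_of_ne_zero hpos
  refine ⟨k, by omega, ?_⟩
  unfold ty
  rw [Finset.mem_filter, Finset.mem_range]
  refine ⟨hi, ?_, ?_⟩
  · have h1 := Nat.find_spec hex
    rw [hk] at h1
    exact h1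
  · by_contra h1
    push Not at h1
    have h2 := Nat.find_min' hex h1
    omega

theorem UpB_harm {N M : ℕ} (hN : 1 ≤ N) (hM : N ≤ M) :
    ∑ j ∈ Finset.Ioc N M, (1 : ℝ) / j ≤ Real.log (M / N) := by
  induction M, hM using Nat.le_induction with
  | base =>
    rw [Finset.Ioc_self, Finset.sum_empty, div_self (by positivity), Real.log_one]
  | succ M hM ih =>
    have hM0 : (0 : ℝ) < M := by
      have : 0 < M := by omega
      exact_mod_cast this
    have hN0 : (0 : ℝ) < N := by exact_mod_cast hN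
    rw [← Finset.insert_Ioc_right_eq_Ioc_add_one (by omega), Finset.sum_insert (by simp)]
    have h1 : Real.log ((M + 1 : ℕ) / N) = Real.log ((M + 1) / M) + Real.log (M / N) := by
      rw [← Real.log_mul (by positivity) (by positivity)]
      congr 1
      push_cast
      field_simp
    have h2 : (1 : ℝ) / ((M + 1 : ℕ) : ℝ) ≤ Real.log ((M + 1) / M) := by
      have h3 := Real.one_sub_inv_le_log_of_pos (show (0 : ℝ) < (M + 1) / M by positivity)
      have h4 : 1 - ((M + 1 : ℝ) / M)⁻¹ = 1 / ((M + 1 : ℕ) : ℝ) := by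
        push_cast
        field_simp
        ring
      rw [← h4]
      exact h3
    rw [h1]
    exact add_le_add h2 ih

theorem UpB_card_le {S : Finset ℕ} {x : ℝ} (hx : 0 ≤ x) (h : ∀ u ∈ S, 1 ≤ u ∧ (u : ℝ) ≤ x) :
    (S.card : ℝ) ≤ x := by
  have h1 : S ⊆ Finset.Icc 1 ⌊x⌋₊ := by
    intro u hu
    rw [Finset.mem_Icc]
    exact ⟨(h u hu).1, Nat.le_floor (h u hu).2⟩
  have h2 := Finset.card_le_card h1
  rw [Nat.card_Icc, Nat.add_sub_cancel] at h2
  exact (by exact_mod_cast h2 : (S.card : ℝ) ≤ (⌊x⌋₊ : ℝ)).trans (Nat.floor_le hx)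

/-- a label which occurs is not too large -/
theorem UpB_label {K N k : ℕ} {m : ℕ → ℕ → ℕ} (h : IsLab K N m) {ρ : ℝ} (hρ : 1 < ρ) (hN : 1 ≤ N)
    {j a : ℕ} (hd : dg m (ty ρ N k) j a ≠ 0) : (a : ℝ) * j ≤ N * ρ ^ (k + 1) := by
  have h0 : 0 < ρ := by linarith
  have hN0 : (0 : ℝ) < N := by exact_mod_cast hN
  unfold dg at hd
  obtain ⟨i, hi⟩ := Finset.card_ne_zero.1 hd
  obtain ⟨hi1, rfl⟩ := Finset.mem_filter.1 hi
  have hi2 := (Finset.mem_filter.1 hi1).2.1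
  have h1 : ((m i j : ℕ) : ℝ) * (i * j) ≤ (N : ℝ) ^ 2 := by exact_mod_cast h.size i j
  have h2 : ((m i j : ℕ) : ℝ) * j * N ≤ N * ρ ^ (k + 1) * N := by
    calc ((m i j : ℕ) : ℝ) * j * N ≤ ((m i j : ℕ) : ℝ) * j * (i * ρ ^ (k + 1)) := by gcongr
      _ = ((m i j : ℕ) : ℝ) * (i * j) * ρ ^ (k + 1) := by ring
      _ ≤ (N : ℝ) ^ 2 * ρ ^ (k + 1) := by gcongr
      _ = _ := by ring
  exact le_of_mul_le_mul_right h2 hN0

/-- AM-GM -/
theorem UpB_amgm {d c A B : ℝ} (hA : 0 ≤ A) (hB : 0 ≤ B)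
    (h : c ^ 2 = 4 * (A * B)) : c * d ≤ A * d ^ 2 + B := by
  have h1 : (c * d) ^ 2 ≤ (A * d ^ 2 + B) ^ 2 := by
    have h2 : (c * d) ^ 2 = 4 * (A * d ^ 2) * B := by
      rw [mul_pow, h]
      ring
    rw [h2]
    nlinarith [sq_nonneg (A * d ^ 2 - B)]
  exact le_of_sq_le_sq h1 (by positivity)

theorem UpB_sum_le {K : ℕ} {m : ℕ → ℕ → ℕ} (T U : Finset ℕ) {c A B X : ℝ}
    (hA : 0 ≤ A) (hB : 0 ≤ B) (h : c ^ 2 = 4 * (A * B)) (x : ℕ → ℝ)
    (hx : ∀ j ∈ U, (((Finset.Icc 1 K).filter (fun a => dg m T j a ≠ 0)).card : ℝ) ≤ x j)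
    (hX : ∑ j ∈ U, x j ≤ X) :
    c * ∑ j ∈ U, ∑ a ∈ Finset.Icc 1 K, (dg m T j a : ℝ) ≤
      A * (∑ j ∈ U, ∑ a ∈ Finset.Icc 1 K, (dg m T j a : ℝ) ^ 2) + B * X := by
  have h1 : ∀ j ∈ U, c * ∑ a ∈ Finset.Icc 1 K, (dg m T j a : ℝ) ≤
      A * (∑ a ∈ Finset.Icc 1 K, (dg m T j a : ℝ) ^ 2) + B * x j := by
    intro j hj
    have h2 : ∀ a ∈ Finset.Icc 1 K, c * (dg m T j a : ℝ) ≤
        A * (dg m T j a : ℝ) ^ 2 + B * (if dg m T j a ≠ 0 then 1 else 0) := by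
      intro a _
      by_cases h3 : dg m T j a = 0
      · rw [h3]
        simp
      · rw [if_pos h3, mul_one]
        exact UpB_amgm hA hB h
    calc c * ∑ a ∈ Finset.Icc 1 K, (dg m T j a : ℝ) =
        ∑ a ∈ Finset.Icc 1 K, c * (dg m T j a : ℝ) := Finset.mul_sum _ _ _
      _ ≤ ∑ a ∈ Finset.Icc 1 K, (A * (dg m T j a : ℝ) ^ 2 +
          B * (if dg m T j a ≠ 0 then 1 else 0)) := Finset.sum_le_sum h2
      _ = A * (∑ a ∈ Finset.Icc 1 K, (dg m T j a : ℝ) ^ 2) +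
          B * (((Finset.Icc 1 K).filter (fun a => dg m T j a ≠ 0)).card : ℝ) := by
          rw [Finset.sum_add_distrib, ← Finset.mul_sum, ← Finset.mul_sum, Finset.card_filter]
          push_cast
          rfl
      _ ≤ _ := by
          gcongr
          exact hx j hj
  calc c * ∑ j ∈ U, ∑ a ∈ Finset.Icc 1 K, (dg m T j a : ℝ) =
      ∑ j ∈ U, c * ∑ a ∈ Finset.Icc 1 K, (dg m T j a : ℝ) := Finset.mul_sum _ _ _
    _ ≤ ∑ j ∈ U, (A * (∑ a ∈ Finset.Icc 1 K, (dg m T j a : ℝ) ^ 2) + B * x j) :=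
        Finset.sum_le_sum h1
    _ = A * (∑ j ∈ U, ∑ a ∈ Finset.Icc 1 K, (dg m T j a : ℝ) ^ 2) + B * ∑ j ∈ U, x j := by
        rw [Finset.sum_add_distrib, ← Finset.mul_sum, ← Finset.mul_sum]
    _ ≤ _ := by gcongr

/-- the large vertices -/
theorem UpB_ge {K N k : ℕ} {m : ℕ → ℕ → ℕ} (h : IsLab K N m) {ρ : ℝ} (hρ : 1 < ρ) (hN : 1 ≤ N)
    {c A B : ℝ} (hA : 0 ≤ A) (hB : 0 ≤ B) (hc : c ^ 2 = 4 * (A * B)) :
    c * ∑ j ∈ (Finset.range (K * N + 1)).filter (fun j => N ≤ j), ∑ a ∈ Finset.Icc 1 K,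
        (dg m (ty ρ N k) j a : ℝ) ≤
      A * (∑ j ∈ (Finset.range (K * N + 1)).filter (fun j => N ≤ j), ∑ a ∈ Finset.Icc 1 K,
        (dg m (ty ρ N k) j a : ℝ) ^ 2) +
      B * (ρ ^ (k + 1) + N * ρ ^ (k + 1) * ((k + 1) * Real.log ρ)) := by
  have h0 : 0 < ρ := by linarith
  have hN0 : (0 : ℝ) < N := by exact_mod_cast hN
  set X : ℝ := N * ρ ^ (k + 1) with hX
  have hX0 : 0 ≤ X := by positivity
  have hNX : (N : ℝ) ≤ X := by
    rw [hX]
    exact le_mul_of_one_le_right hN0.le (one_le_pow₀ hρ.le)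
  have hNM : N ≤ ⌊X⌋₊ := Nat.le_floor hNX
  refine UpB_sum_le _ _ hA hB hc (fun j => if j ≤ ⌊X⌋₊ then X / j else 0) ?_ ?_
  · intro j hj
    have hjN : N ≤ j := (Finset.mem_filter.1 hj).2
    have hj0 : (0 : ℝ) < j := by
      have : 0 < j := by omega
      exact_mod_cast this
    have hlab : ∀ a ∈ (Finset.Icc 1 K).filter (fun a => dg m (ty ρ N k) j a ≠ 0),
        1 ≤ a ∧ (a : ℝ) * j ≤ X := by
      intro a ha
      rw [Finset.mem_filter, Finset.mem_Icc] at ha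
      exact ⟨ha.1.1, UpB_label h hρ hN ha.2⟩
    by_cases hjX : j ≤ ⌊X⌋₊
    · rw [if_pos hjX]
      refine UpB_card_le (by positivity) fun a ha => ?_
      obtain ⟨h1, h2⟩ := hlab a ha
      exact ⟨h1, by rw [le_div_iff₀ hj0]; exact h2⟩
    · rw [if_neg hjX]
      have : (Finset.Icc 1 K).filter (fun a => dg m (ty ρ N k) j a ≠ 0) = ∅ := by
        rw [Finset.eq_empty_iff_forall_notMem]
        intro a ha
        obtain ⟨h1, h2⟩ := hlab a ha
        apply hjX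
        apply Nat.le_floor
        have h3 : (1 : ℝ) ≤ a := by exact_mod_cast h1
        nlinarith
      rw [this]
      simp
  · rw [← Finset.sum_filter]
    have h1 : ((Finset.range (K * N + 1)).filter (fun j => N ≤ j)).filter (fun j => j ≤ ⌊X⌋₊) ⊆
        Finset.Icc N ⌊X⌋₊ := by
      intro j hj
      rw [Finset.mem_filter, Finset.mem_filter] at hj
      exact Finset.mem_Icc.2 ⟨hj.1.2, hj.2⟩
    have h2 : ∑ j ∈ ((Finset.range (K * N + 1)).filter (fun j => N ≤ j)).filter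
        (fun j => j ≤ ⌊X⌋₊), X / (j : ℝ) ≤ ∑ j ∈ Finset.Icc N ⌊X⌋₊, X / (j : ℝ) :=
      Finset.sum_le_sum_of_subset_of_nonneg h1 fun j _ _ => by positivity
    refine h2.trans ?_
    rw [← Finset.Ioc_insert_left hNM, Finset.sum_insert (by simp)]
    have h3 : X / (N : ℝ) = ρ ^ (k + 1) := by
      rw [hX]
      field_simp
    have h4 : ∑ j ∈ Finset.Ioc N ⌊X⌋₊, X / (j : ℝ) = X * ∑ j ∈ Finset.Ioc N ⌊X⌋₊, 1 / (j : ℝ) := by
      rw [Finset.mul_sum]
      exact Finset.sum_congr rfl fun j _ => by ring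
    have h5 := UpB_harm hN hNM
    have h6 : Real.log ((⌊X⌋₊ : ℝ) / N) ≤ (k + 1) * Real.log ρ := by
      have h7 : (0 : ℝ) < ⌊X⌋₊ := by
        have : 0 < ⌊X⌋₊ := by omega
        exact_mod_cast this
      calc Real.log ((⌊X⌋₊ : ℝ) / N) ≤ Real.log (ρ ^ (k + 1)) := by
            apply Real.log_le_log (by positivity)
            rw [div_le_iff₀ hN0]
            calc (⌊X⌋₊ : ℝ) ≤ X := Nat.floor_le hX0
              _ = _ := by rw [hX]; ring
        _ = _ := by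
            rw [Real.log_pow]
            push_cast
            ring
    rw [h3, h4]
    have h8 := mul_le_mul_of_nonneg_left (h5.trans h6) hX0
    linarith

/-- the small vertices -/
theorem UpB_lt {K N k l : ℕ} {m : ℕ → ℕ → ℕ} (h : IsLab K N m) {ρ : ℝ} (hρ : 1 < ρ) (hN : 1 ≤ N)
    {c A B : ℝ} (hA : 0 ≤ A) (hB : 0 ≤ B) (hc : c ^ 2 = 4 * (A * B)) :
    c * ∑ j ∈ ty ρ N l, ∑ a ∈ Finset.Icc 1 K, (dg m (ty ρ N k) j a : ℝ) ≤
      A * (∑ j ∈ ty ρ N l, ∑ a ∈ Finset.Icc 1 K, (dg m (ty ρ N k) j a : ℝ) ^ 2) +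
      B * ((ty ρ N l).card * ρ ^ (k + l + 2)) := by
  have h0 : 0 < ρ := by linarith
  have hN0 : (0 : ℝ) < N := by exact_mod_cast hN
  refine UpB_sum_le _ _ hA hB hc (fun _ => ρ ^ (k + l + 2)) ?_ ?_
  · intro j hj
    refine UpB_card_le (by positivity) fun a ha => ?_
    rw [Finset.mem_filter, Finset.mem_Icc] at ha
    refine ⟨ha.1.1, ?_⟩
    have h1 := UpB_label h hρ hN ha.2
    have h2 := (Finset.mem_filter.1 hj).2.1
    have h3 : (a : ℝ) * N ≤ ρ ^ (k + l + 2) * N := by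
      calc (a : ℝ) * N ≤ a * (j * ρ ^ (l + 1)) := by gcongr
        _ = a * j * ρ ^ (l + 1) := by ring
        _ ≤ N * ρ ^ (k + 1) * ρ ^ (l + 1) := by gcongr
        _ = _ := by ring
    exact le_of_mul_le_mul_right h3 hN0
  · rw [Finset.sum_const, nsmul_eq_mul]

theorem UpB_disj {ρ : ℝ} (hρ : 1 < ρ) {N k l : ℕ} (hkl : k < l) :
    Disjoint (ty ρ N k) (ty ρ N l) := by
  rw [Finset.disjoint_left]
  intro i hi hj
  have h1 := (Finset.mem_filter.1 hi).2.1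
  have h2 := (Finset.mem_filter.1 hj).2.2
  have h3 : (i : ℝ) * ρ ^ (k + 1) ≤ i * ρ ^ l := by
    have : ρ ^ (k + 1) ≤ ρ ^ l := pow_le_pow_right₀ hρ.le hkl
    gcongr
  linarith

/-- the sum over the parts is at most the sum over all vertices -/
theorem UpB_parts {K N R : ℕ} (hK : 1 ≤ K) {ρ : ℝ} (hρ : 1 < ρ) (f : ℕ → ℝ) (hf : ∀ j, 0 ≤ f j) :
    ∑ j ∈ (Finset.range (K * N + 1)).filter (fun j => N ≤ j), f j +
      ∑ l ∈ Finset.range R, ∑ j ∈ ty ρ N l, f j ≤ ∑ j ∈ Finset.range (K * N + 1), f j := by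
  classical
  rw [← Finset.sum_filter_add_sum_filter_not (Finset.range (K * N + 1)) (fun j => N ≤ j) f]
  have h1 : ∑ l ∈ Finset.range R, ∑ j ∈ ty ρ N l, f j =
      ∑ j ∈ (Finset.range R).biUnion (fun l => ty ρ N l), f j := by
    rw [Finset.sum_biUnion]
    intro k _ l _ hkl
    rcases lt_or_gt_of_ne hkl with h | h
    · exact UpB_disj hρ h
    · exact (UpB_disj hρ h).symm
  have h2 : (Finset.range R).biUnion (fun l => ty ρ N l) ⊆
      (Finset.range (K * N + 1)).filter (fun j => ¬ N ≤ j) := by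
    intro j hj
    obtain ⟨l, -, hl⟩ := Finset.mem_biUnion.1 hj
    have h3 := Finset.mem_range.1 (Finset.mem_filter.1 hl).1
    rw [Finset.mem_filter, Finset.mem_range]
    refine ⟨?_, by omega⟩
    have : N ≤ K * N := Nat.le_mul_of_pos_left N hK
    omega
  rw [h1]
  have h3 := Finset.sum_le_sum_of_subset_of_nonneg h2 fun j _ _ => hf j
  linarith

/-- the edges in terms of the types -/
theorem UpB_edges {K N R : ℕ} {m : ℕ → ℕ → ℕ} (h : IsLab K N m) {ρ : ℝ} (hρ : 1 < ρ)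
    (hR : (K : ℝ) ≤ ρ ^ R) (hN : 1 ≤ N) :
    2 * edges K N m ≤ 2 * ∑ k ∈ Finset.range R,
        (∑ j ∈ (Finset.range (K * N + 1)).filter (fun j => N ≤ j), ∑ a ∈ Finset.Icc 1 K,
          dg m (ty ρ N k) j a) +
      ∑ k ∈ Finset.range R, ∑ l ∈ Finset.range R,
        (∑ j ∈ ty ρ N l, ∑ a ∈ Finset.Icc 1 K, dg m (ty ρ N k) j a) := by
  classical
  set P := Finset.range (K * N + 1) with hP
  set F := (P ×ˢ P).filter (fun p : ℕ × ℕ => p.1 < p.2 ∧ m p.1 p.2 ≠ 0) with hF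
  have hFe : edges K N m = F.card := rfl
  have hlt : ∀ p ∈ F, p.1 < N ∧ N ≤ K * p.1 ∧ N ≤ K * p.2 := by
    intro p hp
    obtain ⟨-, h1, h2⟩ := Finset.mem_filter.1 hp
    have h3 := (h.range _ _ h2).1
    have h4 : m p.2 p.1 ≠ 0 := by
      rw [h.symm]
      exact h2
    refine ⟨?_, h3, (h.range _ _ h4).1⟩
    by_contra hge
    push Not at hge
    have h5 := h.size p.1 p.2
    have h6 : 1 * (N * p.2) ≤ m p.1 p.2 * (p.1 * p.2) := by
      apply Nat.mul_le_mul (Nat.one_le_iff_ne_zero.2 h2)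
      exact Nat.mul_le_mul_right _ hge
    have h7 : N * N < N * p.2 := by
      apply Nat.mul_lt_mul_of_pos_left _ (by omega)
      omega
    have h8 : N ^ 2 = N * N := sq N
    omega
  have hsplit : F.card = (F.filter (fun p => N ≤ p.2)).card +
      (F.filter (fun p => ¬ N ≤ p.2)).card :=
    (Finset.card_filter_add_card_filter_not (s := F) (fun p => N ≤ p.2)).symm
  have h1 : (F.filter (fun p => N ≤ p.2)).card ≤ ∑ k ∈ Finset.range R,
        (∑ j ∈ P.filter (fun j => N ≤ j), ∑ a ∈ Finset.Icc 1 K, dg m (ty ρ N k) j a) := by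
    have h2 : F.filter (fun p => N ≤ p.2) ⊆ (Finset.range R).biUnion (fun k =>
        ((ty ρ N k) ×ˢ (P.filter (fun j => N ≤ j))).filter (fun p => m p.1 p.2 ≠ 0)) := by
      intro p hp
      obtain ⟨hp1, hp2⟩ := Finset.mem_filter.1 hp
      obtain ⟨h3, h4, -⟩ := hlt p hp1
      obtain ⟨k, hk, hpk⟩ := UpB_exists_ty hρ hR h3 h4
      obtain ⟨h5, h6, h7⟩ := Finset.mem_filter.1 hp1
      rw [Finset.mem_biUnion]
      refine ⟨k, Finset.mem_range.2 hk, ?_⟩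
      rw [Finset.mem_filter, Finset.mem_product, Finset.mem_filter]
      exact ⟨⟨hpk, (Finset.mem_product.1 h5).2, hp2⟩, h7⟩
    refine (Finset.card_le_card h2).trans (Finset.card_biUnion_le.trans (le_of_eq ?_))
    exact Finset.sum_congr rfl fun k _ => UpB_pairs h _ _
  have h2 : 2 * (F.filter (fun p => ¬ N ≤ p.2)).card ≤ ∑ k ∈ Finset.range R,
      ∑ l ∈ Finset.range R, (∑ j ∈ ty ρ N l, ∑ a ∈ Finset.Icc 1 K, dg m (ty ρ N k) j a) := by
    set F₂ := F.filter (fun p => ¬ N ≤ p.2) with hF₂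
    have h3 : Disjoint F₂ (F₂.image Prod.swap) := by
      rw [Finset.disjoint_left]
      intro p hp hp'
      obtain ⟨q, hq, rfl⟩ := Finset.mem_image.1 hp'
      have h4 := (Finset.mem_filter.1 (Finset.mem_filter.1 hp).1).2.1
      have h5 := (Finset.mem_filter.1 (Finset.mem_filter.1 hq).1).2.1
      exact absurd h4 (by simp only [Prod.fst_swap, Prod.snd_swap]; omega)
    have h4 : (F₂ ∪ F₂.image Prod.swap).card = 2 * F₂.card := by
      rw [Finset.card_union_of_disjoint h3, Finset.card_image_of_injective _ Prod.swap_injective,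
        two_mul]
    have h5 : F₂ ∪ F₂.image Prod.swap ⊆ (Finset.range R ×ˢ Finset.range R).biUnion (fun x =>
        ((ty ρ N x.1) ×ˢ (ty ρ N x.2)).filter (fun p => m p.1 p.2 ≠ 0)) := by
      have h6 : ∀ p ∈ F₂, ∃ k < R, ∃ l < R, p.1 ∈ ty ρ N k ∧ p.2 ∈ ty ρ N l ∧ m p.1 p.2 ≠ 0 := by
        intro p hp
        obtain ⟨hp1, hp2⟩ := Finset.mem_filter.1 hp
        obtain ⟨h3, h4, h5⟩ := hlt p hp1
        obtain ⟨k, hk, hpk⟩ := UpB_exists_ty hρ hR h3 h4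
        obtain ⟨l, hl, hpl⟩ := UpB_exists_ty hρ hR (not_le.1 hp2) h5
        exact ⟨k, hk, l, hl, hpk, hpl, (Finset.mem_filter.1 hp1).2.2⟩
      intro p hp
      rcases Finset.mem_union.1 hp with hp | hp
      · obtain ⟨k, hk, l, hl, h7, h8, h9⟩ := h6 p hp
        rw [Finset.mem_biUnion]
        refine ⟨(k, l), Finset.mem_product.2 ⟨Finset.mem_range.2 hk, Finset.mem_range.2 hl⟩, ?_⟩
        rw [Finset.mem_filter, Finset.mem_product]
        exact ⟨⟨h7, h8⟩, h9⟩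
      · obtain ⟨q, hq, rfl⟩ := Finset.mem_image.1 hp
        obtain ⟨k, hk, l, hl, h7, h8, h9⟩ := h6 q hq
        rw [Finset.mem_biUnion]
        refine ⟨(l, k), Finset.mem_product.2 ⟨Finset.mem_range.2 hl, Finset.mem_range.2 hk⟩, ?_⟩
        rw [Finset.mem_filter, Finset.mem_product]
        refine ⟨⟨h8, h7⟩, ?_⟩
        show m q.2 q.1 ≠ 0
        rw [h.symm]
        exact h9
    rw [← h4]
    refine (Finset.card_le_card h5).trans (Finset.card_biUnion_le.trans (le_of_eq ?_))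
    rw [Finset.sum_product]
    exact Finset.sum_congr rfl fun k _ => Finset.sum_congr rfl fun l _ => UpB_pairs h _ _
  rw [hFe, hsplit]
  omega

/-- The weighted inequality. Here `μ k > 0` for `k < R`, `K ≤ ρ^R`, all types nonempty.
Proof: every edge `ij`, `i < j`, has `i < N`; so `i` lies in exactly one type `T_k`, `k < R`; and `j`
is `≥ N` or in a type `T_l`. So with `E_kl = ∑_{j ∈ T_l} ∑_a dg m T_k j a` (symmetric in `k, l`)
`edges = ∑_k ∑_{j ≥ N} ∑_a dg m T_k j a + (1/2) ∑_{k,l} E_kl`, and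
`(1/2) ∑ E_kl = ∑_{k,l} μ_k / (μ_k + μ_l) E_kl`. Use
`d ≤ μ_k (√N / (2 |T_k|)) d^2 + |T_k| / (2 √N μ_k)` for `j ≥ N` and
`μ_k / (μ_k + μ_l) d ≤ μ_k (√N / (2 |T_k|)) d^2 + μ_k |T_k| / (2 √N (μ_k + μ_l)^2)` for `j ∈ T_l`;
only labels `a ≤ N ρ^(k+1) / j` occur (`a i j ≤ N^2`, `i ≥ ρ^(-k-1) N`), so for `j ∈ T_l` at most
`ρ^(k+l+2)` labels; symmetrise the last sum and use `μ_k + μ_l ≥ 2 √(μ_k μ_l)`. The sums of
`d^2` are bounded by `type_kst`. -/
theorem weighted {K N R : ℕ} {m : ℕ → ℕ → ℕ} (h : IsLab K N m) {ρ : ℝ} (hρ : 1 < ρ)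
    (hR : (K : ℝ) ≤ ρ ^ R) (hN : 1 ≤ N) (μ : ℕ → ℝ) (hμ : ∀ k, 0 < μ k)
    (hT : ∀ k < R, (ty ρ N k).Nonempty) :
    (edges K N m : ℝ) ≤
      ∑ k ∈ Finset.range R, μ k * (Real.sqrt N / (2 * (ty ρ N k).card)) *
        ((ty ρ N k).card ^ 2 +
          ((∑ j ∈ Finset.range (K * N + 1), ∑ a ∈ Finset.Icc 1 K, dg m (ty ρ N k) j a : ℕ) : ℝ)) +
      ∑ k ∈ Finset.range R, (ty ρ N k).card / (2 * Real.sqrt N * μ k) *
        (ρ ^ (k + 1) + N * ρ ^ (k + 1) * ((k + 1) * Real.log ρ)) +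
      ∑ k ∈ Finset.range R, ∑ l ∈ Finset.range R,
        ρ ^ (k + l + 2) * (ty ρ N k).card * (ty ρ N l).card /
          (8 * Real.sqrt N * Real.sqrt (μ k * μ l)) := by
  have h0 : 0 < ρ := by linarith
  have hN0 : (0 : ℝ) < N := by exact_mod_cast hN
  have hs0 : 0 < Real.sqrt N := Real.sqrt_pos.2 hN0
  have hK : 1 ≤ K ∨ K = 0 := by omega
  rcases hK with hK | hK
  swap
  · -- no edges
    have h1 : edges K N m = 0 := by
      unfold edges
      rw [Finset.card_eq_zero, Finset.filter_eq_empty_iff]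
      rintro p - ⟨-, h2⟩
      have h3 := h.label p.1 p.2
      omega
    rw [h1, Nat.cast_zero]
    have hlog : 0 ≤ Real.log ρ := Real.log_nonneg hρ.le
    have e1 : 0 ≤ ∑ k ∈ Finset.range R, μ k * (Real.sqrt N / (2 * (ty ρ N k).card)) *
        ((ty ρ N k).card ^ 2 +
          ((∑ j ∈ Finset.range (K * N + 1), ∑ a ∈ Finset.Icc 1 K, dg m (ty ρ N k) j a : ℕ) :
            ℝ)) := Finset.sum_nonneg fun k _ => by
      have := (hμ k).le
      positivity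
    have e2 : 0 ≤ ∑ k ∈ Finset.range R, (ty ρ N k).card / (2 * Real.sqrt N * μ k) *
        (ρ ^ (k + 1) + N * ρ ^ (k + 1) * ((k + 1) * Real.log ρ)) :=
      Finset.sum_nonneg fun k _ => by
        have := (hμ k).le
        positivity
    have e3 : 0 ≤ ∑ k ∈ Finset.range R, ∑ l ∈ Finset.range R,
        ρ ^ (k + l + 2) * (ty ρ N k).card * (ty ρ N l).card /
          (8 * Real.sqrt N * Real.sqrt (μ k * μ l)) :=
      Finset.sum_nonneg fun k _ => Finset.sum_nonneg fun l _ => by positivity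
    linarith
  obtain ⟨T, hTd⟩ : ∃ T : ℕ → ℝ, ∀ k, T k = ((ty ρ N k).card : ℝ) := ⟨_, fun _ => rfl⟩
  have hT0 : ∀ k ∈ Finset.range R, 0 < T k := by
    intro k hk
    have := (hT k (Finset.mem_range.1 hk)).card_pos
    rw [hTd]
    exact_mod_cast this
  obtain ⟨U, hU⟩ : ∃ U, U = (Finset.range (K * N + 1)).filter (fun j => N ≤ j) := ⟨_, rfl⟩
  obtain ⟨G, hG⟩ : ∃ G : ℕ → ℝ, ∀ k, G k =
    ∑ j ∈ U, ∑ a ∈ Finset.Icc 1 K, (dg m (ty ρ N k) j a : ℝ) := ⟨_, fun _ => rfl⟩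
  obtain ⟨QG, hQG⟩ : ∃ QG : ℕ → ℝ, ∀ k, QG k =
    ∑ j ∈ U, ∑ a ∈ Finset.Icc 1 K, (dg m (ty ρ N k) j a : ℝ) ^ 2 := ⟨_, fun _ => rfl⟩
  obtain ⟨F, hF⟩ : ∃ F : ℕ → ℕ → ℝ, ∀ k l, F k l = ∑ j ∈ ty ρ N l, ∑ a ∈ Finset.Icc 1 K,
    (dg m (ty ρ N k) j a : ℝ) := ⟨_, fun _ _ => rfl⟩
  obtain ⟨QF, hQF⟩ : ∃ QF : ℕ → ℕ → ℝ, ∀ k l, QF k l = ∑ j ∈ ty ρ N l, ∑ a ∈ Finset.Icc 1 K,
    (dg m (ty ρ N k) j a : ℝ) ^ 2 := ⟨_, fun _ _ => rfl⟩
  obtain ⟨S, hS⟩ : ∃ S : ℕ → ℝ, ∀ k, S k =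
    ((∑ j ∈ Finset.range (K * N + 1), ∑ a ∈ Finset.Icc 1 K,
      dg m (ty ρ N k) j a : ℕ) : ℝ) := ⟨_, fun _ => rfl⟩
  obtain ⟨A, hA⟩ : ∃ A : ℕ → ℝ, ∀ k, A k = μ k * (Real.sqrt N / (2 * T k)) :=
    ⟨_, fun _ => rfl⟩
  simp only [← hS, ← hTd, ← hA]
  -- the edges
  have hedge : (edges K N m : ℝ) ≤ ∑ k ∈ Finset.range R, G k +
      1 / 2 * ∑ k ∈ Finset.range R, ∑ l ∈ Finset.range R, F k l := by
    have h1 := UpB_edges (R := R) h hρ hR hN
    rw [← hU] at h1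
    have h2 : (2 : ℝ) * (edges K N m : ℝ) ≤ 2 * ∑ k ∈ Finset.range R, G k +
        ∑ k ∈ Finset.range R, ∑ l ∈ Finset.range R, F k l := by
      simp only [hG, hF]
      exact_mod_cast h1
    linarith
  -- symmetry
  have hFs : ∀ k l, F k l = F l k := by
    intro k l
    have h1 := UpB_symm h (ty ρ N k) (ty ρ N l)
    rw [hF, hF]
    exact_mod_cast h1
  have hswap : ∀ f : ℕ → ℕ → ℝ, ∑ k ∈ Finset.range R, ∑ l ∈ Finset.range R, f k l =
      1 / 2 * ∑ k ∈ Finset.range R, ∑ l ∈ Finset.range R, (f k l + f l k) := by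
    intro f
    have h1 : ∑ k ∈ Finset.range R, ∑ l ∈ Finset.range R, f l k =
        ∑ k ∈ Finset.range R, ∑ l ∈ Finset.range R, f k l := Finset.sum_comm
    have h2 : ∑ k ∈ Finset.range R, ∑ l ∈ Finset.range R, (f k l + f l k) =
        ∑ k ∈ Finset.range R, ∑ l ∈ Finset.range R, f k l +
        ∑ k ∈ Finset.range R, ∑ l ∈ Finset.range R, f l k := by
      simp only [Finset.sum_add_distrib]
    rw [h2, h1]
    ring
  have hhalf : 1 / 2 * ∑ k ∈ Finset.range R, ∑ l ∈ Finset.range R, F k l =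
      ∑ k ∈ Finset.range R, ∑ l ∈ Finset.range R, μ k / (μ k + μ l) * F k l := by
    rw [hswap fun k l => μ k / (μ k + μ l) * F k l]
    congr 1
    refine Finset.sum_congr rfl fun k _ => Finset.sum_congr rfl fun l _ => ?_
    rw [hFs l k]
    have h1 := hμ k
    have h2 := hμ l
    have h3 : μ k + μ l ≠ 0 := by positivity
    have h4 : μ l + μ k ≠ 0 := by positivity
    field_simp
    ring
  -- the two inequalities
  have hG1 : ∀ k ∈ Finset.range R, G k ≤ A k * QG k + T k / (2 * Real.sqrt N * μ k) *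
      (ρ ^ (k + 1) + N * ρ ^ (k + 1) * ((k + 1) * Real.log ρ)) := by
    intro k hk
    have h1 := hμ k
    have h2 := hT0 k hk
    have h3 := UpB_ge (k := k) (c := 1) (A := A k) (B := T k / (2 * Real.sqrt N * μ k)) h hρ hN
      (by rw [hA]; positivity) (by positivity) (by
        rw [hA]
        field_simp
        norm_num)
    rw [one_mul, ← hU, ← hG, ← hQG] at h3
    exact h3
  have hF1 : ∀ k ∈ Finset.range R, ∀ l ∈ Finset.range R, μ k / (μ k + μ l) * F k l ≤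
      A k * QF k l + μ k * T k / (2 * Real.sqrt N * (μ k + μ l) ^ 2) *
        (T l * ρ ^ (k + l + 2)) := by
    intro k hk l _
    have h1 := hμ k
    have h1' := hμ l
    have h2 := hT0 k hk
    have h4 := UpB_lt (k := k) (l := l) (c := μ k / (μ k + μ l)) (A := A k)
      (B := μ k * T k / (2 * Real.sqrt N * (μ k + μ l) ^ 2)) h hρ hN
      (by rw [hA]; positivity) (by positivity) (by
        rw [hA]
        have h3 : μ k + μ l ≠ 0 := by positivity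
        field_simp
        norm_num)
    rw [← hF, ← hQF, ← hTd] at h4
    exact h4
  -- the squares
  have hQ : ∀ k, QG k + ∑ l ∈ Finset.range R, QF k l ≤ T k ^ 2 + S k := by
    intro k
    have h1 := UpB_parts (R := R) hK (N := N) hρ
      (fun j => ∑ a ∈ Finset.Icc 1 K, (dg m (ty ρ N k) j a : ℝ) ^ 2)
      (fun j => Finset.sum_nonneg fun a _ => by positivity)
    have h2 : ∑ j ∈ Finset.range (K * N + 1), ∑ a ∈ Finset.Icc 1 K,
        (dg m (ty ρ N k) j a : ℝ) ^ 2 ≤ T k ^ 2 + S k := by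
      rw [hTd, hS]
      exact_mod_cast type_kst h (ty ρ N k)
    rw [← hU] at h1
    simp only [hQG, hQF]
    exact h1.trans h2
  -- the last sum
  have hlast : ∑ k ∈ Finset.range R, ∑ l ∈ Finset.range R,
      μ k * T k / (2 * Real.sqrt N * (μ k + μ l) ^ 2) * (T l * ρ ^ (k + l + 2)) ≤
      ∑ k ∈ Finset.range R, ∑ l ∈ Finset.range R, ρ ^ (k + l + 2) * T k * T l /
          (8 * Real.sqrt N * Real.sqrt (μ k * μ l)) := by
    rw [hswap, Finset.mul_sum]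
    refine Finset.sum_le_sum fun k hk => ?_
    rw [Finset.mul_sum]
    refine Finset.sum_le_sum fun l hl => ?_
    have h1 := hμ k
    have h1' := hμ l
    have h2 := hT0 k hk
    have h2' := hT0 l hl
    have h3 : 0 < Real.sqrt (μ k * μ l) := Real.sqrt_pos.2 (by positivity)
    have h4 : 2 * Real.sqrt (μ k * μ l) ≤ μ k + μ l := by
      have h5 : Real.sqrt (μ k * μ l) ^ 2 = μ k * μ l := Real.sq_sqrt (by positivity)
      nlinarith [sq_nonneg (μ k - μ l)]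
    have h6 : 1 / 2 * (μ k * T k / (2 * Real.sqrt N * (μ k + μ l) ^ 2) * (T l * ρ ^ (k + l + 2)) +
        μ l * T l / (2 * Real.sqrt N * (μ l + μ k) ^ 2) * (T k * ρ ^ (l + k + 2))) =
        ρ ^ (k + l + 2) * T k * T l / (4 * Real.sqrt N * (μ k + μ l)) := by
      have h7 : μ k + μ l ≠ 0 := by positivity
      rw [add_comm (μ l) (μ k), add_comm l k]
      field_simp
      ring
    rw [h6]
    apply div_le_div_of_nonneg_left (by positivity) (by positivity)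
    have h8 : 8 * Real.sqrt N * Real.sqrt (μ k * μ l) =
        4 * Real.sqrt N * (2 * Real.sqrt (μ k * μ l)) := by ring
    rw [h8]
    gcongr
  have hmid : ∑ k ∈ Finset.range R, G k +
      ∑ k ∈ Finset.range R, ∑ l ∈ Finset.range R, μ k / (μ k + μ l) * F k l ≤
      ∑ k ∈ Finset.range R, A k * (T k ^ 2 + S k) +
      ∑ k ∈ Finset.range R, T k / (2 * Real.sqrt N * μ k) *
        (ρ ^ (k + 1) + N * ρ ^ (k + 1) * ((k + 1) * Real.log ρ)) +
      ∑ k ∈ Finset.range R, ∑ l ∈ Finset.range R,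
        μ k * T k / (2 * Real.sqrt N * (μ k + μ l) ^ 2) * (T l * ρ ^ (k + l + 2)) := by
    rw [← Finset.sum_add_distrib, ← Finset.sum_add_distrib, ← Finset.sum_add_distrib]
    refine Finset.sum_le_sum fun k hk => ?_
    have h1 := hG1 k hk
    have h2 : ∑ l ∈ Finset.range R, μ k / (μ k + μ l) * F k l ≤
        A k * ∑ l ∈ Finset.range R, QF k l + ∑ l ∈ Finset.range R,
          μ k * T k / (2 * Real.sqrt N * (μ k + μ l) ^ 2) * (T l * ρ ^ (k + l + 2)) := by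
      rw [Finset.mul_sum, ← Finset.sum_add_distrib]
      exact Finset.sum_le_sum fun l hl => hF1 k hk l hl
    have h3 : A k * (QG k + ∑ l ∈ Finset.range R, QF k l) ≤ A k * (T k ^ 2 + S k) := by
      have h4 := hT0 k hk
      have h5 := hμ k
      have h6 : 0 ≤ A k := by
        rw [hA]
        positivity
      exact mul_le_mul_of_nonneg_left (hQ k) h6
    have h4 : A k * (QG k + ∑ l ∈ Finset.range R, QF k l) =
        A k * QG k + A k * ∑ l ∈ Finset.range R, QF k l := by ring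
    linarith
  calc (edges K N m : ℝ) ≤ _ := hedge
    _ = ∑ k ∈ Finset.range R, G k +
      ∑ k ∈ Finset.range R, ∑ l ∈ Finset.range R, μ k / (μ k + μ l) * F k l := by rw [hhalf]
    _ ≤ _ := hmid
    _ ≤ _ := by
      have := hlast
      gcongr

end Pool.Agent.W_764f34_h80
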