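import Pool.Agent.W_764f34_h80.Basic

set_option autoImplicit false

/-! Definitions for the explicit upper bound of the labelled problem. -/

namespace Pool.Agent.W_764f34_h80

/-- The number of `i ∈ T` joined to `j` by an edge with label `a`. -/
noncomputable def dg (m : ℕ → ℕ → ℕ) (T : Finset ℕ) (j a : ℕ) : ℕ :=
  (T.filter (fun i => m i j = a)).card

/-- The type `T_k = {i : ρ^(-k-1) N ≤ i < ρ^(-k) N}`. -/
noncomputable def ty (ρ : ℝ) (N k : ℕ) : Finset ℕ :=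
  (Finset.range N).filter (fun i : ℕ => (N : ℝ) ≤ i * ρ ^ (k + 1) ∧ (i : ℝ) * ρ ^ k < N)

/-- The weight `c0 = √(3/2)`. -/
noncomputable def c0 : ℝ := Real.sqrt (3 / 2)

/-- The constant for types of ratio `ρ`; it tends to `√(27/2)` as `ρ → 1`. -/
noncomputable def GG (ρ : ℝ) : ℝ :=
  c0 / 2 * (ρ - 1) / (ρ * (1 - ρ ^ (-(1 : ℝ) / 3))) +
    (ρ - 1) * Real.log ρ / (2 * c0 * (1 - ρ ^ (-(2 : ℝ) / 3)) ^ 2) +
    (ρ - 1) ^ 2 / (8 * c0 * (1 - ρ ^ (-(1 : ℝ) / 3)) ^ 2)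

end Pool.Agent.W_764f34_h80
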